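import Pool.Agent.Run7.h443.CD.AvgC
import Pool.Agent.R465.CV.Exc

/-!
# The number of exceptional forms
-/

set_option autoImplicit false

namespace Pool.Agent.Run7.h443.CD

open Pool.Agent.Y716.Q Pool.Agent.Y716.C Pool.Agent.Y363.C7 Pool.Agent.Y813.C5
open Pool.Agent.R465.CV (ElsW SolW real_normW exists_approxW)

variable {ι : Type*} [Fintype ι]

/-- the exponent of the modulus -/
def EE (m ℓ : ℕ) : ℕ := 2 * (m + m * (2 * ℓ + 1)) + 1

/-- non-degenerate forms with local points have local data -/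
theorem goodC_of {m : ℕ} (hm : 2 ≤ m) {e w ℓ : ℕ} {γ κ H : ℝ} (hH : 0 < H)
    (hreal : ∀ (H : ℝ) (F : MvPolynomial ι ℤ), 0 < H → IsF (e + 2) H F →
      ∀ (r : ι) (ξ : ι → ℝ), ξ r = 1 → (∀ i, |ξ i| ≤ 1) → 0 ≤ MvPolynomial.aeval ξ F →
      ¬ (|MvPolynomial.aeval ξ F| ≤ γ * H ∧
        ∀ i, |MvPolynomial.aeval ξ (MvPolynomial.pderiv i F)| ≤ γ * H) →
      ∃ ξ' : ι → ℝ, (∀ i, |ξ' i| ≤ 1) ∧ (∃ r, |ξ' r| = 1) ∧ κ * H ≤ MvPolynomial.aeval ξ' F)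
    {F : MvPolynomial ι ℤ} (hF : IsF (e + 2) H F)
    (hR : ∃ (r : ι) (ξ : ι → ℝ), ξ r = 1 ∧ (∀ i, |ξ i| ≤ 1) ∧ 0 ≤ MvPolynomial.aeval ξ F ∧
      ¬ (|MvPolynomial.aeval ξ F| ≤ γ * H ∧
        ∀ i, |MvPolynomial.aeval ξ (MvPolynomial.pderiv i F)| ≤ γ * H))
    (hP : ∀ p ∈ primesUpTo w, ∃ (r : ι) (z : ι → ℤ) (y : ℤ), z r = 1 ∧
      (p : ℤ) ^ EE m ℓ ∣ MvPolynomial.eval z F - y ^ m ∧
      ¬ ((p : ℤ) ^ ℓ ∣ MvPolynomial.eval z F ∧
        ∀ i, (p : ℤ) ^ ℓ ∣ MvPolynomial.eval z (MvPolynomial.pderiv i F))) :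
    GoodC e m w (κ / 2) H ((∏ p ∈ primesUpTo w, p) ^ EE m ℓ) F := by
  obtain ⟨S, J, xc, yc, h1, h2⟩ := cdata_of w (EE m ℓ) m F (by
    intro p hp
    obtain ⟨r, z, y, hz, hy, hb⟩ := hP p hp
    exact local_pt hm (mem_primesUpTo.mp hp).2 le_rfl hz hy hb)
  obtain ⟨r, ξ, hr, hξ, hF0, hb⟩ := hR
  obtain ⟨ξ', h3, h4, h5⟩ := hreal H F hH hF r ξ hr hξ hF0 hb
  refine ⟨S, J, xc, yc, ξ', h1, h2, hF, h3, h4, ?_⟩
  have : 2 * (κ / 2) * H = κ * H := by ring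
  rw [this]
  exact h5

omit [Fintype ι] in
theorem isF_neg {d : ℕ} {H : ℝ} {F : MvPolynomial ι ℤ} (h : IsF d H F) : IsF d H (-F) := by
  refine ⟨h.1.neg, fun a => ?_⟩
  rw [MvPolynomial.coeff_neg, Int.cast_neg, abs_neg]
  exact h.2 a

omit [Fintype ι] in
theorem sol_neg {m : ℕ} (hm : Odd m) {F : MvPolynomial ι ℤ} (h : Sol1 m (-F)) : Sol1 m F := by
  obtain ⟨x, y, hx, hy⟩ := h
  refine ⟨x, -y, hx, ?_⟩
  rw [hm.neg_pow, hy, map_neg, neg_neg]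

/-- non-degenerate systems with local points -/
theorem good_cases {m k : ℕ} (hm : 2 ≤ m) {e : Fin 1 → ℕ} (he : ∀ j, e j + 2 = m * k)
    {w ℓ : ℕ} {γ κ H : ℝ} (hH : 0 < H)
    (hreal : ∀ (H : ℝ) (F : MvPolynomial ι ℤ), 0 < H → IsF (e 0 + 2) H F →
      ∀ (r : ι) (ξ : ι → ℝ), ξ r = 1 → (∀ i, |ξ i| ≤ 1) → 0 ≤ MvPolynomial.aeval ξ F →
      ¬ (|MvPolynomial.aeval ξ F| ≤ γ * H ∧
        ∀ i, |MvPolynomial.aeval ξ (MvPolynomial.pderiv i F)| ≤ γ * H) →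
      ∃ ξ' : ι → ℝ, (∀ i, |ξ' i| ≤ 1) ∧ (∃ r, |ξ' r| = 1) ∧ κ * H ≤ MvPolynomial.aeval ξ' F)
    {f : Fin 1 → MvPolynomial ι ℤ} (hf : f ∈ sysZ ι e H) (hels : ElsW m f) (hns : ¬ SolW m f)
    (hbad : ∀ p ∈ primesUpTo w, ¬ BadAtS (p ^ ℓ) f) (hbadR : ¬ BadRS γ H f) :
    (GoodC (e 0) m w (κ / 2) H ((∏ p ∈ primesUpTo w, p) ^ EE m ℓ) (f 0) ∧ ¬ Sol1 m (f 0)) ∨
    (GoodC (e 0) m w (κ / 2) H ((∏ p ∈ primesUpTo w, p) ^ EE m ℓ) (-(f 0)) ∧
      ¬ Sol1 m (-(f 0))) := by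
  have hf0 := mem_sysZ.mp hf 0
  have hFh : (f 0).IsHomogeneous (m * k) := by
    have := hf0.1
    rwa [he 0] at this
  obtain ⟨r, ξ, y, hr, hξ, hy⟩ := real_normW hFh hels.1
  have hnR : ¬ (|MvPolynomial.aeval ξ (f 0)| ≤ γ * H ∧
        ∀ i, |MvPolynomial.aeval ξ (MvPolynomial.pderiv i (f 0))| ≤ γ * H) := by
    rintro ⟨h1, h2⟩
    apply hbadR
    refine ⟨r, ξ, 0, fun _ => 1, hr, hξ, rfl, ?_, ?_, ?_⟩
    · intro j
      rw [abs_one]
    · intro j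
      rw [Subsingleton.elim j 0]
      exact h1
    · intro i
      rw [Fin.sum_univ_one, one_mul]
      exact h2 i
  have hP : ∀ p ∈ primesUpTo w, ∃ (r : ι) (z : ι → ℤ) (y : ℤ), z r = 1 ∧
      (p : ℤ) ^ EE m ℓ ∣ MvPolynomial.eval z (f 0) - y ^ m ∧
      ¬ ((p : ℤ) ^ ℓ ∣ MvPolynomial.eval z (f 0) ∧
        ∀ i, (p : ℤ) ^ ℓ ∣ MvPolynomial.eval z (MvPolynomial.pderiv i (f 0))) := by
    intro p hp
    have : Fact p.Prime := ⟨(mem_primesUpTo.mp hp).2⟩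
    obtain ⟨r, z, y, hz, hy⟩ := exists_approxW (by omega) hFh (hels.2 p) (EE m ℓ)
    refine ⟨r, z, y, hz, hy, ?_⟩
    rintro ⟨h1, h2⟩
    apply hbad p hp
    refine ⟨r, z, 0, fun _ => 1, hz, rfl, ?_, ?_⟩
    · intro j
      rw [Subsingleton.elim j 0]
      push_cast
      exact h1
    · intro i
      rw [Fin.sum_univ_one, one_mul]
      push_cast
      exact h2 i
  rcases le_or_gt 0 (MvPolynomial.aeval ξ (f 0)) with hpos | hneg
  · left
    exact ⟨goodC_of hm hH hreal hf0 ⟨r, ξ, hr, hξ, hpos, hnR⟩ hP, fun h => hns h⟩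
  · right
    have hodd : Odd m := by
      by_contra hcon
      rw [Nat.not_odd_iff_even] at hcon
      have := hcon.pow_nonneg y
      rw [hy] at this
      linarith
    refine ⟨goodC_of hm hH hreal (isF_neg hf0) ⟨r, ξ, hr, hξ, ?_, ?_⟩ ?_,
      fun h => hns (sol_neg hodd h)⟩
    · rw [map_neg]; linarith
    · intro h
      apply hnR
      rw [map_neg, abs_neg] at h
      refine ⟨h.1, fun i => ?_⟩
      have := h.2 i
      rwa [map_neg, map_neg, abs_neg] at this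
    · intro p hp
      obtain ⟨r, z, y, hz, hy, hb⟩ := hP p hp
      refine ⟨r, z, -y, hz, ?_, ?_⟩
      · rw [map_neg, hodd.neg_pow]
        have e1 : -(MvPolynomial.eval z) (f 0) - -y ^ m = -(MvPolynomial.eval z (f 0) - y ^ m) := by
          ring
        rw [e1, dvd_neg]
        exact hy
      · intro h
        apply hb
        rw [map_neg, dvd_neg] at h
        refine ⟨h.1, fun i => ?_⟩
        have := h.2 i
        rwa [map_neg, map_neg, dvd_neg] at this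

theorem card_sys_le {e : Fin 1 → ℕ} {H : ℝ} (P : MvPolynomial ι ℤ → Prop) {_ : DecidablePred P}
    (P' : (Fin 1 → MvPolynomial ι ℤ) → Prop) {_ : DecidablePred P'}
    (h : ∀ f, P' f → P (f 0)) :
    (((sysZ ι e H).filter P').card : ℝ) ≤ (((formsZ ι (e 0 + 2) H).filter P).card : ℝ) := by
  refine Nat.cast_le.mpr (Finset.card_le_card_of_injOn (fun f => f 0) ?_ ?_)
  · intro f hf
    rw [Finset.mem_coe, Finset.mem_filter] at hf
    rw [Finset.mem_coe, Finset.mem_filter]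
    exact ⟨mem_formsZ.mpr (mem_sysZ.mp hf.1 0), h f hf.2⟩
  · intro f _ g _ hfg
    funext j
    rw [Subsingleton.elim j 0]
    exact hfg

theorem card_sys_neg_le {e : Fin 1 → ℕ} {H : ℝ} (P : MvPolynomial ι ℤ → Prop)
    {_ : DecidablePred P} (P' : (Fin 1 → MvPolynomial ι ℤ) → Prop) {_ : DecidablePred P'}
    (h : ∀ f, P' f → P (-(f 0))) :
    (((sysZ ι e H).filter P').card : ℝ) ≤ (((formsZ ι (e 0 + 2) H).filter P).card : ℝ) := by
  refine Nat.cast_le.mpr (Finset.card_le_card_of_injOn (fun f => -(f 0)) ?_ ?_)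
  · intro f hf
    rw [Finset.mem_coe, Finset.mem_filter] at hf
    rw [Finset.mem_coe, Finset.mem_filter]
    exact ⟨mem_formsZ.mpr (isF_neg (mem_sysZ.mp hf.1 0)), h f hf.2⟩
  · intro f _ g _ hfg
    funext j
    rw [Subsingleton.elim j 0]
    exact neg_injective hfg

theorem card_sys_one {e : Fin 1 → ℕ} {H : ℝ} :
    (sysZ ι e H).card = (formsZ ι (e 0 + 2) H).card := by
  rw [card_sysZ, Fin.prod_univ_one]

open scoped Classical in
/-- Almost all covers with local points have a rational point. -/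
theorem exc_C (ι : Type*) [Fintype ι] (hn3 : 3 ≤ Fintype.card ι) {m k : ℕ} (hm : 2 ≤ m)
    (hk1 : 1 ≤ k) {e : Fin 1 → ℕ} (he : ∀ j, e j + 2 = m * k)
    (hek : e 0 + 3 ≤ Fintype.card ι + k) (h1 : BadCountInt ι e) (h2 : BadCountReal ι e) :
    ∀ ε : ℝ, 0 < ε → ∃ H₀ : ℝ, ∀ H : ℝ, H₀ ≤ H →
      (((sysZ ι e H).filter (fun f => ElsW m f ∧ ¬ SolW m f)).card : ℝ) ≤
        ε * (sysZ ι e H).card := by
  intro ε hε
  obtain ⟨T, hT⟩ : ∃ T : ℝ, T = (3 : ℝ) ^ (mons ι (e 0 + 2)).card := ⟨_, rfl⟩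
  have hT0 : 0 < T := by rw [hT]; positivity
  obtain ⟨n, hn⟩ : ∃ n, Fintype.card ι = n := ⟨_, rfl⟩
  obtain ⟨w₀, hw₀1, hcl⟩ := good_countC ι hn3 (e 0) m k hm hk1 (he 0) hek
    (ε := ε / (4 * T)) (by positivity)
  obtain ⟨w, hw⟩ : ∃ w, w = w₀ := ⟨_, rfl⟩
  obtain ⟨Cb, hCb0, hCb⟩ := h2
  obtain ⟨γ₂, hγ₂⟩ : ∃ γ₂ : ℝ, γ₂ = min 1 (ε / (4 * Cb * T)) := ⟨_, rfl⟩
  have hγ₂0 : 0 < γ₂ := by rw [hγ₂]; exact lt_min one_pos (by positivity)
  have hγ₂1 : γ₂ ≤ 1 := by rw [hγ₂]; exact min_le_left _ _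
  have hγ₂C : Cb * γ₂ * T ≤ ε / 4 := by
    have h1 : γ₂ ≤ ε / (4 * Cb * T) := by rw [hγ₂]; exact min_le_right _ _
    rw [le_div_iff₀ (by positivity)] at h1
    linarith
  obtain ⟨κ, hκ0, hκ1, hreal⟩ := real_data ι (e 0) hγ₂0
  obtain ⟨ℓ, hℓ₀⟩ : ∃ ℓ : ℕ, (1 / 2 : ℝ) ^ ℓ < ε / (4 * ((w + 1) * (n * (1 : ℕ)) * T) + 1) :=
    exists_pow_lt_of_lt_one (by positivity) (by norm_num)
  have hℓε : (1 / 2 : ℝ) ^ ℓ * ((w + 1) * (n * (1 : ℕ)) * T) ≤ ε / 4 := by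
    have h2 : (0:ℝ) ≤ (w + 1) * (n * (1 : ℕ)) * T := by positivity
    have h3 := hℓ₀.le
    rw [le_div_iff₀ (by positivity)] at h3
    have h4 : (0:ℝ) ≤ (1 / 2) ^ ℓ := by positivity
    linarith
  obtain ⟨Q, hQ⟩ : ∃ Q : ℕ, Q = (∏ p ∈ primesUpTo w, p) ^ EE m ℓ := ⟨_, rfl⟩
  have hQ1 : 1 ≤ Q := by
    rw [hQ]
    exact pow_pos (Finset.prod_pos (fun p hp => (mem_primesUpTo.mp hp).2.pos)) _
  obtain ⟨H₁, hH₁⟩ := hcl w (by omega) (κ / 2) (by positivity) (by linarith) Q hQ1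
  refine ⟨max (max H₁ 2) (max (1 / γ₂) ((w : ℝ) ^ ℓ)), fun H hH => ?_⟩
  have hHH₁ : H₁ ≤ H := (le_max_left _ _).trans ((le_max_left _ _).trans hH)
  have hH2 : 2 ≤ H := (le_max_right _ _).trans ((le_max_left _ _).trans hH)
  have hH3 : 1 / γ₂ ≤ H := (le_max_left _ _).trans ((le_max_right _ _).trans hH)
  have hH4 : (w : ℝ) ^ ℓ ≤ H := (le_max_right _ _).trans ((le_max_right _ _).trans hH)
  have hH0 : 0 < H := by linarith
  obtain ⟨G, hG⟩ : ∃ G : ℝ, ((sysZ ι e H).card : ℝ) = G := ⟨_, rfl⟩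
  have hG0 : 0 < G := by
    rw [← hG, card_sysZ]
    exact_mod_cast Finset.prod_pos fun j _ => card_forms_pos (ι := ι) (e j + 2) hH0.le
  have h2H : ((sysZ ι e (2 * H)).card : ℝ) ≤ T * G := by
    rw [← hG, card_sys_one, card_sys_one, hT]
    exact card_forms_upper (ι := ι) (e 0 + 2) (A := H) (R := 2 * H) (c := 3)
      (by linarith) (by linarith) (by norm_num) (by linarith)
  -- good forms
  have hgood : ∀ (P : MvPolynomial ι ℤ → Prop) (_ : DecidablePred P),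
      (∀ f, P f → GoodC (e 0) m w (κ / 2) H Q f ∧ ¬ Sol1 m f) →
      (((formsZ ι (e 0 + 2) H).filter P).card : ℝ) ≤ ε / 4 * G := by
    intro P _ hP
    refine (hH₁ H hHH₁ P _ hP).trans ?_
    rw [card_sys_one] at h2H
    have h3 := mul_le_mul_of_nonneg_left h2H (by positivity : 0 ≤ ε / (4 * T))
    refine h3.trans (le_of_eq ?_)
    field_simp
  have hg1 : (((sysZ ι e H).filter (fun f => GoodC (e 0) m w (κ / 2) H Q (f 0) ∧
      ¬ Sol1 m (f 0))).card : ℝ) ≤ ε / 4 * G :=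
    (card_sys_le (fun F => GoodC (e 0) m w (κ / 2) H Q F ∧ ¬ Sol1 m F) _ (fun f hf => hf)).trans
      (hgood _ (fun _ => Classical.propDecidable _) (fun f hf => hf))
  have hg2 : (((sysZ ι e H).filter (fun f => GoodC (e 0) m w (κ / 2) H Q (-(f 0)) ∧
      ¬ Sol1 m (-(f 0)))).card : ℝ) ≤ ε / 4 * G :=
    (card_sys_neg_le (fun F => GoodC (e 0) m w (κ / 2) H Q F ∧ ¬ Sol1 m F) _
      (fun f hf => hf)).trans (hgood _ (fun _ => Classical.propDecidable _) (fun f hf => hf))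
  -- degenerate real points
  have hbadR : (((sysZ ι e H).filter (fun f => BadRS γ₂ H f)).card : ℝ) ≤ ε / 4 * G := by
    have h1 := hCb γ₂ H hγ₂0 hγ₂1 (by
      rw [div_le_iff₀ (by positivity)] at hH3
      linarith)
    have h2 : (((sysZ ι e H).filter (fun f => BadRS γ₂ H f)).card : ℝ) ≤
        Cb * γ₂ * (sysZ ι e (2 * H)).card :=
      (card_filter_le' _ _ _ (fun _ _ h => h)).trans h1
    have h3 := mul_le_mul_of_nonneg_left h2H (by positivity : 0 ≤ Cb * γ₂)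
    have h4 := mul_le_mul_of_nonneg_right hγ₂C hG0.le
    linarith
  -- degenerate points modulo prime powers
  have hbadP : ∀ p ∈ primesUpTo w, (((sysZ ι e H).filter
      (fun f => BadAtS (p ^ ℓ) f)).card : ℝ) ≤ (1 / 2 : ℝ) ^ ℓ * ((n * (1 : ℕ)) * (T * G)) := by
    intro p hp
    obtain ⟨hp1, hp2⟩ := mem_primesUpTo.mp hp
    have h1 := h1 (p ^ ℓ) (Nat.pos_of_ne_zero (pow_ne_zero _ hp2.ne_zero)) H hH0.le
    have h2 : (((sysZ ι e H).filter (fun f => BadAtS (p ^ ℓ) f)).card : ℝ) *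
        ((p ^ ℓ : ℕ) : ℝ) ≤ (n * (1 : ℕ)) * ((sysZ ι e (H + (p ^ ℓ : ℕ))).card : ℝ) := by
      rw [← hn]
      have h1' := (Nat.cast_le (α := ℝ)).mpr h1
      rw [Nat.cast_mul, Nat.cast_mul, Nat.cast_mul] at h1'
      exact (mul_le_mul_of_nonneg_right (card_filter_le' _ _ _ (fun _ _ h => h))
        (Nat.cast_nonneg _)).trans h1'
    have h3 : ((p ^ ℓ : ℕ) : ℝ) ≤ H := by
      refine le_trans ?_ hH4
      push_cast
      apply pow_le_pow_left₀ (Nat.cast_nonneg _)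
      exact_mod_cast hp1
    have h4 : ((sysZ ι e (H + (p ^ ℓ : ℕ))).card : ℝ) ≤ T * G := by
      refine le_trans ?_ h2H
      exact_mod_cast Finset.card_le_card (sysZ_mono (by linarith))
    have h5 : (2:ℝ) ^ ℓ ≤ ((p ^ ℓ : ℕ) : ℝ) := by
      push_cast
      apply pow_le_pow_left₀ (by norm_num)
      exact_mod_cast hp2.two_le
    have h6 : (((sysZ ι e H).filter (fun f => BadAtS (p ^ ℓ) f)).card : ℝ) * 2 ^ ℓ ≤
        (n * (1 : ℕ)) * (T * G) :=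
      (mul_le_mul_of_nonneg_left h5 (Nat.cast_nonneg _)).trans
        (h2.trans (mul_le_mul_of_nonneg_left h4 (by positivity)))
    rw [one_div, inv_pow, inv_mul_eq_div, le_div_iff₀ (by positivity)]
    exact h6
  -- covering
  have hcov : (sysZ ι e H).filter (fun f => ElsW m f ∧ ¬ SolW m f) ⊆
      (((sysZ ι e H).filter (fun f => GoodC (e 0) m w (κ / 2) H Q (f 0) ∧ ¬ Sol1 m (f 0))) ∪
      ((sysZ ι e H).filter (fun f => GoodC (e 0) m w (κ / 2) H Q (-(f 0)) ∧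
        ¬ Sol1 m (-(f 0))))) ∪
      ((primesUpTo w).biUnion (fun p => (sysZ ι e H).filter (fun f => BadAtS (p ^ ℓ) f)) ∪
      (sysZ ι e H).filter (fun f => BadRS γ₂ H f)) := by
    intro f hf
    obtain ⟨hf1, hf2, hf3⟩ := Finset.mem_filter.mp hf
    rw [Finset.mem_union, Finset.mem_union, Finset.mem_union, Finset.mem_biUnion,
      Finset.mem_filter, Finset.mem_filter, Finset.mem_filter]
    by_cases hbf : ∃ p ∈ primesUpTo w, BadAtS (p ^ ℓ) f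
    · obtain ⟨p, hp, hb⟩ := hbf
      right; left
      exact ⟨p, hp, Finset.mem_filter.mpr ⟨hf1, hb⟩⟩
    by_cases hbr : BadRS γ₂ H f
    · right; right; exact ⟨hf1, hbr⟩
    left
    push Not at hbf
    rw [hQ]
    rcases good_cases hm he hH0 hreal hf1 hf2 hf3 hbf hbr with h | h
    · left; exact ⟨hf1, h⟩
    · right; exact ⟨hf1, h⟩
  have h1 : (((sysZ ι e H).filter (fun f => ElsW m f ∧ ¬ SolW m f)).card : ℝ) ≤
      ((((sysZ ι e H).filter (fun f => GoodC (e 0) m w (κ / 2) H Q (f 0) ∧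
        ¬ Sol1 m (f 0))).card : ℝ) +
      (((sysZ ι e H).filter (fun f => GoodC (e 0) m w (κ / 2) H Q (-(f 0)) ∧
        ¬ Sol1 m (-(f 0)))).card : ℝ)) +
      ((∑ p ∈ primesUpTo w, (((sysZ ι e H).filter (fun f => BadAtS (p ^ ℓ) f)).card : ℝ)) +
      (((sysZ ι e H).filter (fun f => BadRS γ₂ H f)).card : ℝ)) := by
    have h2 := (Finset.card_le_card hcov).trans ((Finset.card_union_le _ _).trans
      (Nat.add_le_add (Finset.card_union_le _ _) ((Finset.card_union_le _ _).trans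
        (Nat.add_le_add_right Finset.card_biUnion_le _))))
    exact_mod_cast h2
  have h2 : (∑ p ∈ primesUpTo w, (((sysZ ι e H).filter
      (fun f => BadAtS (p ^ ℓ) f)).card : ℝ)) ≤ ε / 4 * G := by
    calc _ ≤ (primesUpTo w).card • ((1 / 2 : ℝ) ^ ℓ * ((n * (1 : ℕ)) * (T * G))) :=
          Finset.sum_le_card_nsmul _ _ _ hbadP
      _ = ((primesUpTo w).card : ℝ) * ((1 / 2 : ℝ) ^ ℓ * ((n * (1 : ℕ)) * (T * G))) := by
          rw [nsmul_eq_mul]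
      _ ≤ (w + 1) * ((1 / 2 : ℝ) ^ ℓ * ((n * (1 : ℕ)) * (T * G))) := by
          apply mul_le_mul_of_nonneg_right _ (by positivity)
          have : (primesUpTo w).card ≤ w + 1 := by
            unfold primesUpTo
            refine (Finset.card_filter_le _ _).trans ?_
            rw [Finset.card_range]
          exact_mod_cast this
      _ = ((1 / 2 : ℝ) ^ ℓ * ((w + 1) * (n * (1 : ℕ)) * T)) * G := by ring
      _ ≤ ε / 4 * G := mul_le_mul_of_nonneg_right hℓε hG0.le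
  have h5 : (((sysZ ι e H).filter
      (fun f => ElsW m f ∧ ¬ SolW m f)).card : ℝ) ≤ ε * G := by linarith
  rw [hG]
  exact (card_filter_le' _ _ _ (fun _ _ h => h)).trans h5

end Pool.Agent.Run7.h443.CD
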