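import Pool.Agent.Run7.h443.CD.AvgC

/-!
# A positive proportion of the covers has a rational point
-/

set_option autoImplicit false

namespace Pool.Agent.Run7.h443.CD

open Pool.Agent.Y716.Q

variable {ι : Type*} [Fintype ι]

/-- the form `a X_r ^ d` -/
noncomputable def mono (r : ι) (d : ℕ) (a : ℤ) : MvPolynomial ι ℤ :=
  MvPolynomial.monomial (Finsupp.single r d) a

omit [Fintype ι] in
theorem mono_isF (r : ι) (d : ℕ) {a : ℤ} {R : ℝ} (hR : |(a : ℝ)| ≤ R) : IsF d R (mono r d a) := by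
  classical
  unfold mono
  refine ⟨MvPolynomial.isHomogeneous_monomial _ (by simp), fun n => ?_⟩
  rw [MvPolynomial.coeff_monomial]
  split_ifs
  · exact hR
  · simp only [Int.cast_zero, abs_zero]
    exact (abs_nonneg _).trans hR

open scoped Classical in
omit [Fintype ι] in
theorem aeval_mono (r : ι) (d : ℕ) (a : ℤ) :
    MvPolynomial.aeval (fun i => if i = r then (1:ℝ) else 0) (mono r d a) = a := by
  unfold mono
  rw [MvPolynomial.aeval_monomial]
  simp

open scoped Classical in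
omit [Fintype ι] in
theorem eval_mono (r : ι) (d : ℕ) (a : ℤ) :
    MvPolynomial.eval (fun i => if i = r then (1:ℤ) else 0) (mono r d a) = a := by
  unfold mono
  rw [MvPolynomial.eval_monomial]
  simp

open scoped Classical in
theorem pos_C (ι : Type*) [Fintype ι] (hn3 : 3 ≤ Fintype.card ι) (e m k : ℕ) (hm : 2 ≤ m)
    (hk1 : 1 ≤ k) (he : e + 2 = m * k) (hek : e + 3 ≤ Fintype.card ι + k) :
    ∃ c : ℝ, 0 < c ∧ ∃ H₁ : ℝ, ∀ H : ℝ, H₁ ≤ H →
      c * ((formsZ ι (e + 2) H).card : ℝ) ≤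
        (((formsZ ι (e + 2) H).filter (fun f => Sol1 m f)).card : ℝ) := by
  obtain ⟨r⟩ : Nonempty ι := Fintype.card_pos_iff.mp (by omega)
  obtain ⟨w, hw1, hcl⟩ := class_cover ι hn3 e m k hm hk1 he hek (ε := 1 / 2) (by norm_num)
  obtain ⟨Q, hQ⟩ : ∃ Q : ℕ, Q = (∏ p ∈ primesUpTo w, p) ^ (2 * m + 1) := ⟨_, rfl⟩
  have hQ1 : 1 ≤ Q := by
    rw [hQ]
    exact pow_pos (Finset.prod_pos (fun p hp => (mem_primesUpTo.mp hp).2.pos)) _
  have hQr : (0 : ℝ) < Q := by exact_mod_cast hQ1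
  have hQr1 : (1 : ℝ) ≤ Q := by exact_mod_cast hQ1
  obtain ⟨η, hη0, hη1, -, H₀, hH₀⟩ := hcl w le_rfl (1 / 4) (by norm_num) (by norm_num) Q hQ1 1
    one_pos
  obtain ⟨M, hM⟩ : ∃ M : ℕ, M = (mons ι (e + 2)).card := ⟨_, rfl⟩
  refine ⟨1 / (2 * (6 * Q / η) ^ M), by positivity,
    max (2 * H₀) (max (4 * (1 + Q)) (2 * Q / η)), fun H hH => ?_⟩
  have hH1 : 2 * H₀ ≤ H := (le_max_left _ _).trans hH
  have hH2 : 4 * (1 + Q) ≤ H := (le_max_left _ _).trans ((le_max_right _ _).trans hH)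
  have hH3 : 2 * Q / η ≤ H := (le_max_right _ _).trans ((le_max_right _ _).trans hH)
  have hHpos : 0 < H := by linarith
  obtain ⟨t, ht⟩ : ∃ t : ℤ, t = ⌈H / (8 * Q)⌉ := ⟨_, rfl⟩
  have ht1 : H / (8 * Q) ≤ t := by rw [ht]; exact Int.le_ceil _
  have ht2 : (t : ℝ) ≤ H / (8 * Q) + 1 := by rw [ht]; exact (Int.ceil_lt_add_one _).le
  have ht1' : H / 8 ≤ Q * t := by
    have := mul_le_mul_of_nonneg_left ht1 hQr.le
    have e1 : (Q : ℝ) * (H / (8 * Q)) = H / 8 := by field_simp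
    linarith
  have ht2' : (Q : ℝ) * t ≤ H / 8 + Q := by
    have := mul_le_mul_of_nonneg_left ht2 hQr.le
    have e1 : (Q : ℝ) * (H / (8 * Q) + 1) = H / 8 + Q := by field_simp
    linarith
  obtain ⟨a, ha⟩ : ∃ a : ℤ, a = 1 + Q * t := ⟨_, rfl⟩
  have har : (a : ℝ) = 1 + Q * t := by rw [ha]; push_cast; ring
  have ha1 : H / 8 ≤ a := by rw [har]; linarith
  have ha2 : (a : ℝ) ≤ H / 2 := by rw [har]; linarith
  have ha0 : |(a : ℝ)| ≤ H / 2 := by rw [abs_of_nonneg (by linarith)]; exact ha2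
  obtain ⟨S, J, xc, yc, hcd, hSJ⟩ := cdata_of w (2 * m + 1) m (mono r (e + 2) a) (by
    intro p hp
    have hpp := (mem_primesUpTo.mp hp).2
    obtain ⟨v, um, hv, hum, hpum⟩ := val_nat_lt hpp (by omega : 1 ≤ m)
    refine ⟨fun i => if i = r then (1:ℤ) else 0, 1, v, um, ⟨r, ?_⟩, by omega, by
      rw [one_pow, mul_one]; exact hum, hpum, ?_⟩
    · beta_reduce
      rw [if_pos rfl]
      intro h
      have h2 : p ∣ 1 := by exact_mod_cast h
      exact hpp.one_lt.ne' (Nat.dvd_one.mp h2)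
    · rw [eval_mono, ha, one_pow]
      have h1 : (p : ℤ) ^ (2 * m + 1) ∣ (Q : ℤ) := by
        rw [hQ]
        have h0 : p ∣ ∏ p ∈ primesUpTo w, p := Finset.dvd_prod_of_mem (fun p => p) hp
        have h1 := pow_dvd_pow_of_dvd h0 (2 * m + 1)
        exact_mod_cast Int.natCast_dvd_natCast.mpr h1
      have e1 : (1 : ℤ) - (1 + Q * t) = Q * (-t) := by ring
      rw [e1]
      exact h1.mul_right _)
  rw [← hQ] at hSJ
  have hRD : RD e (H / 2) (1 / 4) (mono r (e + 2) a) (fun i => if i = r then (1:ℝ) else 0) := by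
    refine ⟨mono_isF r _ (by linarith), fun i => ?_, ⟨r, by simp⟩, ?_⟩
    · split_ifs <;> simp
    · rw [aeval_mono]; linarith
  have h1 := hH₀ (H / 2) (by linarith) (mono r (e + 2) a) S J xc yc _ hcd hRD hSJ.le
  rw [hSJ] at h1
  obtain ⟨A, hA⟩ : ∃ A : ℝ, A = η * (H / 2) / Q := ⟨_, rfl⟩
  rw [← hA] at h1
  have hA1 : 1 ≤ A := by
    rw [hA, le_div_iff₀ hQr]
    rw [div_le_iff₀ hη0] at hH3
    linarith
  -- many good `g`
  have h2 : (1 / 2 : ℝ) * (formsZ ι (e + 2) A).card ≤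
      (((formsZ ι (e + 2) A).filter (fun g => PtNear 1 (fun i => if i = r then (1:ℝ) else 0) S xc yc
        m (mem' (mono r (e + 2) a) S J g))).card : ℝ) := by
    have h3 := Finset.card_filter_add_card_filter_not (s := formsZ ι (e + 2) A)
      (fun g => PtNear 1 (fun i => if i = r then (1:ℝ) else 0) S xc yc
        m (mem' (mono r (e + 2) a) S J g))
    have h4 : (((formsZ ι (e + 2) A).filter (fun g => PtNear 1
        (fun i => if i = r then (1:ℝ) else 0) S xc yc m
        (mem' (mono r (e + 2) a) S J g))).card : ℝ) +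
        (((formsZ ι (e + 2) A).filter (fun g => ¬ PtNear 1
        (fun i => if i = r then (1:ℝ) else 0) S xc yc m
        (mem' (mono r (e + 2) a) S J g))).card : ℝ) = (formsZ ι (e + 2) A).card := by
      exact_mod_cast h3
    linarith
  have h3 : (((formsZ ι (e + 2) A).filter (fun g => PtNear 1
        (fun i => if i = r then (1:ℝ) else 0) S xc yc m
        (mem' (mono r (e + 2) a) S J g))).card : ℝ) ≤
      (((formsZ ι (e + 2) H).filter (fun f => Sol1 m f)).card : ℝ) := by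
    refine Nat.cast_le.mpr (Finset.card_le_card_of_injOn
      (fun g => mono r (e + 2) a + MvPolynomial.C (Q : ℤ) * g) ?_ ?_)
    · intro g hg
      rw [Finset.mem_coe, Finset.mem_filter] at hg
      rw [Finset.mem_coe, Finset.mem_filter]
      refine ⟨mem_formsZ.mpr ?_, sol_of_ptNear hSJ hg.2⟩
      have h4 := (mem_formsZ.mp hg.1).C_mul (Q : ℤ)
      have h5 : |((Q : ℤ) : ℝ)| * A = η * (H / 2) := by
        rw [Int.cast_natCast, abs_of_pos hQr, hA]
        field_simp
      rw [h5] at h4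
      have h6 := ((mono_isF r (e + 2) ha0).sub (h4.C_mul (-1)))
      have e1 : mono r (e + 2) a - MvPolynomial.C (-1) * (MvPolynomial.C (Q : ℤ) * g) =
          mono r (e + 2) a + MvPolynomial.C (Q : ℤ) * g := by
        rw [MvPolynomial.C_neg, MvPolynomial.C_1]; ring
      rw [e1] at h6
      refine h6.mono ?_
      simp only [Int.cast_neg, Int.cast_one, abs_neg, abs_one, one_mul]
      nlinarith
    · intro g _ g' _ hgg
      have h4 : MvPolynomial.C (Q : ℤ) * g = MvPolynomial.C (Q : ℤ) * g' := by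
        exact add_left_cancel hgg
      have hne : (MvPolynomial.C (Q : ℤ) : MvPolynomial ι ℤ) ≠ 0 := by
        rw [Ne, MvPolynomial.C_eq_zero]
        exact_mod_cast (by omega : Q ≠ 0)
      exact mul_left_cancel₀ hne h4
  have h4 : ((formsZ ι (e + 2) H).card : ℝ) ≤ (6 * Q / η) ^ M * (formsZ ι (e + 2) A).card := by
    rw [hM]
    apply card_forms_upper (ι := ι) (e + 2) hA1 hHpos.le (by positivity)
    have e1 : 6 * Q / η * A = 3 * H := by
      rw [hA]; field_simp; ring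
    have e2 : 0 < 6 * Q / η := by positivity
    nlinarith
  have h5 : 0 < (6 * Q / η) ^ M := by positivity
  rw [div_mul_eq_mul_div, one_mul, div_le_iff₀ (by positivity)]
  have h6 := mul_le_mul_of_nonneg_left (h2.trans h3) h5.le
  nlinarith

end Pool.Agent.Run7.h443.CD
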