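import Pool.Agent.R465.CV.Main
import Pool.Agent.Run7.h443.CD.ExcC
import Pool.Agent.Run7.h443.CD.PosC

/-!
# The Hasse principle for almost all smooth Fano cyclic covers
-/

set_option autoImplicit false

namespace Pool.Agent.Run7.h443.CD

open Pool.Agent.Y716.Q Pool.Agent.Y716.C Pool.Agent.Y363.C7 Pool.Agent.Y697.C13
  Pool.Agent.Y487.C8 Filter Topology
open Pool.Agent.R465.CV (ElsW SolW Pt ratio_one card_filter_le_self' pt_of_sol els_of_pt)

variable {ι : Type*} [Fintype ι]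

theorem card_le_sys {e : Fin 1 → ℕ} {H : ℝ} (P : MvPolynomial ι ℤ → Prop) {_ : DecidablePred P}
    (P' : (Fin 1 → MvPolynomial ι ℤ) → Prop) {_ : DecidablePred P'}
    (h : ∀ f, P (f 0) → P' f) :
    (((formsZ ι (e 0 + 2) H).filter P).card : ℝ) ≤ (((sysZ ι e H).filter P').card : ℝ) := by
  refine Nat.cast_le.mpr (Finset.card_le_card_of_injOn (fun F => fun _ : Fin 1 => F) ?_ ?_)
  · intro F hF
    rw [Finset.mem_coe, Finset.mem_filter] at hF
    rw [Finset.mem_coe, Finset.mem_filter]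
    refine ⟨mem_sysZ.mpr fun j => ?_, h (fun _ => F) hF.2⟩
    rw [Subsingleton.elim j 0]
    exact mem_formsZ.mp hF.1
  · intro F _ G _ hFG
    exact congrFun hFG 0

/-- The Hasse principle for almost all smooth Fano cyclic covers. -/
theorem hp_C (ι : Type*) [Fintype ι] (hn3 : 3 ≤ Fintype.card ι) {m k : ℕ} (hm : 2 ≤ m)
    (hk1 : 1 ≤ k) {e : Fin 1 → ℕ} (he : ∀ j, e j + 2 = m * k)
    (hek : e 0 + 3 ≤ Fintype.card ι + k) (h1 : BadCountInt ι e) (h2 : BadCountReal ι e) :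
    (∃ c : ℝ, 0 < c ∧ ∀ᶠ H : ℕ in atTop,
      c * (({f : Fin 1 → MvPolynomial ι ℤ | (∀ j, (f j).IsHomogeneous (e j + 2) ∧
          ∀ a, |(f j).coeff a| ≤ (H : ℤ)) ∧ True} : Set _).ncard : ℝ) ≤
      (({f : Fin 1 → MvPolynomial ι ℤ | (∀ j, (f j).IsHomogeneous (e j + 2) ∧
          ∀ a, |(f j).coeff a| ≤ (H : ℤ)) ∧ SmoothS f ∧ ElsW m f} : Set _).ncard : ℝ)) ∧
    Tendsto (fun H : ℕ =>
      (({f : Fin 1 → MvPolynomial ι ℤ | (∀ j, (f j).IsHomogeneous (e j + 2) ∧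
          ∀ a, |(f j).coeff a| ≤ (H : ℤ)) ∧ SmoothS f ∧ Pt m (f 0) ℚ} : Set _).ncard : ℝ) /
      (({f : Fin 1 → MvPolynomial ι ℤ | (∀ j, (f j).IsHomogeneous (e j + 2) ∧
          ∀ a, |(f j).coeff a| ≤ (H : ℤ)) ∧ SmoothS f ∧ ElsW m f} : Set _).ncard : ℝ))
      atTop (𝓝 1) := by
  classical
  simp only [ncard_eq_filterS]
  obtain ⟨c, hc0, H₁, hH₁⟩ := pos_C ι hn3 (e 0) m k hm hk1 (he 0) hek
  have hT : ∀ᶠ H : ℕ in atTop, (0 : ℝ) < ((sysZ ι e (H : ℝ)).card : ℝ) := by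
    filter_upwards with H
    rw [card_sysZ]
    push_cast
    apply Finset.prod_pos
    intro j _
    exact_mod_cast card_forms_pos (ι := ι) (e j + 2) (Nat.cast_nonneg H)
  have hca : ∀ᶠ H : ℕ in atTop, c * ((sysZ ι e (H : ℝ)).card : ℝ) ≤
      (((sysZ ι e (H : ℝ)).filter (fun f => Pt m (f 0) ℚ)).card : ℝ) := by
    filter_upwards [eventually_ge_atTop ⌈H₁⌉₊] with H hH
    have h1 := hH₁ (H : ℝ) ((Nat.le_ceil H₁).trans (by exact_mod_cast hH))
    rw [card_sys_one]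
    refine h1.trans ?_
    exact card_le_sys _ _ (fun f hf => pt_of_sol (f := f) hf)
  have hns : ∀ ε : ℝ, 0 < ε → ∀ᶠ H : ℕ in atTop,
      (((sysZ ι e (H : ℝ)).filter (fun f => ¬ SmoothS f)).card : ℝ) ≤
        ε * ((sysZ ι e (H : ℝ)).card : ℝ) := by
    intro ε hε
    obtain ⟨H₀, hH₀⟩ := smooth_dense ι e ε hε
    filter_upwards [eventually_ge_atTop ⌈H₀⌉₊] with H hH
    have h1 := hH₀ (H : ℝ) ((Nat.le_ceil H₀).trans (by exact_mod_cast hH))
    convert h1
  have hab : ∀ H : ℕ, (((sysZ ι e (H : ℝ)).filter (fun f => Pt m (f 0) ℚ)).card : ℝ) ≤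
      (((sysZ ι e (H : ℝ)).filter (fun f => ElsW m f)).card : ℝ) := fun H =>
    card_filter_le' _ _ _ (fun f _ hf => els_of_pt hf)
  have hsm : ∀ (P : (Fin 1 → MvPolynomial ι ℤ) → Prop) (H : ℕ),
      (((sysZ ι e (H : ℝ)).filter P).card : ℝ) -
      (((sysZ ι e (H : ℝ)).filter (fun f => ¬ SmoothS f)).card : ℝ) ≤
      (((sysZ ι e (H : ℝ)).filter (fun f => SmoothS f ∧ P f)).card : ℝ) := by
    intro P H
    rw [sub_le_iff_le_add]
    refine card_filter_le_add' _ P (fun f => SmoothS f ∧ P f) (fun f => ¬ SmoothS f)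
      (fun f _ hf => ?_)
    by_cases hs : SmoothS f
    · left; exact ⟨hs, hf⟩
    · right; exact hs
  constructor
  · refine ⟨c / 2, by positivity, ?_⟩
    filter_upwards [hT, hca, hns (c / 2) (by positivity)] with H h3 h4 h5
    have h6 := hsm (fun f => ElsW m f) H
    have h7 := hab H
    have h10 : c / 2 * ((sysZ ι e (H : ℝ)).card : ℝ) ≤ (((sysZ ι e (H : ℝ)).filter
      (fun f => SmoothS f ∧ ElsW m f)).card : ℝ) := by linarith
    refine le_trans (mul_le_mul_of_nonneg_left (card_filter_le_self' _ _)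
      (by positivity)) (h10.trans ?_)
    exact card_filter_le' _ _ _ (fun f _ hf => hf)
  · refine ratio_aux (T := fun H : ℕ => ((sysZ ι e (H : ℝ)).card : ℝ))
      (a := fun H : ℕ => (((sysZ ι e (H : ℝ)).filter (fun f => Pt m (f 0) ℚ)).card : ℝ))
      (b := fun H : ℕ => (((sysZ ι e (H : ℝ)).filter (fun f => ElsW m f)).card : ℝ))
      (ns := fun H : ℕ => (((sysZ ι e (H : ℝ)).filter (fun f => ¬ SmoothS f)).card : ℝ))
      hc0 hT (fun H => Nat.cast_nonneg _) hns ?_ (fun H => ?_) (fun H => ?_) (fun H => ?_)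
      (fun H => Nat.cast_nonneg _) ?_
    · filter_upwards [hca] with H h3
      exact h3.trans (hab H)
    · exact card_filter_le' _ _ _ (fun f _ hf => ⟨hf.1, els_of_pt hf.2⟩)
    · exact card_filter_le' _ _ _ (fun f _ hf => hf.2)
    · refine (hsm (fun f => Pt m (f 0) ℚ) H).trans ?_
      exact card_filter_le' _ _ _ (fun f _ hf => hf)
    · refine ratio_one hc0 hT hab hca fun ε hε => ?_
      obtain ⟨H₀, hH₀⟩ := exc_C ι hn3 hm hk1 he hek h1 h2 ε hε
      filter_upwards [eventually_ge_atTop ⌈H₀⌉₊] with H hH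
      have h3 := hH₀ (H : ℝ) ((Nat.le_ceil H₀).trans (by exact_mod_cast hH))
      have h3' : (((sysZ ι e (H : ℝ)).filter (fun f => ElsW m f ∧ ¬ SolW m f)).card : ℝ) ≤
          ε * ((sysZ ι e (H : ℝ)).card : ℝ) := (card_filter_le' _ _ _ (fun _ _ h => h)).trans h3
      have h4 : (((sysZ ι e (H : ℝ)).filter (fun f => ElsW m f)).card : ℝ) ≤
          (((sysZ ι e (H : ℝ)).filter (fun f => ElsW m f ∧ ¬ SolW m f)).card : ℝ) +
          (((sysZ ι e (H : ℝ)).filter (fun f => Pt m (f 0) ℚ)).card : ℝ) :=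
        card_filter_le_add' _ _ _ _ (fun f _ hf => by
          by_cases hs : Pt m (f 0) ℚ
          · right; exact hs
          · left; exact ⟨hf, fun h => hs (pt_of_sol h)⟩)
      linarith

end Pool.Agent.Run7.h443.CD
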