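import Pool.Agent.Run7.h443.CD.T5
import Pool.Agent.Run7.h443.CD.MainC

/-!
# Weak approximation for almost all smooth Fano cyclic covers
-/

set_option autoImplicit false

namespace Pool.Agent.Run7.h443.CD

open Pool.Agent.Y716.Q Pool.Agent.Y716.C Pool.Agent.Y363.C7 Pool.Agent.Y697.C13
  Pool.Agent.Y487.C8 Filter Topology
open Pool.Agent.R465.CV (ElsW SolW Pt ratio_one card_filter_le_self' pt_of_sol els_of_pt)

/-- the diagonal choice -/
theorem diag {P : ℕ → ℕ → Prop} (h : ∀ j, ∀ᶠ H in atTop, P j H) :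
    ∃ N : ℕ → ℕ, Tendsto N atTop atTop ∧ ∀ᶠ H in atTop, P (N H) H := by
  classical
  have h1 : ∀ j, ∃ B : ℕ, ∀ H, B ≤ H → P j H := fun j => eventually_atTop.mp (h j)
  choose B hB using h1
  refine ⟨fun H => Nat.findGreatest (fun j => ∀ i, i ≤ j → B i ≤ H) H, ?_, ?_⟩
  · rw [tendsto_atTop]
    intro b
    obtain ⟨C, hC⟩ := Finset.exists_le ((Finset.range (b + 1)).image B)
    filter_upwards [eventually_ge_atTop b, eventually_ge_atTop C] with H hH1 hH2
    apply Nat.le_findGreatest hH1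
    intro i hi
    exact (hC _ (Finset.mem_image_of_mem B (Finset.mem_range.mpr (by omega)))).trans hH2
  · filter_upwards [eventually_ge_atTop (B 0)] with H hH
    apply hB
    have := Nat.findGreatest_spec (P := fun j => ∀ i, i ≤ j → B i ≤ H) (m := 0) (n := H)
      (Nat.zero_le _) (fun i hi => by
        have : i = 0 := by omega
        rw [this]; exact hH)
    exact this _ le_rfl

open scoped Classical in
theorem wa_excC (ι : Type*) [Fintype ι] (hn3 : 3 ≤ Fintype.card ι) {m k : ℕ} (hm : 2 ≤ m)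
    (hk1 : 1 ≤ k) {e : Fin 1 → ℕ} (he : ∀ j, e j + 2 = m * k)
    (hek : e 0 + 3 ≤ Fintype.card ι + k) (h1 : BadCountInt ι e) (h2 : BadCountReal ι e)
    {N : ℕ} (hN : 1 ≤ N) {ε : ℝ} (hε : 0 < ε) :
    ∃ H₀ : ℝ, ∀ H : ℝ, H₀ ≤ H →
      (((sysZ ι e H).filter (fun f => ¬ WAC m k N H (f 0))).card : ℝ) ≤
        ε * (sysZ ι e H).card := by
  obtain ⟨C₁, hC₁, hfb⟩ := form_bounds (ι := ι) (e 0 + 2)
  obtain ⟨C, hC⟩ : ∃ C : ℝ, C = C₁ * 2 ^ (e 0 + 2 - 1) := ⟨_, rfl⟩
  obtain ⟨M, hM⟩ : ∃ M : ℕ, M = max N ⌈C * (N : ℝ) ^ m⌉₊ := ⟨_, rfl⟩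
  have hNM : N ≤ M := by rw [hM]; exact le_max_left _ _
  have hCM : C * (N : ℝ) ^ m ≤ M := by
    rw [hM]
    exact (Nat.le_ceil _).trans (by exact_mod_cast le_max_right _ _)
  have hM1 : 1 ≤ M := hN.trans hNM
  have hmr : (1:ℝ) ≤ M := by exact_mod_cast hM1
  have hδ : (0:ℝ) < 1 / (3 * M) := by positivity
  have h3 := fun t : (ι → ℤ) × ℤ × (ι → ℤ) => exc_T ι hn3 hm hk1 he hek h1 h2 (modN M)
    (modN_pos M) t.1 t.2.1 (fun i => (t.2.2 i : ℝ) / (3 * M)) (1 / (3 * M)) hδ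
    (ε / (2 * ((targetsC ι M).card + 1))) (by positivity)
  choose Hf hHf using h3
  obtain ⟨H₀, hH₀⟩ := Finset.exists_le ((targetsC ι M).image Hf)
  refine ⟨max H₀ 0, fun H hH => ?_⟩
  have hH0 : 0 ≤ H := (le_max_right _ _).trans hH
  obtain ⟨A, hA⟩ : ∃ A : ((ι → ℤ) × ℤ × (ι → ℤ)) → MvPolynomial ι ℤ → Prop, A = fun t G =>
      LocT m (modN M) t.1 t.2.1 (fun i => (t.2.2 i : ℝ) / (3 * M)) (1 / (3 * M)) G ∧
      ¬ SolT m (modN M) t.1 t.2.1 (fun i => (t.2.2 i : ℝ) / (3 * M)) (1 / (3 * M)) G := ⟨_, rfl⟩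
  have hsub : (sysZ ι e H).filter (fun f => ¬ WAC m k N H (f 0)) ⊆
      (targetsC ι M).biUnion (fun t => (sysZ ι e H).filter (fun f => A t (f 0)) ∪
        (sysZ ι e H).filter (fun f => A t (tw m (f 0)))) := by
    intro f hf
    rw [Finset.mem_filter] at hf
    rw [Finset.mem_biUnion]
    by_contra hcon
    push Not at hcon
    apply hf.2
    have hf0 := mem_sysZ.mp hf.1 0
    have hFh : (f 0).IsHomogeneous (m * k) := by
      have := hf0.1
      rwa [he 0] at this
    refine wa_of_targetsC (by omega) hN hNM hFh (C := C) hH0 ?_ hCM ?_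
    · intro G hG x y δ hδ0 hx hy hxy
      have hGf : IsF (e 0 + 2) H G := by
        rcases hG with h | h
        · rw [h]; exact hf0
        · rw [h]; exact tw_isF hf0
      have := (hfb G H hGf.1 hGf.2 2 (by norm_num)).2 x y δ hδ0 hx hy hxy
      refine this.trans (le_of_eq ?_)
      rw [hC]; ring
    · intro t ht G hG hL
      by_contra hS
      have hAG : A t G := by rw [hA]; exact ⟨hL, hS⟩
      apply hcon t ht
      rw [Finset.mem_union, Finset.mem_filter, Finset.mem_filter]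
      rcases hG with h | h
      · left; rw [h] at hAG; exact ⟨hf.1, hAG⟩
      · right; rw [h] at hAG; exact ⟨hf.1, hAG⟩
  have htw : ∀ t, ((sysZ ι e H).filter (fun f => A t (tw m (f 0)))).card ≤
      ((sysZ ι e H).filter (fun f => A t (f 0))).card := by
    intro t
    refine Finset.card_le_card_of_injOn (fun f j => tw m (f j)) ?_ ?_
    · intro f hf
      rw [Finset.mem_coe, Finset.mem_filter] at hf
      rw [Finset.mem_coe, Finset.mem_filter]
      exact ⟨mem_sysZ.mpr fun j => tw_isF (mem_sysZ.mp hf.1 j), hf.2⟩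
    · intro f _ g _ hfg
      funext j
      have := congrArg (tw m) (congrFun hfg j)
      simpa only [tw_tw] using this
  have h4 := (Finset.card_le_card hsub).trans Finset.card_biUnion_le
  have h5 := (Nat.cast_le (α := ℝ)).mpr h4
  push_cast at h5
  refine h5.trans ?_
  calc _ ≤ (targetsC ι M).card • (2 * (ε / (2 * ((targetsC ι M).card + 1)) *
        ((sysZ ι e H).card : ℝ))) := by
        apply Finset.sum_le_card_nsmul
        intro t ht
        have h6 := hHf t H ((hH₀ _ (Finset.mem_image_of_mem Hf ht)).trans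
          ((le_max_left _ _).trans hH))
        have h7 : (((sysZ ι e H).filter (fun f => A t (f 0))).card : ℝ) ≤
            ε / (2 * ((targetsC ι M).card + 1)) * ((sysZ ι e H).card : ℝ) := by
          refine (card_filter_le' _ _ _ (fun f _ hf => ?_)).trans h6
          rw [hA] at hf
          exact hf
        have h8 : (((sysZ ι e H).filter (fun f => A t (tw m (f 0)))).card : ℝ) ≤
            (((sysZ ι e H).filter (fun f => A t (f 0))).card : ℝ) := by exact_mod_cast htw t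
        have h9 : ((((sysZ ι e H).filter (fun f => A t (f 0)) ∪
            (sysZ ι e H).filter (fun f => A t (tw m (f 0)))).card : ℕ) : ℝ) ≤
            (((sysZ ι e H).filter (fun f => A t (f 0))).card : ℝ) +
            (((sysZ ι e H).filter (fun f => A t (tw m (f 0)))).card : ℝ) := by
          exact_mod_cast Finset.card_union_le _ _
        linarith
    _ = ((targetsC ι M).card / ((targetsC ι M).card + 1)) * (ε * ((sysZ ι e H).card : ℝ)) := by
        rw [nsmul_eq_mul]; field_simp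
    _ ≤ 1 * (ε * ((sysZ ι e H).card : ℝ)) := by
        apply mul_le_mul_of_nonneg_right _ (by positivity)
        rw [div_le_one (by positivity)]
        linarith
    _ = _ := one_mul _

/-- Weak approximation, with precision tending to infinity, for almost all smooth everywhere
locally soluble Fano cyclic covers. -/
theorem wa_C (ι : Type*) [Fintype ι] (hn3 : 3 ≤ Fintype.card ι) {m k : ℕ} (hm : 2 ≤ m)
    (hk1 : 1 ≤ k) {e : Fin 1 → ℕ} (he : ∀ j, e j + 2 = m * k)
    (hek : e 0 + 3 ≤ Fintype.card ι + k) (h1 : BadCountInt ι e) (h2 : BadCountReal ι e) :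
    ∃ N : ℕ → ℕ, Tendsto N atTop atTop ∧ Tendsto (fun H : ℕ =>
      (({f : Fin 1 → MvPolynomial ι ℤ | (∀ j, (f j).IsHomogeneous (e j + 2) ∧
          ∀ a, |(f j).coeff a| ≤ (H : ℤ)) ∧ SmoothS f ∧ ElsW m f ∧
          WAC m k (N H) (H : ℝ) (f 0)} : Set _).ncard : ℝ) /
      (({f : Fin 1 → MvPolynomial ι ℤ | (∀ j, (f j).IsHomogeneous (e j + 2) ∧
          ∀ a, |(f j).coeff a| ≤ (H : ℤ)) ∧ SmoothS f ∧ ElsW m f} : Set _).ncard : ℝ))
      atTop (𝓝 1) := by
  classical
  simp only [ncard_eq_filterS]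
  obtain ⟨c, hc0, H₁, hH₁⟩ := pos_C ι hn3 (e 0) m k hm hk1 (he 0) hek
  have hT : ∀ᶠ H : ℕ in atTop, (0 : ℝ) < ((sysZ ι e (H : ℝ)).card : ℝ) := by
    filter_upwards with H
    rw [card_sysZ]
    push_cast
    apply Finset.prod_pos
    intro j _
    exact_mod_cast card_forms_pos (ι := ι) (e j + 2) (Nat.cast_nonneg H)
  have hca : ∀ᶠ H : ℕ in atTop, c * ((sysZ ι e (H : ℝ)).card : ℝ) ≤
      (((sysZ ι e (H : ℝ)).filter (fun f => ElsW m f)).card : ℝ) := by
    filter_upwards [eventually_ge_atTop ⌈H₁⌉₊] with H hH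
    have h1 := hH₁ (H : ℝ) ((Nat.le_ceil H₁).trans (by exact_mod_cast hH))
    rw [card_sys_one]
    refine h1.trans ?_
    exact card_le_sys _ _ (fun f hf => els_of_pt (pt_of_sol (f := f) hf))
  have hns : ∀ ε : ℝ, 0 < ε → ∀ᶠ H : ℕ in atTop,
      (((sysZ ι e (H : ℝ)).filter (fun f => ¬ SmoothS f)).card : ℝ) ≤
        ε * ((sysZ ι e (H : ℝ)).card : ℝ) := by
    intro ε hε
    obtain ⟨H₀, hH₀⟩ := smooth_dense ι e ε hε
    filter_upwards [eventually_ge_atTop ⌈H₀⌉₊] with H hH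
    have h1 := hH₀ (H : ℝ) ((Nat.le_ceil H₀).trans (by exact_mod_cast hH))
    exact (card_filter_le' _ _ _ (fun _ _ h => h)).trans h1
  have hwa : ∀ j : ℕ, ∀ᶠ H : ℕ in atTop,
      (((sysZ ι e (H : ℝ)).filter (fun f => ¬ WAC m k (j + 1) (H : ℝ) (f 0))).card : ℝ) ≤
        1 / (j + 1) * ((sysZ ι e (H : ℝ)).card : ℝ) := by
    intro j
    obtain ⟨H₀, hH₀⟩ := wa_excC ι hn3 hm hk1 he hek h1 h2 (N := j + 1) (by omega)
      (ε := 1 / (j + 1)) (by positivity)
    filter_upwards [eventually_ge_atTop ⌈H₀⌉₊] with H hH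
    have h3 := hH₀ (H : ℝ) ((Nat.le_ceil H₀).trans (by exact_mod_cast hH))
    exact (card_filter_le' _ _ _ (fun _ _ h => h)).trans h3
  obtain ⟨N, hN1, hN2⟩ := diag hwa
  have hN3 : ∀ ε : ℝ, 0 < ε → ∀ᶠ H : ℕ in atTop,
      (((sysZ ι e (H : ℝ)).filter (fun f => ¬ WAC m k (N H + 1) (H : ℝ) (f 0))).card : ℝ) ≤
        ε * ((sysZ ι e (H : ℝ)).card : ℝ) := by
    intro ε hε
    obtain ⟨j, hj⟩ := exists_nat_gt (1 / ε)
    filter_upwards [hN2, tendsto_atTop.mp hN1 j, hT] with H h3 h4 h5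
    refine h3.trans (mul_le_mul_of_nonneg_right ?_ h5.le)
    have h6 : (j : ℝ) ≤ N H := by exact_mod_cast h4
    rw [div_le_iff₀ (by positivity)]
    rw [div_lt_iff₀ hε] at hj
    nlinarith
  refine ⟨fun H => N H + 1, tendsto_atTop_mono (fun H => Nat.le_succ _) hN1, ?_⟩
  refine ratio_one (c := c / 2) (T := fun H : ℕ => ((sysZ ι e (H : ℝ)).card : ℝ))
    (by positivity) hT (fun H => card_filter_le' _ _ _ (fun f _ h => ⟨h.1, h.2.1⟩)) ?_ ?_
  · filter_upwards [hca, hns (c / 4) (by positivity), hN3 (c / 4) (by positivity)] with H h3 h4 h5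
    have h6 : (((sysZ ι e (H : ℝ)).filter (fun f => ElsW m f)).card : ℝ) ≤
        (((sysZ ι e (H : ℝ)).filter (fun f => ¬ SmoothS f)).card : ℝ) +
        (((sysZ ι e (H : ℝ)).filter (fun f => ElsW m f ∧ SmoothS f)).card : ℝ) :=
      card_filter_le_add' _ _ _ _ (fun f _ hf => by
        by_cases hs : SmoothS f
        · right; exact ⟨hf, hs⟩
        · left; exact hs)
    have h7 : (((sysZ ι e (H : ℝ)).filter (fun f => ElsW m f ∧ SmoothS f)).card : ℝ) ≤
        (((sysZ ι e (H : ℝ)).filter (fun f => ¬ WAC m k (N H + 1) (H : ℝ) (f 0))).card : ℝ) +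
        (((sysZ ι e (H : ℝ)).filter (fun f => SmoothS f ∧ ElsW m f ∧
          WAC m k (N H + 1) (H : ℝ) (f 0))).card : ℝ) :=
      card_filter_le_add' _ _ _ _ (fun f _ hf => by
        by_cases hs : WAC m k (N H + 1) (H : ℝ) (f 0)
        · right; exact ⟨hf.2, hf.1, hs⟩
        · left; exact hs)
    have h8 : c / 2 * ((sysZ ι e (H : ℝ)).card : ℝ) ≤
        (((sysZ ι e (H : ℝ)).filter (fun f => SmoothS f ∧ ElsW m f ∧
          WAC m k (N H + 1) (H : ℝ) (f 0))).card : ℝ) := by linarith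
    exact h8.trans (card_filter_le' _ _ _ (fun _ _ h => h))
  · intro ε hε
    filter_upwards [hN3 ε hε] with H h3
    have h4 : (((sysZ ι e (H : ℝ)).filter (fun f => SmoothS f ∧ ElsW m f)).card : ℝ) ≤
        (((sysZ ι e (H : ℝ)).filter (fun f => ¬ WAC m k (N H + 1) (H : ℝ) (f 0))).card : ℝ) +
        (((sysZ ι e (H : ℝ)).filter (fun f => SmoothS f ∧ ElsW m f ∧
          WAC m k (N H + 1) (H : ℝ) (f 0))).card : ℝ) :=
      card_filter_le_add' _ _ _ _ (fun f _ hf => by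
        by_cases hs : WAC m k (N H + 1) (H : ℝ) (f 0)
        · right; exact ⟨hf.1, hf.2, hs⟩
        · left; exact hs)
    have h5 : (((sysZ ι e (H : ℝ)).filter (fun f => SmoothS f ∧ ElsW m f)).card : ℝ) -
        (((sysZ ι e (H : ℝ)).filter (fun f => SmoothS f ∧ ElsW m f ∧
          WAC m k (N H + 1) (H : ℝ) (f 0))).card : ℝ) ≤
        ε * ((sysZ ι e (H : ℝ)).card : ℝ) := by linarith
    exact (sub_le_sub (card_filter_le' _ _ _ (fun _ _ h => h))
      (card_filter_le' _ _ _ (fun _ _ h => h))).trans h5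

end Pool.Agent.Run7.h443.CD
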