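import Pool.Agent.Run7.h443.CD.Geo

/-!
# The `p`-adic data of a class and the intervals for the last variable
-/

namespace Pool.Agent.Run7.h443.CD

open Finset
open Pool.Agent.Y716.Q

/-- congruence of values of a polynomial -/
theorem eval_congr' {ι : Type*} [Fintype ι] (f : MvPolynomial ι ℤ) {M : ℕ} {x y : ι → ℤ}
    (h : ∀ i, (M : ℤ) ∣ x i - y i) : (M : ℤ) ∣ MvPolynomial.eval x f - MvPolynomial.eval y f := by
  have h1 : ∀ i, ((x i : ℤ) : ZMod M) = ((y i : ℤ) : ZMod M) := by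
    intro i
    have := h i
    rw [← ZMod.intCast_zmod_eq_zero_iff_dvd] at this
    push_cast at this
    exact sub_eq_zero.mp this
  rw [← ZMod.intCast_zmod_eq_zero_iff_dvd]
  push_cast
  rw [sub_eq_zero]
  rw [MvPolynomial.eval_eq', MvPolynomial.eval_eq']
  push_cast
  simp only [h1]

/-- values at proportional vectors modulo `D` -/
theorem eval_prop {ι : Type*} [Fintype ι] {f : MvPolynomial ι ℤ} {d : ℕ} (hf : f.IsHomogeneous d)
    {D : ℕ} {c : ℤ} {x y : ι → ℤ} (h : ∀ i, (D : ℤ) ∣ y i - c * x i) :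
    (D : ℤ) ∣ MvPolynomial.eval y f - c ^ d * MvPolynomial.eval x f := by
  have h1 := eval_congr' f (M := D) (x := y) (y := fun i => c * x i) h
  have h2 : MvPolynomial.eval (fun i => c * x i) f = c ^ d * MvPolynomial.eval x f := by
    rw [MvPolynomial.eval_eq', MvPolynomial.eval_eq', Finset.mul_sum]
    refine Finset.sum_congr rfl fun m hm => ?_
    have h3 := homog_sum_eq hf (MvPolynomial.mem_support_iff.mp hm)
    simp only [mul_pow]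
    rw [Finset.prod_mul_distrib, Finset.prod_pow_eq_pow_sum, h3]
    ring
  rw [h2] at h1
  exact h1

/-- The sum `∑ w ^ i * w' ^ (m - 1 - i)`. -/
def gs (m : ℕ) (w w' : ℤ) : ℤ := ∑ i ∈ Finset.range m, w ^ i * w' ^ (m - 1 - i)

theorem gs_mul (m : ℕ) (w w' : ℤ) : gs m w w' * (w - w') = w ^ m - w' ^ m := by
  unfold gs
  exact (Commute.all w w').geom_sum₂_mul m

theorem gs_congr (m : ℕ) {S : ℕ} {w w' y : ℤ} (hw : (S : ℤ) ∣ w - y) (hw' : (S : ℤ) ∣ w' - y) :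
    (S : ℤ) ∣ gs m w w' - m * y ^ (m - 1) := by
  rw [← ZMod.intCast_zmod_eq_zero_iff_dvd] at hw hw' ⊢
  push_cast at hw hw' ⊢
  rw [sub_eq_zero] at hw hw' ⊢
  unfold gs
  push_cast
  rw [hw, hw']
  rw [Finset.sum_congr rfl (g := fun _ => (y : ZMod S) ^ (m - 1))]
  · rw [Finset.sum_const, Finset.card_range, nsmul_eq_mul]
  · intro i hi
    rw [← pow_add]
    congr 1
    have := Finset.mem_range.mp hi
    omega

/-- the `p`-adic data of a class of cyclic covers -/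
structure CData {ι : Type*} [Fintype ι] (w₀ : ℕ) (fc : MvPolynomial ι ℤ) (m S J : ℕ)
    (xc : ι → ℤ) (yc : ℤ) : Prop where
  hS : 0 < S
  hJ : 0 < J
  hJS : J ∣ S
  hPJ : ∀ p : ℕ, p.Prime → p ≤ w₀ → p * J ∣ S
  hSW : ∀ p : ℕ, p.Prime → p ∣ S → p ≤ w₀
  hder : ∃ J' : ℤ, (m : ℤ) * yc ^ (m - 1) = J * J' ∧ ∀ p : ℕ, p.Prime → p ≤ w₀ → ¬ (p : ℤ) ∣ J'
  hdiv : ((S * J : ℕ) : ℤ) ∣ yc ^ m - MvPolynomial.eval xc fc
  hprim : ∀ p : ℕ, p.Prime → p ≤ w₀ → ∃ i, ¬ (p : ℤ) ∣ xc i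

section
variable {ι : Type*} [Fintype ι] {w₀ : ℕ} {fc : MvPolynomial ι ℤ} {m S J : ℕ} {xc : ι → ℤ} {yc : ℤ}

theorem CData.pos (h : CData w₀ fc m S J xc yc) : 0 < S * J := Nat.mul_pos h.hS h.hJ

theorem CData.class_dvd (h : CData w₀ fc m S J xc yc) {x : ι → ℤ} {w : ℤ}
    (hx : ∀ i, ((S * J : ℕ) : ℤ) ∣ x i - xc i) (hw : (S : ℤ) ∣ w - yc) :
    ((S * J : ℕ) : ℤ) ∣ w ^ m - MvPolynomial.eval x fc := by
  obtain ⟨J', hJ', _⟩ := h.hder
  have h1 := gs_congr m hw (by simp : (S : ℤ) ∣ yc - yc)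
  have h2 : (J : ℤ) ∣ gs m w yc := by
    have e1 : (J : ℤ) ∣ gs m w yc - m * yc ^ (m - 1) :=
      (by exact_mod_cast h.hJS : (J : ℤ) ∣ (S : ℤ)).trans h1
    have e2 : (J : ℤ) ∣ m * yc ^ (m - 1) := ⟨J', hJ'⟩
    have := dvd_add e1 e2
    rwa [sub_add_cancel] at this
  have h3 : ((S * J : ℕ) : ℤ) ∣ w ^ m - yc ^ m := by
    rw [← gs_mul]
    push_cast
    rw [mul_comm]
    exact mul_dvd_mul h2 hw
  have h4 := eval_congr' fc hx
  have h5 := dvd_sub (dvd_add h3 h.hdiv) h4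
  have e : w ^ m - yc ^ m + (yc ^ m - MvPolynomial.eval xc fc) -
      (MvPolynomial.eval x fc - MvPolynomial.eval xc fc) = w ^ m - MvPolynomial.eval x fc := by
    ring
  rwa [e] at h5

/-- Injectivity of the `m`-th power map on the class modulo smooth numbers. -/
theorem CData.inj (h : CData w₀ fc m S J xc yc) {K : ℕ}
    (hK : ∀ p : ℕ, p.Prime → p ∣ K → p ≤ w₀) {w w' : ℤ} (hw : (S : ℤ) ∣ w - yc)
    (hw' : (S : ℤ) ∣ w' - yc) (hd : ((S * J * K : ℕ) : ℤ) ∣ w ^ m - w' ^ m) :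
    ((S * K : ℕ) : ℤ) ∣ w - w' := by
  obtain ⟨J', hJ', hJp⟩ := h.hder
  obtain ⟨r, hr⟩ := gs_congr m hw hw'
  obtain ⟨T, hT⟩ := h.hJS
  have hgs : gs m w w' = J * (J' + T * r) := by
    have e1 : (S : ℤ) = J * T := by exact_mod_cast hT
    have e2 : gs m w w' = m * yc ^ (m - 1) + S * r := by linarith
    rw [e2, hJ', e1]; ring
  obtain ⟨t, ht⟩ : (S : ℤ) ∣ w - w' := by
    have := dvd_sub hw hw'
    rwa [sub_sub_sub_cancel_right] at this
  rw [← gs_mul, hgs, ht] at hd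
  have hSJ : ((S * J : ℕ) : ℤ) ≠ 0 := by exact_mod_cast h.pos.ne'
  have e3 : ((J : ℤ) * (J' + T * r)) * (S * t) = ((S * J : ℕ) : ℤ) * ((J' + T * r) * t) := by
    push_cast; ring
  have e4 : ((S * J * K : ℕ) : ℤ) = ((S * J : ℕ) : ℤ) * (K : ℤ) := by push_cast; ring
  rw [e3, e4] at hd
  have h1 : (K : ℤ) ∣ (J' + T * r) * t := Int.dvd_of_mul_dvd_mul_left hSJ hd
  have hcop : IsCoprime (K : ℤ) (J' + T * r) := by
    rw [Int.isCoprime_iff_gcd_eq_one]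
    by_contra hne
    obtain ⟨p, hp, hpd⟩ := Nat.exists_prime_and_dvd hne
    have hpK : (p : ℤ) ∣ (K : ℤ) := (Int.natCast_dvd_natCast.mpr hpd).trans (Int.gcd_dvd_left _ _)
    have hpJ : (p : ℤ) ∣ (J' + T * r) :=
      (Int.natCast_dvd_natCast.mpr hpd).trans (Int.gcd_dvd_right _ _)
    have hpw := hK p hp (by exact_mod_cast hpK)
    have hpT : (p : ℤ) ∣ (T : ℤ) := by
      have h2 := h.hPJ p hp hpw
      rw [hT, mul_comm p J] at h2
      have h3 := Nat.dvd_of_mul_dvd_mul_left h.hJ h2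
      exact_mod_cast h3
    have h4 := dvd_sub hpJ (Dvd.dvd.mul_right hpT r)
    rw [add_sub_cancel_right] at h4
    exact hJp p hp hpw h4
  have h2 : (K : ℤ) ∣ t := hcop.dvd_of_dvd_mul_left h1
  rw [ht]
  push_cast
  exact mul_dvd_mul_left _ h2

end

/-! ### Intervals for the last variable -/

theorem pow_sub_ge {m : ℕ} (hm : 1 ≤ m) {a b c : ℝ} (hc : 0 ≤ c) (ha : c ≤ a) (hab : a ≤ b) :
    m * c ^ (m - 1) * (b - a) ≤ b ^ m - a ^ m := by
  have h1 : (∑ i ∈ Finset.range m, b ^ i * a ^ (m - 1 - i)) * (b - a) = b ^ m - a ^ m :=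
    (Commute.all b a).geom_sum₂_mul m
  rw [← h1]
  apply mul_le_mul_of_nonneg_right _ (by linarith)
  have h2 : ∀ i ∈ Finset.range m, c ^ (m - 1) ≤ b ^ i * a ^ (m - 1 - i) := by
    intro i hi
    have h3 : m - 1 = i + (m - 1 - i) := by
      have := Finset.mem_range.mp hi
      omega
    calc c ^ (m - 1) = c ^ i * c ^ (m - 1 - i) := by rw [← pow_add, ← h3]
      _ ≤ b ^ i * a ^ (m - 1 - i) := mul_le_mul (pow_le_pow_left₀ hc (by linarith) _)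
        (pow_le_pow_left₀ hc ha _) (by positivity) (pow_nonneg (by linarith) _)
  have h3 := Finset.sum_le_sum h2
  rwa [Finset.sum_const, Finset.card_range, nsmul_eq_mul] at h3

theorem pow_sub_le {m : ℕ} {a b c : ℝ} (ha : 0 ≤ a) (hab : a ≤ b) (hbc : b ≤ c) :
    b ^ m - a ^ m ≤ m * c ^ (m - 1) * (b - a) := by
  have h1 : (∑ i ∈ Finset.range m, b ^ i * a ^ (m - 1 - i)) * (b - a) = b ^ m - a ^ m :=
    (Commute.all b a).geom_sum₂_mul m
  rw [← h1]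
  apply mul_le_mul_of_nonneg_right _ (by linarith)
  have hb : 0 ≤ b := by linarith
  have hc : 0 ≤ c := by linarith
  have h2 : ∀ i ∈ Finset.range m, b ^ i * a ^ (m - 1 - i) ≤ c ^ (m - 1) := by
    intro i hi
    have h3 : m - 1 = i + (m - 1 - i) := by
      have := Finset.mem_range.mp hi
      omega
    calc b ^ i * a ^ (m - 1 - i) ≤ c ^ i * c ^ (m - 1 - i) :=
          mul_le_mul (pow_le_pow_left₀ hb hbc _)
          (pow_le_pow_left₀ ha (by linarith) _) (by positivity) (by positivity)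
      _ = c ^ (m - 1) := by rw [← pow_add, ← h3]
  have h3 := Finset.sum_le_sum h2
  rwa [Finset.sum_const, Finset.card_range, nsmul_eq_mul] at h3

/-- a positive number whose `m`-th power is large is large -/
theorem root_ge {m : ℕ} (hm : 1 ≤ m) {τ φ w : ℝ} (hτ0 : 0 ≤ τ) (hτ1 : τ ≤ 1) (hφ : 0 ≤ φ)
    (hw : 0 ≤ w) (h : (1 - τ) * φ ^ m ≤ w ^ m) : (1 - τ) * φ ≤ w := by
  have h1 : ((1 - τ) * φ) ^ m ≤ w ^ m := by
    refine le_trans ?_ h
    rw [mul_pow]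
    apply mul_le_mul_of_nonneg_right _ (by positivity)
    exact pow_le_of_le_one (by linarith) (by linarith) (by omega)
  exact le_of_pow_le_pow_left₀ (by omega) hw h1

theorem root_le {m : ℕ} (hm : 1 ≤ m) {τ φ w : ℝ} (hτ0 : 0 ≤ τ) (hφ : 0 ≤ φ)
    (h : w ^ m ≤ (1 + τ) * φ ^ m) : w ≤ (1 + τ) * φ := by
  have h1 : w ^ m ≤ ((1 + τ) * φ) ^ m := by
    refine h.trans ?_
    rw [mul_pow]
    apply mul_le_mul_of_nonneg_right _ (by positivity)
    exact le_self_pow₀ (by linarith) (by omega)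
  exact le_of_pow_le_pow_left₀ (by omega) (by positivity) h1

/-- Two admissible values of the last variable are close. -/
theorem w_close {m : ℕ} (hm : 1 ≤ m) {φ τ Δ₁ v : ℝ} (hφ : 0 < φ) (hτ0 : 0 ≤ τ) (hτ1 : τ ≤ 1 / 4)
    (hΔ : Δ₁ ≤ τ * φ ^ m) (hv : |v - φ ^ m| ≤ τ * φ ^ m) {w w' : ℤ} (hw : 0 < w) (hw' : 0 < w')
    (h : |(w : ℝ) ^ m - v| ≤ Δ₁) (h' : |(w' : ℝ) ^ m - v| ≤ Δ₁) :
    (w : ℝ) - w' ≤ 2 * Δ₁ / (m * ((1 - 2 * τ) * φ) ^ (m - 1)) := by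
  have hw0 : (0:ℝ) < w := by exact_mod_cast hw
  have hw'0 : (0:ℝ) < w' := by exact_mod_cast hw'
  have hm0 : (0:ℝ) < m := by exact_mod_cast hm
  have h1 := abs_le.mp h
  have h2 := abs_le.mp h'
  have h3 := abs_le.mp hv
  have hpos : 0 < (m:ℝ) * ((1 - 2 * τ) * φ) ^ (m - 1) := by
    have : 0 < (1 - 2 * τ) * φ := mul_pos (by linarith) hφ
    positivity
  have hΔ0 : 0 ≤ Δ₁ := (abs_nonneg _).trans h
  rcases le_total w w' with hle | hle
  · have : (w : ℝ) ≤ w' := by exact_mod_cast hle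
    have : 0 ≤ 2 * Δ₁ / (m * ((1 - 2 * τ) * φ) ^ (m - 1)) := by positivity
    linarith
  · have hle' : (w' : ℝ) ≤ w := by exact_mod_cast hle
    have h4 : (1 - 2 * τ) * φ ≤ w' := root_ge hm (by linarith) (by linarith) hφ.le hw'0.le
      (by linarith)
    have h5 := pow_sub_ge hm (mul_nonneg (by linarith) hφ.le : 0 ≤ (1 - 2 * τ) * φ) h4 hle'
    rw [le_div_iff₀ hpos]
    linarith

/-- The last variables. -/
noncomputable def Ws (φ : ℝ) (S : ℕ) (yc : ℤ) : Finset ℤ := icl 1 (2 * φ) S yc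

theorem mem_Ws {φ : ℝ} {S : ℕ} {yc w : ℤ} :
    w ∈ Ws φ S yc ↔ (1 ≤ w ∧ (w : ℝ) ≤ 2 * φ) ∧ (S : ℤ) ∣ w - yc := by
  unfold Ws
  rw [mem_icl]
  have : (1:ℝ) ≤ (w : ℝ) ↔ 1 ≤ w := by exact_mod_cast Iff.rfl
  rw [this]

/-- Many admissible values of the last variable. -/
theorem w_many {m : ℕ} (hm : 1 ≤ m) {φ τ Δ₁ v : ℝ} (hφ : 2 ≤ φ) (hτ0 : 0 ≤ τ) (hτ1 : τ ≤ 1 / 4)
    (hΔ0 : 0 ≤ Δ₁) (hΔ : Δ₁ ≤ τ * φ ^ m) (hv : |v - φ ^ m| ≤ τ * φ ^ m) {S : ℕ} (hS : 0 < S)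
    (yc : ℤ) :
    2 * Δ₁ / (m * ((1 + 2 * τ) * φ) ^ (m - 1)) / S - 1 ≤
      ((Ws φ S yc).filter (fun w : ℤ => |(w : ℝ) ^ m - v| ≤ Δ₁)).card := by
  have hφ0 : 0 < φ := by linarith
  have hm0 : (0:ℝ) < m := by exact_mod_cast hm
  have hmne : m ≠ 0 := by omega
  have h3 := abs_le.mp hv
  have hφm : 0 < φ ^ m := by positivity
  have ha0 : 0 ≤ v - Δ₁ := by nlinarith
  obtain ⟨a, ha, ham⟩ : ∃ a : ℝ, 0 ≤ a ∧ a ^ m = v - Δ₁ :=
    ⟨(v - Δ₁) ^ ((m : ℝ)⁻¹), by positivity, Real.rpow_inv_natCast_pow ha0 hmne⟩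
  obtain ⟨b, hb, hbm⟩ : ∃ b : ℝ, 0 ≤ b ∧ b ^ m = v + Δ₁ :=
    ⟨(v + Δ₁) ^ ((m : ℝ)⁻¹), by apply Real.rpow_nonneg; linarith,
      Real.rpow_inv_natCast_pow (by linarith) hmne⟩
  have hab : a ≤ b := by
    apply le_of_pow_le_pow_left₀ hmne hb
    rw [ham, hbm]; linarith
  have hble : b ≤ (1 + 2 * τ) * φ := root_le hm (by linarith) hφ0.le (by rw [hbm]; linarith)
  have hage : (1 - 2 * τ) * φ ≤ a := root_ge hm (by linarith) (by linarith) hφ0.le ha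
    (by rw [ham]; linarith)
  have h5 := pow_sub_le (m := m) ha hab hble
  rw [ham, hbm] at h5
  have hpos : 0 < (m:ℝ) * ((1 + 2 * τ) * φ) ^ (m - 1) := by positivity
  have hSr : (0:ℝ) < S := by exact_mod_cast hS
  have h6 : 2 * Δ₁ / (m * ((1 + 2 * τ) * φ) ^ (m - 1)) ≤ b - a := by
    rw [div_le_iff₀ hpos]
    linarith
  have h7 := card_icl_ge (a := a) (b := b) hS yc
  have h8 : 2 * Δ₁ / (m * ((1 + 2 * τ) * φ) ^ (m - 1)) / S ≤ (b - a) / S :=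
    div_le_div_of_nonneg_right h6 hSr.le
  have h9 : icl a b S yc ⊆ (Ws φ S yc).filter (fun w : ℤ => |(w : ℝ) ^ m - v| ≤ Δ₁) := by
    intro w hw
    rw [mem_icl] at hw
    obtain ⟨⟨h1, h2⟩, h4⟩ := hw
    rw [Finset.mem_filter]
    refine ⟨?_, ?_⟩
    · unfold Ws
      rw [mem_icl]
      exact ⟨⟨by nlinarith, by nlinarith⟩, h4⟩
    · have e1 := pow_le_pow_left₀ ha h1 m
      have e2 := pow_le_pow_left₀ (ha.trans h1) h2 m
      rw [abs_le]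
      constructor <;> linarith
  have h10 : ((icl a b S yc).card : ℝ) ≤
      (((Ws φ S yc).filter (fun w : ℤ => |(w : ℝ) ^ m - v| ≤ Δ₁)).card : ℝ) := by
    exact_mod_cast Finset.card_le_card h9
  linarith

end Pool.Agent.Run7.h443.CD
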