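import Pool.Agent.R465.CV.Pad
import Pool.Agent.R465.CV.Loc
import Pool.Agent.Run7.h443.CD.Cls

/-!
# The `p`-adic data of a form for which the cyclic cover has local points
-/

set_option autoImplicit false

namespace Pool.Agent.Run7.h443.CD

open Pool.Agent.Y716.Q

variable {ι : Type*} [Fintype ι]

/-- Newton's method in the direction `i`. -/
theorem newton {p : ℕ} (hp : p.Prime) {b : ℕ} (F : MvPolynomial ι ℤ) (z : ι → ℤ) (i : ι) (c : ℤ)
    {u : ℤ} (hu : MvPolynomial.eval z (MvPolynomial.pderiv i F) = (p : ℤ) ^ b * u)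
    (hpu : ¬ (p : ℤ) ∣ u) (h0 : (p : ℤ) ^ (2 * b + 1) ∣ MvPolynomial.eval z F - c) (n : ℕ) :
    ∃ x : ι → ℤ, (∀ k, (p : ℤ) ^ (b + 1) ∣ x k - z k) ∧
      (p : ℤ) ^ (2 * b + 1 + n) ∣ MvPolynomial.eval x F - c := by
  classical
  have hpr := Nat.prime_iff_prime_int.1 hp
  induction n with
  | zero => exact ⟨z, fun k => by simp, by simpa using h0⟩
  | succ n ih =>
    obtain ⟨x, hx, v, hv⟩ := ih
    have h1 : (p : ℤ) ^ (b + 1) ∣ MvPolynomial.eval x (MvPolynomial.pderiv i F) -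
        MvPolynomial.eval z (MvPolynomial.pderiv i F) := by
      have := eval_congr' (MvPolynomial.pderiv i F) (M := p ^ (b + 1)) (x := x) (y := z)
        (fun k => by push_cast; exact hx k)
      push_cast at this
      exact this
    obtain ⟨d, hd⟩ := h1
    obtain ⟨u', hu'⟩ : ∃ u', u' = u + p * d := ⟨_, rfl⟩
    have hD : MvPolynomial.eval x (MvPolynomial.pderiv i F) = (p : ℤ) ^ b * u' := by
      rw [hu'] 
      have : MvPolynomial.eval x (MvPolynomial.pderiv i F) = (p : ℤ) ^ b * u + (p : ℤ) ^ (b + 1) * d := by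
        rw [← hu, ← hd]; ring
      rw [this]; ring
    have hpu' : ¬ (p : ℤ) ∣ u' := by
      intro h
      apply hpu
      rw [hu'] at h
      exact (dvd_add_left (dvd_mul_right _ _)).mp h
    -- solve `v + s u' ≡ 0`
    obtain ⟨s, hs⟩ : ∃ s : ℤ, (p : ℤ) ∣ v + s * u' := by
      have hcop : IsCoprime (p : ℤ) u' := (hpr.coprime_iff_not_dvd).2 hpu'
      obtain ⟨a, a', ha⟩ := hcop
      refine ⟨-v * a', ?_⟩
      refine ⟨v * a, ?_⟩
      have : v = v * (a * p + a' * u') := by rw [ha, mul_one]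
      linear_combination this
    obtain ⟨q, hq⟩ := Pool.Agent.Y67.HP.taylor' F x (fun k => if k = i then s else 0)
      ((p : ℤ) ^ (b + 1 + n))
    refine ⟨fun k => x k + (p : ℤ) ^ (b + 1 + n) * (if k = i then s else 0), fun k => ?_, ?_⟩
    · have h2 : (p : ℤ) ^ (b + 1) ∣ (p : ℤ) ^ (b + 1 + n) * (if k = i then s else 0) :=
        Dvd.dvd.mul_right (pow_dvd_pow _ (by omega)) _
      have := dvd_add (hx k) h2
      have e : x k + (p : ℤ) ^ (b + 1 + n) * (if k = i then s else 0) - z k =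
        x k - z k + (p : ℤ) ^ (b + 1 + n) * (if k = i then s else 0) := by ring
      rw [e]; exact this
    · have h3 : ∑ k, (if k = i then s else 0) * MvPolynomial.eval x (MvPolynomial.pderiv k F) =
          s * ((p : ℤ) ^ b * u') := by
        rw [Finset.sum_eq_single i, if_pos rfl, hD]
        · intro k _ hk; rw [if_neg hk, zero_mul]
        · intro h; exact absurd (Finset.mem_univ i) h
      rw [hq, h3]
      obtain ⟨t, ht⟩ := hs
      have e : MvPolynomial.eval x F + (p : ℤ) ^ (b + 1 + n) * (s * ((p : ℤ) ^ b * u')) +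
          ((p : ℤ) ^ (b + 1 + n)) ^ 2 * q - c =
          (p : ℤ) ^ (2 * b + 1 + (n + 1)) * (t + p ^ n * q) := by
        have e1 : MvPolynomial.eval x F - c = (p : ℤ) ^ (2 * b + 1 + n) * v := hv
        have e2 : (p : ℤ) ^ (b + 1 + n) * (s * ((p : ℤ) ^ b * u')) =
          (p : ℤ) ^ (2 * b + 1 + n) * (s * u') := by
          rw [show 2 * b + 1 + n = (b + 1 + n) + b by ring, pow_add _ (b + 1 + n) b]; ring
        have e3 : ((p : ℤ) ^ (b + 1 + n)) ^ 2 * q = (p : ℤ) ^ (2 * b + 1 + (n + 1)) * (p ^ n * q) := by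
          rw [← pow_mul, ← mul_assoc, ← pow_add]
          congr 2
          ring
        have e4 : (p : ℤ) ^ (2 * b + 1 + (n + 1)) * t = (p : ℤ) ^ (2 * b + 1 + n) * (v + s * u') := by
          rw [ht]; rw [← add_assoc, pow_succ]; ring
        rw [mul_add, e4, ← e3, mul_add, ← e1, ← e2]
        ring
      rw [e]
      exact dvd_mul_right _ _

/-- the multiplicity of `p` in a nonzero integer -/
theorem exists_val {p : ℕ} (hp : p.Prime) {a : ℤ} (ha : a ≠ 0) :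
    ∃ (j : ℕ) (u : ℤ), a = (p : ℤ) ^ j * u ∧ ¬ (p : ℤ) ∣ u := by
  have hfin : FiniteMultiplicity (p : ℤ) a := by
    rw [Int.finiteMultiplicity_iff]
    exact ⟨by simpa using hp.ne_one, ha⟩
  obtain ⟨u, hu, hpu⟩ := hfin.exists_eq_pow_mul_and_not_dvd
  exact ⟨_, u, hu, hpu⟩

theorem val_nat_lt {p : ℕ} (hp : p.Prime) {m : ℕ} (hm : 1 ≤ m) :
    ∃ (v : ℕ) (u : ℤ), v < m ∧ (m : ℤ) = (p : ℤ) ^ v * u ∧ ¬ (p : ℤ) ∣ u := by
  obtain ⟨v, m', hm', hmv⟩ := Nat.exists_eq_pow_mul_and_not_dvd (n := m) (by omega) p hp.ne_one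
  refine ⟨v, m', ?_, by exact_mod_cast hmv, by exact_mod_cast hm'⟩
  have h1 : p ^ v ≤ m := Nat.le_of_dvd (by omega) ⟨m', hmv⟩
  have h2 : v < p ^ v := Nat.lt_pow_self hp.one_lt
  omega

/-- A good local point at a prime. -/
theorem local_pt {m : ℕ} (hm : 2 ≤ m) {p ℓ : ℕ} (hp : p.Prime) {F : MvPolynomial ι ℤ}
    {E : ℕ} (hE : 2 * (m + m * (2 * ℓ + 1)) + 1 ≤ E) {r : ι} {z : ι → ℤ} (hz : z r = 1) {y : ℤ}
    (hy : (p : ℤ) ^ E ∣ MvPolynomial.eval z F - y ^ m)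
    (hbad : ¬ ((p : ℤ) ^ ℓ ∣ MvPolynomial.eval z F ∧
      ∀ i, (p : ℤ) ^ ℓ ∣ MvPolynomial.eval z (MvPolynomial.pderiv i F))) :
    ∃ (x : ι → ℤ) (y' : ℤ) (j : ℕ) (u : ℤ), (∃ i, ¬ (p : ℤ) ∣ x i) ∧ 2 * j + 1 ≤ E ∧
      (m : ℤ) * y' ^ (m - 1) = (p : ℤ) ^ j * u ∧ ¬ (p : ℤ) ∣ u ∧
      (p : ℤ) ^ E ∣ y' ^ m - MvPolynomial.eval x F := by
  have hpr := Nat.prime_iff_prime_int.1 hp
  have hp1 : ¬ (p : ℤ) ∣ 1 := fun h => by
    have h2 : p ∣ 1 := by exact_mod_cast h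
    exact hp.one_lt.ne' (Nat.dvd_one.mp h2)
  obtain ⟨v, um, hvm, hum, hpum⟩ := val_nat_lt hp (by omega : 1 ≤ m)
  have hprod : ∀ u₁ : ℤ, ¬ (p : ℤ) ∣ u₁ → ¬ (p : ℤ) ∣ um * u₁ ^ (m - 1) := by
    intro u₁ hu₁ h
    rcases hpr.dvd_or_dvd h with h | h
    · exact hpum h
    · exact hu₁ (hpr.dvd_of_dvd_pow h)
  by_cases hc : (p : ℤ) ^ (2 * ℓ + 1) ∣ y ^ m
  · -- `y` is very divisible: use the gradient
    have hF : (p : ℤ) ^ (2 * ℓ + 1) ∣ MvPolynomial.eval z F := by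
      have h1 : (p : ℤ) ^ (2 * ℓ + 1) ∣ MvPolynomial.eval z F - y ^ m :=
        (pow_dvd_pow _ (by nlinarith)).trans hy
      have := dvd_add h1 hc
      rwa [sub_add_cancel] at this
    have hF' : (p : ℤ) ^ ℓ ∣ MvPolynomial.eval z F := (pow_dvd_pow _ (by omega)).trans hF
    obtain ⟨i, hi⟩ : ∃ i, ¬ (p : ℤ) ^ ℓ ∣ MvPolynomial.eval z (MvPolynomial.pderiv i F) := by
      by_contra hcon
      push Not at hcon
      exact hbad ⟨hF', hcon⟩
    have hne : MvPolynomial.eval z (MvPolynomial.pderiv i F) ≠ 0 := by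
      intro h0; rw [h0] at hi; exact hi (dvd_zero _)
    obtain ⟨b, u, hbu, hpu⟩ := exists_val hp hne
    have hbℓ : b < ℓ := by
      by_contra hcon
      push Not at hcon
      apply hi
      rw [hbu]
      exact Dvd.dvd.mul_right (pow_dvd_pow _ hcon) _
    obtain ⟨ℓ', hℓ'⟩ : ∃ ℓ', ℓ' = 2 * ℓ + 1 := ⟨_, rfl⟩
    have hml : 2 * ℓ + 1 ≤ m * ℓ' := by rw [hℓ']; nlinarith
    obtain ⟨x, hx1, hx2⟩ := newton hp F z i (((p : ℤ) ^ ℓ') ^ m) hbu hpu (by
      apply dvd_sub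
      · exact (pow_dvd_pow _ (by omega)).trans hF
      · rw [← pow_mul]
        exact pow_dvd_pow _ (by nlinarith)) E
    refine ⟨x, (p : ℤ) ^ ℓ', v + (m - 1) * ℓ', um, ⟨r, fun h => ?_⟩, ?_, ?_, hpum, ?_⟩
    · have h1 := (dvd_pow_self (p : ℤ) (by omega : b + 1 ≠ 0)).trans (hx1 r)
      rw [hz] at h1
      have := dvd_sub h h1
      rw [sub_sub_cancel] at this
      exact hp1 this
    · have h1 : (m - 1) * ℓ' ≤ m * (2 * ℓ + 1) := by
        rw [hℓ']; exact Nat.mul_le_mul_right _ (by omega)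
      omega
    · rw [hum, ← pow_mul, mul_right_comm, ← pow_add, mul_comm ℓ']
    · have h1 : (p : ℤ) ^ E ∣ MvPolynomial.eval x F - ((p : ℤ) ^ ℓ') ^ m :=
        (pow_dvd_pow _ (by omega)).trans hx2
      rw [← dvd_neg, neg_sub]
      exact h1
  · have hy0 : y ≠ 0 := by
      intro h0
      apply hc
      rw [h0, zero_pow (by omega)]
      exact dvd_zero _
    obtain ⟨a, u, hau, hpu⟩ := exists_val hp hy0
    have ham : a * m ≤ 2 * ℓ := by
      by_contra hcon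
      push Not at hcon
      apply hc
      rw [hau, mul_pow, ← pow_mul]
      exact Dvd.dvd.mul_right (pow_dvd_pow _ (by omega)) _
    refine ⟨z, y, v + a * (m - 1), um * u ^ (m - 1), ⟨r, by rw [hz]; exact hp1⟩, ?_, ?_,
      hprod u hpu, ?_⟩
    · have h1 : a * (m - 1) ≤ a * m := Nat.mul_le_mul_left _ (by omega)
      nlinarith
    · rw [hum, hau, mul_pow, ← pow_mul, pow_add]; ring
    · rw [← dvd_neg, neg_sub]
      exact hy

/-- Combination of the local data. -/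
theorem cdata_of (w E m : ℕ) (F : MvPolynomial ι ℤ)
    (hloc : ∀ p ∈ primesUpTo w, ∃ (x : ι → ℤ) (y : ℤ) (j : ℕ) (u : ℤ), (∃ i, ¬ (p : ℤ) ∣ x i) ∧
      2 * j + 1 ≤ E ∧ (m : ℤ) * y ^ (m - 1) = (p : ℤ) ^ j * u ∧ ¬ (p : ℤ) ∣ u ∧
      (p : ℤ) ^ E ∣ y ^ m - MvPolynomial.eval x F) :
    ∃ (S J : ℕ) (xc : ι → ℤ) (yc : ℤ), CData w F m S J xc yc ∧
      S * J = (∏ p ∈ primesUpTo w, p) ^ E := by
  classical
  choose! X Y j u hX hj hJu hpu hval using hloc
  have hcopN : ∀ p ∈ primesUpTo w, ∀ q ∈ primesUpTo w, p ≠ q → ∀ a b : ℕ,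
      Nat.Coprime (p ^ a) (q ^ b) := by
    intro p hp q hq hne a b
    exact Nat.Coprime.pow _ _ (primes_coprime hp hq hne)
  have hcopZ : ∀ p ∈ primesUpTo w, ∀ q ∈ primesUpTo w, p ≠ q → ∀ a b : ℕ,
      IsCoprime ((p : ℤ) ^ a) ((q : ℤ) ^ b) := by
    intro p hp q hq hne a b
    exact (Nat.isCoprime_iff_coprime.mpr (primes_coprime hp hq hne)).pow
  have hcrt : ∀ T : ℕ → ℤ, ∃ y : ℤ, ∀ p ∈ primesUpTo w, (p : ℤ) ^ E ∣ y - T p := by
    intro T
    have := Ideal.exists_forall_sub_mem_ideal (R := ℤ)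
      (I := fun p : primesUpTo w => Ideal.span {((p : ℕ) : ℤ) ^ E}) (by
        intro p q hpq
        simp only [Function.onFun]
        rw [Ideal.isCoprime_span_singleton_iff]
        exact hcopZ _ p.2 _ q.2 (fun h => hpq (Subtype.ext h)) _ _) (fun p => T p)
    obtain ⟨y, hy⟩ := this
    exact ⟨y, fun p hp => Ideal.mem_span_singleton.mp (hy ⟨p, hp⟩)⟩
  choose xc hxc using fun i => hcrt (fun p => X p i)
  obtain ⟨yc, hyc⟩ := hcrt Y
  have hprime : ∀ p ∈ primesUpTo w, p.Prime := fun p hp => (mem_primesUpTo.mp hp).2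
  obtain ⟨S, hS⟩ : ∃ S : ℕ, S = ∏ p ∈ primesUpTo w, p ^ (E - j p) := ⟨_, rfl⟩
  obtain ⟨J, hJ⟩ : ∃ J : ℕ, J = ∏ p ∈ primesUpTo w, p ^ (j p) := ⟨_, rfl⟩
  have hSJ : S * J = (∏ p ∈ primesUpTo w, p) ^ E := by
    rw [hS, hJ, ← Finset.prod_mul_distrib, ← Finset.prod_pow]
    refine Finset.prod_congr rfl fun p hp => ?_
    rw [← pow_add]
    congr 1
    have := hj p hp
    omega
  have hS0 : 0 < S := by
    rw [hS]; exact Finset.prod_pos fun p hp => pow_pos (hprime p hp).pos _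
  have hJ0 : 0 < J := by
    rw [hJ]; exact Finset.prod_pos fun p hp => pow_pos (hprime p hp).pos _
  -- the derivative at `p`
  have hder : ∀ p ∈ primesUpTo w, (p : ℤ) ^ E ∣ (m : ℤ) * yc ^ (m - 1) - (p : ℤ) ^ j p * u p := by
    intro p hp
    rw [← hJu p hp, ← mul_sub]
    exact Dvd.dvd.mul_left ((hyc p hp).trans (sub_dvd_pow_sub_pow _ _ _)) _
  have hder1 : ∀ p ∈ primesUpTo w, (p : ℤ) ^ j p ∣ (m : ℤ) * yc ^ (m - 1) := by
    intro p hp
    have h1 : (p : ℤ) ^ j p ∣ (m : ℤ) * yc ^ (m - 1) - (p : ℤ) ^ j p * u p :=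
      (pow_dvd_pow _ (by have := hj p hp; omega)).trans (hder p hp)
    have := dvd_add h1 (dvd_mul_right ((p : ℤ) ^ j p) (u p))
    rwa [sub_add_cancel] at this
  have hder2 : ∀ p ∈ primesUpTo w, ¬ (p : ℤ) ^ (j p + 1) ∣ (m : ℤ) * yc ^ (m - 1) := by
    intro p hp h
    have h1 : (p : ℤ) ^ (j p + 1) ∣ (m : ℤ) * yc ^ (m - 1) - (p : ℤ) ^ j p * u p :=
      (pow_dvd_pow _ (by have := hj p hp; omega)).trans (hder p hp)
    have h2 := dvd_sub h h1
    rw [sub_sub_cancel, pow_succ] at h2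
    exact hpu p hp ((mul_dvd_mul_iff_left (pow_ne_zero _ (by
      exact_mod_cast (hprime p hp).ne_zero))).mp h2)
  obtain ⟨J', hJ'⟩ : (J : ℤ) ∣ (m : ℤ) * yc ^ (m - 1) := by
    rw [hJ]
    push_cast
    apply Finset.prod_dvd_of_coprime
    · intro p hp q hq hne
      exact hcopZ p hp q hq hne _ _
    · exact hder1
  refine ⟨S, J, xc, yc, ⟨hS0, hJ0, ?_, ?_, ?_, ⟨J', hJ', ?_⟩, ?_, ?_⟩, hSJ⟩
  · rw [hS, hJ]
    apply Finset.prod_dvd_prod_of_dvd
    intro p hp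
    exact pow_dvd_pow _ (by have := hj p hp; omega)
  · intro p hp1 hp2
    have hp : p ∈ primesUpTo w := mem_primesUpTo.mpr ⟨hp2, hp1⟩
    rw [hS, hJ, ← Finset.mul_prod_erase _ _ hp, ← Finset.mul_prod_erase (primesUpTo w)
      (fun q => q ^ (E - j q)) hp, ← mul_assoc, ← pow_succ']
    refine Nat.mul_dvd_mul (pow_dvd_pow _ (by have := hj p hp; omega)) ?_
    apply Finset.prod_dvd_prod_of_dvd
    intro q hq
    exact pow_dvd_pow _ (by have := hj q (Finset.mem_of_mem_erase hq); omega)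
  · intro p hp1 hpS
    rw [hS] at hpS
    obtain ⟨q, hq, hpq⟩ := (Prime.dvd_finsetProd_iff hp1.prime _).mp hpS
    have h3 := (Nat.prime_dvd_prime_iff_eq hp1 (hprime q hq)).mp (hp1.dvd_of_dvd_pow hpq)
    rw [h3]; exact (mem_primesUpTo.mp hq).1
  · intro p hp1 hp2 hd
    have hp : p ∈ primesUpTo w := mem_primesUpTo.mpr ⟨hp2, hp1⟩
    apply hder2 p hp
    rw [hJ', pow_succ]
    refine mul_dvd_mul ?_ hd
    have h1 : p ^ j p ∣ J := by
      rw [hJ]; exact Finset.dvd_prod_of_mem (fun q => q ^ j q) hp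
    exact_mod_cast h1
  · rw [hSJ, ← Finset.prod_pow]
    push_cast
    apply Finset.prod_dvd_of_coprime
    · intro p hp q hq hne
      exact hcopZ p hp q hq hne _ _
    intro p hp
    have h1 : (p : ℤ) ^ E ∣ yc ^ m - Y p ^ m := (hyc p hp).trans (sub_dvd_pow_sub_pow _ _ _)
    have h2 : (p : ℤ) ^ E ∣ MvPolynomial.eval xc F - MvPolynomial.eval (X p) F := by
      have := eval_congr' F (M := p ^ E) (x := xc) (y := X p)
        (fun k => by push_cast; exact hxc k p hp)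
      push_cast at this
      exact this
    have h3 := dvd_sub (dvd_add h1 (hval p hp)) h2
    have e : yc ^ m - Y p ^ m + (Y p ^ m - MvPolynomial.eval (X p) F) -
      (MvPolynomial.eval xc F - MvPolynomial.eval (X p) F) = yc ^ m - MvPolynomial.eval xc F := by
      ring
    rwa [e] at h3
  · intro p hp1 hp2
    have hp : p ∈ primesUpTo w := mem_primesUpTo.mpr ⟨hp2, hp1⟩
    obtain ⟨i, hi⟩ := hX p hp
    refine ⟨i, fun hd => hi ?_⟩
    have h1 : (p : ℤ) ∣ xc i - X p i :=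
      (dvd_pow_self (p : ℤ) (by have := hj p hp; omega : E ≠ 0)).trans (hxc i p hp)
    have := dvd_sub hd h1
    rwa [sub_sub_cancel] at this

end Pool.Agent.Run7.h443.CD
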