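import Pool.Agent.Run7.h443.CD.RealD
import Pool.Agent.Run7.h443.CD.Data

/-!
# Averaging over the classes
-/

set_option autoImplicit false

namespace Pool.Agent.Run7.h443.CD

open Pool.Agent.Y716.Q

variable {ι : Type*} [Fintype ι]

/-- forms with local data -/
def GoodC (e m w : ℕ) (κ H : ℝ) (Q : ℕ) (F : MvPolynomial ι ℤ) : Prop :=
  ∃ (S J : ℕ) (xc : ι → ℤ) (yc : ℤ) (ξ : ι → ℝ), CData w F m S J xc yc ∧ S * J = Q ∧
    IsF (e + 2) H F ∧ (∀ i, |ξ i| ≤ 1) ∧ (∃ r, |ξ r| = 1) ∧ 2 * κ * H ≤ MvPolynomial.aeval ξ F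

/-- integral points of the cover -/
def Sol1 (m : ℕ) (F : MvPolynomial ι ℤ) : Prop :=
  ∃ (x : ι → ℤ) (y : ℤ), x ≠ 0 ∧ y ^ m = MvPolynomial.eval x F

omit [Fintype ι] in
theorem prim_ne_zero {x : ι → ℤ} (h : Prim x) : x ≠ 0 := by
  intro h0
  have := h 0 (fun i => by rw [h0]; exact dvd_rfl)
  exact not_isUnit_zero this

theorem CData.shift {w : ℕ} {F : MvPolynomial ι ℤ} {m S J : ℕ} {xc : ι → ℤ} {yc : ℤ}
    (h : CData w F m S J xc yc) (g : MvPolynomial ι ℤ) :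
    CData w (F - MvPolynomial.C ((S * J : ℕ) : ℤ) * g) m S J xc yc := by
  refine ⟨h.hS, h.hJ, h.hJS, h.hPJ, h.hSW, h.hder, ?_, h.hprim⟩
  rw [map_sub, map_mul, MvPolynomial.eval_C]
  have := dvd_add h.hdiv (dvd_mul_right ((S * J : ℕ) : ℤ) (MvPolynomial.eval xc g))
  have e : yc ^ m - MvPolynomial.eval xc F + ((S * J : ℕ) : ℤ) * MvPolynomial.eval xc g =
    yc ^ m - (MvPolynomial.eval xc F - ((S * J : ℕ) : ℤ) * MvPolynomial.eval xc g) := by ring
  rwa [e] at this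

/-- the data of a class -/
def ClassC (e m w : ℕ) (κ H : ℝ) (Q : ℕ) (F : MvPolynomial ι ℤ) : Prop :=
  ∃ (S J : ℕ) (xc : ι → ℤ) (yc : ℤ) (ξ : ι → ℝ), CData w F m S J xc yc ∧ S * J = Q ∧
    RD e H κ F ξ

theorem GoodC.shift {e m w : ℕ} {κ η H : ℝ} {Q : ℕ} (hQ : 1 ≤ Q) {F g : MvPolynomial ι ℤ}
    (h : GoodC e m w κ H Q F) (hH : 0 < H) (hη1 : η ≤ 1)
    (hηκ : (mons ι (e + 2)).card * η ≤ κ) (hg : IsF (e + 2) (η * H / Q) g) :
    ClassC e m w κ H Q (F - MvPolynomial.C (Q : ℤ) * g) := by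
  obtain ⟨S, J, xc, yc, ξ, h1, h2, h3, h4, h5, h6⟩ := h
  have hQr : (0:ℝ) < Q := by exact_mod_cast hQ
  have hQA : |((Q : ℤ) : ℝ)| * (η * H / Q) = η * H := by
    rw [Int.cast_natCast, abs_of_pos hQr]
    field_simp
  have hQg : IsF (e + 2) (η * H) (MvPolynomial.C (Q : ℤ) * g) := by
    have := hg.C_mul (Q : ℤ)
    rwa [hQA] at this
  have hηH : η * H ≤ H := by nlinarith
  refine ⟨S, J, xc, yc, ξ, ?_, h2, ?_⟩
  · have := h1.shift g
    rwa [h2] at this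
  refine ⟨(h3.sub hQg).mono (by linarith), h4, h5, ?_⟩
  rw [map_sub]
  have h7 := abs_le.mp (hQg.aeval_le_one h4)
  have h8 := mul_le_mul_of_nonneg_right hηκ hH.le
  have h9 : ((mons ι (e + 2)).card : ℝ) * (η * H) = (mons ι (e + 2)).card * η * H := by ring
  linarith [h7.2]

open scoped Classical in
/-- averaging over the classes -/
theorem avg_countC {e m w : ℕ} {κ η H : ℝ} {Q : ℕ}
    (hQ : 1 ≤ Q) (hH : 0 < H) (hη : 0 ≤ η) (hη1 : η ≤ 1)
    (hηκ : (mons ι (e + 2)).card * η ≤ κ) (q : MvPolynomial ι ℤ → Prop) {ε : ℝ} (hε : 0 ≤ ε)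
    (hcl : ∀ f, ClassC e m w κ H Q f →
      (((formsZ ι (e + 2) (η * H / Q)).filter (fun g =>
        q (f + MvPolynomial.C (Q : ℤ) * g))).card : ℝ) ≤
        ε * (formsZ ι (e + 2) (η * H / Q)).card) :
    (((formsZ ι (e + 2) H).filter (fun f => GoodC e m w κ H Q f ∧ q f)).card : ℝ) ≤
      ε * (formsZ ι (e + 2) (2 * H)).card := by
  obtain ⟨G', hG'⟩ : ∃ G', G' = formsZ ι (e + 2) (η * H / Q) := ⟨_, rfl⟩
  rw [← hG'] at hcl
  have hQr : (0:ℝ) < Q := by exact_mod_cast hQ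
  have hA0 : 0 ≤ η * H / Q := by positivity
  have hQA : |((Q : ℤ) : ℝ)| * (η * H / Q) = η * H := by
    rw [Int.cast_natCast, abs_of_pos hQr]
    field_simp
  have hηH : η * H ≤ H := by nlinarith
  have hG0 : (0:ℝ) < G'.card := by
    rw [hG']
    exact_mod_cast card_forms_pos (ι := ι) (e + 2) hA0
  have h1 : ((formsZ ι (e + 2) H).filter (fun f => GoodC e m w κ H Q f ∧ q f)).card *
      G'.card ≤
      ∑ f ∈ (formsZ ι (e + 2) (2 * H)).filter (fun f => ClassC e m w κ H Q f),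
        (G'.filter (fun g => q (f + MvPolynomial.C (Q : ℤ) * g))).card := by
    rw [← Finset.card_product, ← Finset.card_sigma]
    apply Finset.card_le_card_of_injOn
      (fun r => (⟨r.1 - MvPolynomial.C (Q : ℤ) * r.2, r.2⟩ :
        (_ : MvPolynomial ι ℤ) × MvPolynomial ι ℤ))
    · rintro ⟨f, g⟩ hr
      simp only [Finset.coe_product, Set.mem_prod, Finset.mem_coe, Finset.mem_filter] at hr
      obtain ⟨⟨h1, h2, h3⟩, h4⟩ := hr
      simp only [Finset.mem_coe, Finset.mem_sigma, Finset.mem_filter]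
      have hg : IsF (e + 2) (η * H / Q) g := by rw [hG'] at h4; exact mem_formsZ.mp h4
      have hcd := h2.shift hQ hH hη1 hηκ hg
      refine ⟨⟨mem_formsZ.mpr ?_, hcd⟩, h4, ?_⟩
      · have h5 := hg.C_mul (Q : ℤ)
        rw [hQA] at h5
        exact ((mem_formsZ.mp h1).sub h5).mono (by linarith)
      · have : f - MvPolynomial.C (Q : ℤ) * g + MvPolynomial.C (Q : ℤ) * g = f := by ring
        rw [this]
        exact h3
    · rintro ⟨f, g⟩ _ ⟨f', g'⟩ _ heq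
      simp only [Sigma.mk.injEq] at heq
      obtain ⟨h1, h2⟩ := heq
      have h2' : g = g' := eq_of_heq h2
      subst h2'
      have : f = f' := sub_left_injective h1
      rw [this]
  have h2 : (((formsZ ι (e + 2) H).filter (fun f => GoodC e m w κ H Q f ∧ q f)).card : ℝ) *
      G'.card ≤ (ε * (formsZ ι (e + 2) (2 * H)).card) * G'.card := by
    have h3 := (Nat.cast_le (α := ℝ)).mpr h1
    push_cast at h3
    refine h3.trans ?_
    calc _ ≤ ((formsZ ι (e + 2) (2 * H)).filter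
            (fun f => ClassC e m w κ H Q f)).card • (ε * (G'.card : ℝ)) :=
          Finset.sum_le_card_nsmul _ _ _ (fun f hf => hcl f (Finset.mem_filter.mp hf).2)
      _ = (((formsZ ι (e + 2) (2 * H)).filter
            (fun f => ClassC e m w κ H Q f)).card : ℝ) * (ε * (G'.card : ℝ)) := by
          rw [nsmul_eq_mul]
      _ ≤ ((formsZ ι (e + 2) (2 * H)).card : ℝ) * (ε * (G'.card : ℝ)) := by
          apply mul_le_mul_of_nonneg_right _ (by positivity)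
          exact_mod_cast Finset.card_filter_le _ _
      _ = _ := by ring
  exact le_of_mul_le_mul_right h2 hG0

omit [Fintype ι] in
theorem sol_of_ptNear {m : ℕ} {η₀ : ℝ} {ξ : ι → ℝ} {S J Q : ℕ} {xc : ι → ℤ} {yc : ℤ}
    {f g : MvPolynomial ι ℤ} (hQ : S * J = Q) (h : PtNear η₀ ξ S xc yc m (mem' f S J g)) :
    Sol1 m (f + MvPolynomial.C (Q : ℤ) * g) := by
  obtain ⟨x, y, h1, -, h3, -⟩ := h
  refine ⟨x, y, prim_ne_zero h1, ?_⟩
  unfold mem' at h3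
  rwa [hQ] at h3

/-- For almost all forms with local data, the cover has a point. -/
theorem good_countC (ι : Type*) [Fintype ι] (hn3 : 3 ≤ Fintype.card ι) (e m k : ℕ) (hm : 2 ≤ m)
    (hk1 : 1 ≤ k) (he : e + 2 = m * k) (hek : e + 3 ≤ Fintype.card ι + k) {ε : ℝ} (hε : 0 < ε) :
    ∃ w₀ : ℕ, 1 ≤ w₀ ∧ ∀ w, w₀ ≤ w → ∀ κ : ℝ, 0 < κ → κ ≤ 1 → ∀ Q : ℕ, 1 ≤ Q →
      ∃ H₀ : ℝ, ∀ H : ℝ, H₀ ≤ H → ∀ (P : MvPolynomial ι ℤ → Prop) (_ : DecidablePred P),
      (∀ f, P f → GoodC e m w κ H Q f ∧ ¬ Sol1 m f) →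
      (((formsZ ι (e + 2) H).filter P).card : ℝ) ≤ ε * (formsZ ι (e + 2) (2 * H)).card := by
  classical
  obtain ⟨w₀, hw₀, hcl⟩ := class_cover ι hn3 e m k hm hk1 he hek hε
  refine ⟨w₀, hw₀, fun w hw κ hκ0 hκ1 Q hQ => ?_⟩
  obtain ⟨M, hM⟩ : ∃ M : ℝ, M = (mons ι (e + 2)).card + 1 := ⟨_, rfl⟩
  have hM1 : (0:ℝ) < M := by rw [hM]; positivity
  obtain ⟨η, hη0, hη1, hηη₀, H₀, hH₀⟩ := hcl w hw κ hκ0 hκ1 Q hQ (κ / M) (by positivity)
  have hηκ : (mons ι (e + 2)).card * η ≤ κ := by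
    rw [le_div_iff₀ hM1, hM] at hηη₀
    nlinarith
  refine ⟨max H₀ 1, fun H hH P _ hP => ?_⟩
  have hHH₀ := (le_max_left _ _).trans hH
  have hH1 := (le_max_right _ _).trans hH
  have h1 := avg_countC (ι := ι) (e := e) (m := m) (w := w) (κ := κ) (η := η) (H := H) hQ
    (by linarith) hη0.le hη1 hηκ (fun f => ¬ Sol1 m f) hε.le (by
      rintro f ⟨S, J, xc, yc, ξ, h1, h2, h3⟩
      have h7 := hH₀ H hHH₀ f S J xc yc ξ h1 h3 h2.le
      rw [h2] at h7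
      exact (card_filter_le' _ _ _ (fun g _ hg hz => hg (sol_of_ptNear h2 hz))).trans h7)
  exact (card_filter_le' _ _ _ (fun g _ hg => hP g hg)).trans h1

end Pool.Agent.Run7.h443.CD
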