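import Pool.Agent.Run7.h443.CD.Core1
import Pool.Agent.Y716.Q.RealClass

/-!
# The class theorem for cyclic covers
-/

namespace Pool.Agent.Run7.h443.CD

open Filter Topology
open Pool.Agent.Y716.Q

/-- the real data of a class of cyclic covers -/
structure RD {ι : Type*} [Fintype ι] (e : ℕ) (H κ : ℝ) (fc : MvPolynomial ι ℤ) (ξ : ι → ℝ) :
    Prop where
  hform : IsF (e + 2) (2 * H) fc
  hξ : ∀ i, |ξ i| ≤ 1
  hξr : ∃ r, |ξ r| = 1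
  hfξ : κ * H ≤ MvPolynomial.aeval ξ fc

/-- `w ^ m = f(x)` has a solution with `x` primitive, close to `ξ` and to `(xc, yc)` -/
def PtNear {ι : Type*} (η₀ : ℝ) (ξ : ι → ℝ) (S : ℕ) (xc : ι → ℤ) (yc : ℤ) (m : ℕ)
    (f : MvPolynomial ι ℤ) : Prop :=
  ∃ (x : ι → ℤ) (w : ℤ), Prim x ∧ 0 < w ∧ w ^ m = MvPolynomial.eval x f ∧
    (∀ i, (S : ℤ) ∣ x i - xc i) ∧ (S : ℤ) ∣ w - yc ∧
    ∃ P : ℝ, 0 < P ∧ ∀ i, |(x i : ℝ) - P * ξ i| ≤ η₀ * P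

theorem near_of {ι : Type*} [Fintype ι] {e : ℕ} {C : ℝ} (hC1 : 1 ≤ C)
    (hC : ∀ (f : MvPolynomial ι ℤ) (R : ℝ),
    f.IsHomogeneous (e + 2) → (∀ m, |((f.coeff m : ℤ) : ℝ)| ≤ R) → ∀ (B : ℝ), 0 ≤ B →
    (∀ x : ι → ℝ, (∀ i, |x i| ≤ B) → |MvPolynomial.aeval x f| ≤ C * R * B ^ (e + 2)) ∧
    (∀ (x y : ι → ℝ) (δ : ℝ), 0 ≤ δ → (∀ i, |x i| ≤ B) → (∀ i, |y i| ≤ B) →
      (∀ i, |x i - y i| ≤ δ) →
      |MvPolynomial.aeval x f - MvPolynomial.aeval y f| ≤ C * R * B ^ (e + 2 - 1) * δ))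
    {H κ τ η A P φ : ℝ} {fc : MvPolynomial ι ℤ} {ξ : ι → ℝ} (hR : RD e H κ fc ξ)
    {S J : ℕ} {xc : ι → ℤ} {m : ℕ} (hP : 0 < P) (hH : 0 < H) (hη0 : 0 < η) (hη2 : η ≤ 1 / 2)
    (hτ0 : 0 < τ)
    (hη : C * 2 ^ (e + 4) * η ≤ τ * κ) (hAq : ((S * J : ℕ) : ℝ) * A = η * H)
    (hφ : φ ^ m = P ^ (e + 2) * MvPolynomial.aeval ξ fc) {A₃ : ℝ} (hA₃ : A₃ ≤ 2 * A)
    {g : MvPolynomial ι ℤ} (hg : g ∈ formsZ ι (e + 2) A₃) :
    Near P ξ η (S * J) xc τ φ m (mem' fc S J g) := by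
  intro x hx
  rw [mem_cube] at hx
  have hPξ : ∀ i, |P * ξ i| ≤ 2 * P := by
    intro i
    rw [abs_mul, abs_of_pos hP]
    have := mul_le_mul_of_nonneg_left (hR.hξ i) hP.le
    linarith
  have hx2 : ∀ i, |(x i : ℝ)| ≤ 2 * P := by
    intro i
    have h1 : |(x i : ℝ)| ≤ |P * ξ i| + |(x i : ℝ) - P * ξ i| := by
      have : (x i : ℝ) = P * ξ i + ((x i : ℝ) - P * ξ i) := by ring
      conv_lhs => rw [this]
      exact abs_add_le _ _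
    rw [abs_mul, abs_of_pos hP] at h1
    have h2 := mul_le_mul_of_nonneg_left (hR.hξ i) hP.le
    have h3 := hx.1 i
    have h4 : η * P ≤ 1 / 2 * P := mul_le_mul_of_nonneg_right hη2 hP.le
    linarith
  have h1 := (hC fc (2 * H) hR.hform.1 hR.hform.2 (2 * P) (by positivity)).2
    (fun i => (x i : ℝ)) (fun i => P * ξ i) (η * P) (by positivity) hx2 hPξ hx.1
  rw [aeval_smul_form hR.hform.1, ← hφ, aeval_int_cast, show e + 2 - 1 = e + 1 by omega] at h1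
  have hg' := mem_formsZ.mp hg
  have h2 := (hC g A₃ hg'.1 hg'.2 (2 * P) (by positivity)).1 (fun i => (x i : ℝ)) hx2
  rw [aeval_int_cast] at h2
  rw [eval_mem']
  push_cast
  have hSJ : (0:ℝ) ≤ (S:ℝ) * J := by positivity
  have h3 : |((MvPolynomial.eval x fc : ℤ) : ℝ) + (S:ℝ) * J * ((MvPolynomial.eval x g : ℤ) : ℝ) -
      φ ^ m| ≤ |((MvPolynomial.eval x fc : ℤ) : ℝ) - φ ^ m| +
        (S:ℝ) * J * |((MvPolynomial.eval x g : ℤ) : ℝ)| := by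
    have e1 : ((MvPolynomial.eval x fc : ℤ) : ℝ) + (S:ℝ) * J * ((MvPolynomial.eval x g : ℤ) : ℝ) -
      φ ^ m = (((MvPolynomial.eval x fc : ℤ) : ℝ) - φ ^ m) +
        (S:ℝ) * J * ((MvPolynomial.eval x g : ℤ) : ℝ) := by ring
    rw [e1]
    refine (abs_add_le _ _).trans ?_
    rw [abs_mul, abs_of_nonneg hSJ]
  refine h3.trans ?_
  have h4 : (S:ℝ) * J * |((MvPolynomial.eval x g : ℤ) : ℝ)| ≤
      (S:ℝ) * J * (C * (2 * A) * (2 * P) ^ (e + 2)) := by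
    apply mul_le_mul_of_nonneg_left _ hSJ
    refine h2.trans ?_
    apply mul_le_mul_of_nonneg_right _ (by positivity)
    exact mul_le_mul_of_nonneg_left hA₃ (by linarith)
  have h5 : (S:ℝ) * J * (C * (2 * A) * (2 * P) ^ (e + 2)) =
      C * 2 ^ (e + 3) * η * (H * P ^ (e + 2)) := by
    have e1 : (S:ℝ) * J * (C * (2 * A) * (2 * P) ^ (e + 2)) =
        (((S * J : ℕ) : ℝ) * A) * (2 * C * (2 * P) ^ (e + 2)) := by push_cast; ring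
    rw [e1, hAq, mul_pow]
    ring
  have h6 : C * (2 * H) * (2 * P) ^ (e + 1) * (η * P) = C * 2 ^ (e + 2) * η * (H * P ^ (e + 2)) := by
    rw [mul_pow]; ring
  have h7 : τ * (κ * H * P ^ (e + 2)) ≤ τ * φ ^ m := by
    apply mul_le_mul_of_nonneg_left _ hτ0.le
    rw [hφ, mul_comm (P ^ (e + 2))]
    exact mul_le_mul_of_nonneg_right hR.hfξ (by positivity)
  have h8 := mul_le_mul_of_nonneg_right hη (by positivity : 0 ≤ H * P ^ (e + 2))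
  have h9 : 0 ≤ C * η * (H * P ^ (e + 2)) := by positivity
  have e1 : C * 2 ^ (e + 4) * η * (H * P ^ (e + 2)) =
      4 * (C * 2 ^ (e + 2) * η * (H * P ^ (e + 2))) := by ring
  have e2 : C * 2 ^ (e + 3) * η * (H * P ^ (e + 2)) =
      2 * (C * 2 ^ (e + 2) * η * (H * P ^ (e + 2))) := by ring
  have h10 : 0 ≤ C * 2 ^ (e + 2) * η * (H * P ^ (e + 2)) := by positivity
  rw [h6] at h1
  rw [h5, e2] at h4
  linarith

open scoped Classical in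
/-- The class theorem: in a class with good local data almost all members have a point. -/
theorem class_cover (ι : Type*) [Fintype ι] (hn3 : 3 ≤ Fintype.card ι) (e m k : ℕ) (hm : 2 ≤ m)
    (hk1 : 1 ≤ k) (he : e + 2 = m * k) (hek : e + 3 ≤ Fintype.card ι + k) {ε : ℝ} (hε : 0 < ε) :
    ∃ w₀ : ℕ, 1 ≤ w₀ ∧ ∀ w, w₀ ≤ w → ∀ κ : ℝ, 0 < κ → κ ≤ 1 → ∀ Q₀ : ℕ, 1 ≤ Q₀ →
    ∀ η₀ : ℝ, 0 < η₀ → ∃ η : ℝ, 0 < η ∧ η ≤ 1 ∧ η ≤ η₀ ∧ ∃ H₀ : ℝ, ∀ H : ℝ, H₀ ≤ H →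
    ∀ (fc : MvPolynomial ι ℤ) (S J : ℕ) (xc : ι → ℤ) (yc : ℤ) (ξ : ι → ℝ),
    CData w fc m S J xc yc → RD e H κ fc ξ → S * J ≤ Q₀ →
    (((formsZ ι (e + 2) (η * H / (S * J : ℕ))).filter (fun g =>
      ¬ PtNear η₀ ξ S xc yc m (mem' fc S J g))).card : ℝ) ≤
      ε * (formsZ ι (e + 2) (η * H / (S * J : ℕ))).card := by
  obtain ⟨μ, rfl⟩ : ∃ μ, m = μ + 2 := ⟨m - 2, by omega⟩
  obtain ⟨Ct, hCt0, hCt⟩ := second_moment ι hn3 e (μ + 2) hm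
  obtain ⟨Cu, hCu0, hCu⟩ : ∃ Cu : ℝ, 0 < Cu ∧ UB ι Cu :=
    unbal_bound ι (by omega : 2 ≤ Fintype.card ι)
  obtain ⟨C, hC1, hC⟩ := form_bounds (ι := ι) (e + 2)
  obtain ⟨n, hn⟩ : ∃ n, Fintype.card ι = n := ⟨_, rfl⟩
  rw [hn] at hn3 hek
  have hnk : k * (μ + 1) + 1 ≤ n := by
    have : (μ + 2) * k = k * (μ + 1) + k := by ring
    omega
  obtain ⟨M, hM⟩ : ∃ M, (mons ι (e + 2)).card = M := ⟨_, rfl⟩
  obtain ⟨c, hc⟩ : ∃ c, c1pt n (e + 1) = c := ⟨_, rfl⟩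
  have hn0 : 0 < n := by omega
  have hc0 : 0 < c := by rw [← hc]; unfold c1pt; positivity
  obtain ⟨c', hc'⟩ : ∃ c', cker n e = c' := ⟨_, rfl⟩
  have hc'0 : 0 < c' := by rw [← hc']; unfold cker c1pt; positivity
  obtain ⟨τ, hτ0, hτ1, hb1, hb0, hτF⟩ := exists_tau' n (μ + 2) (ε := ε / 2) (by positivity)
  have hmm := mm_ge hm
  have hmm0 : (0:ℝ) < mm (μ + 2) := by
    have : 0 < mm (μ + 2) := by omega
    exact_mod_cast this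
  -- the smooth bound
  obtain ⟨w₁, hw₁⟩ : ∃ w₁ : ℕ, ∀ w : ℕ, w₁ ≤ w →
      3 * ((μ + 2 : ℕ) : ℝ) * mm (μ + 2) * (w : ℝ) ^ (-((1 : ℝ) / mm (μ + 2))) ≤ τ := by
    have h1 : Tendsto (fun w : ℕ => (w : ℝ) ^ (-((1 : ℝ) / mm (μ + 2)))) atTop (𝓝 0) :=
      (tendsto_rpow_neg_atTop (by positivity : (0:ℝ) < (1 : ℝ) / mm (μ + 2))).comp
        tendsto_natCast_atTop_atTop
    have h2 := h1.const_mul (3 * ((μ + 2 : ℕ) : ℝ) * mm (μ + 2))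
    rw [mul_zero] at h2
    obtain ⟨w₁, hw₁⟩ := Filter.eventually_atTop.mp (h2.eventually (gt_mem_nhds hτ0))
    exact ⟨w₁, fun w hw => (hw₁ w hw).le⟩
  refine ⟨max w₁ (⌈2 ^ n / τ⌉₊ + 1), le_trans (by omega) (le_max_right _ _), ?_⟩
  intro w hw κ hκ0 hκ1 Q₀ hQ₀ η₀ hη₀
  have hw1 : 1 ≤ w := by
    have := (le_max_right w₁ (⌈2 ^ n / τ⌉₊ + 1)).trans hw
    omega
  have hww := hw₁ w ((le_max_left _ _).trans hw)
  have hwr : (1:ℝ) ≤ w := by exact_mod_cast hw1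
  have hwτ : 2 ^ n / (w : ℝ) ≤ τ := by
    have h1 : 2 ^ n / τ ≤ w := by
      refine (Nat.le_ceil _).trans ?_
      have : ⌈2 ^ n / τ⌉₊ ≤ w := by
        have := (le_max_right w₁ (⌈2 ^ n / τ⌉₊ + 1)).trans hw
        omega
      exact_mod_cast this
    rw [div_le_iff₀ hτ0] at h1
    rw [div_le_iff₀ (by linarith)]
    linarith
  have hQ₀r : (1:ℝ) ≤ Q₀ := by exact_mod_cast hQ₀
  have hC0 : 0 < C := by linarith
  -- constants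
  obtain ⟨η, hηdef⟩ : ∃ η : ℝ, η = min (min (τ * κ / (C * 2 ^ (e + 4))) η₀) (1 / 2) := ⟨_, rfl⟩
  have hη0 : 0 < η := by
    rw [hηdef]; exact lt_min (lt_min (by positivity) hη₀) (by norm_num)
  have hη2 : η ≤ 1 / 2 := by rw [hηdef]; exact min_le_right _ _
  have hηη₀ : η ≤ η₀ := by rw [hηdef]; exact (min_le_left _ _).trans (min_le_right _ _)
  have hηC : C * 2 ^ (e + 4) * η ≤ τ * κ := by
    have h1 : η ≤ τ * κ / (C * 2 ^ (e + 4)) := by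
      rw [hηdef]; exact (min_le_left _ _).trans (min_le_left _ _)
    rw [le_div_iff₀ (by positivity)] at h1
    linarith
  have hητκ : η ≤ τ * κ := by
    have h1 : 1 ≤ C * 2 ^ (e + 4) :=
      one_le_mul_of_one_le_of_one_le hC1 (one_le_pow₀ (by norm_num))
    have h2 : 1 * η ≤ C * 2 ^ (e + 4) * η := mul_le_mul_of_nonneg_right h1 hη0.le
    linarith
  obtain ⟨C₇, hC₇⟩ : ∃ C₇ : ℝ, C₇ = 2 * C * Q₀ / η := ⟨_, rfl⟩
  have hC₇1 : 1 ≤ C₇ := by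
    rw [hC₇, le_div_iff₀ hη0]
    have h1 : 1 ≤ C * Q₀ := one_le_mul_of_one_le_of_one_le hC1 hQ₀r
    linarith
  obtain ⟨cX, hcX⟩ : ∃ cX : ℝ, cX = 2 * η / Q₀ := ⟨_, rfl⟩
  have hcX0 : 0 < cX := by rw [hcX]; positivity
  obtain ⟨T, hT1, hTs⟩ : ∃ T : ℝ, 1 ≤ T ∧ T ^ (-((1 : ℝ) / mm (μ + 2) / 8)) *
      (Ct * 4 ^ M * 4 ^ n * (16 * ((μ + 2 : ℕ) : ℝ) ^ 2) * C₇ ^ 2) ≤ ε * cX ^ (2 * n) := by
    have h1 : Tendsto (fun T : ℝ => T ^ (-((1 : ℝ) / mm (μ + 2) / 8))) atTop (𝓝 0) :=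
      tendsto_rpow_neg_atTop (by positivity : (0:ℝ) < (1 : ℝ) / mm (μ + 2) / 8)
    have h2 := h1.mul_const (Ct * 4 ^ M * 4 ^ n * (16 * ((μ + 2 : ℕ) : ℝ) ^ 2) * C₇ ^ 2)
    rw [zero_mul] at h2
    have h3 := (h2.eventually (gt_mem_nhds (by positivity : 0 < ε * cX ^ (2 * n)))).and
      (eventually_ge_atTop (1:ℝ))
    obtain ⟨T, hT⟩ := h3.exists
    exact ⟨T, hT.2, hT.1.le⟩
  have hT0 : 0 < T := by linarith
  obtain ⟨N, hN⟩ : ∃ N : ℕ, N = ⌈2 * T⌉₊ := ⟨_, rfl⟩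
  have hNT : 2 * T ≤ N := by rw [hN]; exact Nat.le_ceil _
  obtain ⟨K, hK⟩ : ∃ K : ℕ, K = (∏ p ∈ (Finset.range (w + 1)).filter Nat.Prime, p) ^ N := ⟨_, rfl⟩
  have hK0 : 0 < K := by
    rw [hK]
    apply pow_pos
    apply Finset.prod_pos
    intro p hp
    exact (Finset.mem_filter.mp hp).2.pos
  obtain ⟨τ₂, hτ₂0, hτ₂1, hτ₂2, hτ₂3⟩ := exists_ratio M hτ0
  obtain ⟨c₅, hc₅⟩ : ∃ c₅ : ℝ, c₅ = c + c' * (1 + M * c) / (1 / T) := ⟨_, rfl⟩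
  have hc₅c : c ≤ c₅ := by
    rw [hc₅]
    have : 0 ≤ c' * (1 + M * c) / (1 / T) := by positivity
    linarith
  have hc₅0 : 0 < c₅ := by linarith
  obtain ⟨θ, hθ⟩ : ∃ θ : ℝ, θ = min 1 (τ₂ / (4 * c₅)) := ⟨_, rfl⟩
  have hθ0 : 0 < θ := by rw [hθ]; exact lt_min one_pos (by positivity)
  have hθ1 : θ ≤ 1 := by rw [hθ]; exact min_le_left _ _
  have hθc : c₅ * θ ≤ τ₂ / 4 := by
    have h1 : θ ≤ τ₂ / (4 * c₅) := by rw [hθ]; exact min_le_right _ _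
    rw [le_div_iff₀ (by positivity)] at h1
    linarith
  obtain ⟨r, hr⟩ : ∃ r : ℝ, r = 12 * (μ:ℝ) + 24 := ⟨_, rfl⟩
  -- the threshold for Y
  have hev : ∀ᶠ Y : ℝ in atTop, 2 ≤ Y ∧ 2 * (n:ℝ) * (12 * μ + 24) + 3 ≤ Y ∧
      30 * (n:ℝ) ^ 2 * r * Y ^ (24 * μ + 39) < Real.exp Y ∧
      2 * (c₅ * K * r + 3 * c' * r ^ 2) / τ₂ ≤ Y ∧ (K * N : ℝ) / (τ * θ) ≤ Y ∧
      r ≤ Y ∧ 1 / κ ≤ Y ∧ (N:ℝ) / (τ * cX) ≤ Y ∧
      2 ^ (μ + 2) * (K * N) * Q₀ * ((μ + 2 : ℕ) : ℝ) * C₇ / (2 * τ * θ) ≤ Y ∧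
      2 ^ (n + 1) / (τ * cX ^ 2) ≤ Y ∧ 1 + 1 / τ₂ ≤ Y ∧
      16 * ((μ + 2 : ℕ) : ℝ) ^ 2 * Ct * 3 ^ M * 2 ^ (n + 1) * C₇ ^ (μ + 2) / (ε * cX ^ n) ≤ Y ∧
      Cu * 4 ^ n * (8 * μ + 12) / (τ * cX ^ n) ≤ Y := by
    filter_upwards [eventually_ge_atTop (2:ℝ), eventually_ge_atTop (2 * (n:ℝ) * (12 * μ + 24) + 3),
      eventually_exp (30 * (n:ℝ) ^ 2 * r) (24 * μ + 39),
      eventually_ge_atTop (2 * (c₅ * K * r + 3 * c' * r ^ 2) / τ₂),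
      eventually_ge_atTop ((K * N : ℝ) / (τ * θ)),
      eventually_ge_atTop r, eventually_ge_atTop (1 / κ),
      eventually_ge_atTop ((N:ℝ) / (τ * cX)),
      eventually_ge_atTop (2 ^ (μ + 2) * (K * N) * Q₀ * ((μ + 2 : ℕ) : ℝ) * C₇ / (2 * τ * θ)),
      eventually_ge_atTop (2 ^ (n + 1) / (τ * cX ^ 2)), eventually_ge_atTop (1 + 1 / τ₂),
      eventually_ge_atTop (16 * ((μ + 2 : ℕ) : ℝ) ^ 2 * Ct * 3 ^ M * 2 ^ (n + 1) *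
        C₇ ^ (μ + 2) / (ε * cX ^ n)),
      eventually_ge_atTop (Cu * 4 ^ n * (8 * μ + 12) / (τ * cX ^ n))] with
      Y h1 h2 h3 h4 h5 h6 h7 h8 h9 h10 h11 h12 h13
    exact ⟨h1, h2, h3, h4, h5, h6, h7, h8, h9, h10, h11, h12, h13⟩
  obtain ⟨Y₁, hY₁⟩ := Filter.eventually_atTop.mp hev
  obtain ⟨Y₀, hY₀⟩ : ∃ Y₀ : ℝ, Y₀ = max Y₁ 1 := ⟨_, rfl⟩
  have hY₀1 : 1 ≤ Y₀ := by rw [hY₀]; exact le_max_right _ _
  have hY₀Y₁ : Y₁ ≤ Y₀ := by rw [hY₀]; exact le_max_left _ _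
  refine ⟨η, hη0, by linarith, hηη₀, Q₀ * Y₀ ^ (16 * (μ + 2)) / η, ?_⟩
  intro H hH fc S J xc yc ξ hD hR hSJQ
  have hSJ0 : (0:ℝ) < ((S * J : ℕ) : ℝ) := by exact_mod_cast hD.pos
  have hSJ1 : (1:ℝ) ≤ ((S * J : ℕ) : ℝ) := by exact_mod_cast hD.pos
  have hSJQr : ((S * J : ℕ) : ℝ) ≤ Q₀ := by exact_mod_cast hSJQ
  have hH0 : 0 < H := lt_of_lt_of_le (by positivity) hH
  obtain ⟨A, hA⟩ : ∃ A : ℝ, η * H / ((S * J : ℕ) : ℝ) = A := ⟨_, rfl⟩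
  rw [hA]
  have hAq : ((S * J : ℕ) : ℝ) * A = η * H := by rw [← hA]; field_simp
  have hA₀ : Y₀ ^ (16 * (μ + 2)) ≤ A := by
    rw [← hA, le_div_iff₀ hSJ0]
    rw [div_le_iff₀ hη0] at hH
    have h1 : Y₀ ^ (16 * (μ + 2)) * ((S * J : ℕ) : ℝ) ≤ Y₀ ^ (16 * (μ + 2)) * Q₀ :=
      mul_le_mul_of_nonneg_left hSJQr (by positivity)
    linarith
  have hA0 : 0 < A := lt_of_lt_of_le (by positivity) hA₀
  have hHA : A ≤ H := by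
    rw [← hA, div_le_iff₀ hSJ0]
    have h1 : η * H ≤ 1 * H := mul_le_mul_of_nonneg_right (by linarith) hH0.le
    have h2 : H * 1 ≤ H * ((S * J : ℕ) : ℝ) := mul_le_mul_of_nonneg_left hSJ1 hH0.le
    linarith
  obtain ⟨Y, hYnn, hYA⟩ : ∃ Y : ℝ, 0 ≤ Y ∧ Y ^ (16 * (μ + 2)) = A :=
    ⟨A ^ (((16 * (μ + 2) : ℕ) : ℝ)⁻¹), by positivity,
      Real.rpow_inv_natCast_pow hA0.le (by omega)⟩
  have hYY₀ : Y₀ ≤ Y := by
    apply le_of_pow_le_pow_left₀ (by omega : 16 * (μ + 2) ≠ 0) hYnn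
    rw [hYA]; exact hA₀
  obtain ⟨y1, y2, y3, y4, y5, y6, y7, y8, y9, y10, y11, y12, y13⟩ := hY₁ Y (hY₀Y₁.trans hYY₀)
  have hY0 : 0 < Y := by linarith
  obtain ⟨P, hP⟩ : ∃ P : ℝ, P = Y ^ (16 * μ + 24) := ⟨_, rfl⟩
  have hP0 : 0 < P := by rw [hP]; positivity
  have hf₀ : 0 < MvPolynomial.aeval ξ fc := lt_of_lt_of_le (by positivity) hR.hfξ
  obtain ⟨φ, hφ0', hφ⟩ : ∃ φ : ℝ, 0 ≤ φ ∧ φ ^ (μ + 2) = P ^ (e + 2) * MvPolynomial.aeval ξ fc :=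
    ⟨(P ^ (e + 2) * MvPolynomial.aeval ξ fc) ^ (((μ + 2 : ℕ) : ℝ)⁻¹), by positivity,
      Real.rpow_inv_natCast_pow (by positivity) (by omega)⟩
  have hφ0 : 0 < φ := by
    rcases hφ0'.lt_or_eq with h | h
    · exact h
    · exfalso
      rw [← h, zero_pow (by omega)] at hφ
      have : 0 < P ^ (e + 2) * MvPolynomial.aeval ξ fc := by positivity
      linarith
  have hfle : MvPolynomial.aeval ξ fc ≤ C₇ * A := by
    have h1 := (hC fc (2 * H) hR.hform.1 hR.hform.2 1 (by norm_num)).1 ξ hR.hξ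
    rw [one_pow, mul_one] at h1
    have h2 := (le_abs_self _).trans h1
    refine h2.trans ?_
    have h3 : C * (2 * H) * η = 2 * C * (((S * J : ℕ) : ℝ) * A) := by rw [hAq]; ring
    rw [hC₇, div_mul_eq_mul_div, le_div_iff₀ hη0, h3]
    have h4 := mul_le_mul_of_nonneg_right hSJQr hA0.le
    have h5 := mul_le_mul_of_nonneg_left h4 (by positivity : 0 ≤ 2 * C)
    linarith
  obtain ⟨a, hfin⟩ := core1 (Q₀ := Q₀) (H := H) (Δ := θ * A * P ^ (e + 2))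
    (X := 2 * η * P / ((S * J : ℕ) : ℝ))
    hn hn3 hk1 he hnk hM hc hc' hc0 hc'0 hCt0 hCt hCu0 hCu hε hτ0 hτ1 hb1 hb0 hτF hw1 hwτ hww hT1
    hcX0 hC₇1 hκ0 hTs hNT hK hK0 hτ₂0 hτ₂1 hτ₂2 hτ₂3 hc₅ hc₅c hθ0 hθc hr y1 y2 y3 y4 y5 y6 y7 y8 y9
    y10 y11 (by rw [div_le_iff₀ (by positivity)] at y12; linarith)
    (by rw [div_le_iff₀ (by positivity)] at y13; linarith) hYA hP hR.hform.1 hD hSJQ hη0 hη2 hR.hξ
    hR.hξr (φ := φ)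
    (fun A₃ hA₃ g hg => near_of hC1 hC hR hP0 hH0 hη0 hη2 hτ0 hηC hAq hφ hA₃ hg) rfl
    (by
      rw [hφ]
      have e1 : ((S * J : ℕ) : ℝ) * (θ * A * P ^ (e + 2)) =
          (((S * J : ℕ) : ℝ) * A) * (θ * P ^ (e + 2)) := by ring
      rw [e1, hAq]
      have h1 : η * H * (θ * P ^ (e + 2)) ≤ η * H * (1 * P ^ (e + 2)) :=
        mul_le_mul_of_nonneg_left (mul_le_mul_of_nonneg_right hθ1 (by positivity)) (by positivity)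
      have h2 : η * H * (1 * P ^ (e + 2)) ≤ τ * κ * (H * P ^ (e + 2)) := by
        have := mul_le_mul_of_nonneg_right hητκ (by positivity : 0 ≤ H * P ^ (e + 2))
        linarith
      have h3 : τ * (P ^ (e + 2) * (κ * H)) ≤ τ * (P ^ (e + 2) * MvPolynomial.aeval ξ fc) :=
        mul_le_mul_of_nonneg_left (mul_le_mul_of_nonneg_left hR.hfξ (by positivity)) hτ0.le
      linarith) rfl
    (by
      rw [hcX, le_div_iff₀ hSJ0]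
      have h1 : 2 * η / Q₀ * P * ((S * J : ℕ) : ℝ) ≤ 2 * η / Q₀ * P * Q₀ :=
        mul_le_mul_of_nonneg_left hSJQr (by positivity)
      refine h1.trans (le_of_eq ?_)
      field_simp)
    hφ0
    (by
      rw [hφ]
      have := mul_le_mul_of_nonneg_left hfle (by positivity : 0 ≤ P ^ (e + 2))
      refine this.trans (le_of_eq ?_)
      ring)
    (by
      rw [hφ]
      exact mul_le_mul_of_nonneg_left hR.hfξ (by positivity)) hHA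
  refine le_trans ?_ hfin
  have hsub : ((formsZ ι (e + 2) A).filter (fun g =>
      ¬ PtNear η₀ ξ S xc yc (μ + 2) (mem' fc S J g))) ⊆
      ((formsZ ι (e + 2) A).filter (fun g =>
      ¬ SolIn (Xt (2 * P) a P ξ η φ S J xc yc) (μ + 2) (mem' fc S J g))) := by
    intro g hg
    rw [Finset.mem_filter] at hg ⊢
    refine ⟨hg.1, ?_⟩
    rintro ⟨⟨x, w'⟩, hxw, hx0⟩
    apply hg.2
    obtain ⟨h1, h2⟩ := mem_Xt.mp hxw
    obtain ⟨h3, h4, h5, h6⟩ := mem_Xs.mp h1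
    rw [mem_cube] at h3
    rw [mem_Ws] at h2
    refine ⟨x, w', h5, ?_, hx0, ?_, h2.2, P, hP0, ?_⟩
    · have := h2.1.1
      exact this
    · intro i
      have h7 : (S : ℤ) ∣ ((S * J : ℕ) : ℤ) := by
        push_cast; exact dvd_mul_right _ _
      exact h7.trans (h3.2 i)
    · intro i
      exact (h3.1 i).trans (mul_le_mul_of_nonneg_right hηη₀ hP0.le)
  exact_mod_cast Finset.card_le_card hsub

end Pool.Agent.Run7.h443.CD
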