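import Pool.Agent.Run7.h443.CD.Good
import Pool.Agent.Y716.Q.Num

/-!
# Numerical lemmas for the class theorem for cyclic covers
-/

namespace Pool.Agent.Run7.h443.CD

open Filter Topology
open Pool.Agent.Y716.Q

/-- proportion of test vectors in the cube -/
noncomputable def bX (n : ℕ) (τ : ℝ) : ℝ := (1 - τ) ^ n - 3 * τ

/-- constant of the first moment -/
noncomputable def bm (n m : ℕ) (τ : ℝ) : ℝ := (1 - τ) ^ 2 / (1 + τ) * bX n τ / (1 + 2 * τ) ^ (m - 1)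

/-- constant of the second moment -/
noncomputable def Fm (n m : ℕ) (τ : ℝ) : ℝ :=
  (1 + τ) ^ (2 * n + 3) / (1 - τ) ^ 2 / ((1 - 2 * τ) ^ (m - 1)) ^ 2

theorem exists_tau' (n m : ℕ) {ε : ℝ} (hε : 0 < ε) : ∃ τ : ℝ, 0 < τ ∧ τ ≤ 1 / 4 ∧
    1 / 2 ≤ bm n m τ ∧ 0 < bX n τ ∧ Fm n m τ * (1 + τ) ≤ (1 + ε) * bm n m τ ^ 2 := by
  have hb : ContinuousAt (bX n) 0 := by unfold bX; fun_prop
  have hb0 : bX n 0 = 1 := by unfold bX; simp
  have hf1 : ContinuousAt (fun τ : ℝ => bm n m τ) 0 := by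
    unfold bm
    have h1 : ContinuousAt (fun τ : ℝ => (1 - τ) ^ 2 / (1 + τ)) 0 :=
      ContinuousAt.div (by fun_prop) (by fun_prop) (by norm_num)
    exact ContinuousAt.div (h1.mul hb) (by fun_prop) (by norm_num)
  have hbm0 : bm n m 0 = 1 := by unfold bm; simp [hb0]
  have hF : ContinuousAt (fun τ : ℝ => Fm n m τ) 0 := by
    unfold Fm
    exact ContinuousAt.div (ContinuousAt.div (by fun_prop) (by fun_prop) (by norm_num))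
      (by fun_prop) (by norm_num)
  have hF0 : Fm n m 0 = 1 := by unfold Fm; simp
  have hf2 : ContinuousAt (fun τ : ℝ => (1 + ε) * bm n m τ ^ 2 - Fm n m τ * (1 + τ)) 0 := by
    refine (continuousAt_const.mul (hf1.pow 2)).sub ?_
    exact hF.mul (by fun_prop)
  have e1 : ∀ᶠ τ in 𝓝 (0:ℝ), 1 / 2 < bm n m τ :=
    hf1.eventually (lt_mem_nhds (by simp only [hbm0]; norm_num))
  have e2 : ∀ᶠ τ in 𝓝 (0:ℝ), 0 < bX n τ := hb.eventually (lt_mem_nhds (by rw [hb0]; norm_num))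
  have e3 : ∀ᶠ τ in 𝓝 (0:ℝ), 0 < (1 + ε) * bm n m τ ^ 2 - Fm n m τ * (1 + τ) :=
    hf2.eventually (lt_mem_nhds (by simp only [hbm0, hF0]; simp; exact hε))
  have e4 : ∀ᶠ τ in 𝓝 (0:ℝ), τ < 1 / 4 := gt_mem_nhds (by norm_num)
  have e5 := e1.and (e2.and (e3.and e4))
  obtain ⟨d, hd, hd2⟩ := Metric.eventually_nhds_iff.mp e5
  have h6 := hd2 (y := d / 2) (by rw [Real.dist_eq, sub_zero, abs_of_pos (by linarith)]; linarith)
  obtain ⟨h7, h8, h9, h10⟩ := h6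
  exact ⟨d / 2, by linarith, h10.le, h7.le, h8, by linarith⟩

/-- the bound for the number of points in the class of `D` -/
noncomputable def R2 (n m : ℕ) (X u : ℝ) (D : ℕ) : ℝ :=
  if D = 1 then (X + 1) ^ n * (u + 1) else
    (X / D + 1) ^ n * (m * (2 * u * (D : ℝ) ^ (-((1 : ℝ) / mm m)) + 1))

theorem ED_num {n m : ℕ} (hn : 3 ≤ n) (hm : 2 ≤ m) {τ X u Δ G G₂ : ℝ} {K D : ℕ} (hK : 0 < K)
    (hD : 0 < D) (hτ0 : 0 < τ) (hτ1 : τ ≤ 1 / 4) (hX : 0 < X) (hu : 0 < u) (hΔ : 0 < Δ) (hG : 0 < G)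
    (hG₂ : G₂ ≤ (1 + τ) * G) (hDX : (D : ℝ) ≤ τ * X) (hDu : (D : ℝ) ≤ τ * u)
    (h1 : (K : ℝ) * D ≤ τ * Δ) :
    G₂ * (((X + 1) ^ n * (u + 1)) * (D * R2 n m X u D)) ≤
    G * (((1 + τ) ^ (2 * n + 3) / (1 - τ) ^ 2 * (X ^ n * u * K / (2 * Δ)) ^ 2) * wt m D) *
        ((2 * Δ / K - 1) * (2 * Δ / (K * D) - 1)) := by
  have hKr : (0:ℝ) < K := by exact_mod_cast hK
  have hDr : (0:ℝ) < D := by exact_mod_cast hD
  have hD1 : (1:ℝ) ≤ D := by exact_mod_cast hD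
  have h1τ : 0 < 1 - τ := by linarith
  have hmm := mm_ge hm
  have hmm0 : (0:ℝ) < mm m := by
    have : 0 < mm m := by omega
    exact_mod_cast this
  have hKD : (K : ℝ) ≤ K * D := le_mul_of_one_le_right hKr.le hD1
  have hR₁ : (X + 1) ^ n * (u + 1) ≤ ((1 + τ) ^ n * X ^ n) * ((1 + τ) * u) := by
    rw [← mul_pow]
    apply mul_le_mul _ (by linarith) (by positivity) (by positivity)
    exact pow_le_pow_left₀ (by positivity) (by linarith) _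
  have hG₂' := mul_le_mul_of_nonneg_right hG₂
    (by unfold R2; split_ifs <;> positivity :
      0 ≤ ((X + 1) ^ n * (u + 1)) * (D * R2 n m X u D))
  refine hG₂'.trans ?_
  have e1 : (1 - τ) * (2 * Δ / K) ≤ 2 * Δ / K - 1 := by
    have : 1 ≤ τ * (2 * Δ / K) := by
      rw [← mul_div_assoc, le_div_iff₀ hKr]
      have : 0 < τ * Δ := by positivity
      linarith
    linarith
  have e2 : (1 - τ) * (2 * Δ / (K * D)) ≤ 2 * Δ / (K * D) - 1 := by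
    have : 1 ≤ τ * (2 * Δ / (K * D)) := by
      rw [← mul_div_assoc, le_div_iff₀ (by positivity)]
      have : 0 < τ * Δ := by positivity
      linarith
    linarith
  have e3 := mul_le_mul e1 e2 (by positivity) (le_trans (by positivity) e1)
  have hwt := wt_nonneg m D
  have e4 := mul_le_mul_of_nonneg_left e3 (by positivity :
    0 ≤ G * (((1 + τ) ^ (2 * n + 3) / (1 - τ) ^ 2 * (X ^ n * u * K / (2 * Δ)) ^ 2) * wt m D))
  refine le_trans ?_ e4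
  by_cases hD' : D = 1
  · subst hD'
    have hR2 : R2 n m X u 1 = (X + 1) ^ n * (u + 1) := by unfold R2; rw [if_pos rfl]
    have hw1 : wt m 1 = 1 := by unfold wt; rw [if_pos rfl]
    rw [hR2, hw1]
    have h2 : ((X + 1) ^ n * (u + 1)) * (((1 : ℕ) : ℝ) * ((X + 1) ^ n * (u + 1))) ≤
        (((1 + τ) ^ n * X ^ n) * ((1 + τ) * u)) * (((1 + τ) ^ n * X ^ n) * ((1 + τ) * u)) := by
      rw [Nat.cast_one, one_mul]
      exact mul_le_mul hR₁ hR₁ (by positivity) (by positivity)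
    have h3 := mul_le_mul_of_nonneg_left h2 (by positivity : 0 ≤ (1 + τ) * G)
    refine h3.trans (le_of_eq ?_)
    rw [show 2 * n + 3 = n + n + 3 by ring, pow_add, pow_add, Nat.cast_one]
    field_simp
  · have hR2 : R2 n m X u D = (X / D + 1) ^ n *
        (m * (2 * u * (D : ℝ) ^ (-((1 : ℝ) / mm m)) + 1)) := by unfold R2; rw [if_neg hD']
    have hw1 : wt m D = 3 * m * (D : ℝ) ^ (-(1 + (1 : ℝ) / mm m)) := by unfold wt; rw [if_neg hD']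
    rw [hR2, hw1]
    obtain ⟨q, hq⟩ : ∃ q : ℝ, q = (D : ℝ) ^ (-((1 : ℝ) / mm m)) := ⟨_, rfl⟩
    have hq0 : 0 < q := by rw [hq]; positivity
    have hqD : (D : ℝ)⁻¹ ≤ q := by
      rw [hq, ← Real.rpow_neg_one]
      apply Real.rpow_le_rpow_of_exponent_le hD1
      rw [neg_le_neg_iff, div_le_one hmm0]
      exact_mod_cast (by omega : 1 ≤ mm m)
    have hq2 : (D : ℝ) ^ (-(1 + (1 : ℝ) / mm m)) = q / D := by
      rw [hq, show -(1 + (1 : ℝ) / mm m) = -((1 : ℝ) / mm m) - 1 by ring,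
        Real.rpow_sub_one hDr.ne']
    rw [hq2, ← hq]
    have huq : 1 ≤ u * q := by
      have h2 : (D : ℝ) ≤ u := by nlinarith
      have h3 : (D : ℝ) * (D : ℝ)⁻¹ ≤ u * q := mul_le_mul h2 hqD (by positivity) hu.le
      rwa [mul_inv_cancel₀ hDr.ne'] at h3
    have hz : (m:ℝ) * (2 * u * q + 1) ≤ m * (3 * u * q) := by
      apply mul_le_mul_of_nonneg_left _ (Nat.cast_nonneg _)
      linarith
    have hXD : X / D + 1 ≤ (1 + τ) * (X / D) := by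
      have : 1 ≤ τ * (X / D) := by
        rw [← mul_div_assoc, le_div_iff₀ hDr, one_mul]; exact hDX
      linarith
    have hXD2 : (X / D + 1) ^ n ≤ (1 + τ) ^ n * (X ^ n / (D : ℝ) ^ n) := by
      rw [← div_pow, ← mul_pow]
      exact pow_le_pow_left₀ (by positivity) hXD _
    have h2 : ((X + 1) ^ n * (u + 1)) * (D * ((X / D + 1) ^ n * (m * (2 * u * q + 1)))) ≤
        (((1 + τ) ^ n * X ^ n) * ((1 + τ) * u)) *
          (D * (((1 + τ) ^ n * (X ^ n / (D : ℝ) ^ n)) * (m * (3 * u * q)))) := by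
      apply mul_le_mul hR₁ _ (by positivity) (by positivity)
      apply mul_le_mul_of_nonneg_left _ hDr.le
      exact mul_le_mul hXD2 hz (by positivity) (by positivity)
    have h3 := mul_le_mul_of_nonneg_left h2 (by positivity : 0 ≤ (1 + τ) * G)
    refine h3.trans ?_
    obtain ⟨ν, rfl⟩ : ∃ ν, n = ν + 3 := ⟨n - 3, by omega⟩
    have e6 : (1 + τ) * G * ((((1 + τ) ^ (ν + 3) * X ^ (ν + 3)) * ((1 + τ) * u)) *
          (D * (((1 + τ) ^ (ν + 3) * (X ^ (ν + 3) / (D : ℝ) ^ (ν + 3))) * (m * (3 * u * q))))) =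
        ((1 + τ) ^ (2 * (ν + 3) + 2) * G * (X ^ (ν + 3) * u) ^ 2 * (3 * m * q) / (D : ℝ) ^ 2) *
          (1 / (D : ℝ) ^ ν) := by
      rw [show 2 * (ν + 3) + 2 = (ν + 3) + (ν + 3) + 2 by ring, pow_add (1 + τ) ((ν + 3) + (ν + 3)),
        pow_add (1 + τ) (ν + 3) (ν + 3), pow_add (D:ℝ) ν 3]
      field_simp
    have e7 : G * ((1 + τ) ^ (2 * (ν + 3) + 3) / (1 - τ) ^ 2 *
        (X ^ (ν + 3) * u * K / (2 * Δ)) ^ 2 * (3 * m * (q / D))) *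
        ((1 - τ) * (2 * Δ / K) * ((1 - τ) * (2 * Δ / (K * D)))) =
        ((1 + τ) ^ (2 * (ν + 3) + 2) * G * (X ^ (ν + 3) * u) ^ 2 * (3 * m * q) / (D : ℝ) ^ 2) *
          (1 + τ) := by
      rw [show 2 * (ν + 3) + 3 = (2 * (ν + 3) + 2) + 1 by ring,
        pow_succ (1 + τ) (2 * (ν + 3) + 2)]
      field_simp
    rw [e6, e7]
    apply mul_le_mul_of_nonneg_left _ (by positivity)
    have : 1 / (D : ℝ) ^ ν ≤ 1 := by
      rw [div_le_one (by positivity)]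
      exact one_le_pow₀ hD1
    linarith

theorem cheb_num {τ b Xn v Δ G G' : ℝ} (hτ0 : 0 < τ) (hb : 0 < b) (hX : 0 < Xn) (hv : 0 < v)
    (hΔ : 0 < Δ) (hG : 0 < G) (hG' : (1 - τ) * G ≤ G') (hτ1 : τ ≤ 1 / 2) (h1 : 1 ≤ τ * Δ) :
    ((1 - τ) ^ 2 / (1 + τ) * b * (Xn * v / (2 * Δ))) * G * (2 * Δ + 1) ≤
      G' * (b * Xn * ((1 - τ) * v)) := by
  have h1τ : 0 < 1 - τ := by linarith
  have e1 : 2 * Δ + 1 ≤ (1 + τ) * (2 * Δ) := by linarith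
  have e2 := mul_le_mul_of_nonneg_left e1 (by positivity :
    0 ≤ ((1 - τ) ^ 2 / (1 + τ) * b * (Xn * v / (2 * Δ))) * G)
  refine e2.trans ?_
  have e3 : (1 - τ) ^ 2 / (1 + τ) * b * (Xn * v / (2 * Δ)) * G * ((1 + τ) * (2 * Δ)) =
      (1 - τ) * G * (b * Xn * ((1 - τ) * v)) := by field_simp
  rw [e3]
  exact mul_le_mul_of_nonneg_right hG' (by positivity)

/-- The tail term. -/
theorem t1_num {n m M e : ℕ} {Ct G G₃ P A ε cX C₇ φ X r₀ E₁ q : ℝ} (hm : 1 ≤ m) (hCt : 0 < Ct)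
    (hG : 0 < G) (hG₃ : G₃ ≤ 4 ^ M * G) (hP : 0 < P) (hA : 0 < A) (hε : 0 < ε) (hcX : 0 < cX)
    (hC₇ : 0 < C₇) (hφ : 0 < φ) (hq : 0 ≤ q) (hXP : cX * P ≤ X)
    (hφm : φ ^ m ≤ C₇ * (A * P ^ (e + 2)))
    (hqs : q * (Ct * 4 ^ M * 4 ^ n * (16 * m ^ 2) * C₇ ^ 2) ≤ ε * cX ^ (2 * n))
    (hr₀ : X ^ n / (m * φ ^ (m - 1)) ≤ r₀) (hE : 1 / 2 * r₀ ≤ E₁) :
    Ct * G₃ * φ ^ 2 * (2 * P) ^ (2 * n) * q / (A ^ 2 * (2 * P) ^ (2 * e + 4)) ≤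
      ε / 4 * (E₁ ^ 2 * G) := by
  have hX0 : 0 < X := lt_of_lt_of_le (by positivity) hXP
  have hm0 : (0:ℝ) < m := by exact_mod_cast hm
  obtain ⟨μ, rfl⟩ : ∃ μ, m = μ + 1 := ⟨m - 1, by omega⟩
  rw [Nat.add_sub_cancel] at hr₀
  have h1 : (cX * P) ^ n / (((μ + 1 : ℕ) : ℝ) * φ ^ μ) ≤ r₀ := by
    refine le_trans ?_ hr₀
    apply div_le_div_of_nonneg_right _ (by positivity)
    exact pow_le_pow_left₀ (by positivity) hXP _
  have h2 : 1 / 2 * ((cX * P) ^ n / (((μ + 1 : ℕ) : ℝ) * φ ^ μ)) ≤ E₁ :=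
    (mul_le_mul_of_nonneg_left h1 (by norm_num)).trans hE
  have h3 := pow_le_pow_left₀ (by positivity) h2 2
  have h4 := mul_le_mul_of_nonneg_left (mul_le_mul_of_nonneg_right h3 hG.le)
    (by positivity : 0 ≤ ε / 4)
  refine le_trans ?_ h4
  have h5 : Ct * G₃ * φ ^ 2 * (2 * P) ^ (2 * n) * q / (A ^ 2 * (2 * P) ^ (2 * e + 4)) ≤
      Ct * (4 ^ M * G) * φ ^ 2 * (2 * P) ^ (2 * n) * q / (A ^ 2 * P ^ (2 * e + 4)) := by
    apply div_le_div₀ (by positivity) _ (by positivity) _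
    · apply mul_le_mul_of_nonneg_right _ hq
      apply mul_le_mul_of_nonneg_right _ (by positivity)
      apply mul_le_mul_of_nonneg_right _ (by positivity)
      exact mul_le_mul_of_nonneg_left hG₃ hCt.le
    · apply mul_le_mul_of_nonneg_left _ (by positivity)
      exact pow_le_pow_left₀ hP.le (by linarith) _
  refine h5.trans ?_
  rw [div_le_iff₀ (by positivity)]
  have h6 : (φ ^ (μ + 1)) ^ 2 ≤ (C₇ * (A * P ^ (e + 2))) ^ 2 := pow_le_pow_left₀ (by positivity) hφm 2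
  have e1 : ε / 4 * ((1 / 2 * ((cX * P) ^ n / (((μ + 1 : ℕ) : ℝ) * φ ^ μ))) ^ 2 * G) *
      (A ^ 2 * P ^ (2 * e + 4)) = (ε * cX ^ (2 * n)) * (G * P ^ (2 * n) * A ^ 2 * P ^ (2 * e + 4) /
        (16 * ((μ + 1 : ℕ) : ℝ) ^ 2 * φ ^ (2 * μ))) := by
    rw [mul_pow cX P n, mul_comm 2 n, mul_comm 2 μ, pow_mul, pow_mul, pow_mul]
    field_simp
    norm_num
  rw [e1]
  have h7 := mul_le_mul_of_nonneg_right hqs (by positivity : 0 ≤ G * P ^ (2 * n) * A ^ 2 *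
    P ^ (2 * e + 4) / (16 * ((μ + 1 : ℕ) : ℝ) ^ 2 * φ ^ (2 * μ)))
  refine le_trans ?_ h7
  have e2 : q * (Ct * 4 ^ M * 4 ^ n * (16 * ((μ + 1 : ℕ) : ℝ) ^ 2) * C₇ ^ 2) *
      (G * P ^ (2 * n) * A ^ 2 * P ^ (2 * e + 4) / (16 * ((μ + 1 : ℕ) : ℝ) ^ 2 * φ ^ (2 * μ))) =
      (q * Ct * 4 ^ M * 4 ^ n * G * P ^ (2 * n) / φ ^ (2 * μ)) * (C₇ * (A * P ^ (e + 2))) ^ 2 := by
    rw [show 2 * e + 4 = (e + 2) * 2 by ring, pow_mul P (e + 2) 2]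
    field_simp
  rw [e2]
  have h8 := mul_le_mul_of_nonneg_left h6 (by positivity :
    0 ≤ q * Ct * 4 ^ M * 4 ^ n * G * P ^ (2 * n) / φ ^ (2 * μ))
  refine le_trans (le_of_eq ?_) h8
  rw [mul_pow 2 P (2 * n), pow_mul 2 2 n, show (2:ℝ) ^ 2 = 4 by norm_num, ← pow_mul,
    show (μ + 1) * 2 = 2 * μ + 2 by ring, pow_add φ]
  field_simp

/-- The diagonal term. -/
theorem t2_num {n m M e k : ℕ} {Ct G G₂ P A Y ε cX C₇ φ X r₀ E₁ N : ℝ} (hm : 2 ≤ m)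
    (hCt : 0 < Ct) (hG : 0 < G) (hG₂ : G₂ ≤ 3 ^ M * G) (hP : 1 ≤ P) (hA : 0 < A)
    (hε : 0 < ε) (hcX : 0 < cX) (hC₇ : 1 ≤ C₇) (hφ : 0 < φ) (hY : 1 ≤ Y) (hXP : cX * P ≤ X)
    (hφm : φ ^ m ≤ C₇ * (A * P ^ (e + 2))) (hφ2 : φ ≤ C₇ * (Y ^ 16 * P ^ k))
    (hPY : Y ^ (16 * (m - 1)) * Y ≤ P) (hnk : k * (m - 1) + 1 ≤ n)
    (hYs : 16 * m ^ 2 * Ct * 3 ^ M * 2 ^ (n + 1) * C₇ ^ m ≤ ε * cX ^ n * Y)
    (hN0 : 0 ≤ N) (hN : N ≤ (2 * X) ^ n * (2 * φ))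
    (hr₀ : X ^ n / (m * φ ^ (m - 1)) ≤ r₀) (hE : 1 / 2 * r₀ ≤ E₁) :
    Ct * G₂ * N / (A * (2 * P) ^ (e + 2)) ≤ ε / 4 * (E₁ ^ 2 * G) := by
  have hP0 : 0 < P := by linarith
  have hX0 : 0 < X := lt_of_lt_of_le (by positivity) hXP
  obtain ⟨μ, rfl⟩ : ∃ μ, m = μ + 1 := ⟨m - 1, by omega⟩
  have hm0 : (0:ℝ) < ((μ + 1 : ℕ) : ℝ) := by positivity
  rw [Nat.add_sub_cancel] at hr₀ hPY hnk
  have h2 : 1 / 2 * (X ^ n / (((μ + 1 : ℕ) : ℝ) * φ ^ μ)) ≤ E₁ :=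
    (mul_le_mul_of_nonneg_left hr₀ (by norm_num)).trans hE
  have h3 := pow_le_pow_left₀ (by positivity) h2 2
  have h4 := mul_le_mul_of_nonneg_left (mul_le_mul_of_nonneg_right h3 hG.le)
    (by positivity : 0 ≤ ε / 4)
  refine le_trans ?_ h4
  have h5 : Ct * G₂ * N / (A * (2 * P) ^ (e + 2)) ≤
      Ct * (3 ^ M * G) * ((2 * X) ^ n * (2 * φ)) / (A * P ^ (e + 2)) := by
    apply div_le_div₀ (by positivity) _ (by positivity) _
    · exact mul_le_mul (mul_le_mul_of_nonneg_left hG₂ hCt.le) hN hN0 (by positivity)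
    · apply mul_le_mul_of_nonneg_left _ hA.le
      exact pow_le_pow_left₀ hP0.le (by linarith) _
  refine h5.trans ?_
  rw [div_le_iff₀ (by positivity)]
  -- bound for `φ ^ μ`
  have h6 : φ ^ μ ≤ C₇ ^ μ * (Y ^ (16 * μ) * P ^ (k * μ)) := by
    have := pow_le_pow_left₀ hφ.le hφ2 μ
    rw [mul_pow, mul_pow, ← pow_mul, ← pow_mul] at this
    exact this
  have h7 : (Y ^ (16 * μ) * P ^ (k * μ)) * Y ≤ P ^ n := by
    calc (Y ^ (16 * μ) * P ^ (k * μ)) * Y = (Y ^ (16 * μ) * Y) * P ^ (k * μ) := by ring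
      _ ≤ P * P ^ (k * μ) := mul_le_mul_of_nonneg_right hPY (by positivity)
      _ = P ^ (k * μ + 1) := by ring
      _ ≤ P ^ n := pow_le_pow_right₀ hP hnk
  have h8 : 16 * ((μ + 1 : ℕ) : ℝ) ^ 2 * Ct * 3 ^ M * 2 ^ (n + 1) * C₇ * φ ^ μ ≤
      ε * X ^ n := by
    have a1 := mul_le_mul_of_nonneg_left h6 (by positivity :
      0 ≤ 16 * ((μ + 1 : ℕ) : ℝ) ^ 2 * Ct * 3 ^ M * 2 ^ (n + 1) * C₇)
    refine a1.trans ?_
    have a2 := mul_le_mul_of_nonneg_right hYs (by positivity : 0 ≤ Y ^ (16 * μ) * P ^ (k * μ))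
    have a3 : 16 * ((μ + 1 : ℕ) : ℝ) ^ 2 * Ct * 3 ^ M * 2 ^ (n + 1) * C₇ *
        (C₇ ^ μ * (Y ^ (16 * μ) * P ^ (k * μ))) = 16 * ((μ + 1 : ℕ) : ℝ) ^ 2 * Ct * 3 ^ M *
        2 ^ (n + 1) * C₇ ^ (μ + 1) * (Y ^ (16 * μ) * P ^ (k * μ)) := by ring
    rw [a3]
    refine a2.trans ?_
    have a4 := mul_le_mul_of_nonneg_left h7 (by positivity : 0 ≤ ε * cX ^ n)
    have a5 : ε * cX ^ n * Y * (Y ^ (16 * μ) * P ^ (k * μ)) =
        ε * cX ^ n * ((Y ^ (16 * μ) * P ^ (k * μ)) * Y) := by ring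
    rw [a5]
    refine a4.trans ?_
    rw [mul_assoc, ← mul_pow]
    exact mul_le_mul_of_nonneg_left (pow_le_pow_left₀ (by positivity) hXP _) hε.le
  have e1 : ε / 4 * ((1 / 2 * (X ^ n / (((μ + 1 : ℕ) : ℝ) * φ ^ μ))) ^ 2 * G) *
      (A * P ^ (e + 2)) = (ε * X ^ n) * (G * X ^ n * (A * P ^ (e + 2)) /
        (16 * ((μ + 1 : ℕ) : ℝ) ^ 2 * φ ^ (2 * μ))) := by
    rw [mul_comm 2 μ, pow_mul]
    field_simp
    norm_num
  rw [e1]
  have h9 := mul_le_mul_of_nonneg_right h8 (by positivity : 0 ≤ G * X ^ n * (A * P ^ (e + 2)) /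
        (16 * ((μ + 1 : ℕ) : ℝ) ^ 2 * φ ^ (2 * μ)))
  refine le_trans ?_ h9
  have e2 : 16 * ((μ + 1 : ℕ) : ℝ) ^ 2 * Ct * 3 ^ M * 2 ^ (n + 1) * C₇ * φ ^ μ *
      (G * X ^ n * (A * P ^ (e + 2)) / (16 * ((μ + 1 : ℕ) : ℝ) ^ 2 * φ ^ (2 * μ))) =
      (Ct * 3 ^ M * 2 ^ (n + 1) * G * X ^ n / φ ^ μ) * (C₇ * (A * P ^ (e + 2))) := by
    rw [mul_comm 2 μ, pow_mul]
    field_simp
  rw [e2]
  have h10 := mul_le_mul_of_nonneg_left hφm (by positivity :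
    0 ≤ Ct * 3 ^ M * 2 ^ (n + 1) * G * X ^ n / φ ^ μ)
  refine le_trans (le_of_eq ?_) h10
  rw [mul_pow 2 X n, pow_succ φ μ, pow_succ 2 n]
  field_simp

end Pool.Agent.Run7.h443.CD
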