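import Pool.Agent.Run7.h443.CD.Moment
import Pool.Agent.Run7.h443.CD.Cheb
import Pool.Agent.Run7.h443.CD.Num
import Pool.Agent.Y716.Q.CoreNum
import Pool.Agent.Y716.Q.Stmt

/-!
# The core of the class theorem for cyclic covers
-/

namespace Pool.Agent.Run7.h443.CD

open Finset
open Pool.Agent.Y716.Q

section
variable {ι : Type*} [Fintype ι]

/-- lower length of the intervals -/
noncomputable def Ll (m : ℕ) (Δ τ φ : ℝ) : ℝ := 2 * Δ / (m * ((1 + 2 * τ) * φ) ^ (m - 1))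

open scoped Classical in
/-- most vectors of the cube are test vectors -/
theorem Xs_lower {w₀ : ℕ} (hw : 1 ≤ w₀) {fc : MvPolynomial ι ℤ} {m S J : ℕ} {xc : ι → ℤ} {yc : ℤ}
    (h : CData w₀ fc m S J xc yc) {P ρ τ X a : ℝ} {ξ : ι → ℝ} (hP : 1 ≤ P) (hρ : 0 ≤ ρ)
    (hρ2 : ρ ≤ 1 / 2) (hξ : ∀ i, |ξ i| ≤ 1) (hξr : ∃ r, |ξ r| = 1) (hk : 2 ≤ Fintype.card ι)
    (hX : X = 2 * ρ * P / (S * J : ℕ)) (hτ0 : 0 < τ) (hτ1 : τ ≤ 1)
    (hwτ : 2 ^ Fintype.card ι / (w₀ : ℝ) ≤ τ) (h1X : 1 ≤ τ * X)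
    (hPX : 2 ^ Fintype.card ι * (2 * P) ≤ τ * X ^ Fintype.card ι)
    (hub : ∀ U : Finset (ι → ℤ), (∀ x ∈ U, Sz (2 * P) x ∧ Prim x ∧ ¬ Bal (2 * P) a x) →
      (U.card : ℝ) ≤ τ * X ^ Fintype.card ι) :
    bX (Fintype.card ι) τ * X ^ Fintype.card ι ≤ ((Xs (2 * P) a P ξ ρ (S * J) xc).card : ℝ) := by
  obtain ⟨n, hn⟩ : ∃ n, Fintype.card ι = n := ⟨_, rfl⟩
  have hP0 : 0 < P := by linarith
  have hX0 : 0 < X := by
    by_contra hcon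
    have : τ * X ≤ 0 := mul_nonpos_of_nonneg_of_nonpos hτ0.le (not_lt.mp hcon)
    linarith
  have h1 : 1 ≤ X := by nlinarith
  have hcube := card_cube_ge (P := P) (ξ := ξ) (ρ := ρ) h.pos xc (by rw [← hX]; exact h1)
  have hnp := nonprim_cube hw h.pos (xc := xc) hP hρ hρ2 hξ hξr hk
    (fun p hp hd => by
      rcases (hp.dvd_mul).mp hd with h1 | h1
      · exact h.hSW p hp h1
      · exact h.hSW p hp (h1.trans h.hJS))
    (fun p hp hle => ((dvd_mul_right p J).trans (h.hPJ p hp hle)).trans (dvd_mul_right S J))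
    h.hprim
  have hun := hub ((cube P ξ ρ (S * J) xc).filter (fun x => Prim x ∧ ¬ Bal (2 * P) a x)) (by
    intro x hx
    rw [Finset.mem_filter] at hx
    exact ⟨cube_sz hP0 hρ hρ2 hξ hξr hx.1, hx.2⟩)
  have hsub : cube P ξ ρ (S * J) xc ⊆ Xs (2 * P) a P ξ ρ (S * J) xc ∪
      ((cube P ξ ρ (S * J) xc).filter (fun x => ¬ Prim x) ∪
      (cube P ξ ρ (S * J) xc).filter (fun x => Prim x ∧ ¬ Bal (2 * P) a x)) := by
    intro x hx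
    rw [Finset.mem_union, Finset.mem_union, mem_Xs, Finset.mem_filter, Finset.mem_filter]
    have := cube_sz hP0 hρ hρ2 hξ hξr hx
    tauto
  have hle := (Finset.card_le_card hsub).trans
    ((Finset.card_union_le _ _).trans (Nat.add_le_add_left (Finset.card_union_le _ _) _))
  have hle' := (Nat.cast_le (α := ℝ)).mpr hle
  push_cast at hle'
  rw [hn] at hcube hnp hun hwτ hPX ⊢
  rw [← hX] at hcube hnp
  have e1 : (1 - τ) ^ n * X ^ n ≤ (X - 1) ^ n := by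
    rw [← mul_pow]
    apply pow_le_pow_left₀ (mul_nonneg (by linarith) hX0.le)
    linarith
  have e2 : (2 * X) ^ n / (w₀ : ℝ) ≤ τ * X ^ n := by
    rw [mul_pow]
    have := mul_le_mul_of_nonneg_right hwτ (by positivity : 0 ≤ X ^ n)
    refine le_trans (le_of_eq ?_) this
    ring
  unfold bX
  rw [sub_mul]
  linarith

open scoped Classical in
/-- many test points are nearly solutions -/
theorem test_lower {m : ℕ} (hm : 1 ≤ m) {S J : ℕ} (hS : 0 < S) {xc : ι → ℤ} {yc : ℤ}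
    {P ρ φ τ X a b Δ : ℝ} {ξ : ι → ℝ} {n : ℕ}
    (hτ0 : 0 < τ) (hτ1 : τ ≤ 1 / 4) (hφ : 2 ≤ φ) (hΔ0 : 0 ≤ Δ)
    (hΔ : Δ ≤ τ * φ ^ m) {f : MvPolynomial ι ℤ} (hf : Near P ξ ρ (S * J) xc τ φ m f)
    (hXs : b * X ^ n ≤ ((Xs (2 * P) a P ξ ρ (S * J) xc).card : ℝ))
    (hL : 1 ≤ τ * (Ll m Δ τ φ / S)) :
    b * X ^ n * ((1 - τ) * (Ll m Δ τ φ / S)) ≤
      (((Xt (2 * P) a P ξ ρ φ S J xc yc).filter (fun p =>
        |((p.2 ^ m - MvPolynomial.eval p.1 f : ℤ) : ℝ)| ≤ Δ)).card : ℝ) := by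
  set V := Xs (2 * P) a P ξ ρ (S * J) xc with hV
  have h1 : ((Xt (2 * P) a P ξ ρ φ S J xc yc).filter (fun p =>
        |((p.2 ^ m - MvPolynomial.eval p.1 f : ℤ) : ℝ)| ≤ Δ)).card =
      ∑ x ∈ V, ((Ws φ S yc).filter (fun w : ℤ =>
        |(w : ℝ) ^ m - ((MvPolynomial.eval x f : ℤ) : ℝ)| ≤ Δ)).card := by
    unfold Xt
    rw [← hV, Finset.card_filter, Finset.sum_product]
    refine Finset.sum_congr rfl fun x _ => ?_
    rw [Finset.card_filter]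
    refine Finset.sum_congr rfl fun w _ => ?_
    push_cast
    rfl
  rw [h1, Nat.cast_sum]
  have h2 : ∀ x ∈ V, (1 - τ) * (Ll m Δ τ φ / S) ≤ (((Ws φ S yc).filter (fun w : ℤ =>
        |(w : ℝ) ^ m - ((MvPolynomial.eval x f : ℤ) : ℝ)| ≤ Δ)).card : ℝ) := by
    intro x hx
    have hxc := (mem_Xs.mp hx).1
    have := w_many hm hφ hτ0.le hτ1 hΔ0 hΔ (hf x hxc) hS yc
    unfold Ll at hL ⊢
    linarith
  have h3 := Finset.sum_le_sum h2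
  rw [Finset.sum_const, nsmul_eq_mul] at h3
  refine le_trans ?_ h3
  apply mul_le_mul_of_nonneg_right hXs
  have : 0 < Ll m Δ τ φ / S := by
    by_contra hcon
    have : τ * (Ll m Δ τ φ / S) ≤ 0 := mul_nonpos_of_nonneg_of_nonpos hτ0.le (not_lt.mp hcon)
    linarith
  exact mul_nonneg (by linarith) this.le

end

open scoped Classical in
theorem core2 {ι : Type*} [Fintype ι] {n : ℕ} (hn : Fintype.card ι = n) (hn3 : 3 ≤ n)
    {e m k : ℕ} (hm : 2 ≤ m) (hnk : k * (m - 1) + 1 ≤ n) {M : ℕ} (hM : (mons ι (e + 2)).card = M)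
    {c c' Ct : ℝ} (hc : c1pt n (e + 1) = c) (hc' : cker n e = c')
    (hCt0 : 0 < Ct) (hCt : SM ι e m Ct) {ε τ τ₂ T cX C₇ : ℝ} (hε : 0 < ε)
    (hτ0 : 0 < τ) (hτ1 : τ ≤ 1 / 4) (hb1 : 1 / 2 ≤ bm n m τ) (hb0 : 0 < bX n τ)
    (hτF : Fm n m τ * (1 + τ) ≤ (1 + ε / 2) * bm n m τ ^ 2)
    {w : ℕ} (hw1 : 1 ≤ w) (hwτ : 2 ^ n / (w : ℝ) ≤ τ)
    (hww : 3 * m * mm m * (w : ℝ) ^ (-((1 : ℝ) / mm m)) ≤ τ)
    (hT1 : 1 ≤ T) (hcX0 : 0 < cX) (hC₇1 : 1 ≤ C₇)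
    (hTs : T ^ (-((1 : ℝ) / mm m / 8)) * (Ct * 4 ^ M * 4 ^ n * (16 * m ^ 2) * C₇ ^ 2) ≤
      ε * cX ^ (2 * n))
    {N : ℕ} (hNT : 2 * T ≤ N) {K : ℕ}
    (hK : K = (∏ p ∈ (Finset.range (w + 1)).filter Nat.Prime, p) ^ N) (hK0 : 0 < K)
    {Y A P : ℝ} (hY1 : 1 ≤ Y) (hPY : Y ^ (16 * (m - 1)) * Y ≤ P)
    (hYs : 16 * m ^ 2 * Ct * 3 ^ M * 2 ^ (n + 1) * C₇ ^ m ≤ ε * cX ^ n * Y)
    {fc : MvPolynomial ι ℤ} (hfc : fc.IsHomogeneous (e + 2)) {S J : ℕ} {xc : ι → ℤ} {yc : ℤ}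
    {ξ : ι → ℝ} {ρ φ : ℝ} (hD : CData w fc m S J xc yc) (hρ0 : 0 < ρ) (hρ2 : ρ ≤ 1 / 2)
    (hξ : ∀ i, |ξ i| ≤ 1) (hξr : ∃ r, |ξ r| = 1)
    (hmemS : ∀ A₃ : ℝ, A₃ ≤ 2 * A → ∀ g ∈ formsZ ι (e + 2) A₃,
      Near P ξ ρ (S * J) xc τ φ m (mem' fc S J g))
    {Δ X L₀ : ℝ} (hΔτ : ((S * J : ℕ) : ℝ) * Δ ≤ τ * φ ^ m) (hX : X = 2 * ρ * P / (S * J : ℕ))
    (hL₀ : L₀ = 2 * ((S * J : ℕ) * Δ) / (m * φ ^ (m - 1)))
    (hNX : (N : ℝ) ≤ τ * X) (hNL : 2 ^ m * (K * N) * (S : ℝ) ≤ τ * L₀)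
    (hXP : cX * P ≤ X) (hPX : 2 ^ n * (2 * P) ≤ τ * X ^ n)
    (hφ2 : 2 ≤ φ) (hφB : 2 * (2 * P) ^ 2 ≤ (2 * φ) ^ mm m) (hφm : φ ^ m ≤ C₇ * (A * P ^ (e + 2)))
    (hφk : φ ≤ C₇ * (Y ^ 16 * P ^ k))
    (hA0 : 0 < A) (hP1 : 1 ≤ P) {a : ℝ} (ha1 : 1 ≤ a) (haB : a ≤ 2 * P)
    (hub : ∀ U : Finset (ι → ℤ), (∀ x ∈ U, Sz (2 * P) x ∧ Prim x ∧ ¬ Bal (2 * P) a x) →
      (U.card : ℝ) ≤ τ * X ^ n)
    (hΔ0 : 0 < Δ) (hKNΔτ : (K * N : ℝ) ≤ τ * Δ)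
    {Lg : ℝ} (hA₂ : A + (c + c' * (1 + M * c) / (1 / T)) * (Δ / (2 * P) ^ (e + 2) + K * a) +
      c' * ((1 + Lg) * a ^ 2) ≤ (1 + τ₂) * A)
    (hA' : (1 - τ₂) * A + c * (Δ / (2 * P) ^ (e + 2) + a) ≤ A)
    (haA : 2 * c * a ≤ A) (haA2 : 2 * c' * ((1 + Lg) * a ^ 2) ≤ A)
    (hLg : ∀ s : ℕ, (s : ℝ) ≤ 15 * (n:ℝ) ^ 2 * a * (2 * P) → (Nat.log 2 s : ℝ) ≤ Lg)
    (hτ₂0 : 0 < τ₂) (hτ₂1 : τ₂ ≤ 1 / 4)
    {G : ℝ} (hG : ((formsZ ι (e + 2) A).card : ℝ) = G) (hG0 : 0 < G)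
    (hG₂ : ((formsZ ι (e + 2) ((1 + τ₂) * A)).card : ℝ) ≤ (1 + τ) * G)
    (hG' : (1 - τ) * G ≤ ((formsZ ι (e + 2) ((1 - τ₂) * A)).card : ℝ))
    (hG3A : ((formsZ ι (e + 2) (3 * A)).card : ℝ) ≤ 4 ^ M * G)
    (hG2A : ((formsZ ι (e + 2) (2 * A)).card : ℝ) ≤ 3 ^ M * G) :
    (((formsZ ι (e + 2) A).filter (fun g =>
      ¬ SolIn (Xt (2 * P) a P ξ ρ φ S J xc yc) m (mem' fc S J g))).card : ℝ) ≤
      ε * (formsZ ι (e + 2) A).card := by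
  have hnι : 1 ≤ Fintype.card ι := by omega
  have hKr : (1:ℝ) ≤ K := by exact_mod_cast hK0
  have hN1 : 1 ≤ N := by
    have : (1:ℝ) ≤ N := by linarith
    exact_mod_cast this
  have hN1r : (1:ℝ) ≤ N := by exact_mod_cast hN1
  have hP0 : 0 < P := by linarith
  have hφ0 : 0 < φ := by linarith
  have hm0 : (0:ℝ) < m := by exact_mod_cast (by omega : 0 < m)
  have hS0 : (0:ℝ) < S := by exact_mod_cast hD.hS
  have hS1 : (1:ℝ) ≤ S := by exact_mod_cast hD.hS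
  have hJ1 : (1:ℝ) ≤ J := by exact_mod_cast hD.hJ
  have hSJ0 : (0:ℝ) < ((S * J : ℕ) : ℝ) := by exact_mod_cast hD.pos
  have hX0 : 0 < X := lt_of_lt_of_le (by positivity) hXP
  have h1X : 1 ≤ τ * X := by linarith
  obtain ⟨Δ₁, hΔ₁⟩ : ∃ Δ₁ : ℝ, Δ₁ = ((S * J : ℕ) : ℝ) * Δ := ⟨_, rfl⟩
  rw [← hΔ₁] at hΔτ hL₀
  have hΔ₁0 : 0 < Δ₁ := by rw [hΔ₁]; positivity
  have hL₀0 : 0 < L₀ := by rw [hL₀]; positivity
  obtain ⟨L, hL⟩ : ∃ L : ℝ, L = Lu m Δ₁ τ φ := ⟨_, rfl⟩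
  obtain ⟨l, hl⟩ : ∃ l : ℝ, l = Ll m Δ₁ τ φ := ⟨_, rfl⟩
  have hLL : L = L₀ / (1 - 2 * τ) ^ (m - 1) := by
    rw [hL, hL₀]; unfold Lu
    rw [mul_pow]
    have : 0 < 1 - 2 * τ := by linarith
    field_simp
  have hlL : l = L₀ / (1 + 2 * τ) ^ (m - 1) := by
    rw [hl, hL₀]; unfold Ll
    rw [mul_pow]
    field_simp
  have hL₀L : L₀ ≤ L := by
    rw [hLL, le_div_iff₀ (pow_pos (by linarith) _)]
    have : (1 - 2 * τ) ^ (m - 1) ≤ 1 := pow_le_one₀ (by linarith) (by linarith)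
    exact mul_le_of_le_one_right hL₀0.le this
  have hL0 : 0 < L := by linarith
  have hl0 : 0 < l := by rw [hlL]; positivity
  have hlL₀ : L₀ ≤ 2 ^ m * l := by
    rw [hlL, mul_div_assoc', le_div_iff₀ (by positivity), mul_comm (2 ^ m) L₀]
    apply mul_le_mul_of_nonneg_left _ hL₀0.le
    calc (1 + 2 * τ) ^ (m - 1) ≤ 2 ^ (m - 1) := pow_le_pow_left₀ (by linarith) (by linarith) _
      _ ≤ 2 ^ m := pow_le_pow_right₀ (by norm_num) (by omega)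
  have h2m : (1:ℝ) ≤ 2 ^ m := one_le_pow₀ (by norm_num)
  have hKN1 : (1:ℝ) ≤ K * N := one_le_mul_of_one_le_of_one_le hKr hN1r
  -- the smooth modulus
  have hKw : ∀ p : ℕ, p.Prime → p ∣ K → p ≤ w := by
    intro p hp hpK
    rw [hK] at hpK
    have h1 := (Nat.Prime.prime hp).dvd_of_dvd_pow hpK
    obtain ⟨q, hq, hpq⟩ := ((Nat.Prime.prime hp).dvd_finsetProd_iff _).mp h1
    rw [Finset.mem_filter, Finset.mem_range] at hq
    have := (Nat.prime_dvd_prime_iff_eq hp hq.2).mp hpq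
    omega
  obtain ⟨u, hu⟩ : ∃ u : ℝ, u = L / (S * K : ℕ) := ⟨_, rfl⟩
  have hSK0 : (0:ℝ) < ((S * K : ℕ) : ℝ) := by exact_mod_cast Nat.mul_pos hD.hS hK0
  have hu0 : 0 < u := by rw [hu]; positivity
  have hNu : (N : ℝ) ≤ τ * u := by
    rw [hu, mul_div_assoc', le_div_iff₀ hSK0]
    have h1 : (N : ℝ) * (S * K : ℕ) ≤ 2 ^ m * (K * N) * (S : ℝ) := by
      push_cast
      have h0 : 0 ≤ (K:ℝ) * N * S := by positivity
      have h3 : 1 * ((K:ℝ) * N * S) ≤ 2 ^ m * ((K:ℝ) * N * S) :=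
        mul_le_mul_of_nonneg_right h2m h0
      linarith
    have h2 := mul_le_mul_of_nonneg_left hL₀L hτ0.le
    linarith
  have hlS : 1 ≤ τ * (l / S) := by
    rw [mul_div_assoc', le_div_iff₀ hS0, one_mul]
    have h1 : 2 ^ m * (S : ℝ) ≤ 2 ^ m * (τ * l) := by
      have h2 := mul_le_mul_of_nonneg_left hlL₀ hτ0.le
      have h3 : 2 ^ m * (S : ℝ) ≤ 2 ^ m * (K * N) * (S : ℝ) := by
        have h5 : 0 ≤ (2:ℝ) ^ m * S := by positivity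
        have h6 : 1 * ((2:ℝ) ^ m * S) ≤ (K * N) * ((2:ℝ) ^ m * S) :=
          mul_le_mul_of_nonneg_right hKN1 h5
        linarith
      linarith
    exact le_of_mul_le_mul_left h1 (by positivity)
  have hnear₂ : ∀ g ∈ formsZ ι (e + 2) ((1 + τ₂) * A),
      Near P ξ ρ (S * J) xc τ φ m (mem' fc S J g) := fun g hg =>
    hmemS _ (mul_le_mul_of_nonneg_right (by linarith) hA0.le) g hg
  have hnear' : ∀ g ∈ formsZ ι (e + 2) ((1 - τ₂) * A),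
      Near P ξ ρ (S * J) xc τ φ m (mem' fc S J g) := fun g hg =>
    hmemS _ (mul_le_mul_of_nonneg_right (by linarith) hA0.le) g hg
  have hUex : ∀ p : (ι → ℤ) × ℤ, ∃ u : ℤ, p.1 ∈ cube P ξ ρ (S * J) xc → p.2 ∈ Ws φ S yc →
      p.2 ^ m - MvPolynomial.eval p.1 fc = ((S * J : ℕ) : ℤ) * u := by
    intro p
    by_cases h : p.1 ∈ cube P ξ ρ (S * J) xc ∧ p.2 ∈ Ws φ S yc
    · obtain ⟨u, hu⟩ := hD.class_dvd (mem_cube.mp h.1).2 (mem_Ws.mp h.2).2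
      exact ⟨u, fun _ _ => hu⟩
    · exact ⟨0, fun h1 h2 => absurd ⟨h1, h2⟩ h⟩
  choose U hU using hUex
  have hSM := hCt w hw1 fc hfc S J hD.hS xc yc P hP0 ξ hξr ρ φ (2 * P) a A ((1 + τ₂) * A) Δ T
    hρ0.le hρ2 (by linarith) hφB ha1 haB hT1 Lg (by rw [hn]; exact hLg) U hU N hNT K hK hΔ0.le
    (hKNΔτ.trans (mul_le_of_le_one_left hΔ0.le (by linarith)))
    (by rw [hn, hM, hc, hc']; exact hA₂) (by rw [hn, hc]; exact haA) (by rw [hn, hc']; exact haA2)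
    ((X + 1) ^ n * (u + 1))
    ((1 + τ) ^ (2 * n + 3) / (1 - τ) ^ 2 * (X ^ n * u * K / (2 * Δ)) ^ 2)
    (R2 n m X u) (fun D => by unfold R2; split_ifs <;> positivity)
    (mul_nonneg (div_nonneg (by positivity) (by positivity)) (by positivity))
    (fun g hg => by
      have := LocS_le hD (by omega) hK0 hKw (P := P) (ρ := ρ) (ξ := ξ) (by positivity) hφ0 hτ0.le
        hτ1 hΔ₁0.le hΔτ (hnear₂ g hg)
      rw [hn, ← hX, ← hL, ← hu] at this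
      rw [← hΔ₁]
      exact this)
    (fun D hD1 hDN hDw g hg ζ c T' hT' => by
      unfold R2
      split_ifs with h1
      · have h2 := LocS_le hD (by omega) hK0 hKw (P := P) (ρ := ρ) (ξ := ξ) (by positivity) hφ0
          hτ0.le hτ1 hΔ₁0.le hΔτ (hnear₂ g hg)
        rw [hn, ← hX, ← hL, ← hu] at h2
        refine le_trans ?_ h2
        rw [hΔ₁]
        have : T' ⊆ LocS P ξ ρ φ S J xc yc m (mem' fc S J g) K (((S * J : ℕ) : ℝ) * Δ) :=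
          fun p hp => (hT' p hp).1
        exact_mod_cast Finset.card_le_card this
      · have h2 := LocD_le hD (by omega) hK0 hKw (P := P) (ρ := ρ) (ξ := ξ) (by positivity) hφ0
          hτ0.le hτ1 hΔ₁0.le hΔτ (hnear₂ g hg) hD1 hDw ζ c T' (by rw [hΔ₁]; exact hT')
        rw [hn, ← hX, ← hL, ← hu] at h2
        exact h2)
    (fun D hD1 hDN => by
      rw [hG]
      have hDNr : (D:ℝ) ≤ N := by exact_mod_cast hDN
      refine ED_num hn3 hm hK0 hD1 hτ0 hτ1 hX0 hu0 hΔ0 hG0 hG₂ (by linarith) (by linarith) ?_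
      exact (mul_le_mul_of_nonneg_left hDNr (by linarith)).trans hKNΔτ)
  -- first moment and Chebyshev
  have hXs := Xs_lower hw1 hD (a := a) hP1 hρ0.le hρ2 hξ hξr (by omega) hX hτ0 (by linarith)
    (by rw [hn]; exact hwτ) h1X (by rw [hn]; exact hPX) (by rw [hn]; exact hub)
  rw [hn] at hXs
  have htest : ∀ g ∈ formsZ ι (e + 2) ((1 - τ₂) * A), bX n τ * X ^ n * ((1 - τ) * (l / S)) ≤
      (((Xt (2 * P) a P ξ ρ φ S J xc yc).filter (fun p =>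
        |((p.2 ^ m - MvPolynomial.eval p.1 (mem' fc S J g) : ℤ) : ℝ)| ≤
          ((S * J : ℕ) : ℝ) * Δ)).card : ℝ) := by
    intro g hg
    rw [← hΔ₁, hl]
    exact test_lower (by omega) hD.hS hτ0 hτ1 hφ2 hΔ₁0.le hΔτ (hnear' g hg) hXs
      (by rw [← hl]; exact hlS)
  obtain ⟨r₀, hr₀⟩ : ∃ r₀ : ℝ, r₀ = X ^ n * (L₀ / S) / (2 * Δ) := ⟨_, rfl⟩
  have hr₀0 : 0 < r₀ := by rw [hr₀]; positivity
  have hE₁ : (1 - τ) ^ 2 / (1 + τ) * bX n τ * (X ^ n * (l / S) / (2 * Δ)) = bm n m τ * r₀ := by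
    rw [hr₀, hlL]; unfold bm; field_simp
  have hE : (1 + τ) ^ (2 * n + 3) / (1 - τ) ^ 2 * (X ^ n * u * K / (2 * Δ)) ^ 2 =
      Fm n m τ * r₀ ^ 2 := by
    rw [hr₀, hu, hLL]; unfold Fm
    have h1 : (K:ℝ) ≠ 0 := by positivity
    have : 0 < 1 - 2 * τ := by linarith
    push_cast
    field_simp
  have hE₁0 : 0 < bm n m τ * r₀ := mul_pos (by linarith) hr₀0
  have hcheb := chebyshev (A := A) (A' := (1 - τ₂) * A) e hD.pos ha1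
    (by linarith : (1:ℝ) ≤ 2 * P) U hU hΔ0.le (by rw [hn, hc]; exact hA') hE₁0.le htest
    (by
      rw [hG, ← hE₁]
      refine cheb_num hτ0 hb0 (by positivity) (by positivity) hΔ0 hG0 hG' (by linarith) ?_
      linarith)
  rw [hE] at hSM
  rw [hG] at hcheb hSM ⊢
  have hr₀2 : X ^ n / (m * φ ^ (m - 1)) ≤ r₀ := by
    rw [hr₀, hL₀, hΔ₁]
    push_cast
    have e1 : X ^ n * (2 * ((S:ℝ) * J * Δ) / (m * φ ^ (m - 1)) / S) / (2 * Δ) =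
        X ^ n / (m * φ ^ (m - 1)) * J := by field_simp
    rw [e1]
    exact le_mul_of_one_le_right (by positivity) hJ1
  have hE₁2 : 1 / 2 * r₀ ≤ bm n m τ * r₀ := mul_le_mul_of_nonneg_right hb1 hr₀0.le
  refine final_ineq hE₁0 hcheb hSM ?_ ?_ ?_
  · refine core_main ?_ hG0.le (by linarith) hτF
    unfold Fm
    exact div_nonneg (div_nonneg (by positivity) (by positivity)) (by positivity)
  · rw [hn]
    exact t1_num (by omega) hCt0 hG0 hG3A hP0 hA0 hε hcX0 (by linarith) hφ0 (by positivity) hXP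
      hφm hTs hr₀2 hE₁2
  · refine t2_num hm hCt0 hG0 hG2A hP1 hA0 hε hcX0 hC₇1 hφ0 hY1 hXP hφm hφk hPY hnk
      hYs (Nat.cast_nonneg _) ?_ hr₀2 hE₁2
    have h1 : ((Xt (2 * P) a P ξ ρ φ S J xc yc).card : ℝ) =
        ((Xs (2 * P) a P ξ ρ (S * J) xc).card : ℝ) * ((Ws φ S yc).card : ℝ) := by
      unfold Xt
      rw [Finset.card_product]
      push_cast; rfl
    rw [h1]
    apply mul_le_mul _ (card_Ws_le (by linarith) hD.hS yc) (Nat.cast_nonneg _) (by positivity)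
    have h2 : Xs (2 * P) a P ξ ρ (S * J) xc ⊆ cube P ξ ρ (S * J) xc :=
      fun x hx => (mem_Xs.mp hx).1
    have h3 := card_cube_le (P := P) (ξ := ξ) (ρ := ρ) hD.pos xc (by positivity)
    rw [hn, ← hX] at h3
    have h4 : ((Xs (2 * P) a P ξ ρ (S * J) xc).card : ℝ) ≤
        ((cube P ξ ρ (S * J) xc).card : ℝ) := by exact_mod_cast Finset.card_le_card h2
    refine h4.trans (h3.trans ?_)
    apply pow_le_pow_left₀ (by positivity)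
    have := mul_le_of_le_one_left hX0.le (by linarith : τ ≤ 1)
    linarith

end Pool.Agent.Run7.h443.CD
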