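import Pool.Agent.Run7.h443.CD.Num2

/-!
# The core of the class theorem for cyclic covers, first part
-/

namespace Pool.Agent.Run7.h443.CD

open Finset
open Pool.Agent.Y716.Q

open scoped Classical in
theorem core1 {ι : Type*} [Fintype ι] {n : ℕ} (hn : Fintype.card ι = n) (hn3 : 3 ≤ n)
    {e μ k : ℕ} (hk1 : 1 ≤ k) (he : e + 2 = (μ + 2) * k) (hnk : k * (μ + 1) + 1 ≤ n)
    {M : ℕ} (hM : (mons ι (e + 2)).card = M)
    {c c' Ct Cu : ℝ} (hc : c1pt n (e + 1) = c) (hc' : cker n e = c') (hc0 : 0 < c) (hc'0 : 0 < c')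
    (hCt0 : 0 < Ct) (hCt : SM ι e (μ + 2) Ct) (hCu0 : 0 < Cu) (hCu : UB ι Cu)
    {ε τ τ₂ T cX C₇ κ c₅ θ : ℝ} (hε : 0 < ε)
    (hτ0 : 0 < τ) (hτ1 : τ ≤ 1 / 4) (hb1 : 1 / 2 ≤ bm n (μ + 2) τ) (hb0 : 0 < bX n τ)
    (hτF : Fm n (μ + 2) τ * (1 + τ) ≤ (1 + ε / 2) * bm n (μ + 2) τ ^ 2)
    {w : ℕ} (hw1 : 1 ≤ w) (hwτ : 2 ^ n / (w : ℝ) ≤ τ)
    (hww : 3 * ((μ + 2 : ℕ) : ℝ) * mm (μ + 2) * (w : ℝ) ^ (-((1 : ℝ) / mm (μ + 2))) ≤ τ)
    (hT1 : 1 ≤ T) (hcX0 : 0 < cX) (hC₇1 : 1 ≤ C₇) (hκ0 : 0 < κ)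
    (hTs : T ^ (-((1 : ℝ) / mm (μ + 2) / 8)) *
      (Ct * 4 ^ M * 4 ^ n * (16 * ((μ + 2 : ℕ) : ℝ) ^ 2) * C₇ ^ 2) ≤ ε * cX ^ (2 * n))
    {N : ℕ} (hNT : 2 * T ≤ N) {K : ℕ}
    (hK : K = (∏ p ∈ (Finset.range (w + 1)).filter Nat.Prime, p) ^ N) (hK0 : 0 < K)
    (hτ₂0 : 0 < τ₂) (hτ₂1 : τ₂ ≤ 1 / 4) (hτ₂2 : (1 + 2 * τ₂) ^ M ≤ 1 + τ)
    (hτ₂3 : 1 - τ ≤ (1 - 2 * τ₂) ^ M)
    (hc₅ : c₅ = c + c' * (1 + M * c) / (1 / T)) (hc₅c : c ≤ c₅) (hθ0 : 0 < θ)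
    (hθc : c₅ * θ ≤ τ₂ / 4)
    {Q₀ : ℕ} {r Y A P : ℝ} (hr : r = 12 * μ + 24)
    (y1 : 2 ≤ Y) (y2 : 2 * (n:ℝ) * (12 * μ + 24) + 3 ≤ Y)
    (y3 : 30 * (n:ℝ) ^ 2 * r * Y ^ (24 * μ + 39) < Real.exp Y)
    (y4 : 2 * (c₅ * K * r + 3 * c' * r ^ 2) / τ₂ ≤ Y) (y5 : (K * N : ℝ) / (τ * θ) ≤ Y)
    (y6 : r ≤ Y) (y7 : 1 / κ ≤ Y) (y8 : (N:ℝ) / (τ * cX) ≤ Y)
    (y9 : 2 ^ (μ + 2) * (K * N) * Q₀ * ((μ + 2 : ℕ) : ℝ) * C₇ / (2 * τ * θ) ≤ Y)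
    (y10 : 2 ^ (n + 1) / (τ * cX ^ 2) ≤ Y) (y11 : 1 + 1 / τ₂ ≤ Y)
    (y12 : 16 * ((μ + 2 : ℕ) : ℝ) ^ 2 * Ct * 3 ^ M * 2 ^ (n + 1) * C₇ ^ (μ + 2) ≤
      ε * cX ^ n * Y)
    (y13 : Cu * 4 ^ n * (8 * μ + 12) ≤ τ * cX ^ n * Y)
    (hYA : Y ^ (16 * (μ + 2)) = A) (hPdef : P = Y ^ (16 * μ + 24))
    {fc : MvPolynomial ι ℤ} (hfc : fc.IsHomogeneous (e + 2)) {S J : ℕ} {xc : ι → ℤ} {yc : ℤ}
    {ξ : ι → ℝ} {ρ φ H : ℝ} (hD : CData w fc (μ + 2) S J xc yc) (hSJQ : S * J ≤ Q₀)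
    (hρ0 : 0 < ρ) (hρ2 : ρ ≤ 1 / 2) (hξ : ∀ i, |ξ i| ≤ 1) (hξr : ∃ r, |ξ r| = 1)
    (hmemS : ∀ A₃ : ℝ, A₃ ≤ 2 * A → ∀ g ∈ formsZ ι (e + 2) A₃,
      Near P ξ ρ (S * J) xc τ φ (μ + 2) (mem' fc S J g))
    {Δ X : ℝ} (hΔ : Δ = θ * A * P ^ (e + 2))
    (hΔτ : ((S * J : ℕ) : ℝ) * Δ ≤ τ * φ ^ (μ + 2)) (hX : X = 2 * ρ * P / (S * J : ℕ))
    (hXP : cX * P ≤ X) (hφ0 : 0 < φ) (hφm : φ ^ (μ + 2) ≤ C₇ * (A * P ^ (e + 2)))
    (hφl : P ^ (e + 2) * (κ * H) ≤ φ ^ (μ + 2)) (hHA : A ≤ H) :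
    ∃ a : ℝ, (((formsZ ι (e + 2) A).filter (fun g =>
      ¬ SolIn (Xt (2 * P) a P ξ ρ φ S J xc yc) (μ + 2) (mem' fc S J g))).card : ℝ) ≤
      ε * (formsZ ι (e + 2) A).card := by
  have hT0 : 0 < T := by linarith
  have hc₅0 : 0 < c₅ := by linarith
  have hKr : (1:ℝ) ≤ K := by exact_mod_cast hK0
  have hY0 : 0 < Y := by linarith
  have hY1 : 1 ≤ Y := by linarith
  have hA0 : 0 < A := by rw [← hYA]; positivity
  have hr1 : 1 ≤ r := by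
    rw [hr]; have : (0:ℝ) ≤ μ := Nat.cast_nonneg _
    linarith
  have hr0 : 0 < r := by linarith
  have hPY : Y ≤ P := by
    rw [hPdef]
    calc Y = Y ^ 1 := by ring
      _ ≤ Y ^ (16 * μ + 24) := pow_le_pow_right₀ hY1 (by omega)
  have hP0 : 0 < P := by linarith
  have hP1 : 1 ≤ P := by linarith
  have hAY : Y ≤ A := by
    rw [← hYA]
    calc Y = Y ^ 1 := by ring
      _ ≤ Y ^ (16 * (μ + 2)) := pow_le_pow_right₀ hY1 (by omega)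
  have hm0 : (0:ℝ) < ((μ + 2 : ℕ) : ℝ) := by positivity
  have hSJ0 : (0:ℝ) < ((S * J : ℕ) : ℝ) := by exact_mod_cast hD.pos
  have hSJ1 : (1:ℝ) ≤ ((S * J : ℕ) : ℝ) := by exact_mod_cast hD.pos
  have hS0 : (0:ℝ) < S := by exact_mod_cast hD.hS
  have hSQ : (S : ℝ) ≤ Q₀ := by
    have : S ≤ Q₀ := (Nat.le_mul_of_pos_right S hD.hJ).trans hSJQ
    exact_mod_cast this
  have hAP0 : 0 < A * P ^ (e + 2) := by positivity
  have hΔ0 : 0 < Δ := by rw [hΔ]; positivity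
  have hX0 : 0 < X := lt_of_lt_of_le (by positivity) hXP
  -- the size of `φ`
  have hκH : 1 ≤ κ * H := by
    rw [div_le_iff₀ hκ0] at y7
    have h1 := mul_le_mul_of_nonneg_left (hAY.trans hHA) hκ0.le
    linarith
  have hφP : P ≤ φ := by
    have h1 : P ^ (μ + 2) ≤ φ ^ (μ + 2) := by
      refine le_trans ?_ hφl
      have h2 : P ^ (μ + 2) ≤ P ^ (e + 2) := by
        apply pow_le_pow_right₀ hP1
        rw [he]; exact Nat.le_mul_of_pos_right _ hk1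
      have h3 : P ^ (e + 2) * 1 ≤ P ^ (e + 2) * (κ * H) :=
        mul_le_mul_of_nonneg_left hκH (by positivity)
      linarith
    exact le_of_pow_le_pow_left₀ (by omega) hφ0.le h1
  have hφY : Y ≤ φ := hPY.trans hφP
  have hφ2 : 2 ≤ φ := y1.trans hφY
  have hφB : 2 * (2 * P) ^ 2 ≤ (2 * φ) ^ mm (μ + 2) := by
    have h1 : (2 * φ) ^ 3 ≤ (2 * φ) ^ mm (μ + 2) :=
      pow_le_pow_right₀ (by linarith) (mm_ge (by omega))
    have h2 : (2 * P) ^ 3 ≤ (2 * φ) ^ 3 := pow_le_pow_left₀ (by positivity) (by linarith) _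
    have h3 : 2 * (2 * P) ^ 2 ≤ (2 * P) * (2 * P) ^ 2 :=
      mul_le_mul_of_nonneg_right (by linarith) (by positivity)
    have h4 : (2 * P) * (2 * P) ^ 2 = (2 * P) ^ 3 := by ring
    linarith
  have hφk : φ ≤ C₇ * (Y ^ 16 * P ^ k) := by
    have h1 : φ ^ (μ + 2) ≤ (C₇ * (Y ^ 16 * P ^ k)) ^ (μ + 2) := by
      refine hφm.trans ?_
      rw [mul_pow, mul_pow, ← pow_mul, ← pow_mul, hYA, he, mul_comm k (μ + 2)]
      apply mul_le_mul_of_nonneg_right _ (by positivity)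
      exact le_self_pow₀ hC₇1 (by omega)
    exact le_of_pow_le_pow_left₀ (by omega) (by positivity) h1
  -- the parameter `m₀`
  obtain ⟨m₀, hm₀⟩ : ∃ m₀ : ℕ, m₀ = ⌊Y ^ (8 * μ + 15)⌋₊ := ⟨_, rfl⟩
  obtain ⟨hm1, hm2, hm3⟩ := m_bounds' y1 (8 * μ + 15) (by omega)
  rw [← hm₀] at hm1 hm2 hm3
  obtain ⟨a, ha⟩ : ∃ a : ℝ, ((12 * μ + 24 : ℕ) : ℝ) * (m₀ : ℝ) = a := ⟨_, rfl⟩
  have ha' : a = r * m₀ := by rw [← ha, hr]; push_cast; ring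
  have hm₀1 : (1:ℝ) ≤ m₀ := by exact_mod_cast hm3
  have ha1 : 1 ≤ a := by rw [ha']; exact one_le_mul_of_one_le_of_one_le hr1 hm₀1
  have haY : a ≤ r * Y ^ (8 * μ + 15) := by
    rw [ha']; exact mul_le_mul_of_nonneg_left hm1 hr0.le
  have haB : a ≤ 2 * P := by
    refine haY.trans ?_
    rw [hPdef]
    have h1 : r * Y ^ (8 * μ + 15) ≤ Y * Y ^ (8 * μ + 15) :=
      mul_le_mul_of_nonneg_right y6 (by positivity)
    have h2 : Y * Y ^ (8 * μ + 15) = Y ^ (8 * μ + 16) := by ring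
    have h3 : Y ^ (8 * μ + 16) ≤ Y ^ (16 * μ + 24) := pow_le_pow_right₀ hY1 (by omega)
    have h4 : 0 < Y ^ (16 * μ + 24) := by positivity
    linarith
  -- facts about Δ
  have hΔY : θ * Y ≤ Δ := by
    rw [hΔ]
    have h1 : (1:ℝ) ≤ P ^ (e + 2) := one_le_pow₀ hP1
    have h2 : θ * Y ≤ θ * A := mul_le_mul_of_nonneg_left hAY hθ0.le
    have h3 : θ * A ≤ θ * A * P ^ (e + 2) := le_mul_of_one_le_right (mul_pos hθ0 hA0).le h1
    linarith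
  have hKNΔτ : (K * N : ℝ) ≤ τ * Δ := by
    rw [div_le_iff₀ (by positivity)] at y5
    have := mul_le_mul_of_nonneg_left hΔY hτ0.le
    linarith
  -- X
  have hNX : (N : ℝ) ≤ τ * X := by
    rw [div_le_iff₀ (by positivity)] at y8
    have h1 : cX * Y ≤ X := (mul_le_mul_of_nonneg_left hPY hcX0.le).trans hXP
    have := mul_le_mul_of_nonneg_left h1 hτ0.le
    linarith
  have hPX : 2 ^ n * (2 * P) ≤ τ * X ^ n := by
    rw [div_le_iff₀ (by positivity)] at y10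
    have h1 : (cX * P) ^ 2 ≤ X ^ 2 := pow_le_pow_left₀ (by positivity) hXP 2
    have hX1 : 1 ≤ X := by
      have h2 : (1:ℝ) ≤ N := by linarith
      have h3 := mul_le_of_le_one_left hX0.le (by linarith : τ ≤ 1)
      linarith
    have h2 : X ^ 2 ≤ X ^ n := pow_le_pow_right₀ hX1 (by omega)
    have h3 : 2 ^ (n + 1) * P ≤ Y * (τ * cX ^ 2) * P := mul_le_mul_of_nonneg_right y10 hP0.le
    have h4 : Y * (τ * cX ^ 2) * P ≤ P * (τ * cX ^ 2) * P :=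
      mul_le_mul_of_nonneg_right (mul_le_mul_of_nonneg_right hPY (by positivity)) hP0.le
    have h5 : P * (τ * cX ^ 2) * P = τ * (cX * P) ^ 2 := by ring
    have h6 := mul_le_mul_of_nonneg_left (h1.trans h2) hτ0.le
    have h7 : (2:ℝ) ^ n * (2 * P) = 2 ^ (n + 1) * P := by ring
    linarith
  -- L₀
  obtain ⟨L₀, hL₀⟩ : ∃ L₀ : ℝ, L₀ = 2 * ((S * J : ℕ) * Δ) / (((μ + 2 : ℕ) : ℝ) *
    φ ^ (μ + 2 - 1)) := ⟨_, rfl⟩
  have hNL : 2 ^ (μ + 2) * (K * N) * (S : ℝ) ≤ τ * L₀ := by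
    have h1 : 2 * θ * φ / (((μ + 2 : ℕ) : ℝ) * C₇) ≤ L₀ := by
      rw [hL₀, show μ + 2 - 1 = μ + 1 by omega, div_le_div_iff₀ (by positivity) (by positivity)]
      have h2 : θ * φ ^ (μ + 2) ≤ ((S * J : ℕ) : ℝ) * Δ * C₇ := by
        have h3 := mul_le_mul_of_nonneg_left hφm hθ0.le
        have h4 : θ * (C₇ * (A * P ^ (e + 2))) = Δ * C₇ := by rw [hΔ]; ring
        have h5 : Δ * C₇ ≤ ((S * J : ℕ) : ℝ) * (Δ * C₇) :=
          le_mul_of_one_le_left (by positivity) hSJ1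
        linarith
      have h3 : 2 * θ * φ * (((μ + 2 : ℕ) : ℝ) * φ ^ (μ + 1)) =
          (2 * ((μ + 2 : ℕ) : ℝ)) * (θ * φ ^ (μ + 2)) := by ring
      rw [h3]
      have h4 := mul_le_mul_of_nonneg_left h2 (by positivity : 0 ≤ 2 * ((μ + 2 : ℕ) : ℝ))
      linarith
    have h2 : 2 ^ (μ + 2) * (K * N) * (S : ℝ) ≤ 2 ^ (μ + 2) * (K * N) * (Q₀ : ℝ) :=
      mul_le_mul_of_nonneg_left hSQ (by positivity)
    rw [div_le_iff₀ (by positivity)] at y9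
    have h3 : Y * (2 * τ * θ) ≤ φ * (2 * τ * θ) := mul_le_mul_of_nonneg_right hφY (by positivity)
    have h4 : 2 ^ (μ + 2) * (K * N) * (Q₀ : ℝ) ≤ τ * (2 * θ * φ / (((μ + 2 : ℕ) : ℝ) * C₇)) := by
      rw [mul_div_assoc', le_div_iff₀ (by positivity)]
      linarith
    have h5 := mul_le_mul_of_nonneg_left h1 hτ0.le
    linarith
  -- size conditions
  have hY31 : 0 < Y ^ (16 * μ + 31) := by positivity
  have hA31 : A = Y * Y ^ (16 * μ + 31) := by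
    rw [← hYA, show 16 * (μ + 2) = (16 * μ + 31) + 1 by ring]; ring
  have hy4 : (c₅ * K * r + 3 * c' * r ^ 2) * Y ^ (16 * μ + 31) ≤ τ₂ / 2 * A := by
    rw [div_le_iff₀ hτ₂0] at y4
    have := mul_le_mul_of_nonneg_right y4 hY31.le
    rw [hA31]; linarith
  have hY15 : Y ^ (8 * μ + 15) ≤ Y ^ (16 * μ + 31) := pow_le_pow_right₀ hY1 (by omega)
  have ha2 : (1 + 2 * Y) * a ^ 2 ≤ 3 * r ^ 2 * Y ^ (16 * μ + 31) := by
    have h1 : a ^ 2 ≤ (r * Y ^ (8 * μ + 15)) ^ 2 := pow_le_pow_left₀ (by linarith) haY 2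
    have h2 : (1 + 2 * Y) ≤ 3 * Y := by linarith
    calc (1 + 2 * Y) * a ^ 2 ≤ (3 * Y) * (r * Y ^ (8 * μ + 15)) ^ 2 :=
          mul_le_mul h2 h1 (by positivity) (by positivity)
      _ = 3 * r ^ 2 * Y ^ (16 * μ + 31) := by
          rw [mul_pow, ← pow_mul, show 16 * μ + 31 = (8 * μ + 15) * 2 + 1 by ring]; ring
  have hBP : P ^ (e + 2) ≤ (2 * P) ^ (e + 2) := pow_le_pow_left₀ hP0.le (by linarith) _
  have hΔB : Δ / (2 * P) ^ (e + 2) ≤ θ * A := by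
    rw [div_le_iff₀ (by positivity), hΔ]
    exact mul_le_mul_of_nonneg_left hBP (by positivity)
  have hc₅θ : c₅ * (θ * A) ≤ τ₂ / 4 * A := by
    have := mul_le_mul_of_nonneg_right hθc hA0.le
    linarith
  have haY31 : a ≤ r * Y ^ (16 * μ + 31) := haY.trans (mul_le_mul_of_nonneg_left hY15 hr0.le)
  have hca5 : c₅ * (K * a) ≤ c₅ * K * r * Y ^ (16 * μ + 31) := by
    have := mul_le_mul_of_nonneg_left haY31 (by positivity : (0:ℝ) ≤ c₅ * K)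
    linarith
  have hc'a : c' * ((1 + 2 * Y) * a ^ 2) ≤ 3 * c' * r ^ 2 * Y ^ (16 * μ + 31) := by
    have := mul_le_mul_of_nonneg_left ha2 hc'0.le
    linarith
  have hτ₂A : 0 < τ₂ * A := by positivity
  have hca5' : 0 ≤ c₅ * K * r * Y ^ (16 * μ + 31) := by positivity
  have hc'a' : 0 ≤ 3 * c' * r ^ 2 * Y ^ (16 * μ + 31) := by positivity
  have hA₂ : A + (c + c' * (1 + M * c) / (1 / T)) * (Δ / (2 * P) ^ (e + 2) + K * a) +
      c' * ((1 + 2 * Y) * a ^ 2) ≤ (1 + τ₂) * A := by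
    rw [← hc₅]
    have h1 : c₅ * (Δ / (2 * P) ^ (e + 2)) ≤ τ₂ / 4 * A := by
      have := mul_le_mul_of_nonneg_left hΔB hc₅0.le
      linarith
    rw [mul_add c₅]
    linarith
  have hca : c * a ≤ c₅ * K * r * Y ^ (16 * μ + 31) := by
    have h1 : c * a ≤ c₅ * (K * a) := by
      have h2 : c * a ≤ c₅ * a := mul_le_mul_of_nonneg_right hc₅c (by linarith)
      have h3 : c₅ * a ≤ c₅ * (K * a) :=
        mul_le_mul_of_nonneg_left (le_mul_of_one_le_left (by linarith) hKr) hc₅0.le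
      linarith
    linarith
  have hA' : (1 - τ₂) * A + c * (Δ / (2 * P) ^ (e + 2) + a) ≤ A := by
    have h1 : c * (Δ / (2 * P) ^ (e + 2)) ≤ τ₂ / 4 * A := by
      have h5 : c * (Δ / (2 * P) ^ (e + 2)) ≤ c₅ * (θ * A) :=
        mul_le_mul hc₅c hΔB (by positivity) hc₅0.le
      linarith
    rw [mul_add c]
    linarith
  have hτ₂A1 : τ₂ * A ≤ 1 * A := mul_le_mul_of_nonneg_right (by linarith) hA0.le
  have haA : 2 * c * a ≤ A := by linarith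
  have haA2 : 2 * c' * ((1 + 2 * Y) * a ^ 2) ≤ A := by linarith
  have hLg : ∀ s : ℕ, (s : ℝ) ≤ 15 * (n:ℝ) ^ 2 * a * (2 * P) → (Nat.log 2 s : ℝ) ≤ 2 * Y := by
    intro s hs
    apply log_bound hY0.le y3 s
    refine hs.trans ?_
    have h1 : a * (2 * P) ≤ (r * Y ^ (8 * μ + 15)) * (2 * P) :=
      mul_le_mul_of_nonneg_right haY (by positivity)
    have h2 := mul_le_mul_of_nonneg_left h1 (by positivity : (0:ℝ) ≤ 15 * (n:ℝ) ^ 2)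
    have h3 : 15 * (n:ℝ) ^ 2 * ((r * Y ^ (8 * μ + 15)) * (2 * P)) =
        30 * (n:ℝ) ^ 2 * r * Y ^ (24 * μ + 39) := by
      rw [hPdef, show 24 * μ + 39 = (8 * μ + 15) + (16 * μ + 24) by ring, pow_add]; ring
    linarith
  -- card ratios
  obtain ⟨G, hG⟩ : ∃ G : ℝ, ((formsZ ι (e + 2) A).card : ℝ) = G := ⟨_, rfl⟩
  have hG0 : 0 < G := by
    rw [← hG]
    exact_mod_cast card_forms_pos (ι := ι) (e + 2) hA0.le
  have hA10 : 1 + 1 / τ₂ ≤ A := y11.trans hAY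
  have hA1 : 1 ≤ A := by
    have : 0 < 1 / τ₂ := by positivity
    linarith
  have hτA : 1 + τ₂ ≤ τ₂ * A := by
    have := mul_le_mul_of_nonneg_left hA10 hτ₂0.le
    rw [mul_add, mul_one, mul_one_div, div_self hτ₂0.ne'] at this
    linarith
  have hA4 : 4 ≤ A := by
    have h1 : (4:ℝ) ≤ 1 / τ₂ := by
      rw [le_div_iff₀ hτ₂0]; linarith
    linarith
  have hG₂ : ((formsZ ι (e + 2) ((1 + τ₂) * A)).card : ℝ) ≤ (1 + τ) * G := by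
    have := card_forms_upper (ι := ι) (e + 2) (A := A) (R := (1 + τ₂) * A) (c := 1 + 2 * τ₂)
      hA1 (by positivity) (by positivity) (by linarith)
    rw [hM, hG] at this
    exact this.trans (mul_le_mul_of_nonneg_right hτ₂2 hG0.le)
  have hG' : (1 - τ) * G ≤ ((formsZ ι (e + 2) ((1 - τ₂) * A)).card : ℝ) := by
    have := card_forms_lower (ι := ι) (e + 2) (A := A) (R := (1 - τ₂) * A) (c := 1 - 2 * τ₂)
      hA0.le (mul_nonneg (by linarith) hA0.le) (by linarith) (by linarith)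
    rw [hM, hG] at this
    exact (mul_le_mul_of_nonneg_right hτ₂3 hG0.le).trans this
  have hG3A : ((formsZ ι (e + 2) (3 * A)).card : ℝ) ≤ 4 ^ M * G := by
    have := card_forms_upper (ι := ι) (e + 2) (A := A) (R := 3 * A) (c := 4)
      hA1 (by positivity) (by norm_num) (by linarith)
    rwa [hM, hG] at this
  have hG2A : ((formsZ ι (e + 2) (2 * A)).card : ℝ) ≤ 3 ^ M * G := by
    have := card_forms_upper (ι := ι) (e + 2) (A := A) (R := 2 * A) (c := 3)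
      hA1 (by positivity) (by norm_num) (by linarith)
    rwa [hM, hG] at this
  have hPYm : Y ^ (16 * (μ + 2 - 1)) * Y ≤ P := by
    rw [hPdef, show μ + 2 - 1 = μ + 1 by omega, ← pow_succ]
    exact pow_le_pow_right₀ hY1 (by omega)
  have hub : ∀ U : Finset (ι → ℤ), (∀ x ∈ U, Sz (2 * P) x ∧ Prim x ∧ ¬ Bal (2 * P) a x) →
      (U.card : ℝ) ≤ τ * X ^ n := by
    intro U hU
    have hYp : 0 < Y ^ (8 * μ + 14) := by positivity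
    have h1 := hCu (2 * P) m₀ (12 * μ + 24) (1 / Y ^ (8 * μ + 14)) (by linarith) hm3 (by omega)
      (by positivity)
      (by
        rw [div_le_div_iff₀ hYp (by norm_num)]
        have h2 : (2:ℝ) ^ 6 ≤ Y ^ 6 := pow_le_pow_left₀ (by norm_num) y1 6
        have h3 : Y ^ 6 ≤ Y ^ (8 * μ + 14) := pow_le_pow_right₀ hY1 (by omega)
        have h4 : (2:ℝ) ^ 6 = 64 := by norm_num
        linarith)
      (by rw [hn, hPdef]; exact small_cond' y1 y2 hm1 hm2)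
      (by
        rw [mul_one_div, le_div_iff₀ hYp, hPdef]
        have : Y ^ (8 * μ + 14) ≤ Y ^ (16 * μ + 24) := pow_le_pow_right₀ hY1 (by omega)
        have : 0 ≤ Y ^ (16 * μ + 24) := by positivity
        linarith)
      U (by rw [ha]; exact hU)
    rw [hn, hPdef] at h1
    refine h1.trans ((unbal_num' hn3 y1 hCu0 hτ0 hcX0 y13).trans ?_)
    rw [← hPdef]
    exact mul_le_mul_of_nonneg_left (pow_le_pow_left₀ (by positivity) hXP _) hτ0.le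
  refine ⟨a, ?_⟩
  exact core2 (k := k) hn hn3 (by omega) (by rw [show μ + 2 - 1 = μ + 1 by omega]; exact hnk) hM hc
    hc' hCt0 hCt hε hτ0 hτ1 hb1 hb0 hτF hw1 hwτ hww hT1 hcX0 hC₇1 hTs hNT hK hK0 hY1 hPYm y12 hfc hD
    hρ0 hρ2 hξ hξr hmemS hΔτ hX hL₀ hNX hNL hXP hPX hφ2 hφB hφm hφk hA0 hP1 ha1 haB hub hΔ0 hKNΔτ
    hA₂ hA' haA haA2 hLg hτ₂0 hτ₂1 hG hG0 hG₂ hG' hG3A hG2A

end Pool.Agent.Run7.h443.CD
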