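import Pool.Agent.Y716.Q.Count

/-!
# Few integers in a short interval have the same `m`-th power modulo `D`
-/

namespace Pool.Agent.Run7.h443.CD

open Finset

/-- the number of pairs `i < j` of indices `0, …, m` -/
def mm (m : ℕ) : ℕ := ∑ i : Fin (m + 1), (Finset.Ioi i).card

theorem mm_eq (m : ℕ) : 2 * mm m = (m + 1) * m := by
  unfold mm
  have h1 : ∀ i : Fin (m + 1), (Finset.Ioi i).card = m - (i : ℕ) := by
    intro i
    rw [Fin.card_Ioi]
    omega
  simp only [h1]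
  rw [Fin.sum_univ_eq_sum_range (fun i => m - i) (m + 1)]
  have h2 := Finset.sum_range_reflect (fun i => i) (m + 1)
  have h3 : ∑ j ∈ Finset.range (m + 1), (m + 1 - 1 - j) = ∑ j ∈ Finset.range (m + 1), (m - j) := by
    refine Finset.sum_congr rfl fun j _ => ?_
    rw [Nat.add_sub_cancel]
  rw [← h3, h2]
  have h4 := Finset.sum_range_id_mul_two (m + 1)
  rw [Nat.add_sub_cancel] at h4
  omega

theorem mm_ge {m : ℕ} (hm : 2 ≤ m) : 3 ≤ mm m := by
  have := mm_eq m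
  nlinarith

theorem dvd_vdm {m : ℕ} (hm : 1 ≤ m) {D : ℕ} {c : ℤ} (z : Fin (m + 1) → ℤ)
    (hz : ∀ i, (D : ℤ) ∣ z i ^ m - c) :
    (D : ℤ) ∣ ∏ i : Fin (m + 1), ∏ j ∈ Finset.Ioi i, (z j - z i) := by
  rw [← ZMod.intCast_zmod_eq_zero_iff_dvd]
  set v : Fin (m + 1) → ZMod D := fun i => (z i : ZMod D) with hv
  have h1 : ((∏ i : Fin (m + 1), ∏ j ∈ Finset.Ioi i, (z j - z i) : ℤ) : ZMod D) =
      (Matrix.vandermonde v).det := by
    rw [Matrix.det_vandermonde]
    push_cast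
    rfl
  rw [h1]
  have hne : (0 : Fin (m + 1)) ≠ Fin.last m := by
    intro h
    have := congrArg Fin.val h
    simp at this
    omega
  have h2 : Matrix.vandermonde v = (Matrix.vandermonde v).updateCol (Fin.last m)
      ((c : ZMod D) • (fun i => Matrix.vandermonde v i 0)) := by
    ext i j
    by_cases hj : j = Fin.last m
    · subst hj
      rw [Matrix.updateCol_self]
      simp only [Pi.smul_apply, Matrix.vandermonde_apply, Fin.val_last, Fin.val_zero, pow_zero,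
        smul_eq_mul, mul_one]
      have h3 := hz i
      rw [← ZMod.intCast_zmod_eq_zero_iff_dvd] at h3
      push_cast at h3
      exact sub_eq_zero.mp h3
    · rw [Matrix.updateCol_ne hj]
  rw [h2, Matrix.det_updateCol_smul]
  have h4 : ((Matrix.vandermonde v).updateCol (Fin.last m)
      (fun i => Matrix.vandermonde v i 0)).det = 0 := by
    apply Matrix.det_zero_of_column_eq hne
    intro i
    rw [Matrix.updateCol_ne hne, Matrix.updateCol_self]
  rw [h4, mul_zero]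

/-- Few integers of a short interval have the same `m`-th power. -/
theorem block_card {m : ℕ} (hm : 1 ≤ m) {q D Z : ℕ} (hq : 0 < q) (hcop : Nat.Coprime q D)
    (hZ : 1 ≤ Z) (hZD : Z ^ mm m ≤ D) (c₀ c : ℤ) (T : Finset ℤ)
    (hT : ∀ z ∈ T, (q : ℤ) ∣ z - c₀ ∧ (D : ℤ) ∣ z ^ m - c)
    (hT2 : ∀ z ∈ T, ∀ z' ∈ T, |z - z'| < q * Z) : T.card ≤ m := by
  by_contra hcon
  push Not at hcon
  obtain ⟨U, hUT, hU⟩ := Finset.exists_subset_card_eq (s := T) (n := m + 1) (by omega)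
  set z : Fin (m + 1) → ℤ := fun i => U.orderEmbOfFin hU i with hz
  have hzU : ∀ i, z i ∈ T := fun i => hUT (Finset.orderEmbOfFin_mem U hU i)
  have hinj : ∀ i j, i ≠ j → z i ≠ z j := by
    intro i j hij h
    exact hij ((U.orderEmbOfFin hU).injective h)
  have hmm1 : mm m ≠ 0 := by
    have := mm_eq m
    intro h
    rw [h] at this
    nlinarith
  have h1 := dvd_vdm hm z (fun i => (hT _ (hzU i)).2)
  have hq0 : (q : ℤ) ≠ 0 := by exact_mod_cast hq.ne'
  have hqd : ∀ i j, (q : ℤ) ∣ z j - z i := by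
    intro i j
    have := dvd_sub (hT _ (hzU j)).1 (hT _ (hzU i)).1
    rwa [sub_sub_sub_cancel_right] at this
  set t : Fin (m + 1) → Fin (m + 1) → ℤ := fun i j => (z j - z i) / q with ht
  have hzt : ∀ i j, z j - z i = q * t i j := fun i j => (Int.mul_ediv_cancel' (hqd i j)).symm
  have h2 : ∏ i : Fin (m + 1), ∏ j ∈ Finset.Ioi i, (z j - z i) =
      (q : ℤ) ^ mm m * ∏ i : Fin (m + 1), ∏ j ∈ Finset.Ioi i, t i j := by
    unfold mm
    rw [← Finset.prod_pow_eq_pow_sum, ← Finset.prod_mul_distrib]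
    refine Finset.prod_congr rfl fun i _ => ?_
    rw [← Finset.prod_const, ← Finset.prod_mul_distrib]
    exact Finset.prod_congr rfl fun j _ => hzt i j
  rw [h2] at h1
  have hcop' : IsCoprime (D : ℤ) ((q : ℤ) ^ mm m) := by
    apply IsCoprime.pow_right
    rw [Int.isCoprime_iff_gcd_eq_one]
    simpa [Nat.coprime_comm] using hcop
  have h3 := hcop'.dvd_of_dvd_mul_left h1
  have htne : ∀ i, ∀ j ∈ Finset.Ioi i, t i j ≠ 0 := by
    intro i j hj h0
    have h4 := hzt i j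
    rw [h0, mul_zero, sub_eq_zero] at h4
    exact hinj j i (Finset.mem_Ioi.mp hj).ne' h4
  have hne : ∏ i : Fin (m + 1), ∏ j ∈ Finset.Ioi i, t i j ≠ 0 := by
    rw [Finset.prod_ne_zero_iff]
    intro i _
    rw [Finset.prod_ne_zero_iff]
    exact htne i
  have h5 : (D : ℤ) ≤ |∏ i : Fin (m + 1), ∏ j ∈ Finset.Ioi i, t i j| :=
    Int.le_of_dvd (abs_pos.mpr hne) ((dvd_abs _ _).mpr h3)
  have htle : ∀ i j, |t i j| ≤ (Z : ℤ) - 1 := by
    intro i j
    have h6 := hT2 _ (hzU j) _ (hzU i)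
    rw [hzt i j, abs_mul, abs_of_pos (by exact_mod_cast hq : (0 : ℤ) < q)] at h6
    have h7 : |t i j| < (Z : ℤ) := lt_of_mul_lt_mul_left h6 (by positivity)
    omega
  have h6 : |∏ i : Fin (m + 1), ∏ j ∈ Finset.Ioi i, t i j| ≤ ((Z : ℤ) - 1) ^ mm m := by
    rw [Finset.abs_prod]
    unfold mm
    rw [← Finset.prod_pow_eq_pow_sum]
    refine Finset.prod_le_prod (fun i _ => abs_nonneg _) fun i _ => ?_
    rw [Finset.abs_prod, ← Finset.prod_const]
    exact Finset.prod_le_prod (fun j _ => abs_nonneg _) fun j _ => htle i j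
  have h7 : ((Z : ℤ) - 1) ^ mm m < (Z : ℤ) ^ mm m := by
    apply pow_lt_pow_left₀ (by omega) (by omega) hmm1
  have h8 : ((Z : ℤ)) ^ mm m ≤ D := by exact_mod_cast hZD
  omega

/-- The number of integers in an interval of length `L`, in a class modulo `q`, and with given
`m`-th power modulo `D`. -/
theorem pow_card {m : ℕ} (hm : 1 ≤ m) {q D Z : ℕ} (hq : 0 < q) (hcop : Nat.Coprime q D)
    (hZ : 1 ≤ Z) (hZD : Z ^ mm m ≤ D) (c₀ c : ℤ) (T : Finset ℤ) {a L : ℝ}
    (hL : 0 ≤ L)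
    (hT : ∀ z ∈ T, (q : ℤ) ∣ z - c₀ ∧ (D : ℤ) ∣ z ^ m - c ∧ a ≤ z ∧ (z : ℝ) ≤ a + L) :
    (T.card : ℝ) ≤ m * (L / (q * Z) + 1) := by
  classical
  have hqZ : (0 : ℤ) < q * Z := by positivity
  have hqZr : (0 : ℝ) < (q : ℝ) * Z := by
    have : (0:ℝ) < q := by exact_mod_cast hq
    have : (0:ℝ) < Z := by exact_mod_cast hZ
    positivity
  set f : ℤ → ℤ := fun z => (z - ⌈a⌉) / (q * Z) with hf
  have h1 : T.card ≤ m * (Finset.Icc (0:ℤ) ⌊L / (q * Z)⌋).card := by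
    apply Finset.card_le_mul_card_image_of_maps_to (f := f)
    · intro z hz
      obtain ⟨_, _, h3, h4⟩ := hT z hz
      rw [Finset.mem_Icc, hf]
      simp only
      constructor
      · apply Int.ediv_nonneg _ hqZ.le
        have : ⌈a⌉ ≤ z := Int.ceil_le.mpr h3
        omega
      · rw [Int.le_floor, le_div_iff₀ hqZr]
        have h5 := Int.ediv_mul_le (z - ⌈a⌉) hqZ.ne'
        have h6 : (((z - ⌈a⌉) / (q * Z) * (q * Z) : ℤ) : ℝ) ≤ ((z - ⌈a⌉ : ℤ) : ℝ) := by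
          exact_mod_cast h5
        push_cast at h6
        have h7 := Int.le_ceil a
        push_cast
        linarith
    · intro b _
      apply block_card hm hq hcop hZ hZD c₀ c
      · intro z hz
        rw [Finset.mem_filter] at hz
        obtain ⟨h1, h2, _⟩ := hT z hz.1
        exact ⟨h1, h2⟩
      · intro z hz z' hz'
        rw [Finset.mem_filter] at hz hz'
        have e1 := Int.mul_ediv_add_emod (z - ⌈a⌉) (q * Z)
        have e2 := Int.mul_ediv_add_emod (z' - ⌈a⌉) (q * Z)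
        have e3 := Int.emod_nonneg (z - ⌈a⌉) hqZ.ne'
        have e4 := Int.emod_lt_of_pos (z - ⌈a⌉) hqZ
        have e5 := Int.emod_nonneg (z' - ⌈a⌉) hqZ.ne'
        have e6 := Int.emod_lt_of_pos (z' - ⌈a⌉) hqZ
        have e7 : (z - ⌈a⌉) / (q * Z : ℤ) = (z' - ⌈a⌉) / (q * Z : ℤ) := hz.2.trans hz'.2.symm
        rw [e7] at e1
        rw [abs_lt]
        constructor <;> linarith
  have h2 : (T.card : ℝ) ≤ m * ((Finset.Icc (0:ℤ) ⌊L / (q * Z)⌋).card : ℝ) := by exact_mod_cast h1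
  refine h2.trans ?_
  apply mul_le_mul_of_nonneg_left _ (Nat.cast_nonneg _)
  rw [Int.card_Icc, sub_zero]
  have h3 : 0 ≤ ⌊L / (q * Z)⌋ := Int.floor_nonneg.mpr (by positivity)
  have h4 : (((⌊L / (q * Z)⌋ + 1).toNat : ℕ) : ℝ) = ((⌊L / (q * Z)⌋ + 1 : ℤ) : ℝ) := by
    have := Int.toNat_of_nonneg (by omega : 0 ≤ ⌊L / (q * Z)⌋ + 1)
    exact_mod_cast this
  rw [h4]
  push_cast
  have := Int.floor_le (L / (q * Z))
  linarith

/-- integral `q`-th root -/
noncomputable def zr (q n : ℕ) : ℕ := ⌊(n : ℝ) ^ ((1 : ℝ) / q)⌋₊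

theorem zr_pow_le {q : ℕ} (hq : 0 < q) (n : ℕ) : zr q n ^ q ≤ n := by
  have h1 : ((zr q n : ℕ) : ℝ) ≤ (n : ℝ) ^ ((1 : ℝ) / q) := Nat.floor_le (by positivity)
  have h2 := pow_le_pow_left₀ (Nat.cast_nonneg _) h1 q
  have hq0 : (q : ℝ) ≠ 0 := by exact_mod_cast hq.ne'
  rw [← Real.rpow_natCast ((n : ℝ) ^ ((1 : ℝ) / q)) q, ← Real.rpow_mul (Nat.cast_nonneg _),
    one_div, inv_mul_cancel₀ hq0, Real.rpow_one] at h2
  exact_mod_cast h2

theorem zr_pos {q n : ℕ} (hn : 1 ≤ n) : 1 ≤ zr q n := by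
  apply Nat.le_floor
  push_cast
  exact Real.one_le_rpow (by exact_mod_cast hn) (by positivity)

theorem zr_ge {q n : ℕ} (hn : 1 ≤ n) : (n : ℝ) ^ ((1 : ℝ) / q) / 2 ≤ zr q n := by
  have h1 := Nat.sub_one_lt_floor ((n : ℝ) ^ ((1 : ℝ) / q))
  have h2 : (1 : ℝ) ≤ zr q n := by exact_mod_cast zr_pos hn
  unfold zr at h2 ⊢
  by_cases h : (n : ℝ) ^ ((1 : ℝ) / q) ≤ 2
  · linarith
  · push Not at h
    linarith

/-- The number of integers in an interval of length `L`, in a class modulo `q`, and with given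
`m`-th power modulo `D`, in terms of `D`. -/
theorem pow_card' {m : ℕ} (hm : 1 ≤ m) {q D : ℕ} (hq : 0 < q) (hcop : Nat.Coprime q D)
    (hD : 0 < D) (c₀ c : ℤ) (T : Finset ℤ) {a L : ℝ} (hL : 0 ≤ L)
    (hT : ∀ z ∈ T, (q : ℤ) ∣ z - c₀ ∧ (D : ℤ) ∣ z ^ m - c ∧ a ≤ z ∧ (z : ℝ) ≤ a + L) :
    (T.card : ℝ) ≤ m * (2 * (L / q) * (D : ℝ) ^ (-((1 : ℝ) / mm m)) + 1) := by
  have hmm : 0 < mm m := by
    have := mm_eq m
    by_contra h
    have h0 : mm m = 0 := by omega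
    rw [h0] at this
    nlinarith
  have h1 := pow_card hm hq hcop (zr_pos (q := mm m) hD) (zr_pow_le hmm D) c₀ c T hL hT
  refine h1.trans ?_
  apply mul_le_mul_of_nonneg_left _ (Nat.cast_nonneg _)
  apply add_le_add_left
  have hq0 : (0:ℝ) < q := by exact_mod_cast hq
  have hD0 : (0:ℝ) < D := by exact_mod_cast hD
  have h2 := zr_ge (q := mm m) (n := D) hD
  have h3 : 0 < (D : ℝ) ^ ((1 : ℝ) / mm m) := by positivity
  rw [Real.rpow_neg hD0.le]
  have h4 : L / (q * (zr (mm m) D : ℝ)) ≤ L / (q * ((D : ℝ) ^ ((1 : ℝ) / mm m) / 2)) := by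
    apply div_le_div_of_nonneg_left hL (by positivity)
    exact mul_le_mul_of_nonneg_left h2 hq0.le
  refine h4.trans (le_of_eq ?_)
  field_simp

end Pool.Agent.Run7.h443.CD
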