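import Pool.Agent.Y716.Q.Parts
import Pool.Agent.Run7.h443.CD.Pow

/-!
# Counting in intervals and cubes
-/

namespace Pool.Agent.Run7.h443.CD

open Finset
open Pool.Agent.Y716.Q

/-- integers in an interval and in a residue class -/
noncomputable def icl (a b : ℝ) (M : ℕ) (c : ℤ) : Finset ℤ :=
  (ivl a b).filter (fun n => (M : ℤ) ∣ n - c)

theorem mem_icl {a b : ℝ} {M : ℕ} {c n : ℤ} :
    n ∈ icl a b M c ↔ (a ≤ n ∧ (n : ℝ) ≤ b) ∧ (M : ℤ) ∣ n - c := by
  unfold icl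
  rw [Finset.mem_filter, mem_ivl]

theorem card_icl_eq {a b : ℝ} {M : ℕ} (hM : 0 < M) (c : ℤ) :
    (icl a b M c).card = (ivl ((a - c) / M) ((b - c) / M)).card := by
  have hMr : (0:ℝ) < M := by exact_mod_cast hM
  symm
  apply Finset.card_bij (fun t _ => c + M * t)
  · intro t ht
    rw [mem_ivl, div_le_iff₀ hMr, le_div_iff₀ hMr] at ht
    rw [mem_icl]
    refine ⟨⟨?_, ?_⟩, ⟨t, by ring⟩⟩
    · push_cast; linarith [ht.1]
    · push_cast; linarith [ht.2]
  · intro t _ t' _ h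
    have h1 : (M : ℤ) * t = M * t' := by linarith
    exact mul_left_cancel₀ (by exact_mod_cast hM.ne') h1
  · intro n hn
    rw [mem_icl] at hn
    obtain ⟨⟨h1, h2⟩, t, ht⟩ := hn
    refine ⟨t, ?_, by linarith⟩
    have h3 : (n : ℝ) = c + M * t := by
      have : n = c + M * t := by linarith
      exact_mod_cast this
    rw [mem_ivl, div_le_iff₀ hMr, le_div_iff₀ hMr]
    constructor
    · linarith
    · linarith

theorem card_icl_ge {a b : ℝ} {M : ℕ} (hM : 0 < M) (c : ℤ) :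
    (b - a) / M - 1 ≤ ((icl a b M c).card : ℝ) := by
  rw [card_icl_eq hM]
  have := card_ivl_ge ((a - c) / M) ((b - c) / M)
  refine le_trans (le_of_eq ?_) this
  rw [← sub_div]; ring

theorem card_icl_le {a b : ℝ} (hab : a ≤ b) {M : ℕ} (hM : 0 < M) (c : ℤ) :
    ((icl a b M c).card : ℝ) ≤ (b - a) / M + 1 := by
  rw [card_icl_eq hM]
  have hMr : (0:ℝ) < M := by exact_mod_cast hM
  have := card_ivl_le (a := (a - c) / M) (b := (b - c) / M) (by
    apply div_le_div_of_nonneg_right _ hMr.le; linarith)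
  refine this.trans (le_of_eq ?_)
  rw [← sub_div]; ring

section
variable {ι : Type*} [Fintype ι]

open scoped Classical in
/-- integral vectors in a cube and in a residue class -/
noncomputable def cube (P : ℝ) (ξ : ι → ℝ) (ρ : ℝ) (M : ℕ) (xc : ι → ℤ) : Finset (ι → ℤ) :=
  Fintype.piFinset (fun i => icl (P * ξ i - ρ * P) (P * ξ i + ρ * P) M (xc i))

theorem mem_cube {P : ℝ} {ξ : ι → ℝ} {ρ : ℝ} {M : ℕ} {xc x : ι → ℤ} :
    x ∈ cube P ξ ρ M xc ↔ (∀ i, |(x i : ℝ) - P * ξ i| ≤ ρ * P) ∧ ∀ i, (M : ℤ) ∣ x i - xc i := by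
  classical
  unfold cube
  rw [Fintype.mem_piFinset]
  simp only [mem_icl]
  constructor
  · intro h
    refine ⟨fun i => ?_, fun i => (h i).2⟩
    rw [abs_le]
    constructor <;> linarith [(h i).1.1, (h i).1.2]
  · intro h i
    have := abs_le.mp (h.1 i)
    exact ⟨⟨by linarith, by linarith⟩, h.2 i⟩

theorem card_cube_ge {P : ℝ} {ξ : ι → ℝ} {ρ : ℝ} {M : ℕ} (hM : 0 < M) (xc : ι → ℤ)
    (h1 : 1 ≤ 2 * ρ * P / M) :
    (2 * ρ * P / M - 1) ^ Fintype.card ι ≤ ((cube P ξ ρ M xc).card : ℝ) := by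
  classical
  unfold cube
  rw [Fintype.card_piFinset]
  push_cast
  rw [← Finset.card_univ, ← Finset.prod_const]
  apply Finset.prod_le_prod
  · intro i _; linarith
  · intro i _
    have := card_icl_ge (a := P * ξ i - ρ * P) (b := P * ξ i + ρ * P) hM (xc i)
    refine le_trans (le_of_eq ?_) this
    ring

theorem card_cube_le {P : ℝ} {ξ : ι → ℝ} {ρ : ℝ} {M : ℕ} (hM : 0 < M) (xc : ι → ℤ)
    (hP : 0 ≤ ρ * P) :
    ((cube P ξ ρ M xc).card : ℝ) ≤ (2 * ρ * P / M + 1) ^ Fintype.card ι := by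
  classical
  unfold cube
  rw [Fintype.card_piFinset]
  push_cast
  rw [← Finset.card_univ, ← Finset.prod_const]
  apply Finset.prod_le_prod
  · intro i _; positivity
  · intro i _
    have := card_icl_le (a := P * ξ i - ρ * P) (b := P * ξ i + ρ * P) (by linarith) hM (xc i)
    refine this.trans (le_of_eq ?_)
    ring

/-- Points of a cube in a class modulo `M` and in a class modulo `D`. -/
theorem card_cubeD_le {P : ℝ} {ξ : ι → ℝ} {ρ : ℝ} {M D : ℕ} (hM : 0 < M) (hD : 0 < D)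
    (hcop : Nat.Coprime M D) (xc : ι → ℤ) (hP : 0 ≤ ρ * P) (T : Finset (ι → ℤ)) (ζ : ι → ℤ)
    (hT : ∀ x ∈ T, x ∈ cube P ξ ρ M xc ∧ ∀ i, (D : ℤ) ∣ x i - ζ i) :
    (T.card : ℝ) ≤ (2 * ρ * P / M / D + 1) ^ Fintype.card ι := by
  classical
  have hDr : (0:ℝ) < D := by exact_mod_cast hD
  have hMr : (0:ℝ) < M := by exact_mod_cast hM
  rcases T.eq_empty_or_nonempty with rfl | ⟨x₀, hx₀⟩
  · rw [Finset.card_empty, Nat.cast_zero]
    have : 0 ≤ 2 * ρ * P / M / D := by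
      have : 0 ≤ 2 * ρ * P := by linarith
      positivity
    positivity
  · have h1 : T ⊆ cube P ξ ρ (M * D) x₀ := by
      intro x hx
      obtain ⟨h1, h2⟩ := hT x hx
      obtain ⟨h3, h4⟩ := hT x₀ hx₀
      rw [mem_cube] at h1 h3 ⊢
      refine ⟨h1.1, fun i => ?_⟩
      have e1 : (M : ℤ) ∣ x i - x₀ i := by
        have := dvd_sub (h1.2 i) (h3.2 i)
        rwa [sub_sub_sub_cancel_right] at this
      have e2 : (D : ℤ) ∣ x i - x₀ i := by
        have := dvd_sub (h2 i) (h4 i)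
        rwa [sub_sub_sub_cancel_right] at this
      push_cast
      exact (Nat.Coprime.isCoprime hcop).mul_dvd e1 e2
    have h2 := (Nat.cast_le (α := ℝ)).mpr (Finset.card_le_card h1)
    refine h2.trans ((card_cube_le (Nat.mul_pos hM hD) x₀ hP).trans (le_of_eq ?_))
    push_cast
    rw [div_div]

/-- Vectors of the cube have the right size. -/
theorem cube_sz {P : ℝ} {ξ : ι → ℝ} {ρ : ℝ} {M : ℕ} {xc x : ι → ℤ} (hP : 0 < P) (hρ : 0 ≤ ρ)
    (hρ2 : ρ ≤ 1 / 2) (hξ : ∀ i, |ξ i| ≤ 1) (hξr : ∃ r, |ξ r| = 1) (hx : x ∈ cube P ξ ρ M xc) :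
    Sz (2 * P) x := by
  rw [mem_cube] at hx
  constructor
  · intro i
    have h1 : |(x i : ℝ)| ≤ |P * ξ i| + |(x i : ℝ) - P * ξ i| := by
      have : (x i : ℝ) = P * ξ i + ((x i : ℝ) - P * ξ i) := by ring
      conv_lhs => rw [this]
      exact abs_add_le _ _
    rw [abs_mul, abs_of_pos hP] at h1
    have h2 := mul_le_mul_of_nonneg_left (hξ i) hP.le
    have h3 := hx.1 i
    nlinarith
  · obtain ⟨r, hr⟩ := hξr
    refine ⟨r, ?_⟩
    have h1 : |P * ξ r| ≤ |(x r : ℝ)| + |(x r : ℝ) - P * ξ r| := by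
      have : P * ξ r = (x r : ℝ) - ((x r : ℝ) - P * ξ r) := by ring
      conv_lhs => rw [this]
      exact abs_sub _ _
    rw [abs_mul, abs_of_pos hP, hr] at h1
    have h3 := hx.1 r
    nlinarith

theorem cube_pos {P : ℝ} {ξ : ι → ℝ} {ρ : ℝ} {M : ℕ} {xc x y : ι → ℤ} (hP : 0 < P) (hρ : 0 ≤ ρ)
    (hρ2 : ρ ≤ 1 / 2) {r : ι} (hr : |ξ r| = 1) (hx : x ∈ cube P ξ ρ M xc)
    (hy : y ∈ cube P ξ ρ M xc) : 0 < x r * y r := by
  rw [mem_cube] at hx hy
  have h1 := abs_le.mp (hx.1 r)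
  have h2 := abs_le.mp (hy.1 r)
  have h3 : (0:ℝ) < (x r : ℝ) * (y r : ℝ) := by
    have hρP : ρ * P ≤ P / 2 := by nlinarith
    rcases (abs_eq (zero_le_one)).mp hr with h | h
    · rw [h] at h1 h2
      exact mul_pos (by linarith) (by linarith)
    · rw [h] at h1 h2
      exact mul_pos_of_neg_of_neg (by linarith) (by linarith)
  exact_mod_cast h3

open scoped Classical in
/-- few vectors of the cube are imprimitive -/
theorem nonprim_cube {w : ℕ} (hw : 1 ≤ w) {P : ℝ} {ξ : ι → ℝ} {ρ : ℝ} {M : ℕ} (hM : 0 < M)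
    {xc : ι → ℤ} (hP : 1 ≤ P) (hρ : 0 ≤ ρ) (hρ2 : ρ ≤ 1 / 2) (hξ : ∀ i, |ξ i| ≤ 1)
    (hξr : ∃ r, |ξ r| = 1) (hk : 2 ≤ Fintype.card ι)
    (hMw : ∀ p : ℕ, p.Prime → p ∣ M → p ≤ w) (hwM : ∀ p : ℕ, p.Prime → p ≤ w → p ∣ M)
    (hprim : ∀ p : ℕ, p.Prime → p ≤ w → ∃ i, ¬ (p : ℤ) ∣ xc i) :
    ((((cube P ξ ρ M xc).filter (fun x => ¬ Prim x)).card : ℕ) : ℝ) ≤
      (2 * (2 * ρ * P / M)) ^ Fintype.card ι / w + 2 ^ Fintype.card ι * (2 * P) := by
  obtain ⟨X, hX⟩ : ∃ X : ℝ, 2 * ρ * P / M = X := ⟨_, rfl⟩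
  have hX0 : 0 ≤ X := by rw [← hX]; positivity
  set B' := ⌊2 * P⌋₊ with hB'
  rw [hX]
  have hP0 : 0 < P := by linarith
  have hcov : (cube P ξ ρ M xc).filter (fun x => ¬ Prim x) ⊆
      ((Finset.Ioc w B').filter Nat.Prime).biUnion
        (fun p => (cube P ξ ρ M xc).filter (fun x => ∀ i, (p : ℤ) ∣ x i)) := by
    intro x hx
    rw [Finset.mem_filter] at hx
    obtain ⟨hxb, hnp⟩ := hx
    unfold Prim at hnp
    push Not at hnp
    obtain ⟨D, hD, hDu⟩ := hnp
    have hDn : D.natAbs ≠ 1 := fun h1 => hDu (Int.isUnit_iff_natAbs_eq.mpr h1)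
    obtain ⟨p, hp, hpD⟩ := Nat.exists_prime_and_dvd hDn
    have hpx : ∀ i, (p : ℤ) ∣ x i := fun i =>
      (Int.natCast_dvd.mpr hpD).trans (hD i)
    have hpw : w < p := by
      by_contra hle
      have hle' := not_lt.mp hle
      obtain ⟨i, hi⟩ := hprim p hp hle'
      apply hi
      have h1 : (p : ℤ) ∣ M := by exact_mod_cast hwM p hp hle'
      have h2 := h1.trans ((mem_cube.mp hxb).2 i)
      have := dvd_sub (hpx i) h2
      simpa using this
    obtain ⟨hx1, r, hr⟩ := cube_sz hP0 hρ hρ2 hξ hξr hxb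
    have hpB : p ≤ B' := by
      rw [hB']
      apply Nat.le_floor
      have hxr0 : x r ≠ 0 := by
        intro h0
        rw [h0] at hr
        simp only [Int.cast_zero, abs_zero] at hr
        linarith
      have h1 : (p : ℤ) ≤ |x r| :=
        Int.le_of_dvd (abs_pos.mpr hxr0) ((dvd_abs _ _).mpr (hpx r))
      have h2 : (p : ℝ) ≤ |(x r : ℝ)| := by exact_mod_cast h1
      exact h2.trans (hx1 r)
    rw [Finset.mem_biUnion]
    refine ⟨p, ?_, ?_⟩
    · rw [Finset.mem_filter, Finset.mem_Ioc]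
      exact ⟨⟨hpw, hpB⟩, hp⟩
    · rw [Finset.mem_filter]
      exact ⟨hxb, hpx⟩
  have h3 : ((((cube P ξ ρ M xc).filter (fun x => ¬ Prim x)).card : ℕ) : ℝ) ≤
      ∑ p ∈ (Finset.Ioc w B').filter Nat.Prime,
        (((cube P ξ ρ M xc).filter (fun x => ∀ i, (p : ℤ) ∣ x i)).card : ℝ) := by
    exact_mod_cast (Finset.card_le_card hcov).trans Finset.card_biUnion_le
  have h4 : ∀ p ∈ (Finset.Ioc w B').filter Nat.Prime,
      (((cube P ξ ρ M xc).filter (fun x => ∀ i, (p : ℤ) ∣ x i)).card : ℝ) ≤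
        (2 * X) ^ Fintype.card ι * (1 / (p : ℝ) ^ 2) + 2 ^ Fintype.card ι := by
    intro p hp
    rw [Finset.mem_filter, Finset.mem_Ioc] at hp
    obtain ⟨⟨hp1, hp2⟩, hp3⟩ := hp
    have hcop : Nat.Coprime M p := by
      rw [Nat.coprime_comm, hp3.coprime_iff_not_dvd]
      intro hd
      exact absurd (hMw p hp3 hd) (not_le.mpr hp1)
    have h5 := card_cubeD_le (ρ := ρ) (P := P) (ξ := ξ) hM hp3.pos hcop xc (by positivity)
      ((cube P ξ ρ M xc).filter (fun x => ∀ i, (p : ℤ) ∣ x i)) 0 (fun x hx => by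
        rw [Finset.mem_filter] at hx
        exact ⟨hx.1, fun i => by simpa using hx.2 i⟩)
    rw [hX] at h5
    refine h5.trans ?_
    have hp0 : (0:ℝ) < p := by exact_mod_cast hp3.pos
    have hp1' : (1:ℝ) ≤ p := by exact_mod_cast hp3.pos
    by_cases hpX : (p : ℝ) ≤ X
    · have h6 : 1 ≤ X / p := by rwa [le_div_iff₀ hp0, one_mul]
      have h7 : (X / p + 1) ^ Fintype.card ι ≤ (2 * X * (1 / p)) ^ Fintype.card ι := by
        apply pow_le_pow_left₀ (by positivity)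
        have : 2 * X * (1 / p) = 2 * (X / p) := by ring
        linarith
      rw [mul_pow] at h7
      have h8 : (1 / (p : ℝ)) ^ Fintype.card ι ≤ 1 / (p : ℝ) ^ 2 := by
        rw [div_pow, one_pow]
        apply one_div_le_one_div_of_le (by positivity)
        exact pow_le_pow_right₀ hp1' hk
      have h9 := mul_le_mul_of_nonneg_left h8 (by positivity : 0 ≤ (2 * X) ^ Fintype.card ι)
      have h10 : (0:ℝ) ≤ 2 ^ Fintype.card ι := by positivity
      linarith
    · push Not at hpX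
      have h6 : X / p ≤ 1 := by rw [div_le_iff₀ hp0]; linarith
      have h7 : (X / p + 1) ^ Fintype.card ι ≤ 2 ^ Fintype.card ι := by
        apply pow_le_pow_left₀ (by positivity)
        linarith
      have h8 : 0 ≤ (2 * X) ^ Fintype.card ι * (1 / (p : ℝ) ^ 2) := by positivity
      linarith
  refine h3.trans ((Finset.sum_le_sum h4).trans ?_)
  rw [Finset.sum_add_distrib, ← Finset.mul_sum, Finset.sum_const, nsmul_eq_mul]
  apply add_le_add
  · have h5 : ∑ p ∈ (Finset.Ioc w B').filter Nat.Prime, (1 : ℝ) / (p : ℝ) ^ 2 ≤ 1 / w := by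
      refine le_trans ?_ (sum_inv_sq w B' hw)
      exact Finset.sum_le_sum_of_subset_of_nonneg (Finset.filter_subset _ _)
        (fun _ _ _ => by positivity)
    have := mul_le_mul_of_nonneg_left h5 (by positivity : 0 ≤ (2 * X) ^ Fintype.card ι)
    refine this.trans (le_of_eq ?_)
    ring
  · rw [mul_comm]
    apply mul_le_mul_of_nonneg_left _ (by positivity)
    have h5 : ((Finset.Ioc w B').filter Nat.Prime).card ≤ B' := by
      refine (Finset.card_filter_le _ _).trans ?_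
      rw [Nat.card_Ioc]
      omega
    have h6 : (((Finset.Ioc w B').filter Nat.Prime).card : ℝ) ≤ (B' : ℝ) := by exact_mod_cast h5
    exact h6.trans (Nat.floor_le (by positivity))

end

end Pool.Agent.Run7.h443.CD
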