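import Pool.Agent.Run7.h443.CD.LocS
import Pool.Agent.Y716.Q.Moment

/-!
# The contribution of pairs of test points in general position
-/

namespace Pool.Agent.Run7.h443.CD

open Finset
open Pool.Agent.Y716.Q

variable {ι : Type*} [Fintype ι]

open scoped Classical in
/-- number of `g` with prescribed values at both vectors -/
noncomputable def c2 (e : ℕ) (A : ℝ) (U : (ι → ℤ) × ℤ → ℤ)
    (r : ((ι → ℤ) × ℤ) × ((ι → ℤ) × ℤ)) : ℕ :=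
  ((formsZ ι (e + 2) A).filter
    (fun g => MvPolynomial.eval r.1.1 g = U r.1 ∧ MvPolynomial.eval r.2.1 g = U r.2)).card

open scoped Classical in
/-- test vectors -/
noncomputable def Xs (B a P : ℝ) (ξ : ι → ℝ) (ρ : ℝ) (M : ℕ) (xc : ι → ℤ) : Finset (ι → ℤ) :=
  (cube P ξ ρ M xc).filter (fun x => Sz B x ∧ Prim x ∧ Bal B a x)

theorem mem_Xs {B a P : ℝ} {ξ : ι → ℝ} {ρ : ℝ} {M : ℕ} {xc x : ι → ℤ} :
    x ∈ Xs B a P ξ ρ M xc ↔ x ∈ cube P ξ ρ M xc ∧ Sz B x ∧ Prim x ∧ Bal B a x := by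
  classical
  unfold Xs
  rw [Finset.mem_filter]

open scoped Classical in
/-- test points -/
noncomputable def Xt (B a P : ℝ) (ξ : ι → ℝ) (ρ φ : ℝ) (S J : ℕ) (xc : ι → ℤ) (yc : ℤ) :
    Finset ((ι → ℤ) × ℤ) :=
  (Xs B a P ξ ρ (S * J) xc) ×ˢ (Ws φ S yc)

theorem mem_Xt {B a P : ℝ} {ξ : ι → ℝ} {ρ φ : ℝ} {S J : ℕ} {xc : ι → ℤ} {yc : ℤ}
    {p : (ι → ℤ) × ℤ} :
    p ∈ Xt B a P ξ ρ φ S J xc yc ↔ p.1 ∈ Xs B a P ξ ρ (S * J) xc ∧ p.2 ∈ Ws φ S yc := by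
  classical
  unfold Xt
  rw [Finset.mem_product]

omit [Fintype ι] in
theorem eval_mem' (fc : MvPolynomial ι ℤ) (S J : ℕ) (g : MvPolynomial ι ℤ) (x : ι → ℤ) :
    MvPolynomial.eval x (mem' fc S J g) =
      MvPolynomial.eval x fc + ((S * J : ℕ) : ℤ) * MvPolynomial.eval x g := by
  unfold mem'
  rw [map_add, map_mul, MvPolynomial.eval_C]

theorem mem_LocS_of {m : ℕ} {fc : MvPolynomial ι ℤ} {S J : ℕ} {xc : ι → ℤ} {yc : ℤ}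
    {P : ℝ} {ξ : ι → ℝ} {ρ φ Δ : ℝ} {p : (ι → ℤ) × ℤ} (hp1 : p.1 ∈ cube P ξ ρ (S * J) xc)
    (hp2 : p.2 ∈ Ws φ S yc) {g : MvPolynomial ι ℤ} {u : ℤ}
    (hu : p.2 ^ m - MvPolynomial.eval p.1 fc = ((S * J : ℕ) : ℤ) * u)
    {K : ℕ} (hK : (K : ℤ) ∣ MvPolynomial.eval p.1 g - u)
    (hd : |((MvPolynomial.eval p.1 g - u : ℤ) : ℝ)| ≤ Δ) :
    p ∈ LocS P ξ ρ φ S J xc yc m (mem' fc S J g) K ((S * J : ℕ) * Δ) := by
  classical
  unfold LocS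
  rw [Finset.mem_filter, Finset.mem_product]
  have hev : p.2 ^ m - MvPolynomial.eval p.1 (mem' fc S J g) =
      -(((S * J : ℕ) : ℤ) * (MvPolynomial.eval p.1 g - u)) := by
    rw [eval_mem']
    linear_combination hu
  refine ⟨⟨hp1, hp2⟩, ?_, ?_⟩
  · rw [hev, Nat.cast_mul (S * J) K]
    exact (dvd_neg).mpr (mul_dvd_mul_left _ hK)
  · rw [hev, Int.cast_neg, abs_neg, Int.cast_mul, abs_mul]
    have h1 : |(((S * J : ℕ) : ℤ) : ℝ)| = ((S * J : ℕ) : ℝ) := by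
      rw [Int.cast_natCast, abs_of_nonneg (Nat.cast_nonneg _)]
    rw [h1]
    exact mul_le_mul_of_nonneg_left hd (Nat.cast_nonneg _)

omit [Fintype ι] in
theorem mem'_homog {e : ℕ} {fc : MvPolynomial ι ℤ} (hfc : fc.IsHomogeneous (e + 2)) (S J : ℕ)
    {g : MvPolynomial ι ℤ} (hg : g.IsHomogeneous (e + 2)) :
    (mem' fc S J g).IsHomogeneous (e + 2) := by
  unfold mem'
  apply hfc.add
  have := (MvPolynomial.isHomogeneous_C ι (((S * J : ℕ) : ℤ))).mul hg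
  rwa [zero_add] at this

/-- Compatibility modulo `D` of the last variables. -/
theorem compat (e : ℕ) {m : ℕ} {fc : MvPolynomial ι ℤ} (hfc : fc.IsHomogeneous (e + 2)) {S J : ℕ}
    {A : ℝ} (U : (ι → ℤ) × ℤ → ℤ) {r : ((ι → ℤ) × ℤ) × ((ι → ℤ) × ℤ)}
    (hu1 : r.1.2 ^ m - MvPolynomial.eval r.1.1 fc = ((S * J : ℕ) : ℤ) * U r.1)
    (hu2 : r.2.2 ^ m - MvPolynomial.eval r.2.1 fc = ((S * J : ℕ) : ℤ) * U r.2)
    (h : c2 e A U r ≠ 0) {D : ℕ} {c : ℤ} (hc : ∀ i, (D : ℤ) ∣ r.2.1 i - c * r.1.1 i) :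
    (D : ℤ) ∣ r.2.2 ^ m - c ^ (e + 2) * r.1.2 ^ m := by
  classical
  unfold c2 at h
  obtain ⟨g, hg⟩ := Finset.card_ne_zero.mp h
  rw [Finset.mem_filter, mem_formsZ] at hg
  obtain ⟨hg1, hg2, hg3⟩ := hg
  have h1 := eval_prop (mem'_homog hfc S J hg1.1) hc
  rw [eval_mem', eval_mem', hg2, hg3] at h1
  have e1 : MvPolynomial.eval r.2.1 fc + ((S * J : ℕ) : ℤ) * U r.2 = r.2.2 ^ m := by linarith
  have e2 : MvPolynomial.eval r.1.1 fc + ((S * J : ℕ) : ℤ) * U r.1 = r.1.2 ^ m := by linarith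
  rwa [e1, e2] at h1

open scoped Classical in
theorem good_sum_D (e : ℕ) {w : ℕ} {m : ℕ} {fc : MvPolynomial ι ℤ}
    (hfc : fc.IsHomogeneous (e + 2)) {S J : ℕ} {xc : ι → ℤ} {yc : ℤ}
    {P : ℝ} {ξ : ι → ℝ} {ρ φ B a A A₂ Δ κ : ℝ} (ha : 1 ≤ a) (haB : a ≤ B) (hκ : 0 < κ)
    {Lg : ℝ}
    (hLg : ∀ s : ℕ, (s : ℝ) ≤ 15 * (Fintype.card ι) ^ 2 * a * B → (Nat.log 2 s : ℝ) ≤ Lg)
    (U : (ι → ℤ) × ℤ → ℤ)
    (hU : ∀ p : (ι → ℤ) × ℤ, p.1 ∈ cube P ξ ρ (S * J) xc → p.2 ∈ Ws φ S yc →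
      p.2 ^ m - MvPolynomial.eval p.1 fc = ((S * J : ℕ) : ℤ) * U p)
    {K N D : ℕ} (hK : 0 < K) (hD : 0 < D) (hΔ : 0 ≤ Δ) (hΔK : K * D ≤ Δ)
    (hA : A + (c1pt (Fintype.card ι) (e + 1) + cker (Fintype.card ι) e *
      (1 + (mons ι (e + 2)).card * c1pt (Fintype.card ι) (e + 1)) / κ) *
      (Δ / B ^ (e + 2) + K * a) + cker (Fintype.card ι) e * ((1 + Lg) * a ^ 2) ≤ A₂)
    {R₁ R₂ : ℝ} (hR₂ : 0 ≤ R₂)
    (hL1 : ∀ g ∈ formsZ ι (e + 2) A₂,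
      ((LocS P ξ ρ φ S J xc yc m (mem' fc S J g) K ((S * J : ℕ) * Δ)).card : ℝ) ≤ R₁)
    (hL2 : ∀ g ∈ formsZ ι (e + 2) A₂, ∀ (ζ : ι → ℤ) (c : ℤ) (T : Finset ((ι → ℤ) × ℤ)),
      (∀ p ∈ T, p ∈ LocS P ξ ρ φ S J xc yc m (mem' fc S J g) K ((S * J : ℕ) * Δ) ∧
        (∀ i, (D : ℤ) ∣ p.1 i - ζ i) ∧ (D : ℤ) ∣ p.2 ^ m - c) → (T.card : ℝ) ≤ R₂)
    (Gd : Finset (((ι → ℤ) × ℤ) × ((ι → ℤ) × ℤ)))
    (hGd : ∀ r ∈ Gd, r.1 ∈ Xt B a P ξ ρ φ S J xc yc ∧ r.2 ∈ Xt B a P ξ ρ φ S J xc yc ∧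
      GoodPair w K N B κ (r.1.1, r.2.1) D) :
    (∑ r ∈ Gd, (c2 e A U r : ℝ)) * ((2 * Δ / K - 1) * (2 * Δ / (K * D) - 1)) ≤
      (formsZ ι (e + 2) A₂).card * (R₁ * (D * R₂)) := by
  -- the residue multipliers
  have hlam : ∀ r ∈ Gd, ∃ c : ℕ, c < D ∧ ∀ i, (D : ℤ) ∣ r.2.1 i - c * r.1.1 i := by
    intro r hr
    obtain ⟨h1, h2, g, hg0, hg1, hg2, hg3, hg4, hg5, hg6, hg7, hg8⟩ := hGd r hr
    exact exists_lambda (mem_Xs.mp (mem_Xt.mp h1).1).2.2.1 hD (fun i j => hg6.trans (hg1 i j))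
  choose! lam hlam1 hlam2 using hlam
  set Δ₁ : ℝ := ((S * J : ℕ) : ℝ) * Δ with hΔ₁
  set Loc : MvPolynomial ι ℤ → Finset ((ι → ℤ) × ℤ) := fun g =>
    LocS P ξ ρ φ S J xc yc m (mem' fc S J g) K Δ₁ with hLoc
  set Q : ((ι → ℤ) × ℤ) × ((ι → ℤ) × ℤ) → Prop := fun r =>
    (D : ℤ) ∣ r.2.2 ^ m - (lam r : ℤ) ^ (e + 2) * r.1.2 ^ m with hQ
  have hA1 : ∀ r ∈ Gd, (c2 e A U r : ℝ) * ((2 * Δ / K - 1) * (2 * Δ / (K * D) - 1)) ≤
      (((formsZ ι (e + 2) A₂).filter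
        (fun g => r.1 ∈ Loc g ∧ (r.2 ∈ Loc g ∧ Q r))).card : ℝ) := by
    intro r hr
    by_cases hc0 : c2 e A U r = 0
    · rw [hc0, Nat.cast_zero, zero_mul]
      exact Nat.cast_nonneg _
    obtain ⟨h1, h2, g, hg0, hg1, hg2, hg3, hg4, hg5, hg6, hg7, hg8⟩ := hGd r hr
    obtain ⟨h1x, h1w⟩ := mem_Xt.mp h1
    obtain ⟨h2x, h2w⟩ := mem_Xt.mp h2
    obtain ⟨hx1, hx2, hx3, hx4⟩ := mem_Xs.mp h1x
    obtain ⟨hy1, hy2, hy3, hy4⟩ := mem_Xs.mp h2x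
    have hQr : Q r := compat e hfc U (hU _ hx1 h1w) (hU _ hy1 h2w) hc0 (hlam2 r hr)
    have key := cnt2_cond e hx4 hx2 hx3 hy4 hy2 ha haB hg0 hg1 hg2 hκ hg3 hLg (U r.1) (U r.2)
      hK hD hg7 hΔ hΔK hA
    refine key.trans ?_
    have : ((formsZ ι (e + 2) A₂).filter
      (fun f => ((K : ℤ) ∣ MvPolynomial.eval r.1.1 f - U r.1 ∧
        |((MvPolynomial.eval r.1.1 f - U r.1 : ℤ) : ℝ)| ≤ Δ) ∧
        ((K : ℤ) ∣ MvPolynomial.eval r.2.1 f - U r.2 ∧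
        |((MvPolynomial.eval r.2.1 f - U r.2 : ℤ) : ℝ)| ≤ Δ))).card ≤
        ((formsZ ι (e + 2) A₂).filter
        (fun g => r.1 ∈ Loc g ∧ (r.2 ∈ Loc g ∧ Q r))).card := by
      apply Finset.card_le_card
      intro f hf
      rw [Finset.mem_filter] at hf ⊢
      obtain ⟨hf1, ⟨hf2, hf3⟩, hf4, hf5⟩ := hf
      refine ⟨hf1, ?_, ?_, hQr⟩
      · exact mem_LocS_of hx1 h1w (hU _ hx1 h1w) hf2 hf3
      · exact mem_LocS_of hy1 h2w (hU _ hy1 h2w) hf4 hf5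
    exact_mod_cast this
  have hB1 : ∑ r ∈ Gd, (((formsZ ι (e + 2) A₂).filter
      (fun g => r.1 ∈ Loc g ∧ (r.2 ∈ Loc g ∧ Q r))).card : ℝ) =
      ∑ g ∈ formsZ ι (e + 2) A₂, ((Gd.filter
        (fun r => r.1 ∈ Loc g ∧ (r.2 ∈ Loc g ∧ Q r))).card : ℝ) := by
    simp only [Finset.card_filter, Nat.cast_sum]
    exact Finset.sum_comm
  have hB2 : ∀ g ∈ formsZ ι (e + 2) A₂, ((Gd.filter
        (fun r => r.1 ∈ Loc g ∧ (r.2 ∈ Loc g ∧ Q r))).card : ℝ) ≤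
        R₁ * (D * R₂) := by
    intro g hg
    set LocD : ((ι → ℤ) × ℤ) × ℕ → Finset ((ι → ℤ) × ℤ) := fun s =>
      (Loc g).filter (fun q => (∀ i, (D : ℤ) ∣ q.1 i - (s.2 : ℤ) * s.1.1 i) ∧
        (D : ℤ) ∣ q.2 ^ m - (s.2 : ℤ) ^ (e + 2) * s.1.2 ^ m) with hLocD
    have hsub : (Gd.filter (fun r => r.1 ∈ Loc g ∧ (r.2 ∈ Loc g ∧ Q r))) ⊆
        ((Loc g) ×ˢ (Finset.range D)).biUnion
          (fun s => (LocD s).image (fun q => (s.1, q))) := by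
      intro r hr
      rw [Finset.mem_filter] at hr
      obtain ⟨hr1, hr2, hr3, hr4⟩ := hr
      rw [Finset.mem_biUnion]
      refine ⟨(r.1, lam r), ?_, ?_⟩
      · rw [Finset.mem_product]
        exact ⟨hr2, Finset.mem_range.mpr (hlam1 r hr1)⟩
      · rw [Finset.mem_image]
        refine ⟨r.2, ?_, rfl⟩
        rw [hLocD, Finset.mem_filter]
        exact ⟨hr3, hlam2 r hr1, hr4⟩
    have h1 := (Finset.card_le_card hsub).trans Finset.card_biUnion_le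
    have h1' := (Nat.cast_le (α := ℝ)).mpr h1
    rw [Nat.cast_sum] at h1'
    refine h1'.trans ?_
    have h2 : ∀ s ∈ (Loc g) ×ˢ (Finset.range D),
        (((LocD s).image (fun q => (s.1, q))).card : ℝ) ≤ R₂ := by
      intro s _
      have h3 : (((LocD s).image (fun q => (s.1, q))).card : ℝ) ≤ ((LocD s).card : ℝ) := by
        exact_mod_cast Finset.card_image_le
      refine h3.trans (hL2 g hg (fun i => (s.2 : ℤ) * s.1.1 i)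
        ((s.2 : ℤ) ^ (e + 2) * s.1.2 ^ m) (LocD s) ?_)
      intro q hq
      rw [hLocD, Finset.mem_filter] at hq
      exact hq
    refine (Finset.sum_le_sum h2).trans ?_
    rw [Finset.sum_const, nsmul_eq_mul, Finset.card_product, Finset.card_range]
    push_cast
    rw [mul_assoc]
    apply mul_le_mul_of_nonneg_right (hL1 g hg) (by positivity)
  rw [Finset.sum_mul]
  refine (Finset.sum_le_sum hA1).trans ?_
  rw [hB1]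
  refine (Finset.sum_le_sum hB2).trans ?_
  rw [Finset.sum_const, nsmul_eq_mul]

/-- the weight of `D` -/
noncomputable def wt (m : ℕ) (D : ℕ) : ℝ :=
  if D = 1 then 1 else 3 * m * (D : ℝ) ^ (-(1 + (1 : ℝ) / mm m))

theorem wt_nonneg (m D : ℕ) : 0 ≤ wt m D := by
  unfold wt
  split_ifs
  · norm_num
  · positivity

theorem sum_rpow_neg {δ : ℝ} (hδ0 : 0 < δ) (hδ1 : δ ≤ 1) (w N : ℕ) (hw : 1 ≤ w) :
    ∑ D ∈ Finset.Ioc w N, (D : ℝ) ^ (-(1 + δ)) ≤ (w : ℝ) ^ (-δ) / δ := by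
  have key : ∀ N : ℕ, w ≤ N → ∑ D ∈ Finset.Ioc w N, (D : ℝ) ^ (-(1 + δ)) ≤
      (w : ℝ) ^ (-δ) / δ - (N : ℝ) ^ (-δ) / δ := by
    intro N hN
    induction N, hN using Nat.le_induction with
    | base => simp
    | succ n hn ih =>
      rw [← Finset.insert_Ioc_right_eq_Ioc_add_one (by omega : w ≤ n)]
      rw [Finset.sum_insert (by simp)]
      have hn0 : (0:ℝ) < n := by
        have : 0 < n := by omega
        exact_mod_cast this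
      have hn1 : (0:ℝ) < ((n + 1 : ℕ) : ℝ) := by positivity
      have h1 := rpow_one_add_le_one_add_mul_self (s := -1 / ((n + 1 : ℕ) : ℝ)) (p := δ)
        (by rw [neg_div, neg_le_neg_iff, div_le_one hn1]; push_cast; linarith)
        hδ0.le hδ1
      have e1 : (n : ℝ) = ((n + 1 : ℕ) : ℝ) * (1 + -1 / ((n + 1 : ℕ) : ℝ)) := by
        field_simp; push_cast; ring
      have e2 : 0 < 1 + -1 / ((n + 1 : ℕ) : ℝ) := by
        rw [neg_div, ← sub_eq_add_neg, sub_pos, div_lt_one hn1]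
        push_cast; linarith
      have h2 : ((n + 1 : ℕ) : ℝ) ^ (-δ) * (1 + δ / ((n + 1 : ℕ) : ℝ)) ≤ (n : ℝ) ^ (-δ) := by
        rw [e1, Real.mul_rpow hn1.le e2.le]
        apply mul_le_mul_of_nonneg_left _ (by positivity)
        rw [Real.rpow_neg e2.le]
        have h3 : 0 < (1 + -1 / ((n + 1 : ℕ) : ℝ)) ^ δ := by positivity
        rw [le_inv_comm₀ (by positivity) h3]
        refine h1.trans ?_
        rw [le_inv_comm₀ _ (by positivity)]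
        · have h4 : δ / ((n + 1 : ℕ) : ℝ) < 1 := by
            rw [div_lt_one hn1]; push_cast; linarith
          have h5 : 0 < 1 - δ / ((n + 1 : ℕ) : ℝ) := by linarith
          have h6 : 1 + δ * (-1 / ((n + 1 : ℕ) : ℝ)) = 1 - δ / ((n + 1 : ℕ) : ℝ) := by ring
          rw [h6, ← one_div, le_div_iff₀ h5]
          have : 0 ≤ (δ / ((n + 1 : ℕ) : ℝ)) ^ 2 := by positivity
          nlinarith
        · have h4 : δ / ((n + 1 : ℕ) : ℝ) < 1 := by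
            rw [div_lt_one hn1]; push_cast; linarith
          have h6 : 1 + δ * (-1 / ((n + 1 : ℕ) : ℝ)) = 1 - δ / ((n + 1 : ℕ) : ℝ) := by ring
          rw [h6]; linarith
      have h3 : ((n + 1 : ℕ) : ℝ) ^ (-(1 + δ)) ≤
          (n : ℝ) ^ (-δ) / δ - ((n + 1 : ℕ) : ℝ) ^ (-δ) / δ := by
        rw [← sub_div, le_div_iff₀ hδ0]
        have e3 : ((n + 1 : ℕ) : ℝ) ^ (-(1 + δ)) =
            ((n + 1 : ℕ) : ℝ) ^ (-δ) / ((n + 1 : ℕ) : ℝ) := by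
          rw [show -(1 + δ) = -δ - 1 by ring, Real.rpow_sub_one hn1.ne']
        rw [e3]
        have e4 : ((n + 1 : ℕ) : ℝ) ^ (-δ) / ((n + 1 : ℕ) : ℝ) * δ =
            ((n + 1 : ℕ) : ℝ) ^ (-δ) * (δ / ((n + 1 : ℕ) : ℝ)) := by ring
        rw [e4]
        linarith
      linarith
  by_cases h : w ≤ N
  · have := key N h
    have h2 : (0:ℝ) ≤ (N : ℝ) ^ (-δ) / δ := by positivity
    linarith
  · rw [Finset.Ioc_eq_empty_of_le (by omega)]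
    simp only [Finset.sum_empty]
    positivity

theorem sum_wt {m : ℕ} (hm : 2 ≤ m) {w N : ℕ} (hw : 1 ≤ w) (𝒟 : Finset ℕ)
    (h𝒟 : ∀ D ∈ 𝒟, D ≤ N ∧ (D = 1 ∨ w < D)) :
    ∑ D ∈ 𝒟, wt m D ≤ 1 + 3 * m * mm m * (w : ℝ) ^ (-((1 : ℝ) / mm m)) := by
  classical
  have hmm := mm_ge hm
  have hmm0 : (0:ℝ) < mm m := by
    have : 0 < mm m := by omega
    exact_mod_cast this
  have hsub : 𝒟 ⊆ insert 1 (Finset.Ioc w N) := by
    intro D hD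
    obtain ⟨h1, h2⟩ := h𝒟 D hD
    rw [Finset.mem_insert, Finset.mem_Ioc]
    rcases h2 with h | h
    · exact Or.inl h
    · exact Or.inr ⟨h, h1⟩
  refine (Finset.sum_le_sum_of_subset_of_nonneg hsub (fun _ _ _ => wt_nonneg _ _)).trans ?_
  rw [Finset.sum_insert (by
    rw [Finset.mem_Ioc]; omega)]
  have h1 : wt m 1 = 1 := by unfold wt; rw [if_pos rfl]
  rw [h1]
  apply add_le_add_right
  have h2 : ∀ D ∈ Finset.Ioc w N, wt m D = 3 * m * (D : ℝ) ^ (-(1 + (1 : ℝ) / mm m)) := by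
    intro D hD
    rw [Finset.mem_Ioc] at hD
    unfold wt
    rw [if_neg (by omega)]
  rw [Finset.sum_congr rfl h2, ← Finset.mul_sum]
  have h3 := sum_rpow_neg (δ := (1 : ℝ) / mm m) (by positivity) (by
    rw [div_le_one hmm0]; exact_mod_cast (by omega : 1 ≤ mm m)) w N hw
  have h4 := mul_le_mul_of_nonneg_left h3 (by positivity : (0:ℝ) ≤ 3 * m)
  refine h4.trans (le_of_eq ?_)
  field_simp

open scoped Classical in
theorem good_sum (e : ℕ) {w : ℕ} (hw : 1 ≤ w) {m : ℕ} (hm : 2 ≤ m) {fc : MvPolynomial ι ℤ}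
    (hfc : fc.IsHomogeneous (e + 2)) {S J : ℕ} {xc : ι → ℤ} {yc : ℤ}
    {P : ℝ} {ξ : ι → ℝ} {ρ φ B a A A₂ Δ κ : ℝ} (ha : 1 ≤ a) (haB : a ≤ B) (hκ : 0 < κ)
    {Lg : ℝ}
    (hLg : ∀ s : ℕ, (s : ℝ) ≤ 15 * (Fintype.card ι) ^ 2 * a * B → (Nat.log 2 s : ℝ) ≤ Lg)
    (U : (ι → ℤ) × ℤ → ℤ)
    (hU : ∀ p : (ι → ℤ) × ℤ, p.1 ∈ cube P ξ ρ (S * J) xc → p.2 ∈ Ws φ S yc →
      p.2 ^ m - MvPolynomial.eval p.1 fc = ((S * J : ℕ) : ℤ) * U p)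
    {K N : ℕ} (hK : 0 < K) (hΔ : 0 ≤ Δ) (hΔK : K * N ≤ Δ)
    (hA : A + (c1pt (Fintype.card ι) (e + 1) + cker (Fintype.card ι) e *
      (1 + (mons ι (e + 2)).card * c1pt (Fintype.card ι) (e + 1)) / κ) *
      (Δ / B ^ (e + 2) + K * a) + cker (Fintype.card ι) e * ((1 + Lg) * a ^ 2) ≤ A₂)
    {R₁ E : ℝ} {R₂ : ℕ → ℝ} (hR₂ : ∀ D, 0 ≤ R₂ D) (hE : 0 ≤ E)
    (hL1 : ∀ g ∈ formsZ ι (e + 2) A₂,
      ((LocS P ξ ρ φ S J xc yc m (mem' fc S J g) K ((S * J : ℕ) * Δ)).card : ℝ) ≤ R₁)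
    (hL2 : ∀ D : ℕ, 0 < D → D ≤ N → (∀ q : ℕ, q.Prime → q ≤ w → ¬ q ∣ D) →
      ∀ g ∈ formsZ ι (e + 2) A₂, ∀ (ζ : ι → ℤ) (c : ℤ) (T : Finset ((ι → ℤ) × ℤ)),
      (∀ p ∈ T, p ∈ LocS P ξ ρ φ S J xc yc m (mem' fc S J g) K ((S * J : ℕ) * Δ) ∧
        (∀ i, (D : ℤ) ∣ p.1 i - ζ i) ∧ (D : ℤ) ∣ p.2 ^ m - c) → (T.card : ℝ) ≤ R₂ D)
    (hED : ∀ D : ℕ, 0 < D → D ≤ N → (formsZ ι (e + 2) A₂).card * (R₁ * (D * R₂ D)) ≤
      (formsZ ι (e + 2) A).card * (E * wt m D) *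
        ((2 * Δ / K - 1) * (2 * Δ / (K * D) - 1)))
    (Gd : Finset (((ι → ℤ) × ℤ) × ((ι → ℤ) × ℤ)))
    (hGd : ∀ r ∈ Gd, r.1 ∈ Xt B a P ξ ρ φ S J xc yc ∧ r.2 ∈ Xt B a P ξ ρ φ S J xc yc ∧
      ∃ D, GoodPair w K N B κ (r.1.1, r.2.1) D) :
    ∑ r ∈ Gd, (c2 e A U r : ℝ) ≤ (formsZ ι (e + 2) A).card * E *
      (1 + 3 * m * mm m * (w : ℝ) ^ (-((1 : ℝ) / mm m))) := by
  choose! Df hDf using fun p hp => (hGd p hp).2.2
  set 𝒟 := Gd.image Df with h𝒟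
  have hKr : (1:ℝ) ≤ K := by exact_mod_cast hK
  have h𝒟p : ∀ D ∈ 𝒟, 0 < D ∧ D ≤ N ∧ (∀ q : ℕ, q.Prime → q ≤ w → ¬ q ∣ D) := by
    intro D hD
    obtain ⟨p, hp, rfl⟩ := Finset.mem_image.mp hD
    obtain ⟨g, hg0, hg1, hg2, hg3, hg4, hg5, hg6, hg7, hg8⟩ := hDf p hp
    exact ⟨hg4, hg5, hg8⟩
  rw [← Finset.sum_fiberwise_of_maps_to (fun p hp => Finset.mem_image_of_mem Df hp :
    ∀ p ∈ Gd, Df p ∈ 𝒟)]
  have hterm : ∀ D ∈ 𝒟, ∑ p ∈ Gd.filter (fun p => Df p = D), (c2 e A U p : ℝ) ≤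
      (formsZ ι (e + 2) A).card * E * wt m D := by
    intro D hD
    obtain ⟨hD1, hD2, hD3⟩ := h𝒟p D hD
    have hD1r : (1:ℝ) ≤ D := by exact_mod_cast hD1
    have hKD : (K:ℝ) * D ≤ Δ := by
      have h0 : (D:ℝ) ≤ N := by exact_mod_cast hD2
      have h1 := mul_le_mul_of_nonneg_left h0 (by linarith : (0:ℝ) ≤ K)
      linarith
    have key := good_sum_D e hfc ha haB hκ hLg U hU hK hD1 hΔ hKD hA (hR₂ D) hL1
      (hL2 D hD1 hD2 hD3) (Gd.filter (fun p => Df p = D)) (by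
        intro p hp
        rw [Finset.mem_filter] at hp
        have h1 := hGd p hp.1
        refine ⟨h1.1, h1.2.1, ?_⟩
        rw [← hp.2]
        exact hDf p hp.1)
    have key2 := key.trans (hED D hD1 hD2)
    have hpos1 : 0 < 2 * Δ / K - 1 := by
      rw [sub_pos, lt_div_iff₀ (by linarith)]
      have h0 : (K:ℝ) ≤ K * D := le_mul_of_one_le_right (by linarith) hD1r
      linarith
    have hpos2 : 0 < 2 * Δ / (K * D) - 1 := by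
      rw [sub_pos, lt_div_iff₀ (by positivity)]
      have : 0 < (K:ℝ) * D := by positivity
      linarith
    have := le_of_mul_le_mul_right key2 (mul_pos hpos1 hpos2)
    refine this.trans (le_of_eq ?_)
    ring
  refine (Finset.sum_le_sum hterm).trans ?_
  rw [← Finset.mul_sum]
  apply mul_le_mul_of_nonneg_left _ (by positivity)
  exact sum_wt hm hw 𝒟 (fun D hD => ⟨(h𝒟p D hD).2.1, one_or_gt (h𝒟p D hD).1 (h𝒟p D hD).2.2⟩)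

end Pool.Agent.Run7.h443.CD
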