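import Pool.Agent.Run7.h443.CD.Cls

/-!
# Counting the points at which a member of the class is nearly an `m`-th power at all places
-/

namespace Pool.Agent.Run7.h443.CD

open Finset
open Pool.Agent.Y716.Q

variable {ι : Type*} [Fintype ι]

open scoped Classical in
/-- the points at which `w ^ m - f(x)` is small at all places -/
noncomputable def LocS (P : ℝ) (ξ : ι → ℝ) (ρ φ : ℝ) (S J : ℕ) (xc : ι → ℤ) (yc : ℤ) (m : ℕ)
    (f : MvPolynomial ι ℤ) (K : ℕ) (Δ : ℝ) : Finset ((ι → ℤ) × ℤ) :=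
  ((cube P ξ ρ (S * J) xc) ×ˢ (Ws φ S yc)).filter (fun p =>
    ((S * J * K : ℕ) : ℤ) ∣ p.2 ^ m - MvPolynomial.eval p.1 f ∧
      |((p.2 ^ m - MvPolynomial.eval p.1 f : ℤ) : ℝ)| ≤ Δ)

/-- all values at points of the cube are close to `φ ^ m` -/
def Near (P : ℝ) (ξ : ι → ℝ) (ρ : ℝ) (M : ℕ) (xc : ι → ℤ) (τ φ : ℝ) (m : ℕ)
    (f : MvPolynomial ι ℤ) : Prop :=
  ∀ x ∈ cube P ξ ρ M xc, |((MvPolynomial.eval x f : ℤ) : ℝ) - φ ^ m| ≤ τ * φ ^ m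

/-- the length of the intervals -/
noncomputable def Lu (m : ℕ) (Δ τ φ : ℝ) : ℝ := 2 * Δ / (m * ((1 - 2 * τ) * φ) ^ (m - 1))

theorem Lu_nonneg {m : ℕ} {Δ τ φ : ℝ} (hΔ : 0 ≤ Δ) (hτ : τ ≤ 1 / 4) (hφ : 0 ≤ φ) :
    0 ≤ Lu m Δ τ φ := by
  unfold Lu
  have : 0 ≤ (1 - 2 * τ) * φ := mul_nonneg (by linarith) hφ
  positivity

theorem fib_le {w₀ : ℕ} {fc : MvPolynomial ι ℤ} {m S J : ℕ} {xc : ι → ℤ} {yc : ℤ}
    (h : CData w₀ fc m S J xc yc) (hm : 1 ≤ m) {K : ℕ} (hK0 : 0 < K)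
    (hK : ∀ p : ℕ, p.Prime → p ∣ K → p ≤ w₀) {φ τ Δ v : ℝ} (hφ : 0 < φ) (hτ0 : 0 ≤ τ)
    (hτ1 : τ ≤ 1 / 4) (hΔ : Δ ≤ τ * φ ^ m) (hv : |v - φ ^ m| ≤ τ * φ ^ m) (u : ℤ) (hu : (u : ℝ) = v)
    (T : Finset ℤ) (hT : ∀ w ∈ T, w ∈ Ws φ S yc ∧ ((S * J * K : ℕ) : ℤ) ∣ w ^ m - u ∧
      |((w ^ m - u : ℤ) : ℝ)| ≤ Δ) :
    (0 ≤ Δ → (T.card : ℝ) ≤ Lu m Δ τ φ / (S * K : ℕ) + 1) ∧
    (∀ {D : ℕ}, 0 < D → Nat.Coprime (S * K) D → ∀ c : ℤ, (∀ w ∈ T, (D : ℤ) ∣ w ^ m - c) →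
      0 ≤ Δ → (T.card : ℝ) ≤ m * (2 * (Lu m Δ τ φ / (S * K : ℕ)) *
        (D : ℝ) ^ (-((1 : ℝ) / mm m)) + 1)) := by
  classical
  have hSK : 0 < S * K := Nat.mul_pos h.hS hK0
  rcases T.eq_empty_or_nonempty with rfl | hne
  · have h0 : ∀ {D : ℕ}, 0 < D → 0 ≤ (D : ℝ) ^ (-((1 : ℝ) / mm m)) := by
      intro D _; positivity
    constructor
    · intro hΔ0
      have := Lu_nonneg (m := m) hΔ0 hτ1 hφ.le
      rw [Finset.card_empty, Nat.cast_zero]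
      positivity
    · intro D hD _ c _ hΔ0
      have := Lu_nonneg (m := m) hΔ0 hτ1 hφ.le
      rw [Finset.card_empty, Nat.cast_zero]
      positivity
  · obtain ⟨w₁, hw₁⟩ : ∃ w₁, w₁ = T.min' hne := ⟨_, rfl⟩
    have hw₁T : w₁ ∈ T := by rw [hw₁]; exact T.min'_mem hne
    have hmin : ∀ w ∈ T, w₁ ≤ w := fun w hw => by rw [hw₁]; exact T.min'_le w hw
    have hcl : ∀ w ∈ T, ((S * K : ℕ) : ℤ) ∣ w - w₁ := by
      intro w hw
      obtain ⟨a1, a2, _⟩ := hT w hw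
      obtain ⟨b1, b2, _⟩ := hT w₁ hw₁T
      rw [mem_Ws] at a1 b1
      apply h.inj hK a1.2 b1.2
      have := dvd_sub a2 b2
      rwa [sub_sub_sub_cancel_right] at this
    have hint : ∀ w ∈ T, (w₁ : ℝ) ≤ w ∧ (w : ℝ) ≤ w₁ + Lu m Δ τ φ := by
      intro w hw
      obtain ⟨a1, a2, a3⟩ := hT w hw
      obtain ⟨b1, b2, b3⟩ := hT w₁ hw₁T
      rw [mem_Ws] at a1 b1
      push_cast at a3 b3
      rw [hu] at a3 b3
      have := w_close hm hφ hτ0 hτ1 hΔ hv (by omega) (by omega) a3 b3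
      refine ⟨by exact_mod_cast hmin w hw, ?_⟩
      unfold Lu
      linarith
    constructor
    · intro hΔ0
      have hL := Lu_nonneg (m := m) hΔ0 hτ1 hφ.le
      have h1 : T ⊆ icl w₁ (w₁ + Lu m Δ τ φ) (S * K) w₁ := by
        intro w hw
        rw [mem_icl]
        exact ⟨hint w hw, hcl w hw⟩
      have h2 := card_icl_le (a := w₁) (b := w₁ + Lu m Δ τ φ) (by linarith) hSK w₁
      have h3 : (T.card : ℝ) ≤ ((icl w₁ (w₁ + Lu m Δ τ φ) (S * K) w₁).card : ℝ) := by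
        exact_mod_cast Finset.card_le_card h1
      refine h3.trans (h2.trans (le_of_eq ?_))
      rw [add_sub_cancel_left]
    · intro D hD hcop c hc hΔ0
      have hL := Lu_nonneg (m := m) hΔ0 hτ1 hφ.le
      have := pow_card' hm hSK hcop hD w₁ c T hL (fun w hw =>
        ⟨hcl w hw, hc w hw, (hint w hw).1, (hint w hw).2⟩)
      exact this

/-- fibrewise bound -/
theorem card_fib {α β : Type*} [DecidableEq α] (T : Finset (α × β)) (U : Finset α) {R : ℝ}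
    (hR : 0 ≤ R) (h1 : ∀ p ∈ T, p.1 ∈ U)
    (h2 : ∀ x ∈ U, (((T.filter (fun p => p.1 = x)).card : ℕ) : ℝ) ≤ R) :
    (T.card : ℝ) ≤ U.card * R := by
  have e := Finset.card_eq_sum_card_fiberwise (f := Prod.fst) (s := T) (t := U)
    (fun p hp => h1 p hp)
  rw [e, Nat.cast_sum]
  refine (Finset.sum_le_sum h2).trans ?_
  rw [Finset.sum_const, nsmul_eq_mul]

section
variable {w₀ : ℕ} {fc : MvPolynomial ι ℤ} {m S J : ℕ} {xc : ι → ℤ} {yc : ℤ}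

theorem LocS_le (h : CData w₀ fc m S J xc yc) (hm : 1 ≤ m) {K : ℕ} (hK0 : 0 < K)
    (hK : ∀ p : ℕ, p.Prime → p ∣ K → p ≤ w₀) {P ρ φ τ Δ : ℝ} {ξ : ι → ℝ} (hρP : 0 ≤ ρ * P)
    (hφ : 0 < φ) (hτ0 : 0 ≤ τ) (hτ1 : τ ≤ 1 / 4) (hΔ0 : 0 ≤ Δ) (hΔ : Δ ≤ τ * φ ^ m)
    {f : MvPolynomial ι ℤ} (hf : Near P ξ ρ (S * J) xc τ φ m f) :
    ((LocS P ξ ρ φ S J xc yc m f K Δ).card : ℝ) ≤
      (2 * ρ * P / (S * J : ℕ) + 1) ^ Fintype.card ι * (Lu m Δ τ φ / (S * K : ℕ) + 1) := by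
  classical
  have hL := Lu_nonneg (m := m) hΔ0 hτ1 hφ.le
  have h1 := card_fib (LocS P ξ ρ φ S J xc yc m f K Δ) (cube P ξ ρ (S * J) xc)
    (R := Lu m Δ τ φ / (S * K : ℕ) + 1) (by positivity)
    (fun p hp => by
      unfold LocS at hp
      rw [Finset.mem_filter, Finset.mem_product] at hp
      exact hp.1.1)
    (fun x hx => by
      obtain ⟨T, hT⟩ : ∃ T : Finset ℤ, T = ((LocS P ξ ρ φ S J xc yc m f K Δ).filter
        (fun p => p.1 = x)).image Prod.snd := ⟨_, rfl⟩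
      have hcard : ((LocS P ξ ρ φ S J xc yc m f K Δ).filter (fun p => p.1 = x)).card = T.card := by
        rw [hT, Finset.card_image_of_injOn]
        intro p hp q hq hpq
        have e1 := (Finset.mem_filter.mp (Finset.mem_coe.mp hp)).2
        have e2 := (Finset.mem_filter.mp (Finset.mem_coe.mp hq)).2
        exact Prod.ext (e1.trans e2.symm) hpq
      rw [hcard]
      refine (fib_le h hm hK0 hK hφ hτ0 hτ1 hΔ (hf x hx) (MvPolynomial.eval x f) rfl T ?_).1 hΔ0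
      intro w hw
      rw [hT, Finset.mem_image] at hw
      obtain ⟨p, hp, rfl⟩ := hw
      rw [Finset.mem_filter] at hp
      obtain ⟨hp1, rfl⟩ := hp
      unfold LocS at hp1
      rw [Finset.mem_filter, Finset.mem_product] at hp1
      exact ⟨hp1.1.2, hp1.2.1, hp1.2.2⟩)
  refine h1.trans ?_
  apply mul_le_mul_of_nonneg_right _ (by positivity)
  exact card_cube_le h.pos xc hρP

theorem LocD_le (h : CData w₀ fc m S J xc yc) (hm : 1 ≤ m) {K : ℕ} (hK0 : 0 < K)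
    (hK : ∀ p : ℕ, p.Prime → p ∣ K → p ≤ w₀) {P ρ φ τ Δ : ℝ} {ξ : ι → ℝ} (hρP : 0 ≤ ρ * P)
    (hφ : 0 < φ) (hτ0 : 0 ≤ τ) (hτ1 : τ ≤ 1 / 4) (hΔ0 : 0 ≤ Δ) (hΔ : Δ ≤ τ * φ ^ m)
    {f : MvPolynomial ι ℤ} (hf : Near P ξ ρ (S * J) xc τ φ m f) {D : ℕ} (hD : 0 < D)
    (hDr : ∀ q : ℕ, q.Prime → q ≤ w₀ → ¬ q ∣ D) (ζ : ι → ℤ) (c : ℤ)
    (T : Finset ((ι → ℤ) × ℤ)) (hT : ∀ p ∈ T, p ∈ LocS P ξ ρ φ S J xc yc m f K Δ ∧
      (∀ i, (D : ℤ) ∣ p.1 i - ζ i) ∧ (D : ℤ) ∣ p.2 ^ m - c) :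
    (T.card : ℝ) ≤ (2 * ρ * P / (S * J : ℕ) / D + 1) ^ Fintype.card ι *
      (m * (2 * (Lu m Δ τ φ / (S * K : ℕ)) * (D : ℝ) ^ (-((1 : ℝ) / mm m)) + 1)) := by
  classical
  have hL := Lu_nonneg (m := m) hΔ0 hτ1 hφ.le
  have hcopS : ∀ n : ℕ, (∀ p : ℕ, p.Prime → p ∣ n → p ≤ w₀) → Nat.Coprime n D := by
    intro n hn
    rw [Nat.coprime_iff_gcd_eq_one]
    by_contra hne
    obtain ⟨p, hp, hpd⟩ := Nat.exists_prime_and_dvd hne
    exact hDr p hp (hn p hp (hpd.trans (Nat.gcd_dvd_left _ _))) (hpd.trans (Nat.gcd_dvd_right _ _))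
  have hcop1 : Nat.Coprime (S * K) D := by
    apply hcopS
    intro p hp hd
    rcases (hp.dvd_mul).mp hd with h1 | h1
    · exact h.hSW p hp h1
    · exact hK p hp h1
  have hcop2 : Nat.Coprime (S * J) D := by
    apply hcopS
    intro p hp hd
    rcases (hp.dvd_mul).mp hd with h1 | h1
    · exact h.hSW p hp h1
    · exact h.hSW p hp (h1.trans h.hJS)
  obtain ⟨U, hU⟩ : ∃ U : Finset (ι → ℤ), U = T.image Prod.fst := ⟨_, rfl⟩
  have hUcube : ∀ x ∈ U, x ∈ cube P ξ ρ (S * J) xc ∧ ∀ i, (D : ℤ) ∣ x i - ζ i := by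
    intro x hx
    rw [hU, Finset.mem_image] at hx
    obtain ⟨p, hp, rfl⟩ := hx
    obtain ⟨h1, h2, _⟩ := hT p hp
    unfold LocS at h1
    rw [Finset.mem_filter, Finset.mem_product] at h1
    exact ⟨h1.1.1, h2⟩
  have h1 := card_fib T U (R := m * (2 * (Lu m Δ τ φ / (S * K : ℕ)) *
      (D : ℝ) ^ (-((1 : ℝ) / mm m)) + 1)) (by positivity)
    (fun p hp => by rw [hU]; exact Finset.mem_image_of_mem _ hp)
    (fun x hx => by
      obtain ⟨V, hV⟩ : ∃ V : Finset ℤ, V = (T.filter (fun p => p.1 = x)).image Prod.snd := ⟨_, rfl⟩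
      have hcard : (T.filter (fun p => p.1 = x)).card = V.card := by
        rw [hV, Finset.card_image_of_injOn]
        intro p hp q hq hpq
        have e1 := (Finset.mem_filter.mp (Finset.mem_coe.mp hp)).2
        have e2 := (Finset.mem_filter.mp (Finset.mem_coe.mp hq)).2
        exact Prod.ext (e1.trans e2.symm) hpq
      rw [hcard]
      refine (fib_le h hm hK0 hK hφ hτ0 hτ1 hΔ (hf x (hUcube x hx).1) (MvPolynomial.eval x f) rfl V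
        ?_).2 hD hcop1 c ?_ hΔ0
      · intro w hw
        rw [hV, Finset.mem_image] at hw
        obtain ⟨p, hp, rfl⟩ := hw
        rw [Finset.mem_filter] at hp
        obtain ⟨hp1, rfl⟩ := hp
        have hp2 := (hT p hp1).1
        unfold LocS at hp2
        rw [Finset.mem_filter, Finset.mem_product] at hp2
        exact ⟨hp2.1.2, hp2.2.1, hp2.2.2⟩
      · intro w hw
        rw [hV, Finset.mem_image] at hw
        obtain ⟨p, hp, rfl⟩ := hw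
        rw [Finset.mem_filter] at hp
        exact (hT p hp.1).2.2)
  refine h1.trans ?_
  apply mul_le_mul_of_nonneg_right _ (by positivity)
  exact card_cubeD_le h.pos hD hcop2 xc hρP U ζ hUcube

end

end Pool.Agent.Run7.h443.CD
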