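import Pool.Agent.Y67.HP.Final

/-!
# Tail sum over pairs of integer vectors, with a saving in the content of the minors
-/

namespace Pool.Agent.Run7.h443.CD

open Finset
open Pool.Agent.Y67.HP

/-- determinant of a two by two integral matrix -/
def dt (c : (ℤ × ℤ) × (ℤ × ℤ)) : ℤ := c.1.1 * c.2.2 - c.2.1 * c.1.2

theorem card_small_det (A₁ B₁ : Finset ℤ) (h : ℕ) :
    (((A₁ ×ˢ A₁) ×ˢ (B₁ ×ˢ B₁)).filter (fun c => dt c ≠ 0 ∧ |dt c| ≤ h)).card ≤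
      2 * (A₁.card * (B₁.card * B₁.card) * (2 * h + 1)) := by
  classical
  have hI : (Finset.Icc (-(h : ℤ)) h).card = 2 * h + 1 := by
    rw [Int.card_Icc]; omega
  set U := ((A₁ ×ˢ A₁) ×ˢ (B₁ ×ˢ B₁)).filter (fun c => dt c ≠ 0 ∧ |dt c| ≤ h) with hU
  have h1 : (U.filter (fun c => c.2.2 ≠ 0)).card ≤
      A₁.card * (B₁.card * B₁.card) * (2 * h + 1) := by
    have : (U.filter (fun c => c.2.2 ≠ 0)).card ≤
        (A₁ ×ˢ ((B₁ ×ˢ B₁) ×ˢ Finset.Icc (-(h : ℤ)) h)).card := by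
      apply Finset.card_le_card_of_injOn (fun c => (c.1.2, (c.2, dt c)))
      · rintro ⟨⟨c₁, c₃⟩, c₂, c₄⟩ hc
        simp only [hU, Finset.coe_filter, Finset.mem_filter, Finset.mem_product, Set.mem_ofPred_eq]
          at hc
        simp only [Finset.coe_product, Set.mem_prod, Finset.mem_coe, Finset.coe_Icc,
          Set.mem_Icc]
        exact ⟨hc.1.1.1.2, hc.1.1.2, abs_le.mp hc.1.2.2⟩
      · rintro ⟨⟨c₁, c₃⟩, c₂, c₄⟩ hc ⟨⟨d₁, d₃⟩, d₂, d₄⟩ hd heq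
        simp only [Finset.coe_filter, Set.mem_ofPred_eq] at hc hd
        simp only [Prod.mk.injEq] at heq
        obtain ⟨e1, ⟨e2, e3⟩, e4⟩ := heq
        subst e1 e2 e3
        unfold dt at e4
        simp only at e4
        have : c₁ * c₄ = d₁ * c₄ := by linarith
        have := mul_right_cancel₀ hc.2 this
        rw [this]
    refine this.trans (le_of_eq ?_)
    rw [Finset.card_product, Finset.card_product, Finset.card_product, hI]
    ring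
  have h2 : (U.filter (fun c => ¬ c.2.2 ≠ 0)).card ≤
      A₁.card * (B₁.card * B₁.card) * (2 * h + 1) := by
    have : (U.filter (fun c => ¬ c.2.2 ≠ 0)).card ≤
        (A₁ ×ˢ ((B₁ ×ˢ B₁) ×ˢ Finset.Icc (-(h : ℤ)) h)).card := by
      apply Finset.card_le_card_of_injOn (fun c => (c.1.1, (c.2, dt c)))
      · rintro ⟨⟨c₁, c₃⟩, c₂, c₄⟩ hc
        simp only [hU, Finset.coe_filter, Finset.mem_filter, Finset.mem_product, Set.mem_ofPred_eq]
          at hc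
        simp only [Finset.coe_product, Set.mem_prod, Finset.mem_coe, Finset.coe_Icc,
          Set.mem_Icc]
        exact ⟨hc.1.1.1.1, hc.1.1.2, abs_le.mp hc.1.2.2⟩
      · rintro ⟨⟨c₁, c₃⟩, c₂, c₄⟩ hc ⟨⟨d₁, d₃⟩, d₂, d₄⟩ hd heq
        simp only [hU, Finset.coe_filter, Finset.mem_filter, Set.mem_ofPred_eq, not_not] at hc hd
        simp only [Prod.mk.injEq] at heq
        obtain ⟨e1, ⟨e2, e3⟩, e4⟩ := heq
        subst e1 e2 e3
        unfold dt at e4 hc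
        simp only at e4 hc
        have h3 : c₂ ≠ 0 := by
          intro h0
          apply hc.1.2.1
          rw [hc.2, h0]; ring
        have : c₂ * c₃ = c₂ * d₃ := by linarith
        have := mul_left_cancel₀ h3 this
        rw [this]
    refine this.trans (le_of_eq ?_)
    rw [Finset.card_product, Finset.card_product, Finset.card_product, hI]
    ring
  have h3 := Finset.card_filter_add_card_filter_not (s := U) (fun c => c.2.2 ≠ 0)
  omega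

/-- the weight of a determinant -/
noncomputable def wd (δ : ℝ) (d : ℤ) : ℝ := if d = 0 then 0 else |(d : ℝ)| ^ (-δ)

theorem wd_nonneg (δ : ℝ) (d : ℤ) : 0 ≤ wd δ d := by
  unfold wd
  split_ifs
  · exact le_rfl
  · positivity

theorem sum_det_aux {δ : ℝ} (hδ0 : 0 < δ) (hδ1 : δ ≤ 1) (A₁ B₁ : Finset ℤ) {a b : ℝ} (hb : 1 ≤ b)
    (hba : b ≤ a) (hA : (A₁.card : ℝ) ≤ 3 * a) (hB : (B₁.card : ℝ) ≤ 3 * b) :
    ∑ c ∈ (A₁ ×ˢ A₁) ×ˢ (B₁ ×ˢ B₁), wd δ (dt c) ≤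
      243 * (a ^ 2 * b ^ 2) * (a * b) ^ (-(δ / 4)) := by
  classical
  have ha : 1 ≤ a := hb.trans hba
  have ha0 : 0 < a := by linarith
  have hb0 : 0 < b := by linarith
  set r := Real.sqrt a with hr
  have hr1 : 1 ≤ r := by rw [hr, ← Real.sqrt_one]; exact Real.sqrt_le_sqrt ha
  have hrr : r * r = a := Real.mul_self_sqrt ha0.le
  set h := ⌊r⌋₊ with hh
  have hhr : (h : ℝ) ≤ r := Nat.floor_le (by linarith)
  have hhr2 : r < h + 1 := Nat.lt_floor_add_one r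
  set U := (A₁ ×ˢ A₁) ×ˢ (B₁ ×ˢ B₁) with hU
  set q := a ^ (-(δ / 2)) with hq
  have hq0 : 0 < q := by positivity
  have hterm : ∀ c ∈ U, wd δ (dt c) ≤
      (if dt c ≠ 0 ∧ |dt c| ≤ h then (1:ℝ) else 0) + q := by
    intro c _
    unfold wd
    by_cases h0 : dt c = 0
    · rw [if_pos h0, if_neg (by simp [h0])]
      linarith
    · rw [if_neg h0]
      by_cases h1 : |dt c| ≤ h
      · rw [if_pos ⟨h0, h1⟩]
        have h2 : (1:ℝ) ≤ |(dt c : ℝ)| := by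
          have := Int.one_le_abs h0
          exact_mod_cast this
        have h3 : |(dt c : ℝ)| ^ (-δ) ≤ 1 :=
          Real.rpow_le_one_of_one_le_of_nonpos h2 (by linarith)
        linarith
      · rw [if_neg (by tauto), zero_add]
        push Not at h1
        have h2 : r ≤ |(dt c : ℝ)| := by
          have h3 : ((h : ℤ) + 1 : ℤ) ≤ |dt c| := h1
          have h4 : (((h : ℤ) + 1 : ℤ) : ℝ) ≤ ((|dt c| : ℤ) : ℝ) := by exact_mod_cast h3
          push_cast at h4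
          linarith
        have h3 : |(dt c : ℝ)| ^ (-δ) ≤ r ^ (-δ) :=
          Real.rpow_le_rpow_of_nonpos (by linarith) h2 (by linarith)
        refine h3.trans (le_of_eq ?_)
        rw [hr, Real.sqrt_eq_rpow, ← Real.rpow_mul ha0.le, hq]
        congr 1; ring
  refine (Finset.sum_le_sum hterm).trans ?_
  rw [Finset.sum_add_distrib, Finset.sum_const, nsmul_eq_mul]
  have h1 : ∑ c ∈ U, (if dt c ≠ 0 ∧ |dt c| ≤ h then (1:ℝ) else 0) =
      ((U.filter (fun c => dt c ≠ 0 ∧ |dt c| ≤ h)).card : ℝ) := by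
    rw [Finset.card_filter]; push_cast; rfl
  rw [h1]
  have h2 := (Nat.cast_le (α := ℝ)).mpr (card_small_det A₁ B₁ h)
  rw [← hU] at h2
  push_cast at h2
  have hA0 : (0:ℝ) ≤ A₁.card := Nat.cast_nonneg _
  have hB0 : (0:ℝ) ≤ B₁.card := Nat.cast_nonneg _
  have h3 : 2 * ((A₁.card : ℝ) * (B₁.card * B₁.card) * (2 * h + 1)) ≤
      162 * (a ^ 2 * b ^ 2) * q := by
    have e1 : (2 * (h:ℝ) + 1) ≤ 3 * r := by linarith
    have e2 : (A₁.card : ℝ) * (B₁.card * B₁.card) ≤ (3 * a) * ((3 * b) * (3 * b)) :=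
      mul_le_mul hA (mul_le_mul hB hB hB0 (by positivity)) (by positivity) (by positivity)
    have e3 : (A₁.card : ℝ) * (B₁.card * B₁.card) * (2 * h + 1) ≤
        (3 * a) * ((3 * b) * (3 * b)) * (3 * r) :=
      mul_le_mul e2 e1 (by positivity) (by positivity)
    have e4 : r ≤ a * q := by
      have e5 : r⁻¹ ≤ q := by
        rw [hq, hr, Real.sqrt_eq_rpow, ← Real.rpow_neg ha0.le]
        exact Real.rpow_le_rpow_of_exponent_le ha (by linarith)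
      have e6 : a * r⁻¹ ≤ a * q := mul_le_mul_of_nonneg_left e5 ha0.le
      have e7 : a * r⁻¹ = r := by
        rw [← hrr]; field_simp
      linarith
    have e5 : (3 * a) * ((3 * b) * (3 * b)) * (3 * r) = 81 * (a * b ^ 2) * r := by ring
    have e6 := mul_le_mul_of_nonneg_left e4 (by positivity : 0 ≤ 81 * (a * b ^ 2))
    have e7 : 2 * (81 * (a * b ^ 2) * (a * q)) = 162 * (a ^ 2 * b ^ 2) * q := by ring
    linarith
  have h4 : (U.card : ℝ) * q ≤ 81 * (a ^ 2 * b ^ 2) * q := by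
    apply mul_le_mul_of_nonneg_right _ hq0.le
    rw [hU, Finset.card_product, Finset.card_product, Finset.card_product]
    push_cast
    have e1 : ((A₁.card : ℝ) * A₁.card) * (B₁.card * B₁.card) ≤
        ((3 * a) * (3 * a)) * ((3 * b) * (3 * b)) :=
      mul_le_mul (mul_le_mul hA hA hA0 (by positivity)) (mul_le_mul hB hB hB0 (by positivity))
        (by positivity) (by positivity)
    refine e1.trans (le_of_eq ?_)
    ring
  have h5 : q ≤ (a * b) ^ (-(δ / 4)) := by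
    have e1 : q = (a * a) ^ (-(δ / 4)) := by
      rw [hq, Real.mul_rpow ha0.le ha0.le, ← Real.rpow_add ha0]
      congr 1; ring
    rw [e1]
    apply Real.rpow_le_rpow_of_nonpos (by positivity) _ (by linarith)
    exact mul_le_mul_of_nonneg_left hba ha0.le
  have h6 : 243 * (a ^ 2 * b ^ 2) * q ≤ 243 * (a ^ 2 * b ^ 2) * (a * b) ^ (-(δ / 4)) :=
    mul_le_mul_of_nonneg_left h5 (by positivity)
  linarith

theorem sum_det {δ : ℝ} (hδ0 : 0 < δ) (hδ1 : δ ≤ 1) (A₁ B₁ : Finset ℤ) {a b : ℝ} (ha : 1 ≤ a)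
    (hb : 1 ≤ b) (hA : (A₁.card : ℝ) ≤ 3 * a) (hB : (B₁.card : ℝ) ≤ 3 * b) :
    ∑ c ∈ (A₁ ×ˢ A₁) ×ˢ (B₁ ×ˢ B₁), wd δ (dt c) ≤
      243 * (a ^ 2 * b ^ 2) * (a * b) ^ (-(δ / 4)) := by
  rcases le_total b a with h | h
  · exact sum_det_aux hδ0 hδ1 A₁ B₁ hb h hA hB
  · have h1 := sum_det_aux hδ0 hδ1 B₁ A₁ ha h hB hA
    rw [mul_comm b a, mul_comm (b ^ 2) (a ^ 2)] at h1
    refine le_trans (le_of_eq ?_) h1
    rw [Finset.sum_product, Finset.sum_comm, ← Finset.sum_product']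
    refine Finset.sum_congr rfl fun c _ => ?_
    have : dt (c.2, c.1) = - dt c := by
      unfold dt; ring
    rw [this]
    unfold wd
    simp only [neg_eq_zero, Int.cast_neg, abs_neg]

theorem sum_rpow (s : ℝ) (hs0 : 0 < s) (hs1 : s ≤ 1) (M : ℕ) :
    ∑ v ∈ Finset.Icc 1 M, (v : ℝ) ^ (s - 1) ≤ (M : ℝ) ^ s / s := by
  induction M with
  | zero => simp [hs0.ne']
  | succ M ih =>
    rw [← Finset.insert_Icc_right_eq_Icc_add_one (by omega : 1 ≤ M + 1), Finset.sum_insert (by simp)]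
    have hM0 : (0:ℝ) < ((M + 1 : ℕ) : ℝ) := by positivity
    have h1 := rpow_one_add_le_one_add_mul_self (s := -1 / ((M + 1 : ℕ) : ℝ)) (p := s)
      (by rw [neg_div, neg_le_neg_iff, div_le_one hM0]; push_cast; linarith [Nat.cast_nonneg (α := ℝ) M])
      hs0.le hs1
    have h2 : (M : ℝ) ^ s ≤ ((M + 1 : ℕ) : ℝ) ^ s - s * ((M + 1 : ℕ) : ℝ) ^ (s - 1) := by
      have e1 : (M : ℝ) = ((M + 1 : ℕ) : ℝ) * (1 + -1 / ((M + 1 : ℕ) : ℝ)) := by
        field_simp; push_cast; ring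
      have e2 : 0 ≤ 1 + -1 / ((M + 1 : ℕ) : ℝ) := by
        rw [neg_div, ← sub_eq_add_neg, sub_nonneg, div_le_one hM0]
        push_cast; linarith [Nat.cast_nonneg (α := ℝ) M]
      rw [e1, Real.mul_rpow hM0.le e2]
      have e3 := mul_le_mul_of_nonneg_left h1 (by positivity : 0 ≤ ((M + 1 : ℕ) : ℝ) ^ s)
      refine e3.trans (le_of_eq ?_)
      rw [Real.rpow_sub_one hM0.ne']
      field_simp
      ring
    have h3 : (M : ℝ) ^ s / s ≤ ((M + 1 : ℕ) : ℝ) ^ s / s - ((M + 1 : ℕ) : ℝ) ^ (s - 1) := by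
      rw [div_le_iff₀ hs0, sub_mul, div_mul_cancel₀ _ hs0.ne']
      linarith
    linarith

theorem sum_f_le (n : ℕ) {s : ℝ} (hs0 : 0 < s) (hs1 : s ≤ 1) (N : ℕ) {Y : ℝ} (hY : 0 ≤ Y) :
    ∑ V ∈ (Finset.Icc 1 N).filter (fun V : ℕ => (V : ℝ) ≤ Y), (V : ℝ) ^ n * (V : ℝ) ^ (s - 1) ≤
      Y ^ n * (Y ^ s / s) := by
  have h1 : ∀ V ∈ (Finset.Icc 1 N).filter (fun V : ℕ => (V : ℝ) ≤ Y),
      (V : ℝ) ^ n * (V : ℝ) ^ (s - 1) ≤ Y ^ n * (V : ℝ) ^ (s - 1) := by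
    intro V hV
    rw [Finset.mem_filter] at hV
    exact mul_le_mul_of_nonneg_right (pow_le_pow_left₀ (Nat.cast_nonneg _) hV.2 _) (by positivity)
  refine (Finset.sum_le_sum h1).trans ?_
  rw [← Finset.mul_sum]
  apply mul_le_mul_of_nonneg_left _ (by positivity)
  have h2 : (Finset.Icc 1 N).filter (fun V : ℕ => (V : ℝ) ≤ Y) ⊆ Finset.Icc 1 ⌊Y⌋₊ := by
    intro V hV
    rw [Finset.mem_filter, Finset.mem_Icc] at hV
    rw [Finset.mem_Icc]
    exact ⟨hV.1.1, Nat.le_floor hV.2⟩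
  refine (Finset.sum_le_sum_of_subset_of_nonneg h2 (fun _ _ _ => by positivity)).trans ?_
  refine (sum_rpow s hs0 hs1 _).trans ?_
  apply div_le_div_of_nonneg_right _ hs0.le
  exact Real.rpow_le_rpow (Nat.cast_nonneg _) (Nat.floor_le hY) hs0.le

theorem sum_two_gen (N : ℕ) (f : ℕ → ℝ) (hf : ∀ v, 0 ≤ f v) {Y FY FX : ℝ}
    (h1 : ∑ V ∈ (Finset.Icc 1 N).filter (fun V : ℕ => (V : ℝ) ≤ Y), f V ≤ FY)
    (h2 : ∑ V ∈ Finset.Icc 1 N, f V ≤ FX) :
    ∑ p ∈ ((Finset.Icc 1 N) ×ˢ (Finset.Icc 1 N)).filter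
      (fun p : ℕ × ℕ => (p.1 : ℝ) ≤ Y ∨ (p.2 : ℝ) ≤ Y), f p.1 * f p.2 ≤ 2 * (FY * FX) := by
  classical
  have hFY : 0 ≤ FY := le_trans (Finset.sum_nonneg fun _ _ => hf _) h1
  have hFX : 0 ≤ FX := le_trans (Finset.sum_nonneg fun _ _ => hf _) h2
  have h3 : ∑ p ∈ ((Finset.Icc 1 N) ×ˢ (Finset.Icc 1 N)).filter
      (fun p : ℕ × ℕ => (p.1 : ℝ) ≤ Y), f p.1 * f p.2 ≤ FY * FX := by
    have e : ((Finset.Icc 1 N) ×ˢ (Finset.Icc 1 N)).filter (fun p : ℕ × ℕ => (p.1 : ℝ) ≤ Y) =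
        ((Finset.Icc 1 N).filter (fun V : ℕ => (V : ℝ) ≤ Y)) ×ˢ (Finset.Icc 1 N) := by
      ext p
      simp only [Finset.mem_filter, Finset.mem_product]
      tauto
    rw [e, Finset.sum_product]
    simp only [← Finset.mul_sum]
    rw [← Finset.sum_mul]
    exact mul_le_mul h1 h2 (Finset.sum_nonneg fun _ _ => hf _) hFY
  have h4 : ∑ p ∈ ((Finset.Icc 1 N) ×ˢ (Finset.Icc 1 N)).filter
      (fun p : ℕ × ℕ => (p.2 : ℝ) ≤ Y), f p.1 * f p.2 ≤ FY * FX := by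
    have e : ((Finset.Icc 1 N) ×ˢ (Finset.Icc 1 N)).filter (fun p : ℕ × ℕ => (p.2 : ℝ) ≤ Y) =
        (Finset.Icc 1 N) ×ˢ ((Finset.Icc 1 N).filter (fun V : ℕ => (V : ℝ) ≤ Y)) := by
      ext p
      simp only [Finset.mem_filter, Finset.mem_product]
      tauto
    rw [e, Finset.sum_product]
    simp only [← Finset.mul_sum]
    rw [← Finset.sum_mul, mul_comm]
    exact mul_le_mul h1 h2 (Finset.sum_nonneg fun _ _ => hf _) hFY
  rw [Finset.filter_or]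
  have h5 := Finset.sum_union_inter (s₁ := ((Finset.Icc 1 N) ×ˢ (Finset.Icc 1 N)).filter
        (fun p : ℕ × ℕ => (p.1 : ℝ) ≤ Y)) (s₂ := ((Finset.Icc 1 N) ×ˢ (Finset.Icc 1 N)).filter
        (fun p : ℕ × ℕ => (p.2 : ℝ) ≤ Y)) (f := fun p : ℕ × ℕ => f p.1 * f p.2)
  have h6 : 0 ≤ ∑ p ∈ ((Finset.Icc 1 N) ×ˢ (Finset.Icc 1 N)).filter
        (fun p : ℕ × ℕ => (p.1 : ℝ) ≤ Y) ∩ ((Finset.Icc 1 N) ×ˢ (Finset.Icc 1 N)).filter
        (fun p : ℕ × ℕ => (p.2 : ℝ) ≤ Y), f p.1 * f p.2 :=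
    Finset.sum_nonneg fun _ _ => mul_nonneg (hf _) (hf _)
  linarith

/-- The tail sum for pairs of vectors of `ℤ³` (or more), with a saving in the content `g` of the
minors. -/
theorem tail_w (ι : Type*) [Fintype ι] (hk : 3 ≤ Fintype.card ι) {δ : ℝ} (hδ0 : 0 < δ)
    (hδ1 : δ ≤ 1) :
    ∃ C : ℝ, 0 < C ∧ ∀ (B T : ℝ), 1 ≤ B → 1 ≤ T →
      ∀ (Tl : Finset ((ι → ℤ) × (ι → ℤ))) (τ : (ι → ℤ) × (ι → ℤ) → ℝ)
        (gf : (ι → ℤ) × (ι → ℤ) → ℤ),
      (∀ p ∈ Tl, (∀ i, |(p.1 i : ℝ)| ≤ B) ∧ (∀ i, |(p.2 i : ℝ)| ≤ B) ∧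
        (∃ i j, p.1 i * p.2 j - p.1 j * p.2 i ≠ 0) ∧ T < τ p ∧
        (∀ i j, gf p ∣ p.1 i * p.2 j - p.1 j * p.2 i) ∧
        (∀ D, (∀ i j, D ∣ p.1 i * p.2 j - p.1 j * p.2 i) → D ∣ gf p) ∧
        ∃ (μ : ℝ), (∀ i j, |((p.1 i * p.2 j - p.1 j * p.2 i : ℤ) : ℝ)| ≤ μ) ∧
          τ p * μ ≤ B ^ 2 * |(gf p : ℝ)|) →
      ∑ p ∈ Tl, τ p * |(gf p : ℝ)| ^ (-δ) ≤
        C * B ^ (2 * Fintype.card ι) * T ^ (-(δ / 8)) := by
  classical
  set k := Fintype.card ι with hkdef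
  have hk0 : (0 : ℝ) < k := by
    have : 0 < k := by omega
    exact_mod_cast this
  have hk3 : (3 : ℝ) ≤ k := by exact_mod_cast hk
  obtain ⟨s, hs⟩ : ∃ s, s = δ / 4 := ⟨_, rfl⟩
  have hs0 : 0 < s := by rw [hs]; positivity
  have hs1 : s ≤ 1 := by rw [hs]; linarith
  refine ⟨(C0 ι) ^ 2 * 243 * (2 * k) * (2 * k) ^ 4 * (2 * (((2 * k) ^ (k - 3)) ^ 2 / s ^ 2)) + 1,
    ?_, ?_⟩
  · have h0 := C0_nonneg (ι := ι)
    positivity
  intro B T hB hT Tl τ gf hTl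
  have hB0 : 0 < B := by linarith
  have hT0 : 0 < T := by linarith
  have hsT : 1 ≤ Real.sqrt T := by
    rw [← Real.sqrt_one]; exact Real.sqrt_le_sqrt hT
  have hsT0 : 0 < Real.sqrt T := by linarith
  obtain ⟨X, hX⟩ : ∃ X : ℝ, X = 2 * k * B := ⟨_, rfl⟩
  have hX0 : 0 < X := by rw [hX]; positivity
  obtain ⟨Y, hY⟩ : ∃ Y : ℝ, Y = X / Real.sqrt T := ⟨_, rfl⟩
  have hY0 : 0 < Y := by rw [hY]; positivity
  have hYX : Y ≤ X := by rw [hY]; exact div_le_self hX0.le hsT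
  set N := ⌊X⌋₊ with hN
  have hNX : (N : ℝ) ≤ X := Nat.floor_le hX0.le
  let P : Finset (ℕ × ℕ) := ((Finset.Icc 1 N) ×ˢ (Finset.Icc 1 N)).filter
      (fun p : ℕ × ℕ => (p.1 : ℝ) ≤ Y ∨ (p.2 : ℝ) ≤ Y)
  let t : ℕ × ℕ → Finset ((ι → ℤ) × (ι → ℤ) × (ℤ × ℤ) × (ℤ × ℤ)) := fun p =>
    shell ι p.1 ×ˢ shell ι p.2 ×ˢ (cr X p.1 ×ˢ cr X p.1) ×ˢ (cr X p.2 ×ˢ cr X p.2)
  let S : Finset (Σ _ : ℕ × ℕ, (ι → ℤ) × (ι → ℤ) × (ℤ × ℤ) × (ℤ × ℤ)) := P.sigma t
  let ψ : (Σ _ : ℕ × ℕ, (ι → ℤ) × (ι → ℤ) × (ℤ × ℤ) × (ℤ × ℤ)) → (ι → ℤ) × (ι → ℤ) :=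
    fun s => (fun i => s.2.2.2.1.1 * s.2.1 i + s.2.2.2.2.1 * s.2.2.1 i,
      fun i => s.2.2.2.1.2 * s.2.1 i + s.2.2.2.2.2 * s.2.2.1 i)
  let g : (Σ _ : ℕ × ℕ, (ι → ℤ) × (ι → ℤ) × (ℤ × ℤ) × (ℤ × ℤ)) → ℝ :=
    fun s => 2 * k * B ^ 2 / (s.1.1 * s.1.2) * wd δ (dt s.2.2.2)
  have hcov := sum_le_of_cover Tl S ψ (fun p => τ p * |(gf p : ℝ)| ^ (-δ)) g (fun s _ => by
    simp only [g]
    exact mul_nonneg (by positivity) (wd_nonneg _ _)) (by
    intro p hp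
    obtain ⟨hxB, hzB, hne, hTτ, hgd, hgmax, μ, hμ, hτ⟩ := hTl p hp
    obtain ⟨V, W, v, w, c₁, c₂, c₃, c₄, hV, hW, hv1, hv2, hw1, hw2, hxe, hze, h1, h3, h2, h4, hVB,
      hWB, hg⟩ := z1 ι p.1 p.2 hne B hxB hzB
    rw [← hkdef, ← hX] at h1 h3 h2 h4 hVB hWB
    obtain ⟨i, j, hij⟩ := hg (gf p) hgd
    have hV1 : (1 : ℝ) ≤ V := by exact_mod_cast hV
    have hW1 : (1 : ℝ) ≤ W := by exact_mod_cast hW
    have hV0 : (0 : ℝ) < V := by linarith
    have hW0 : (0 : ℝ) < W := by linarith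
    have hg'0 : gf p ≠ 0 := by
      intro h0
      obtain ⟨i, j, h⟩ := hne
      have := hgd i j
      rw [h0, zero_dvd_iff] at this
      exact h this
    have hg'p : 0 < |(gf p : ℝ)| := abs_pos.2 (by exact_mod_cast hg'0)
    have hτ0 : 0 < τ p := by linarith
    have hmain : τ p * (V * W) ≤ 2 * k * B ^ 2 := by
      have h5 : |(gf p : ℝ)| * (τ p * (V * W)) ≤ |(gf p : ℝ)| * (2 * k * B ^ 2) := by
        calc |(gf p : ℝ)| * (τ p * (V * W)) = τ p * (|(gf p : ℝ)| * V * W) := by ring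
          _ ≤ τ p * (2 * k * μ) := by
              refine mul_le_mul_of_nonneg_left (hij.trans ?_) hτ0.le
              exact mul_le_mul_of_nonneg_left (hμ i j) (by positivity)
          _ = 2 * k * (τ p * μ) := by ring
          _ ≤ 2 * k * (B ^ 2 * |(gf p : ℝ)|) := mul_le_mul_of_nonneg_left hτ (by positivity)
          _ = |(gf p : ℝ)| * (2 * k * B ^ 2) := by ring
      exact le_of_mul_le_mul_left h5 hg'p
    have hdet : ∀ i j, p.1 i * p.2 j - p.1 j * p.2 i =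
        dt ((c₁, c₃), (c₂, c₄)) * (v i * w j - v j * w i) := by
      intro i j
      rw [hxe i, hxe j, hze i, hze j]
      unfold dt
      ring
    have hdg : dt ((c₁, c₃), (c₂, c₄)) ∣ gf p := hgmax _ (fun i j => by
      rw [hdet i j]; exact dvd_mul_right _ _)
    have hd0 : dt ((c₁, c₃), (c₂, c₄)) ≠ 0 := by
      intro h0
      rw [h0, zero_dvd_iff] at hdg
      exact hg'0 hdg
    refine ⟨⟨(V, W), (v, w, (c₁, c₃), (c₂, c₄))⟩, ?_, ?_, ?_⟩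
    · simp only [S, P, t, Finset.mem_sigma, Finset.mem_filter, Finset.mem_product, Finset.mem_Icc]
      refine ⟨⟨⟨⟨hV, Nat.le_floor hVB⟩, ⟨hW, Nat.le_floor hWB⟩⟩, ?_⟩, mem_shell.2 ⟨hv1, hv2⟩,
        mem_shell.2 ⟨hw1, hw2⟩, ⟨mem_cr hV h1, mem_cr hV h3⟩, ⟨mem_cr hW h2, mem_cr hW h4⟩⟩
      by_contra hcon
      rw [not_or, not_le, not_le] at hcon
      have h6 : Y * Y < V * W := mul_lt_mul'' hcon.1 hcon.2 hY0.le hY0.le
      have h7 : Y * Y = 4 * k ^ 2 * B ^ 2 / T := by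
        rw [hY, div_mul_div_comm, Real.mul_self_sqrt hT0.le, hX]; ring
      rw [h7, div_lt_iff₀ hT0] at h6
      have h8 : (V : ℝ) * W * T < τ p * (V * W) := by
        have : 0 < (V : ℝ) * W := by positivity
        nlinarith
      have h9 : 2 * k * B ^ 2 ≤ 4 * k ^ 2 * B ^ 2 := by
        have h10 : 0 ≤ 2 * (k : ℝ) * B ^ 2 * (2 * k - 1) :=
          mul_nonneg (by positivity) (by linarith)
        linarith
      linarith
    · refine Prod.ext ?_ ?_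
      · funext i
        exact (hxe i).symm
      · funext i
        exact (hze i).symm
    · simp only [g]
      apply mul_le_mul _ _ (by positivity) (by positivity)
      · rw [le_div_iff₀ (by positivity)]
        exact hmain
      · unfold wd
        rw [if_neg hd0]
        have h5 : |((dt ((c₁, c₃), (c₂, c₄)) : ℤ) : ℝ)| ≤ |(gf p : ℝ)| := by
          have := Int.le_of_dvd (abs_pos.mpr hg'0)
            ((dvd_abs _ _).mpr ((abs_dvd _ _).mpr hdg))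
          exact_mod_cast this
        apply Real.rpow_le_rpow_of_nonpos _ h5 (by linarith)
        exact abs_pos.2 (by exact_mod_cast hd0))
  refine hcov.trans ?_
  rw [Finset.sum_sigma]
  have h0 := C0_nonneg (ι := ι)
  have hfib : ∀ p ∈ P, ∑ s ∈ t p, g ⟨p, s⟩ ≤
      (C0 ι) ^ 2 * 243 * (2 * k) * B ^ 2 * (X ^ 4 * X ^ (-(2 * s))) *
        (((p.1 : ℝ) ^ (k - 3) * (p.1 : ℝ) ^ (s - 1)) *
          ((p.2 : ℝ) ^ (k - 3) * (p.2 : ℝ) ^ (s - 1))) := by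
    intro p hp
    rw [Finset.mem_filter, Finset.mem_product, Finset.mem_Icc, Finset.mem_Icc] at hp
    obtain ⟨⟨⟨hp1, hp1N⟩, hp2, hp2N⟩, hpD⟩ := hp
    have hV0 : (0 : ℝ) < p.1 := by exact_mod_cast hp1
    have hW0 : (0 : ℝ) < p.2 := by exact_mod_cast hp2
    have hVX : (p.1 : ℝ) ≤ X := by
      have : (p.1 : ℝ) ≤ N := by exact_mod_cast hp1N
      linarith
    have hWX : (p.2 : ℝ) ≤ X := by
      have : (p.2 : ℝ) ≤ N := by exact_mod_cast hp2N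
      linarith
    have a1 := card_shell_le (ι := ι) p.1 hp1
    have a2 := card_shell_le (ι := ι) p.2 hp2
    have a3 : ((cr X p.1).card : ℝ) ≤ 3 * (X / p.1) := by
      have := card_cr hp1 hVX
      rwa [mul_div_assoc] at this
    have a4 : ((cr X p.2).card : ℝ) ≤ 3 * (X / p.2) := by
      have := card_cr hp2 hWX
      rwa [mul_div_assoc] at this
    rw [← hkdef] at a1 a2
    have a5 := sum_det hδ0 hδ1 (cr X p.1) (cr X p.2) (a := X / p.1) (b := X / p.2)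
      (by rwa [le_div_iff₀ hV0, one_mul]) (by rwa [le_div_iff₀ hW0, one_mul]) a3 a4
    rw [← hs] at a5
    simp only [g, t]
    rw [← Finset.mul_sum, Finset.sum_product]
    simp only [Finset.sum_product (s := shell ι p.2)]
    rw [Finset.sum_const, Finset.sum_const, nsmul_eq_mul, nsmul_eq_mul]
    obtain ⟨sg, hsg⟩ : ∃ sg : ℝ, ∑ c ∈ (cr X p.1 ×ˢ cr X p.1) ×ˢ cr X p.2 ×ˢ cr X p.2,
      wd δ (dt c) = sg := ⟨_, rfl⟩
    rw [hsg] at a5 ⊢
    have hsg0 : 0 ≤ sg := by rw [← hsg]; exact Finset.sum_nonneg fun _ _ => wd_nonneg _ _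
    have b1 : ((shell ι p.1).card : ℝ) * (((shell ι p.2).card : ℝ) * sg) ≤
        (C0 ι * (p.1 : ℝ) ^ (k - 1)) * ((C0 ι * (p.2 : ℝ) ^ (k - 1)) *
          (243 * ((X / p.1) ^ 2 * (X / p.2) ^ 2) * (X / p.1 * (X / p.2)) ^ (-s))) := by
      refine mul_le_mul a1 ?_ (by positivity) (by positivity)
      exact mul_le_mul a2 a5 hsg0 (by positivity)
    have b2 := mul_le_mul_of_nonneg_left b1
      (by positivity : 0 ≤ 2 * (k:ℝ) * B ^ 2 / (p.1 * p.2))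
    refine b2.trans (le_of_eq ?_)
    have e0 : (X / p.1 * (X / p.2)) ^ (-s) = X ^ (-(2 * s)) * ((p.1 : ℝ) ^ s * (p.2 : ℝ) ^ s) := by
      rw [Real.mul_rpow (by positivity) (by positivity), Real.div_rpow hX0.le hV0.le,
        Real.div_rpow hX0.le hW0.le, Real.rpow_neg hV0.le, Real.rpow_neg hW0.le,
        show -(2 * s) = -s + -s by ring, Real.rpow_add hX0]
      field_simp
    have e1 : (p.1 : ℝ) ^ (k - 1) = (p.1 : ℝ) ^ (k - 3) * (p.1 : ℝ) ^ 2 := by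
      rw [← pow_add]; congr 1; omega
    have e2 : (p.2 : ℝ) ^ (k - 1) = (p.2 : ℝ) ^ (k - 3) * (p.2 : ℝ) ^ 2 := by
      rw [← pow_add]; congr 1; omega
    rw [e0, e1, e2, Real.rpow_sub_one hV0.ne', Real.rpow_sub_one hW0.ne']
    field_simp
  refine (Finset.sum_le_sum hfib).trans ?_
  rw [← Finset.mul_sum]
  have hf1 := sum_f_le (k - 3) hs0 hs1 N hY0.le
  have hf2 : ∑ V ∈ Finset.Icc 1 N, (V : ℝ) ^ (k - 3) * (V : ℝ) ^ (s - 1) ≤
      X ^ (k - 3) * (X ^ s / s) := by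
    have h := sum_f_le (k - 3) hs0 hs1 N hX0.le
    have e : (Finset.Icc 1 N).filter (fun V : ℕ => (V : ℝ) ≤ X) = Finset.Icc 1 N := by
      rw [Finset.filter_eq_self]
      intro V hV
      rw [Finset.mem_Icc] at hV
      have : (V : ℝ) ≤ N := by exact_mod_cast hV.2
      linarith
    rwa [e] at h
  have hsum := sum_two_gen N (fun V : ℕ => (V : ℝ) ^ (k - 3) * (V : ℝ) ^ (s - 1))
    (fun V => by positivity) hf1 hf2
  refine (mul_le_mul_of_nonneg_left hsum (by positivity)).trans ?_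
  have hYp : Y ^ (k - 3) * (Y ^ s / s) ≤ X ^ (k - 3) * (X ^ s * T ^ (-(δ / 8)) / s) := by
    apply mul_le_mul (pow_le_pow_left₀ hY0.le hYX _) _ (by positivity) (by positivity)
    apply div_le_div_of_nonneg_right _ hs0.le
    rw [hY, Real.div_rpow hX0.le hsT0.le, Real.sqrt_eq_rpow, ← Real.rpow_mul hT0.le,
      Real.rpow_neg hT0.le, hs, show (1:ℝ) / 2 * (δ / 4) = δ / 8 by ring]
    exact le_of_eq (by rw [div_eq_mul_inv])
  have h1 := mul_le_mul_of_nonneg_right hYp (by positivity : 0 ≤ X ^ (k - 3) * (X ^ s / s))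
  have h2 := mul_le_mul_of_nonneg_left h1 (by norm_num : (0:ℝ) ≤ 2)
  refine (mul_le_mul_of_nonneg_left h2 (by positivity)).trans ?_
  have hXs : X ^ (-(2 * s)) * (X ^ s * X ^ s) = 1 := by
    rw [← Real.rpow_add hX0, ← Real.rpow_add hX0]
    rw [show -(2 * s) + (s + s) = 0 by ring, Real.rpow_zero]
  have hBp : B ^ (2 * k) = B ^ 6 * (B ^ (k - 3) * B ^ (k - 3)) := by
    rw [← pow_add, ← pow_add]; congr 1; omega
  have hTp : 0 < T ^ (-(δ / 8)) := by positivity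
  have e3 : (C0 ι) ^ 2 * 243 * (2 * k) * B ^ 2 * (X ^ 4 * X ^ (-(2 * s))) *
      (2 * (X ^ (k - 3) * (X ^ s * T ^ (-(δ / 8)) / s) * (X ^ (k - 3) * (X ^ s / s)))) =
      ((C0 ι) ^ 2 * 243 * (2 * k) * (2 * k) ^ 4 * (2 * (((2 * k) ^ (k - 3)) ^ 2 / s ^ 2))) *
        B ^ (2 * k) * T ^ (-(δ / 8)) * (X ^ (-(2 * s)) * (X ^ s * X ^ s)) := by
    rw [hBp]
    have : X ^ (k - 3) = (2 * (k:ℝ)) ^ (k - 3) * B ^ (k - 3) := by rw [hX, mul_pow]
    rw [this]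
    have hX4 : X ^ 4 = (2 * (k:ℝ)) ^ 4 * B ^ 4 := by rw [hX, mul_pow]
    rw [hX4]
    field_simp
  rw [e3, hXs, mul_one]
  refine mul_le_mul_of_nonneg_right ?_ hTp.le
  refine mul_le_mul_of_nonneg_right (by linarith) (by positivity)

end Pool.Agent.Run7.h443.CD
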