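import Pool.Agent.Run7.h443.CD.Good
import Pool.Agent.Run7.h443.CD.Tail

/-!
# The second moment for cyclic covers
-/

namespace Pool.Agent.Run7.h443.CD

open Finset
open Pool.Agent.Y716.Q

variable {ι : Type*} [Fintype ι]

/-- the number of last variables -/
theorem card_Ws_le {φ : ℝ} (hφ : 1 ≤ φ) {S : ℕ} (hS : 0 < S) (yc : ℤ) :
    ((Ws φ S yc).card : ℝ) ≤ 2 * φ := by
  unfold Ws
  have h := card_icl_le (a := 1) (b := 2 * φ) (by linarith) hS yc
  have hS1 : (1:ℝ) ≤ S := by exact_mod_cast hS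
  have h1 : (2 * φ - 1) / S ≤ 2 * φ - 1 := div_le_self (by linarith) hS1
  linarith

/-- pairs of last variables compatible modulo `g` -/
theorem card_compat {m : ℕ} (hm : 2 ≤ m) {φ : ℝ} (hφ : 1 ≤ φ) {S : ℕ} (hS : 0 < S) {yc : ℤ}
    {D : ℕ} (hD : 0 < D) (hDφ : (D : ℝ) ≤ (2 * φ) ^ mm m) (c : ℤ → ℤ) (V : Finset (ℤ × ℤ))
    (hV : ∀ v ∈ V, v.1 ∈ Ws φ S yc ∧ v.2 ∈ Ws φ S yc ∧ (D : ℤ) ∣ v.2 ^ m - c v.1) :
    (V.card : ℝ) ≤ 12 * m * φ ^ 2 * (D : ℝ) ^ (-((1 : ℝ) / mm m)) := by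
  classical
  have hmm := mm_ge hm
  have hmm0 : (mm m : ℝ) ≠ 0 := by
    have : mm m ≠ 0 := by omega
    exact_mod_cast this
  have hD0 : (0:ℝ) < D := by exact_mod_cast hD
  have hφ0 : 0 < φ := by linarith
  obtain ⟨q, hq⟩ : ∃ q : ℝ, q = (D : ℝ) ^ (-((1 : ℝ) / mm m)) := ⟨_, rfl⟩
  have hq0 : 0 < q := by rw [hq]; positivity
  have hq1 : 1 ≤ 2 * φ * q := by
    have h1 : (D : ℝ) ^ ((1 : ℝ) / mm m) ≤ 2 * φ := by
      have h2 := Real.rpow_le_rpow hD0.le hDφ (by positivity : (0:ℝ) ≤ (1 : ℝ) / mm m)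
      rw [← Real.rpow_natCast (2 * φ) (mm m), ← Real.rpow_mul (by positivity),
        mul_one_div, div_self hmm0, Real.rpow_one] at h2
      exact h2
    have h2 : (D : ℝ) ^ ((1 : ℝ) / mm m) * q = 1 := by
      rw [hq, ← Real.rpow_add hD0, add_neg_cancel, Real.rpow_zero]
    rw [← h2]
    exact mul_le_mul_of_nonneg_right h1 hq0.le
  have h1 := card_fib V (Ws φ S yc) (R := 6 * m * φ * q) (by positivity)
    (fun v hv => (hV v hv).1)
    (fun w _ => by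
      obtain ⟨T, hT⟩ : ∃ T : Finset ℤ, T = (V.filter (fun v => v.1 = w)).image Prod.snd := ⟨_, rfl⟩
      have hcard : (V.filter (fun v => v.1 = w)).card = T.card := by
        rw [hT, Finset.card_image_of_injOn]
        intro p hp q hq hpq
        have e1 := (Finset.mem_filter.mp (Finset.mem_coe.mp hp)).2
        have e2 := (Finset.mem_filter.mp (Finset.mem_coe.mp hq)).2
        exact Prod.ext (e1.trans e2.symm) hpq
      rw [hcard]
      have h2 := pow_card' (m := m) (by omega) one_pos (Nat.coprime_one_left D) hD 0 (c w) T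
        (a := 0) (L := 2 * φ) (by positivity) (fun z hz => by
          rw [hT, Finset.mem_image] at hz
          obtain ⟨v, hv, rfl⟩ := hz
          rw [Finset.mem_filter] at hv
          obtain ⟨hv1, rfl⟩ := hv
          obtain ⟨_, h3, h4⟩ := hV v hv1
          rw [mem_Ws] at h3
          refine ⟨by simp, h4, ?_, by linarith [h3.1.2]⟩
          have : (1:ℝ) ≤ v.2 := by exact_mod_cast h3.1.1
          linarith)
      refine h2.trans ?_
      rw [← hq, Nat.cast_one, div_one]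
      have hm0 : (0:ℝ) ≤ m := Nat.cast_nonneg _
      have h3 : 2 * (2 * φ) * q + 1 ≤ 6 * φ * q := by linarith
      have h4 := mul_le_mul_of_nonneg_left h3 hm0
      linarith)
  refine h1.trans ?_
  rw [← hq]
  have h2 := mul_le_mul_of_nonneg_right (card_Ws_le hφ hS yc)
    (by positivity : 0 ≤ 6 * m * φ * q)
  refine h2.trans (le_of_eq ?_)
  ring

/-- The conclusion of the second moment computation. -/
def SM (ι : Type*) [Fintype ι] (e m : ℕ) (Ct : ℝ) : Prop :=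
  ∀ (w : ℕ) (_ : 1 ≤ w) (fc : MvPolynomial ι ℤ)
    (_ : fc.IsHomogeneous (e + 2)) (S J : ℕ) (_ : 0 < S) (xc : ι → ℤ) (yc : ℤ)
    (P : ℝ) (_ : 0 < P) (ξ : ι → ℝ) (_ : ∃ r, |ξ r| = 1) (ρ φ B a A A₂ Δ T : ℝ) (_ : 0 ≤ ρ)
    (_ : ρ ≤ 1 / 2) (_ : 1 ≤ φ) (_ : 2 * B ^ 2 ≤ (2 * φ) ^ mm m) (_ : 1 ≤ a) (_ : a ≤ B)
    (_ : 1 ≤ T) (Lg : ℝ)
    (_ : ∀ s : ℕ, (s : ℝ) ≤ 15 * (Fintype.card ι) ^ 2 * a * B → (Nat.log 2 s : ℝ) ≤ Lg)
    (U : (ι → ℤ) × ℤ → ℤ)
    (_ : ∀ p : (ι → ℤ) × ℤ, p.1 ∈ cube P ξ ρ (S * J) xc → p.2 ∈ Ws φ S yc →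
      p.2 ^ m - MvPolynomial.eval p.1 fc = ((S * J : ℕ) : ℤ) * U p)
    (N : ℕ) (_ : 2 * T ≤ N) (K : ℕ)
    (_ : K = (∏ p ∈ (Finset.range (w + 1)).filter Nat.Prime, p) ^ N)
    (_ : 0 ≤ Δ) (_ : K * N ≤ Δ)
    (_ : A + (c1pt (Fintype.card ι) (e + 1) + cker (Fintype.card ι) e *
      (1 + (mons ι (e + 2)).card * c1pt (Fintype.card ι) (e + 1)) / (1 / T)) *
      (Δ / B ^ (e + 2) + K * a) + cker (Fintype.card ι) e * ((1 + Lg) * a ^ 2) ≤ A₂)
    (_ : 2 * c1pt (Fintype.card ι) (e + 1) * a ≤ A)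
    (_ : 2 * cker (Fintype.card ι) e * ((1 + Lg) * a ^ 2) ≤ A)
    (R₁ E : ℝ) (R₂ : ℕ → ℝ) (_ : ∀ D, 0 ≤ R₂ D) (_ : 0 ≤ E)
    (_ : ∀ g ∈ formsZ ι (e + 2) A₂,
      ((LocS P ξ ρ φ S J xc yc m (mem' fc S J g) K ((S * J : ℕ) * Δ)).card : ℝ) ≤ R₁)
    (_ : ∀ D : ℕ, 0 < D → D ≤ N → (∀ q : ℕ, q.Prime → q ≤ w → ¬ q ∣ D) →
      ∀ g ∈ formsZ ι (e + 2) A₂, ∀ (ζ : ι → ℤ) (c : ℤ) (T : Finset ((ι → ℤ) × ℤ)),
      (∀ p ∈ T, p ∈ LocS P ξ ρ φ S J xc yc m (mem' fc S J g) K ((S * J : ℕ) * Δ) ∧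
        (∀ i, (D : ℤ) ∣ p.1 i - ζ i) ∧ (D : ℤ) ∣ p.2 ^ m - c) → (T.card : ℝ) ≤ R₂ D)
    (_ : ∀ D : ℕ, 0 < D → D ≤ N → (formsZ ι (e + 2) A₂).card * (R₁ * (D * R₂ D)) ≤
      (formsZ ι (e + 2) A).card * (E * wt m D) *
        ((2 * Δ / K - 1) * (2 * Δ / (K * D) - 1))),
    ∑ r ∈ (Xt B a P ξ ρ φ S J xc yc) ×ˢ (Xt B a P ξ ρ φ S J xc yc), (c2 e A U r : ℝ) ≤
      (formsZ ι (e + 2) A).card * E * (1 + 3 * m * mm m * (w : ℝ) ^ (-((1 : ℝ) / mm m))) +
      Ct * (formsZ ι (e + 2) (3 * A)).card * φ ^ 2 * B ^ (2 * Fintype.card ι) *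
        T ^ (-((1 : ℝ) / mm m / 8)) / (A ^ 2 * B ^ (2 * e + 4)) +
      Ct * (formsZ ι (e + 2) (2 * A)).card * (Xt B a P ξ ρ φ S J xc yc).card /
        (A * B ^ (e + 2))

/-- The second moment. -/
theorem second_moment (ι : Type*) [Fintype ι] (hk3 : 3 ≤ Fintype.card ι) (e m : ℕ) (hm : 2 ≤ m) :
    ∃ Ct : ℝ, 0 < Ct ∧ SM ι e m Ct := by
  classical
  have hmm := mm_ge hm
  have hmm0 : (0:ℝ) < mm m := by
    have : 0 < mm m := by omega
    exact_mod_cast this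
  obtain ⟨δ, hδ⟩ : ∃ δ : ℝ, δ = (1 : ℝ) / mm m := ⟨_, rfl⟩
  have hδ0 : 0 < δ := by rw [hδ]; positivity
  have hδ1 : δ ≤ 1 := by
    rw [hδ, div_le_one hmm0]; exact_mod_cast (by omega : 1 ≤ mm m)
  obtain ⟨C₀, hC₀, htail⟩ := tail_w ι hk3 hδ0 hδ1
  obtain ⟨k, hk⟩ : ∃ k, Fintype.card ι = k := ⟨_, rfl⟩
  have hk0 : 0 < k := by omega
  obtain ⟨c, hc⟩ : ∃ c, c1pt k (e + 1) = c := ⟨_, rfl⟩
  have hc0 : 0 < c := by rw [← hc]; unfold c1pt; positivity
  obtain ⟨c', hc'⟩ : ∃ c', cker k e = c' := ⟨_, rfl⟩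
  have hc'0 : 0 < c' := by rw [← hc']; unfold cker c1pt; positivity
  refine ⟨48 * m * c * c' * C₀ + 2 * c, by positivity, ?_⟩
  intro w hw fc hfc S J hS xc yc P hP ξ hξr ρ φ B a A A₂ Δ T hρ hρ2 hφ hφB ha haB hT Lg hLg U hU
    N hTN K hKdef hΔ hΔK hA haA haA2 R₁ E R₂ hR₂ hE hL1 hL2 hED
  rw [hk, hc] at haA
  rw [hk, hc'] at haA2
  rw [hk, ← hδ]
  have hB : 1 ≤ B := ha.trans haB
  have hB0 : 0 < B := by linarith
  have hT0 : 0 < T := by linarith
  have hAp : 0 < A := lt_of_lt_of_le (by positivity : 0 < 2 * c * a) haA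
  have hφ0 : 0 < φ := by linarith
  have hK0 : 0 < K := by
    rw [hKdef]
    apply pow_pos
    apply Finset.prod_pos
    intro p hp
    exact (Finset.mem_filter.mp hp).2.pos
  set X' := Xt B a P ξ ρ φ S J xc yc with hX'
  set G := formsZ ι (e + 2) A with hG
  have hdata : ∀ p : (ι → ℤ) × (ι → ℤ), (∃ i j, mn p.1 p.2 i j ≠ 0) →
      ∃ (g : ℤ) (μ : ℝ), g ≠ 0 ∧ (∀ i j, g ∣ mn p.1 p.2 i j) ∧
      (∀ D, (∀ i j, D ∣ mn p.1 p.2 i j) → D ∣ g) ∧ 0 < μ ∧
      (∃ i j, μ ≤ |(mn p.1 p.2 i j : ℝ)|) ∧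
      (∀ i j, |(mn p.1 p.2 i j : ℝ)| ≤ μ) ∧ |(g : ℝ)| ≤ μ := fun p hp => exists_gcd_data hp
  choose! gf μf hg0 hg1 hg2 hg3 hg4 hg5 hg6 using hdata
  set π : ((ι → ℤ) × ℤ) × ((ι → ℤ) × ℤ) → (ι → ℤ) × (ι → ℤ) := fun r => (r.1.1, r.2.1) with hπ
  set Pr := (X' ×ˢ X').filter (fun r => ∀ i j, mn (π r).1 (π r).2 i j = 0) with hPr
  set Np := (X' ×ˢ X').filter (fun r => ¬ ∀ i j, mn (π r).1 (π r).2 i j = 0) with hNp
  set Gd := Np.filter (fun r => B ^ 2 * |(gf (π r) : ℝ)| ≤ T * μf (π r)) with hGd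
  set Tl := Np.filter (fun r => ¬ B ^ 2 * |(gf (π r) : ℝ)| ≤ T * μf (π r)) with hTl
  have hNp' : ∀ r ∈ Np, r.1 ∈ X' ∧ r.2 ∈ X' ∧ ∃ i j, mn (π r).1 (π r).2 i j ≠ 0 := by
    intro r hr
    rw [hNp, Finset.mem_filter, Finset.mem_product] at hr
    push Not at hr
    exact ⟨hr.1.1, hr.1.2, hr.2⟩
  have hXt : ∀ p ∈ X', p.1 ∈ cube P ξ ρ (S * J) xc ∧ Sz B p.1 ∧ Prim p.1 ∧ Bal B a p.1 ∧
      p.2 ∈ Ws φ S yc := by
    intro p hp
    obtain ⟨h1, h2⟩ := mem_Xt.mp hp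
    obtain ⟨h3, h4, h5, h6⟩ := mem_Xs.mp h1
    exact ⟨h3, h4, h5, h6, h2⟩
  have hμB : ∀ r ∈ Np, μf (π r) ≤ 2 * B ^ 2 := by
    intro r hr
    obtain ⟨h1, h2, h3⟩ := hNp' r hr
    obtain ⟨i, j, hij⟩ := hg4 (π r) h3
    refine hij.trans ?_
    obtain ⟨_, hx, _⟩ := hXt _ h1
    obtain ⟨_, hy, _⟩ := hXt _ h2
    unfold mn
    push_cast
    refine (abs_sub _ _).trans ?_
    rw [abs_mul, abs_mul]
    have e1 : |((π r).1 i : ℝ)| * |((π r).2 j : ℝ)| ≤ B * B :=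
      mul_le_mul (hx.1 i) (hy.1 j) (abs_nonneg _) hB0.le
    have e2 : |((π r).1 j : ℝ)| * |((π r).2 i : ℝ)| ≤ B * B :=
      mul_le_mul (hx.1 j) (hy.1 i) (abs_nonneg _) hB0.le
    linarith [sq B]
  have hsum : ∑ r ∈ X' ×ˢ X', (c2 e A U r : ℝ) = ∑ r ∈ Pr, (c2 e A U r : ℝ) +
      (∑ r ∈ Gd, (c2 e A U r : ℝ) + ∑ r ∈ Tl, (c2 e A U r : ℝ)) := by
    rw [← Finset.sum_filter_add_sum_filter_not (X' ×ˢ X')
      (fun r => ∀ i j, mn (π r).1 (π r).2 i j = 0)]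
    congr 1
    rw [← Finset.sum_filter_add_sum_filter_not _
      (fun r => B ^ 2 * |(gf (π r) : ℝ)| ≤ T * μf (π r))]
  -- proportional pairs
  have hPrb : ∑ r ∈ Pr, (c2 e A U r : ℝ) ≤
      2 * c * (formsZ ι (e + 2) (2 * A)).card * X'.card / (A * B ^ (e + 2)) := by
    have h1 : ∀ r ∈ Pr, (c2 e A U r : ℝ) ≤
        2 * c * (formsZ ι (e + 2) (2 * A)).card / (A * B ^ (e + 2)) := by
      intro r hr
      rw [hPr, Finset.mem_filter, Finset.mem_product] at hr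
      obtain ⟨hx1, hx2, hx3, hx4, hx5⟩ := hXt _ hr.1.1
      have key := cnt1_le (A := A) (e + 1) hx4 hx2 hB ha (by rw [hk, hc]; exact haA) (U r.1)
      rw [hk, hc] at key
      have h2 : c2 e A U r ≤ ((formsZ ι (e + 1 + 1) A).filter
          (fun f => MvPolynomial.eval r.1.1 f = U r.1)).card := by
        unfold c2
        apply Finset.card_le_card
        intro f hf
        rw [Finset.mem_filter] at hf ⊢
        exact ⟨hf.1, hf.2.1⟩
      rw [le_div_iff₀ (by positivity)]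
      have h3 : (c2 e A U r : ℝ) ≤ (((formsZ ι (e + 1 + 1) A).filter
          (fun f => MvPolynomial.eval r.1.1 f = U r.1)).card : ℝ) := by exact_mod_cast h2
      exact (mul_le_mul_of_nonneg_right h3 (by positivity)).trans key
    have heq : ∀ r ∈ Pr, c2 e A U r ≠ 0 → r.2 = r.1 := by
      intro r hr hne
      rw [hPr, Finset.mem_filter, Finset.mem_product] at hr
      obtain ⟨⟨hr1, hr2⟩, hr3⟩ := hr
      obtain ⟨hx1, hx2, hx3, hx4, hx5⟩ := hXt _ hr1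
      obtain ⟨hy1, hy2, hy3, hy4, hy5⟩ := hXt _ hr2
      obtain ⟨z, hz⟩ := hx3.bezout
      have h2 := eq_smul_of_minors hz hr3
      obtain ⟨s, hs⟩ : ∃ s, s = ∑ i, z i * (π r).2 i := ⟨_, rfl⟩
      rw [← hs] at h2
      have h3 : IsUnit s := by
        apply hy3
        intro i
        have := h2 i
        exact ⟨r.1.1 i, this⟩
      obtain ⟨r₀, hr₀⟩ := hξr
      have h4 := cube_pos hP hρ hρ2 hr₀ hx1 hy1
      have h5 : r.2.1 r₀ = s * r.1.1 r₀ := h2 r₀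
      have hs1 : s = 1 := by
        rcases Int.isUnit_iff.mp h3 with h6 | h6
        · exact h6
        · exfalso
          rw [h5, h6] at h4
          nlinarith [sq_nonneg (r.1.1 r₀)]
      have h6 : r.2.1 = r.1.1 := by
        funext i
        have := h2 i
        rw [hs1, one_mul] at this
        exact this
      have h7 : U r.2 = U r.1 := by
        unfold c2 at hne
        obtain ⟨g, hg⟩ := Finset.card_ne_zero.mp hne
        rw [Finset.mem_filter] at hg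
        rw [← hg.2.1, ← hg.2.2, h6]
      have e1 := hU r.1 hx1 hx5
      have e2 := hU r.2 hy1 hy5
      rw [h7, h6] at e2
      have h8 : r.2.2 ^ m = r.1.2 ^ m := by linarith
      rw [mem_Ws] at hx5 hy5
      have h9 : r.2.2 = r.1.2 :=
        (pow_left_inj₀ (by omega) (by omega) (by omega)).mp h8
      exact Prod.ext h6 h9
    have h4 : ∑ r ∈ Pr, (c2 e A U r : ℝ) ≤ ∑ r ∈ X'.image (fun p => (p, p)),
        2 * c * (formsZ ι (e + 2) (2 * A)).card / (A * B ^ (e + 2)) := by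
      have h5 : ∑ r ∈ Pr, (c2 e A U r : ℝ) = ∑ r ∈ Pr.filter (fun r => c2 e A U r ≠ 0),
          (c2 e A U r : ℝ) := by
        symm
        apply Finset.sum_filter_of_ne
        intro r _ h h0
        apply h
        rw [h0, Nat.cast_zero]
      rw [h5]
      refine (Finset.sum_le_sum (fun r hr => h1 r (Finset.mem_filter.mp hr).1)).trans ?_
      apply Finset.sum_le_sum_of_subset_of_nonneg
      · intro r hr
        rw [Finset.mem_filter] at hr
        rw [Finset.mem_image]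
        have h6 := heq r hr.1 hr.2
        have h7 := (Finset.mem_filter.mp hr.1).1
        rw [Finset.mem_product] at h7
        exact ⟨r.1, h7.1, Prod.ext rfl h6.symm⟩
      · intro _ _ _; positivity
    refine h4.trans ?_
    rw [Finset.sum_const, nsmul_eq_mul]
    have h5 : ((X'.image (fun p => (p, p))).card : ℝ) ≤ X'.card := by
      exact_mod_cast Finset.card_image_le
    have h6 := mul_le_mul_of_nonneg_right h5
      (by positivity : 0 ≤ 2 * c * (formsZ ι (e + 2) (2 * A)).card / (A * B ^ (e + 2)))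
    refine h6.trans (le_of_eq ?_)
    ring
  -- good pairs
  have hGdb : ∑ r ∈ Gd, (c2 e A U r : ℝ) ≤ G.card * E *
      (1 + 3 * m * mm m * (w : ℝ) ^ (-δ)) := by
    rw [hδ]
    apply good_sum e hw hm hfc ha haB (by positivity : 0 < 1 / T) hLg U hU hK0 hΔ hΔK hA hR₂ hE
      hL1 hL2 hED
    intro r hr
    rw [hGd, Finset.mem_filter] at hr
    obtain ⟨h1, h2, h3⟩ := hNp' r hr.1
    refine ⟨h1, h2, ?_⟩
    have hgne := hg0 _ h3
    have hg1' : 1 ≤ |(gf (π r) : ℝ)| := by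
      have := Int.one_le_abs hgne
      exact_mod_cast this
    have hgN : (gf (π r)).natAbs ≤ N := by
      have h4 : |(gf (π r) : ℝ)| ≤ 2 * T := by
        have h5 := hr.2.trans (mul_le_mul_of_nonneg_left (hμB r hr.1) hT0.le)
        have h6 : B ^ 2 * |(gf (π r) : ℝ)| ≤ B ^ 2 * (2 * T) := by linarith
        exact le_of_mul_le_mul_left h6 (by positivity)
      have h5 : (((gf (π r)).natAbs : ℕ) : ℝ) ≤ (N : ℝ) := by
        rw [Nat.cast_natAbs, Int.cast_abs]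
        exact h4.trans hTN
      exact_mod_cast h5
    have hgN2 : (gf (π r)).natAbs ≤ 2 ^ N := hgN.trans (Nat.lt_two_pow_self).le
    obtain ⟨D, hD1, hD2, hD3, hD4⟩ := exists_coprime_part w N (Int.natAbs_ne_zero.mpr hgne) hgN2
    refine ⟨D, gf (π r), hgne, hg1 _ h3, hg2 _ h3, ?_, hD1, ?_, ?_, ?_, hD4⟩
    · obtain ⟨i, j, hij⟩ := hg4 _ h3
      refine ⟨i, j, le_trans ?_ hij⟩
      rw [one_div, inv_mul_le_iff₀ hT0]
      refine le_trans ?_ hr.2
      exact le_mul_of_one_le_right (by positivity) hg1'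
    · exact (Nat.le_of_dvd (Int.natAbs_pos.mpr hgne) hD2).trans hgN
    · exact Int.natCast_dvd.mpr hD2
    · rw [← hKdef] at hD3
      have := Int.natAbs_dvd_natAbs (a := gf (π r)) (b := ((K * D : ℕ) : ℤ))
      rw [Int.natAbs_natCast] at this
      have h7 := this.mp hD3
      push_cast at h7
      exact h7
  -- tail pairs
  obtain ⟨K₁, hK₁⟩ : ∃ K₁ : ℝ, K₁ = 4 * c * c' * (formsZ ι (e + 2) (3 * A)).card /
    (A ^ 2 * B ^ (2 * e + 4)) := ⟨_, rfl⟩
  have hK₁0 : 0 ≤ K₁ := by rw [hK₁]; positivity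
  have hTlb : ∑ r ∈ Tl, (c2 e A U r : ℝ) ≤
      48 * m * c * c' * C₀ * (formsZ ι (e + 2) (3 * A)).card * φ ^ 2 * B ^ (2 * k) *
        T ^ (-(δ / 8)) / (A ^ 2 * B ^ (2 * e + 4)) := by
    obtain ⟨τ, hτ⟩ : ∃ τ : (ι → ℤ) × (ι → ℤ) → ℝ, τ = fun p => B ^ 2 * |(gf p : ℝ)| / μf p :=
      ⟨_, rfl⟩
    have h1 : ∀ r ∈ Tl, (c2 e A U r : ℝ) ≤ K₁ * τ (π r) := by
      intro r hr
      rw [hTl, Finset.mem_filter] at hr
      obtain ⟨h1, h2, h3⟩ := hNp' r hr.1
      obtain ⟨hx1, hx2, hx3, hx4, hx5⟩ := hXt _ h1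
      obtain ⟨hy1, hy2, hy3, hy4, hy5⟩ := hXt _ h2
      have hμ0 := hg3 _ h3
      have key := cnt2_le (A := A) e hx4 hx2 hx3 hy4 hy2 ha haB (hg0 _ h3) (hg1 _ h3)
        (hg2 _ h3) hμ0 (hg4 _ h3) hLg (by rw [hk, hc]; exact haA) (by rw [hk, hc']; exact haA2)
        (U r.1) (U r.2)
      rw [hk, hc, hc'] at key
      rw [← le_div_iff₀ (by positivity)] at key
      refine key.trans (le_of_eq ?_)
      have : B ^ (2 * e + 4) = B ^ (e + 2) * B ^ e * B ^ 2 := by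
        rw [← pow_add, ← pow_add]; congr 1; ring
      rw [hK₁, hτ, this]
      field_simp
    set Tl' := Tl.filter (fun r => c2 e A U r ≠ 0) with hTl'
    have h2 : ∑ r ∈ Tl, (c2 e A U r : ℝ) = ∑ r ∈ Tl', (c2 e A U r : ℝ) := by
      symm
      apply Finset.sum_filter_of_ne
      intro r _ h h0
      apply h
      rw [h0, Nat.cast_zero]
    rw [h2]
    refine (Finset.sum_le_sum (fun r hr => h1 r (Finset.mem_filter.mp hr).1)).trans ?_
    rw [← Finset.sum_fiberwise_of_maps_to (fun r hr => Finset.mem_image_of_mem π hr :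
      ∀ r ∈ Tl', π r ∈ Tl'.image π)]
    have h3 : ∀ p ∈ Tl'.image π, ∑ r ∈ Tl'.filter (fun r => π r = p), K₁ * τ (π r) ≤
        (12 * m * φ ^ 2 * K₁) * (τ p * |(gf p : ℝ)| ^ (-δ)) := by
      intro p hp
      obtain ⟨r₀, hr₀, hr₀p⟩ := Finset.mem_image.mp hp
      have hr₀' := (Finset.mem_filter.mp (Finset.mem_filter.mp hr₀).1).1
      obtain ⟨a1, a2, a3⟩ := hNp' _ hr₀'
      rw [hr₀p] at a3
      obtain ⟨hx1, hx2, hx3, hx4, hx5⟩ := hXt _ a1
      have hgne := hg0 _ a3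
      have hμ0 := hg3 _ a3
      have hτ0 : 0 ≤ τ p := by rw [hτ]; positivity
      have h4 : ∀ r ∈ Tl'.filter (fun r => π r = p), K₁ * τ (π r) = K₁ * τ p := by
        intro r hr
        rw [(Finset.mem_filter.mp hr).2]
      rw [Finset.sum_congr rfl h4, Finset.sum_const, nsmul_eq_mul]
      have hp1 : p.1 = r₀.1.1 := by rw [← hr₀p]
      obtain ⟨lam, _, hlam⟩ := exists_lambda (x := p.1) (y := p.2) (by rw [hp1]; exact hx3)
        (D := (gf p).natAbs) (Int.natAbs_pos.mpr hgne)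
        (fun i j => (Int.natCast_natAbs (gf p) ▸ (abs_dvd _ _).mpr (hg1 _ a3 i j)))
      have h5 : (((Tl'.filter (fun r => π r = p)).card : ℕ) : ℝ) ≤
          12 * m * φ ^ 2 * |(gf p : ℝ)| ^ (-δ) := by
        obtain ⟨V, hV⟩ : ∃ V : Finset (ℤ × ℤ), V = (Tl'.filter (fun r => π r = p)).image
          (fun r => (r.1.2, r.2.2)) := ⟨_, rfl⟩
        have hcard : (Tl'.filter (fun r => π r = p)).card = V.card := by
          rw [hV, Finset.card_image_of_injOn]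
          intro r hr r' hr' heq
          have e1 := (Finset.mem_filter.mp (Finset.mem_coe.mp hr)).2
          have e2 := (Finset.mem_filter.mp (Finset.mem_coe.mp hr')).2
          have e3 : π r = π r' := e1.trans e2.symm
          rw [hπ] at e3
          simp only [Prod.mk.injEq] at e3 heq
          exact Prod.ext (Prod.ext e3.1 heq.1) (Prod.ext e3.2 heq.2)
        rw [hcard]
        have hDcast : (((gf p).natAbs : ℕ) : ℝ) = |(gf p : ℝ)| := by
          rw [Nat.cast_natAbs, Int.cast_abs]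
        have h6 := card_compat hm hφ hS (yc := yc) (D := (gf p).natAbs)
          (Int.natAbs_pos.mpr hgne) (by
            rw [hDcast]
            refine (hg6 _ a3).trans (le_trans ?_ hφB)
            rw [← hr₀p]
            exact hμB _ hr₀') (fun v => (lam : ℤ) ^ (e + 2) * v ^ m) V (by
            intro v hv
            rw [hV, Finset.mem_image] at hv
            obtain ⟨r, hr, rfl⟩ := hv
            rw [Finset.mem_filter] at hr
            obtain ⟨hr1, hr2⟩ := hr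
            have hr3 := (Finset.mem_filter.mp (Finset.mem_filter.mp hr1).1).1
            obtain ⟨b1, b2, b3⟩ := hNp' _ hr3
            obtain ⟨hX1, hX2, hX3, hX4, hX5⟩ := hXt _ b1
            obtain ⟨hY1, hY2, hY3, hY4, hY5⟩ := hXt _ b2
            refine ⟨hX5, hY5, ?_⟩
            apply compat e hfc U (hU _ hX1 hX5) (hU _ hY1 hY5) (Finset.mem_filter.mp hr1).2
            intro i
            have := hlam i
            rw [← hr2] at this
            rw [← hr2]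
            exact this)
        rw [hDcast, ← hδ] at h6
        exact h6
      have h6 := mul_le_mul_of_nonneg_right h5 (mul_nonneg hK₁0 hτ0)
      refine h6.trans (le_of_eq ?_)
      ring
    refine (Finset.sum_le_sum h3).trans ?_
    rw [← Finset.mul_sum]
    have h4 := htail B T hB hT (Tl'.image π) τ gf (by
      intro p hp
      obtain ⟨r, hr, rfl⟩ := Finset.mem_image.mp hp
      have hr' := (Finset.mem_filter.mp hr).1
      rw [hTl, Finset.mem_filter] at hr'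
      obtain ⟨h1, h2, h3⟩ := hNp' r hr'.1
      obtain ⟨hx1, hx2, hx3, hx4, hx5⟩ := hXt _ h1
      obtain ⟨hy1, hy2, hy3, hy4, hy5⟩ := hXt _ h2
      have hμ0 := hg3 _ h3
      refine ⟨hx2.1, hy2.1, h3, ?_, hg1 _ h3, hg2 _ h3, μf (π r), hg5 _ h3, ?_⟩
      · rw [hτ]
        simp only
        rw [lt_div_iff₀ hμ0]
        exact not_le.mp hr'.2
      · rw [hτ]
        simp only
        rw [div_mul_cancel₀ _ hμ0.ne'])
    rw [hk] at h4
    have h5 := mul_le_mul_of_nonneg_left h4 (by positivity : 0 ≤ 12 * m * φ ^ 2 * K₁)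
    refine h5.trans (le_of_eq ?_)
    rw [hK₁]
    field_simp
    ring
  rw [hsum]
  have hs1 : 48 * m * c * c' * C₀ * (formsZ ι (e + 2) (3 * A)).card * φ ^ 2 * B ^ (2 * k) *
        T ^ (-(δ / 8)) / (A ^ 2 * B ^ (2 * e + 4)) ≤
        (48 * m * c * c' * C₀ + 2 * c) * (formsZ ι (e + 2) (3 * A)).card * φ ^ 2 * B ^ (2 * k) *
        T ^ (-(δ / 8)) / (A ^ 2 * B ^ (2 * e + 4)) := by
    apply div_le_div_of_nonneg_right _ (by positivity)
    apply mul_le_mul_of_nonneg_right _ (by positivity)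
    apply mul_le_mul_of_nonneg_right _ (by positivity)
    apply mul_le_mul_of_nonneg_right _ (by positivity)
    apply mul_le_mul_of_nonneg_right _ (by positivity)
    linarith
  have hs2 : 2 * c * (formsZ ι (e + 2) (2 * A)).card * X'.card / (A * B ^ (e + 2)) ≤
      (48 * m * c * c' * C₀ + 2 * c) * (formsZ ι (e + 2) (2 * A)).card * X'.card /
        (A * B ^ (e + 2)) := by
    apply div_le_div_of_nonneg_right _ (by positivity)
    apply mul_le_mul_of_nonneg_right _ (by positivity)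
    apply mul_le_mul_of_nonneg_right _ (by positivity)
    have : 0 ≤ 48 * m * c * c' * C₀ := by positivity
    linarith
  linarith

end Pool.Agent.Run7.h443.CD
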