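import Pool.Agent.Run7.h443.CD.Core

/-!
# More numerical lemmas for the class theorem for cyclic covers
-/

namespace Pool.Agent.Run7.h443.CD

open Filter Topology
open Pool.Agent.Y716.Q

theorem small_cond' {n μ : ℕ} {Y : ℝ} (hY : 2 ≤ Y) (hk : 2 * (n:ℝ) * (12 * μ + 24) + 3 ≤ Y)
    {m₀ : ℕ} (hm1 : (m₀ : ℝ) ≤ Y ^ (8 * μ + 15)) (hm2 : Y ^ (8 * μ + 15) / 2 ≤ (m₀ : ℝ)) :
    (((n : ℝ) * ((12 * μ + 24 : ℕ) : ℝ) * m₀ + 1) * (2 * Y ^ (16 * μ + 24)) + 1) *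
      (1 / (2 * m₀ * (1 / Y ^ (8 * μ + 14)))) ^ (2 * (12 * μ + 24)) < 1 := by
  have hY0 : 0 < Y := by linarith
  have hY1 : 1 ≤ Y := by linarith
  have h1 : Y ≤ 2 * m₀ * (1 / Y ^ (8 * μ + 14)) := by
    rw [mul_one_div, le_div_iff₀ (by positivity)]
    calc Y * Y ^ (8 * μ + 14) = Y ^ (8 * μ + 15) := by ring
      _ ≤ 2 * (m₀ : ℝ) := by linarith
  have h2 : (1 / (2 * m₀ * (1 / Y ^ (8 * μ + 14)))) ^ (2 * (12 * μ + 24)) ≤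
      1 / Y ^ (24 * μ + 48) := by
    calc (1 / (2 * m₀ * (1 / Y ^ (8 * μ + 14)))) ^ (2 * (12 * μ + 24)) ≤
          (1 / Y) ^ (2 * (12 * μ + 24)) :=
          pow_le_pow_left₀ (by positivity) (one_div_le_one_div_of_le hY0 h1) _
      _ = 1 / Y ^ (24 * μ + 48) := by
          rw [one_div_pow]; congr 2; ring
  have h3 : ((n : ℝ) * ((12 * μ + 24 : ℕ) : ℝ) * m₀ + 1) * (2 * Y ^ (16 * μ + 24)) + 1 ≤
      (2 * n * (12 * μ + 24) + 3) * Y ^ (24 * μ + 39) := by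
    have h4 : (n : ℝ) * ((12 * μ + 24 : ℕ) : ℝ) * m₀ ≤ n * (12 * μ + 24) * Y ^ (8 * μ + 15) := by
      push_cast
      have := mul_le_mul_of_nonneg_left hm1 (by positivity : (0:ℝ) ≤ n * (12 * μ + 24))
      linarith
    have h5 : ((n : ℝ) * ((12 * μ + 24 : ℕ) : ℝ) * m₀ + 1) * (2 * Y ^ (16 * μ + 24)) ≤
        (n * (12 * μ + 24) * Y ^ (8 * μ + 15) + 1) * (2 * Y ^ (16 * μ + 24)) :=
      mul_le_mul_of_nonneg_right (by linarith) (by positivity)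
    have h6 : (n * (12 * μ + 24) * Y ^ (8 * μ + 15) + 1) * (2 * Y ^ (16 * μ + 24)) =
        2 * n * (12 * μ + 24) * Y ^ (24 * μ + 39) + 2 * Y ^ (16 * μ + 24) := by
      rw [show 24 * μ + 39 = (8 * μ + 15) + (16 * μ + 24) by ring, pow_add]
      ring
    have h7 : Y ^ (16 * μ + 24) ≤ Y ^ (24 * μ + 39) := pow_le_pow_right₀ hY1 (by omega)
    have h8 : 1 ≤ Y ^ (24 * μ + 39) := one_le_pow₀ hY1
    linarith
  have h4 : (((n : ℝ) * ((12 * μ + 24 : ℕ) : ℝ) * m₀ + 1) * (2 * Y ^ (16 * μ + 24)) + 1) *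
      (1 / (2 * m₀ * (1 / Y ^ (8 * μ + 14)))) ^ (2 * (12 * μ + 24)) ≤
      ((2 * n * (12 * μ + 24) + 3) * Y ^ (24 * μ + 39)) * (1 / Y ^ (24 * μ + 48)) :=
    mul_le_mul h3 h2 (by positivity) (by positivity)
  refine lt_of_le_of_lt h4 ?_
  rw [mul_one_div, div_lt_one (by positivity)]
  calc (2 * n * (12 * μ + 24) + 3) * Y ^ (24 * μ + 39) ≤ Y * Y ^ (24 * μ + 39) :=
        mul_le_mul_of_nonneg_right hk (by positivity)
    _ = Y ^ (24 * μ + 40) := by ring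
    _ < Y ^ (24 * μ + 48) := pow_lt_pow_right₀ (by linarith) (by omega)

theorem unbal_num' {n μ : ℕ} (hn : 3 ≤ n) {Y Cu τ cX : ℝ} (hY : 2 ≤ Y) (hCu : 0 < Cu) (hτ : 0 < τ)
    (hcX : 0 < cX) (h : Cu * 4 ^ n * (8 * μ + 12) ≤ τ * cX ^ n * Y) :
    Cu * (2 * Y ^ (16 * μ + 24)) ^ 2 *
      (2 * (2 * Y ^ (16 * μ + 24)) * (1 / Y ^ (8 * μ + 14))) ^ (n - 1) *
      (1 + Real.log (2 * (2 * Y ^ (16 * μ + 24)) * (1 / Y ^ (8 * μ + 14)))) ≤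
      τ * (cX * Y ^ (16 * μ + 24)) ^ n := by
  have hY0 : 0 < Y := by linarith
  have hY1 : 1 ≤ Y := by linarith
  have e1 : 2 * (2 * Y ^ (16 * μ + 24)) * (1 / Y ^ (8 * μ + 14)) = 4 * Y ^ (8 * μ + 10) := by
    rw [show 16 * μ + 24 = (8 * μ + 10) + (8 * μ + 14) by ring, pow_add]
    field_simp; ring
  rw [e1]
  have h1 : 1 + Real.log (4 * Y ^ (8 * μ + 10)) ≤ (8 * μ + 12) * Y := by
    have h1 : Real.log (4 * Y ^ (8 * μ + 10)) = Real.log 4 + (8 * μ + 10) * Real.log Y := by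
      rw [Real.log_mul (by norm_num) (by positivity), Real.log_pow]
      push_cast; ring
    have h2 : Real.log Y ≤ Y - 1 := Real.log_le_sub_one_of_pos (by linarith)
    have h3 : Real.log 4 ≤ 2 := by
      have : Real.log 4 = 2 * Real.log 2 := by
        rw [show (4:ℝ) = 2 ^ 2 by norm_num, Real.log_pow]; push_cast; ring
      rw [this]
      have := Real.log_two_lt_d9
      linarith
    rw [h1]
    have h4 := mul_le_mul_of_nonneg_left h2 (by positivity : (0:ℝ) ≤ 8 * μ + 10)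
    have h5 : (0:ℝ) ≤ μ := Nat.cast_nonneg _
    nlinarith
  have h2 : Cu * (2 * Y ^ (16 * μ + 24)) ^ 2 * (4 * Y ^ (8 * μ + 10)) ^ (n - 1) *
      (1 + Real.log (4 * Y ^ (8 * μ + 10))) ≤
      Cu * (2 * Y ^ (16 * μ + 24)) ^ 2 * (4 * Y ^ (8 * μ + 10)) ^ (n - 1) * ((8 * μ + 12) * Y) :=
    mul_le_mul_of_nonneg_left h1 (by positivity)
  refine h2.trans ?_
  obtain ⟨ν, rfl⟩ : ∃ ν, n = ν + 3 := ⟨n - 3, by omega⟩
  rw [show ν + 3 - 1 = ν + 2 by omega]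
  have e2 : Cu * (2 * Y ^ (16 * μ + 24)) ^ 2 * (4 * Y ^ (8 * μ + 10)) ^ (ν + 2) *
      ((8 * μ + 12) * Y) =
      (Cu * 4 ^ (ν + 3) * (8 * μ + 12)) * (Y ^ (48 * μ + 69 + 8 * (μ * ν) + 10 * ν)) := by
    rw [mul_pow, mul_pow, ← pow_mul, ← pow_mul]
    have : Y ^ (48 * μ + 69 + 8 * (μ * ν) + 10 * ν) =
        Y ^ ((16 * μ + 24) * 2) * Y ^ ((8 * μ + 10) * (ν + 2)) * Y := by
      rw [← pow_add, ← pow_succ]; congr 1; ring
    rw [this]; ring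
  rw [e2]
  have h3 := mul_le_mul_of_nonneg_right h
    (by positivity : 0 ≤ Y ^ (48 * μ + 69 + 8 * (μ * ν) + 10 * ν))
  refine h3.trans ?_
  have e3 : τ * cX ^ (ν + 3) * Y * (Y ^ (48 * μ + 69 + 8 * (μ * ν) + 10 * ν)) =
      (τ * cX ^ (ν + 3)) * Y ^ (48 * μ + 70 + 8 * (μ * ν) + 10 * ν) := by
    rw [show 48 * μ + 70 + 8 * (μ * ν) + 10 * ν = (48 * μ + 69 + 8 * (μ * ν) + 10 * ν) + 1 by ring,
      pow_succ]; ring
  have e4 : τ * (cX * Y ^ (16 * μ + 24)) ^ (ν + 3) =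
      (τ * cX ^ (ν + 3)) * Y ^ (16 * (μ * ν) + 48 * μ + 24 * ν + 72) := by
    rw [mul_pow, ← pow_mul,
      show (16 * μ + 24) * (ν + 3) = 16 * (μ * ν) + 48 * μ + 24 * ν + 72 by ring]; ring
  rw [e3, e4]
  apply mul_le_mul_of_nonneg_left _ (by positivity)
  apply pow_le_pow_right₀ hY1
  have : 0 ≤ μ * ν := Nat.zero_le _
  omega

/-- bounds for the auxiliary parameter `m₀` -/
theorem m_bounds' {Y : ℝ} (hY : 2 ≤ Y) (q : ℕ) (hq : 1 ≤ q) :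
    ((⌊Y ^ q⌋₊ : ℕ) : ℝ) ≤ Y ^ q ∧ Y ^ q / 2 ≤ ((⌊Y ^ q⌋₊ : ℕ) : ℝ) ∧ 1 ≤ ⌊Y ^ q⌋₊ := by
  have h0 : (0:ℝ) ≤ Y ^ q := by positivity
  have h1 := Nat.floor_le h0
  have h2 := Nat.sub_one_lt_floor (Y ^ q)
  have h3 : (2:ℝ) ≤ Y ^ q := by
    calc (2:ℝ) ≤ Y := hY
      _ = Y ^ 1 := by ring
      _ ≤ Y ^ q := pow_le_pow_right₀ (by linarith) hq
  refine ⟨h1, by linarith, ?_⟩
  apply Nat.le_floor
  push_cast
  linarith

end Pool.Agent.Run7.h443.CD
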