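import Pool.Agent.Y716.Q.Exc2
import Pool.Agent.Y716.Q.Final
import Pool.Agent.Run7.h443.CD.ClassThm

/-!
# The real data of a form for which the cyclic cover has real points
-/

set_option autoImplicit false

namespace Pool.Agent.Run7.h443.CD

open Pool.Agent.Y716.Q

variable {ι : Type*} [Fintype ι]

/-- normalisation of a real point -/
theorem normalise {e : ℕ} {F : MvPolynomial ι ℤ} (hF : F.IsHomogeneous (e + 2)) {ζ : ι → ℝ}
    {r : ι} (hr : ζ r ≠ 0) (hζ : ∀ i, |ζ i| ≤ 2) {v : ℝ} (hv0 : 0 ≤ v)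
    (hv : v ≤ MvPolynomial.aeval ζ F) :
    ∃ ξ : ι → ℝ, (∀ i, |ξ i| ≤ 1) ∧ (∃ r, |ξ r| = 1) ∧
      (1 / 2 : ℝ) ^ (e + 2) * v ≤ MvPolynomial.aeval ξ F := by
  have hne : Nonempty ι := ⟨r⟩
  obtain ⟨s, _, hs⟩ := Finset.exists_max_image Finset.univ (fun i => |ζ i|) Finset.univ_nonempty
  have hs0 : 0 < |ζ s| := lt_of_lt_of_le (abs_pos.mpr hr) (hs r (Finset.mem_univ r))
  refine ⟨fun i => |ζ s|⁻¹ * ζ i, fun i => ?_, ⟨s, ?_⟩, ?_⟩
  · rw [abs_mul, abs_inv, abs_abs, inv_mul_le_iff₀ hs0, mul_one]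
    exact hs i (Finset.mem_univ i)
  · rw [abs_mul, abs_inv, abs_abs, inv_mul_cancel₀ hs0.ne']
  · rw [aeval_smul' hF]
    have h1 : (1 / 2 : ℝ) ≤ |ζ s|⁻¹ := by
      rw [one_div]
      exact inv_anti₀ hs0 (hζ s)
    have h2 : (1 / 2 : ℝ) ^ (e + 2) ≤ |ζ s|⁻¹ ^ (e + 2) := pow_le_pow_left₀ (by norm_num) h1 _
    exact mul_le_mul h2 hv hv0 (by positivity)

theorem real_data (ι : Type*) [Fintype ι] (e : ℕ) {γ : ℝ} (hγ : 0 < γ) :
    ∃ κ : ℝ, 0 < κ ∧ κ ≤ 1 ∧ ∀ (H : ℝ) (F : MvPolynomial ι ℤ), 0 < H → IsF (e + 2) H F →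
      ∀ (r : ι) (ξ : ι → ℝ), ξ r = 1 → (∀ i, |ξ i| ≤ 1) → 0 ≤ MvPolynomial.aeval ξ F →
      ¬ (|MvPolynomial.aeval ξ F| ≤ γ * H ∧
        ∀ i, |MvPolynomial.aeval ξ (MvPolynomial.pderiv i F)| ≤ γ * H) →
      ∃ ξ' : ι → ℝ, (∀ i, |ξ' i| ≤ 1) ∧ (∃ r, |ξ' r| = 1) ∧ κ * H ≤ MvPolynomial.aeval ξ' F := by
  classical
  obtain ⟨C, hC1, hC⟩ := form_bounds (ι := ι) (e + 1)
  obtain ⟨L, hL⟩ : ∃ L : ℝ, L = C * ((e + 1 + 1) * 1) * 2 ^ e := ⟨_, rfl⟩
  have hL1 : 1 ≤ L := by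
    rw [hL]
    have h1 : (1:ℝ) ≤ (e + 1 + 1) * 1 := by
      have : (0:ℝ) ≤ e := Nat.cast_nonneg e
      linarith
    have h2 : (1:ℝ) ≤ 2 ^ e := one_le_pow₀ (by norm_num)
    have h3 : (1:ℝ) ≤ C * ((e + 1 + 1) * 1) := by nlinarith
    nlinarith
  have hL0 : 0 < L := by linarith
  obtain ⟨t, ht⟩ : ∃ t : ℝ, t = min (1 / 2) (γ / (2 * L)) := ⟨_, rfl⟩
  have ht0 : 0 < t := by rw [ht]; exact lt_min (by norm_num) (by positivity)
  have ht1 : t ≤ 1 / 2 := by rw [ht]; exact min_le_left _ _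
  have htL : t * (2 * L) ≤ γ := by
    have : t ≤ γ / (2 * L) := by rw [ht]; exact min_le_right _ _
    rwa [le_div_iff₀ (by positivity)] at this
  obtain ⟨κ, hκ⟩ : ∃ κ : ℝ, κ = min (min 1 γ) ((1 / 2) ^ (e + 2) * (γ / 2 * t)) := ⟨_, rfl⟩
  refine ⟨κ, by rw [hκ]; exact lt_min (lt_min one_pos hγ) (by positivity),
    by rw [hκ]; exact (min_le_left _ _).trans (min_le_left _ _), ?_⟩
  have hκγ : κ ≤ γ := by rw [hκ]; exact (min_le_left _ _).trans (min_le_right _ _)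
  have hκt : κ ≤ (1 / 2) ^ (e + 2) * (γ / 2 * t) := by rw [hκ]; exact min_le_right _ _
  intro H F hH hF r ξ hr hξ hF0 hbad
  by_cases hbig : γ * H < |MvPolynomial.aeval ξ F|
  · refine ⟨ξ, hξ, ⟨r, by rw [hr, abs_one]⟩, ?_⟩
    rw [abs_of_nonneg hF0] at hbig
    have := mul_le_mul_of_nonneg_right hκγ hH.le
    linarith
  push Not at hbig
  obtain ⟨i, hi⟩ : ∃ i, γ * H < |MvPolynomial.aeval ξ (MvPolynomial.pderiv i F)| := by
    by_contra hcon
    push Not at hcon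
    exact hbad ⟨hbig, hcon⟩
  -- Lipschitz estimate
  have hpd := hF.pderiv (d := e + 1) i
  have hlip := (hC _ _ hpd.1 hpd.2 2 (by norm_num)).2
  have hlip' : ∀ τ : ℝ, |τ - ξ i| ≤ t →
      |MvPolynomial.aeval (Function.update ξ i τ) (MvPolynomial.pderiv i F) -
        MvPolynomial.aeval ξ (MvPolynomial.pderiv i F)| ≤ γ / 2 * H := by
    intro τ hτ
    have h1 := hlip (Function.update ξ i τ) ξ t ht0.le (fun k => by
      by_cases hk : k = i
      · subst hk
        rw [Function.update_self]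
        have h2 := abs_le.mp (hξ k)
        have h3 := abs_le.mp hτ
        rw [abs_le]; constructor <;> linarith
      · rw [Function.update_of_ne hk]
        exact (hξ k).trans (by norm_num)) (fun k => (hξ k).trans (by norm_num)) (fun k => by
      by_cases hk : k = i
      · subst hk
        rw [Function.update_self]; exact hτ
      · rw [Function.update_of_ne hk, sub_self, abs_zero]; exact ht0.le)
    refine h1.trans ?_
    have e1 : C * (((e + 1 : ℕ) + 1 : ℝ) * H) * 2 ^ (e + 1 - 1) * t = L * t * H := by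
      rw [hL, Nat.add_sub_cancel]; push_cast; ring
    rw [e1]
    have h2 : L * t ≤ γ / 2 := by linarith
    exact mul_le_mul_of_nonneg_right h2 hH.le
  have hup : ∀ σ : ℝ, |σ| = t → ∀ k, |Function.update ξ i (ξ i + σ) k| ≤ 2 := by
    intro σ hσ k
    by_cases hk : k = i
    · subst hk
      rw [Function.update_self]
      have := abs_add_le (ξ k) σ
      have := hξ k
      linarith
    · rw [Function.update_of_ne hk]
      exact (hξ k).trans (by norm_num)
  have hne : ∀ σ : ℝ, |σ| = t → Function.update ξ i (ξ i + σ) r ≠ 0 := by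
    intro σ hσ h0
    by_cases hk : r = i
    · subst hk
      rw [Function.update_self, hr] at h0
      have : σ = -1 := by linarith
      rw [this] at hσ
      norm_num at hσ
      linarith
    · rw [Function.update_of_ne hk, hr] at h0
      exact one_ne_zero h0
  have hgoal : ∀ σ : ℝ, |σ| = t →
      γ / 2 * H * t ≤ MvPolynomial.aeval (Function.update ξ i (ξ i + σ)) F →
      ∃ ξ' : ι → ℝ, (∀ i, |ξ' i| ≤ 1) ∧ (∃ r, |ξ' r| = 1) ∧
        κ * H ≤ MvPolynomial.aeval ξ' F := by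
    intro σ hσ hv
    obtain ⟨ξ', h1, h2, h3⟩ := normalise hF.1 (hne σ hσ) (hup σ hσ) (by positivity) hv
    refine ⟨ξ', h1, h2, le_trans ?_ h3⟩
    have := mul_le_mul_of_nonneg_right hκt hH.le
    calc κ * H ≤ (1 / 2) ^ (e + 2) * (γ / 2 * t) * H := this
      _ = _ := by ring
  rcases lt_or_ge 0 (MvPolynomial.aeval ξ (MvPolynomial.pderiv i F)) with hpos | hneg
  · rw [abs_of_pos hpos] at hi
    refine hgoal t (abs_of_pos ht0) ?_
    have h1 := slope_of_pderiv F i ξ (ξ i) (ξ i + t) (γ / 2 * H)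
      (MvPolynomial.aeval ξ (MvPolynomial.pderiv i F) + γ / 2 * H) (by linarith) (by
      intro τ hτ1 hτ2
      have h2 := abs_le.mp (hlip' τ (by rw [abs_le]; constructor <;> linarith))
      constructor <;> linarith [h2.1, h2.2])
    have h2 := h1.1
    rw [Function.update_eq_self, add_sub_cancel_left] at h2
    linarith
  · rw [abs_of_nonpos hneg] at hi
    refine hgoal (-t) (by rw [abs_neg]; exact abs_of_pos ht0) ?_
    have h1 := slope_of_pderiv F i ξ (ξ i + -t) (ξ i)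
      (MvPolynomial.aeval ξ (MvPolynomial.pderiv i F) - γ / 2 * H) (-(γ / 2 * H)) (by linarith) (by
      intro τ hτ1 hτ2
      have h2 := abs_le.mp (hlip' τ (by rw [abs_le]; constructor <;> linarith))
      constructor <;> linarith [h2.1, h2.2])
    have h2 := h1.2
    rw [Function.update_eq_self] at h2
    have e1 : ξ i - (ξ i + -t) = t := by ring
    rw [e1] at h2
    linarith

end Pool.Agent.Run7.h443.CD
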