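import Pool.Agent.Run7.h443.CD.T1
import Pool.Agent.Run7.h443.CD.T2
import Pool.Agent.Run7.h443.CD.ExcC

/-!
# The number of forms with local points, but no rational point close to a target
-/

set_option autoImplicit false

namespace Pool.Agent.Run7.h443.CD

open Pool.Agent.Y716.Q Pool.Agent.Y716.C Pool.Agent.Y363.C7 Pool.Agent.Y813.C5

variable {ι : Type*} [Fintype ι]

/-- forms with local data subject to a condition `R` -/
def GoodR (e m w : ℕ) (κ H : ℝ) (Q : ℕ) (R : ℕ → (ι → ℤ) → ℤ → (ι → ℝ) → Prop)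
    (F : MvPolynomial ι ℤ) : Prop :=
  ∃ (S J : ℕ) (xc : ι → ℤ) (yc : ℤ) (ξ : ι → ℝ), (CData w F m S J xc yc ∧ S * J = Q ∧
    IsF (e + 2) H F ∧ (∀ i, |ξ i| ≤ 1) ∧ (∃ r, |ξ r| = 1) ∧
    2 * κ * H ≤ MvPolynomial.aeval ξ F) ∧ R S xc yc ξ

/-- the data of a class -/
def ClassR (e m w : ℕ) (κ H : ℝ) (Q : ℕ) (R : ℕ → (ι → ℤ) → ℤ → (ι → ℝ) → Prop)
    (F : MvPolynomial ι ℤ) : Prop :=
  ∃ (S J : ℕ) (xc : ι → ℤ) (yc : ℤ) (ξ : ι → ℝ), (CData w F m S J xc yc ∧ S * J = Q ∧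
    RD e H κ F ξ) ∧ R S xc yc ξ

theorem GoodR.shift {e m w : ℕ} {κ η H : ℝ} {Q : ℕ} {R : ℕ → (ι → ℤ) → ℤ → (ι → ℝ) → Prop}
    (hQ : 1 ≤ Q) {F g : MvPolynomial ι ℤ}
    (h : GoodR e m w κ H Q R F) (hH : 0 < H) (hη1 : η ≤ 1)
    (hηκ : (mons ι (e + 2)).card * η ≤ κ) (hg : IsF (e + 2) (η * H / Q) g) :
    ClassR e m w κ H Q R (F - MvPolynomial.C (Q : ℤ) * g) := by
  obtain ⟨S, J, xc, yc, ξ, ⟨h1, h2, h3, h4, h5, h6⟩, hR⟩ := h
  have hQr : (0:ℝ) < Q := by exact_mod_cast hQ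
  have hQA : |((Q : ℤ) : ℝ)| * (η * H / Q) = η * H := by
    rw [Int.cast_natCast, abs_of_pos hQr]
    field_simp
  have hQg : IsF (e + 2) (η * H) (MvPolynomial.C (Q : ℤ) * g) := by
    have := hg.C_mul (Q : ℤ)
    rwa [hQA] at this
  have hηH : η * H ≤ H := by nlinarith
  refine ⟨S, J, xc, yc, ξ, ⟨?_, h2, ?_⟩, hR⟩
  · have := h1.shift g
    rwa [h2] at this
  refine ⟨(h3.sub hQg).mono (by linarith), h4, h5, ?_⟩
  rw [map_sub]
  have h7 := abs_le.mp (hQg.aeval_le_one h4)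
  have h8 := mul_le_mul_of_nonneg_right hηκ hH.le
  have h9 : ((mons ι (e + 2)).card : ℝ) * (η * H) = (mons ι (e + 2)).card * η * H := by ring
  linarith [h7.2]

open scoped Classical in
/-- averaging over the classes -/
theorem avg_countR {e m w : ℕ} {κ η H : ℝ} {Q : ℕ} {R : ℕ → (ι → ℤ) → ℤ → (ι → ℝ) → Prop}
    (hQ : 1 ≤ Q) (hH : 0 < H) (hη : 0 ≤ η) (hη1 : η ≤ 1)
    (hηκ : (mons ι (e + 2)).card * η ≤ κ) (q : MvPolynomial ι ℤ → Prop) {ε : ℝ} (hε : 0 ≤ ε)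
    (hcl : ∀ f, ClassR e m w κ H Q R f →
      (((formsZ ι (e + 2) (η * H / Q)).filter (fun g =>
        q (f + MvPolynomial.C (Q : ℤ) * g))).card : ℝ) ≤
        ε * (formsZ ι (e + 2) (η * H / Q)).card) :
    (((formsZ ι (e + 2) H).filter (fun f => GoodR e m w κ H Q R f ∧ q f)).card : ℝ) ≤
      ε * (formsZ ι (e + 2) (2 * H)).card := by
  obtain ⟨G', hG'⟩ : ∃ G', G' = formsZ ι (e + 2) (η * H / Q) := ⟨_, rfl⟩
  rw [← hG'] at hcl
  have hQr : (0:ℝ) < Q := by exact_mod_cast hQ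
  have hA0 : 0 ≤ η * H / Q := by positivity
  have hQA : |((Q : ℤ) : ℝ)| * (η * H / Q) = η * H := by
    rw [Int.cast_natCast, abs_of_pos hQr]
    field_simp
  have hηH : η * H ≤ H := by nlinarith
  have hG0 : (0:ℝ) < G'.card := by
    rw [hG']
    exact_mod_cast card_forms_pos (ι := ι) (e + 2) hA0
  have h1 : ((formsZ ι (e + 2) H).filter (fun f => GoodR e m w κ H Q R f ∧ q f)).card *
      G'.card ≤
      ∑ f ∈ (formsZ ι (e + 2) (2 * H)).filter (fun f => ClassR e m w κ H Q R f),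
        (G'.filter (fun g => q (f + MvPolynomial.C (Q : ℤ) * g))).card := by
    rw [← Finset.card_product, ← Finset.card_sigma]
    apply Finset.card_le_card_of_injOn
      (fun r => (⟨r.1 - MvPolynomial.C (Q : ℤ) * r.2, r.2⟩ :
        (_ : MvPolynomial ι ℤ) × MvPolynomial ι ℤ))
    · rintro ⟨f, g⟩ hr
      simp only [Finset.coe_product, Set.mem_prod, Finset.mem_coe, Finset.mem_filter] at hr
      obtain ⟨⟨h1, h2, h3⟩, h4⟩ := hr
      simp only [Finset.mem_coe, Finset.mem_sigma, Finset.mem_filter]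
      have hg : IsF (e + 2) (η * H / Q) g := by rw [hG'] at h4; exact mem_formsZ.mp h4
      have hcd := h2.shift hQ hH hη1 hηκ hg
      refine ⟨⟨mem_formsZ.mpr ?_, hcd⟩, h4, ?_⟩
      · have h5 := hg.C_mul (Q : ℤ)
        rw [hQA] at h5
        exact ((mem_formsZ.mp h1).sub h5).mono (by linarith)
      · have : f - MvPolynomial.C (Q : ℤ) * g + MvPolynomial.C (Q : ℤ) * g = f := by ring
        rw [this]
        exact h3
    · rintro ⟨f, g⟩ _ ⟨f', g'⟩ _ heq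
      simp only [Sigma.mk.injEq] at heq
      obtain ⟨h1, h2⟩ := heq
      have h2' : g = g' := eq_of_heq h2
      subst h2'
      have : f = f' := sub_left_injective h1
      rw [this]
  have h2 : (((formsZ ι (e + 2) H).filter (fun f => GoodR e m w κ H Q R f ∧ q f)).card : ℝ) *
      G'.card ≤ (ε * (formsZ ι (e + 2) (2 * H)).card) * G'.card := by
    have h3 := (Nat.cast_le (α := ℝ)).mpr h1
    push_cast at h3
    refine h3.trans ?_
    calc _ ≤ ((formsZ ι (e + 2) (2 * H)).filter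
            (fun f => ClassR e m w κ H Q R f)).card • (ε * (G'.card : ℝ)) :=
          Finset.sum_le_card_nsmul _ _ _ (fun f hf => hcl f (Finset.mem_filter.mp hf).2)
      _ = (((formsZ ι (e + 2) (2 * H)).filter
            (fun f => ClassR e m w κ H Q R f)).card : ℝ) * (ε * (G'.card : ℝ)) := by
          rw [nsmul_eq_mul]
      _ ≤ ((formsZ ι (e + 2) (2 * H)).card : ℝ) * (ε * (G'.card : ℝ)) := by
          apply mul_le_mul_of_nonneg_right _ (by positivity)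
          exact_mod_cast Finset.card_filter_le _ _
      _ = _ := by ring
  exact le_of_mul_le_mul_right h2 hG0

/-- For almost all forms with local data, the cover has a point close to the target. -/
theorem good_countR (ι : Type*) [Fintype ι] (hn3 : 3 ≤ Fintype.card ι) (e m k : ℕ) (hm : 2 ≤ m)
    (hk1 : 1 ≤ k) (he : e + 2 = m * k) (hek : e + 3 ≤ Fintype.card ι + k) {ε : ℝ} (hε : 0 < ε) :
    ∃ w₀ : ℕ, 1 ≤ w₀ ∧ ∀ w, w₀ ≤ w → ∀ κ : ℝ, 0 < κ → κ ≤ 1 → ∀ Q : ℕ, 1 ≤ Q →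
      ∀ η₀ : ℝ, 0 < η₀ → ∃ H₀ : ℝ, ∀ H : ℝ, H₀ ≤ H →
      ∀ (R : ℕ → (ι → ℤ) → ℤ → (ι → ℝ) → Prop) (Sol : MvPolynomial ι ℤ → Prop)
        (P : MvPolynomial ι ℤ → Prop) (_ : DecidablePred P),
      (∀ S xc yc ξ F, R S xc yc ξ → PtNear η₀ ξ S xc yc m F → Sol F) →
      (∀ f, P f → GoodR e m w κ H Q R f ∧ ¬ Sol f) →
      (((formsZ ι (e + 2) H).filter P).card : ℝ) ≤ ε * (formsZ ι (e + 2) (2 * H)).card := by
  classical
  obtain ⟨w₀, hw₀, hcl⟩ := class_cover ι hn3 e m k hm hk1 he hek hε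
  refine ⟨w₀, hw₀, fun w hw κ hκ0 hκ1 Q hQ η₀ hη₀ => ?_⟩
  obtain ⟨M, hM⟩ : ∃ M : ℝ, M = (mons ι (e + 2)).card + 1 := ⟨_, rfl⟩
  have hM1 : (0:ℝ) < M := by rw [hM]; positivity
  obtain ⟨η, hη0, hη1, hηη₀, H₀, hH₀⟩ := hcl w hw κ hκ0 hκ1 Q hQ (min η₀ (κ / M))
    (lt_min hη₀ (by positivity))
  have hηκ : (mons ι (e + 2)).card * η ≤ κ := by
    have h1 := hηη₀.trans (min_le_right _ _)
    rw [le_div_iff₀ hM1, hM] at h1
    nlinarith
  refine ⟨max H₀ 1, fun H hH R Sol P _ hRS hP => ?_⟩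
  have hHH₀ := (le_max_left _ _).trans hH
  have hH1 := (le_max_right _ _).trans hH
  have hnear : ∀ {ξ : ι → ℝ} {S : ℕ} {xc : ι → ℤ} {yc : ℤ} {F : MvPolynomial ι ℤ},
      PtNear (min η₀ (κ / M)) ξ S xc yc m F → PtNear η₀ ξ S xc yc m F := by
    rintro ξ S xc yc F ⟨x, y, h1, h2, h3, h4, h5, P, hP, h6⟩
    refine ⟨x, y, h1, h2, h3, h4, h5, P, hP, fun i => (h6 i).trans ?_⟩
    exact mul_le_mul_of_nonneg_right (min_le_left _ _) hP.le
  have h1 := avg_countR (ι := ι) (e := e) (m := m) (w := w) (κ := κ) (η := η) (H := H) (R := R) hQ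
    (by linarith) hη0.le hη1 hηκ (fun f => ¬ Sol f) hε.le (by
      rintro f ⟨S, J, xc, yc, ξ, ⟨h1, h2, h3⟩, hR⟩
      have h7 := hH₀ H hHH₀ f S J xc yc ξ h1 h3 h2.le
      rw [h2] at h7
      refine (card_filter_le' _ _ _ (fun g _ hg hz => hg ?_)).trans h7
      have h8 := hRS S xc yc ξ _ hR (hnear hz)
      unfold mem' at h8
      rwa [h2] at h8)
  exact (card_filter_le' _ _ _ (fun g _ hg => hP g hg)).trans h1

/-- local points close to a target -/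
def LocT (m N : ℕ) (c : ι → ℤ) (d : ℤ) (ζ : ι → ℝ) (δ : ℝ) (F : MvPolynomial ι ℤ) : Prop :=
  (∀ p : ℕ, p.Prime → ∀ E : ℕ, ∃ (r : ι) (x : ι → ℤ) (y : ℤ), x r = 1 ∧
    (p : ℤ) ^ E ∣ MvPolynomial.eval x F - y ^ m ∧
      ∀ a : ℕ, p ^ a ∣ N → (∀ i, (p : ℤ) ^ a ∣ x i - c i) ∧ (p : ℤ) ^ a ∣ y - d) ∧
  ∃ (r : ι) (ξ : ι → ℝ), ξ r = 1 ∧ (∀ i, |ξ i| ≤ 1) ∧ (∀ i, |ξ i - ζ i| ≤ δ) ∧
    0 ≤ MvPolynomial.aeval ξ F

/-- primitive integral points close to a target -/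
def SolT (m N : ℕ) (c : ι → ℤ) (d : ℤ) (ζ : ι → ℝ) (δ : ℝ) (F : MvPolynomial ι ℤ) : Prop :=
  ∃ (x : ι → ℤ) (y : ℤ), Prim x ∧ 0 < y ∧ y ^ m = MvPolynomial.eval x F ∧
    (∀ i, (N : ℤ) ∣ x i - c i) ∧ (N : ℤ) ∣ y - d ∧
    ∃ P : ℝ, 0 < P ∧ ∀ i, |(x i : ℝ) - P * ζ i| ≤ 2 * δ * P

/-- the condition of the target -/
def RT (N : ℕ) (c : ι → ℤ) (d : ℤ) (ζ : ι → ℝ) (δ : ℝ) (S : ℕ) (xc : ι → ℤ) (yc : ℤ)
    (ξ : ι → ℝ) : Prop :=
  (N : ℤ) ∣ S ∧ (∀ i, (N : ℤ) ∣ xc i - c i) ∧ (N : ℤ) ∣ yc - d ∧ ∀ i, |ξ i - ζ i| ≤ 3 / 2 * δ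

omit [Fintype ι] in
theorem solT_of {m N : ℕ} {c : ι → ℤ} {d : ℤ} {ζ : ι → ℝ} {δ : ℝ} {S : ℕ} {xc : ι → ℤ} {yc : ℤ}
    {ξ : ι → ℝ} {F : MvPolynomial ι ℤ} (hR : RT N c d ζ δ S xc yc ξ)
    (h : PtNear (δ / 2) ξ S xc yc m F) : SolT m N c d ζ δ F := by
  obtain ⟨x, y, h1, h2, h3, h4, h5, P, hP, h6⟩ := h
  obtain ⟨r1, r2, r3, r4⟩ := hR
  refine ⟨x, y, h1, h2, h3, fun i => ?_, ?_, P, hP, fun i => ?_⟩
  · have := dvd_add (r1.trans (h4 i)) (r2 i)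
    rwa [sub_add_sub_cancel] at this
  · have := dvd_add (r1.trans h5) r3
    rwa [sub_add_sub_cancel] at this
  · have h7 : (x i : ℝ) - P * ζ i = (x i - P * ξ i) + P * (ξ i - ζ i) := by ring
    rw [h7]
    refine (abs_add_le _ _).trans ?_
    rw [abs_mul, abs_of_pos hP]
    have h8 := mul_le_mul_of_nonneg_left (r4 i) hP.le
    have h9 := h6 i
    linarith

/-- non-degenerate forms with local points close to a target have local data -/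
theorem goodT_of {m k : ℕ} (hm : 2 ≤ m) {e w ℓ N : ℕ} {c : ι → ℤ} {d : ℤ} {ζ : ι → ℝ} {δ : ℝ}
    {γ κ H : ℝ} (hH : 0 < H) (he : e + 2 = m * k)
    (hN : ∀ p a : ℕ, p.Prime → p ^ (a + 1) ∣ N → p ≤ w ∧ m * (a + 1) ≤ 2 * ℓ + 1)
    (hreal : ∀ (H : ℝ) (F : MvPolynomial ι ℤ), 0 < H → IsF (e + 2) H F →
      ∀ (r : ι) (ξ : ι → ℝ), ξ r = 1 → (∀ i, |ξ i| ≤ 1) → 0 ≤ MvPolynomial.aeval ξ F →
      ¬ (|MvPolynomial.aeval ξ F| ≤ γ * H ∧
        ∀ i, |MvPolynomial.aeval ξ (MvPolynomial.pderiv i F)| ≤ γ * H) →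
      ∃ ξ' : ι → ℝ, (∀ i, |ξ' i| ≤ 1) ∧ (∃ r, |ξ' r| = 1) ∧ (∀ i, |ξ' i - ξ i| ≤ δ / 2) ∧
        κ * H ≤ MvPolynomial.aeval ξ' F)
    {f : Fin 1 → MvPolynomial ι ℤ} (hF : IsF (e + 2) H (f 0)) (hloc : LocT m N c d ζ δ (f 0))
    (hbad : ∀ p ∈ primesUpTo w, ¬ BadAtS (p ^ ℓ) f) (hbadR : ¬ BadRS γ H f) :
    GoodR e m w (κ / 2) H ((∏ p ∈ primesUpTo w, p) ^ EE m ℓ) (RT N c d ζ δ) (f 0) := by
  obtain ⟨hP, r, ξ, hr, hξ, hξζ, hF0⟩ := hloc
  obtain ⟨S, J, xc, yc, h1, h2, h3, h4, h5⟩ := cdata_of' w (EE m ℓ) m ((2 * ℓ + 1) / m) (by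
      unfold EE
      have h1 : (2 * ℓ + 1) / m ≤ 2 * ℓ + 1 := Nat.div_le_self _ _
      nlinarith) (f 0) N c d (by
      intro p b hp hb
      obtain ⟨h1, h2⟩ := hN p b hp hb
      exact ⟨h1, by rw [Nat.le_div_iff_mul_le (by omega), mul_comm]; exact h2⟩) (by
    intro p hp
    have hpp := (mem_primesUpTo.mp hp).2
    obtain ⟨r, z, y, hz, hy, hzy⟩ := hP p hpp (EE m ℓ)
    obtain ⟨x, y', j, u, h1, h2, h3⟩ := local_pt' hm (p := p) (ℓ := ℓ) (a := (2 * ℓ + 1) / m)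
      (Nat.mul_div_le _ _) hpp le_rfl hz hy (by
      rintro ⟨h1, h2⟩
      apply hbad p hp
      refine ⟨r, z, 0, fun _ => 1, hz, rfl, ?_, ?_⟩
      · intro j
        rw [Subsingleton.elim j 0]
        push_cast
        exact h1
      · intro i
        rw [Fin.sum_univ_one, one_mul]
        push_cast
        exact h2 i)
    refine ⟨x, y', j, u, h1, fun b hb => ?_⟩
    obtain ⟨h4, h5⟩ := hzy b hb
    have hba : (p : ℤ) ^ b ∣ (p : ℤ) ^ ((2 * ℓ + 1) / m) := by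
      obtain _ | b := b
      · rw [pow_zero]; exact one_dvd _
      apply pow_dvd_pow
      rw [Nat.le_div_iff_mul_le (by omega), mul_comm]
      exact (hN p b hpp hb).2
    refine ⟨fun i => ?_, ?_⟩
    · have := dvd_add (hba.trans (h2 i)) (h4 i)
      rwa [sub_add_sub_cancel] at this
    · have := dvd_add (hba.trans h3) h5
      rwa [sub_add_sub_cancel] at this)
  obtain ⟨ξ', h6, h7, h8, h9⟩ := hreal H (f 0) hH hF r ξ hr hξ hF0 (by
    rintro ⟨h1, h2⟩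
    apply hbadR
    refine ⟨r, ξ, 0, fun _ => 1, hr, hξ, rfl, ?_, ?_, ?_⟩
    · intro j
      rw [abs_one]
    · intro j
      rw [Subsingleton.elim j 0]
      exact h1
    · intro i
      rw [Fin.sum_univ_one, one_mul]
      exact h2 i)
  refine ⟨S, J, xc, yc, ξ', ⟨h1, h2, hF, h6, h7, ?_⟩, h3, h4, h5, fun i => ?_⟩
  · have : 2 * (κ / 2) * H = κ * H := by ring
    rw [this]
    exact h9
  · have e1 : ξ' i - ζ i = (ξ' i - ξ i) + (ξ i - ζ i) := by ring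
    rw [e1]
    refine (abs_add_le _ _).trans ?_
    linarith [h8 i, hξζ i]

open scoped Classical in
/-- Almost all covers with local points close to a target have a rational point close to the
target. -/
theorem exc_T (ι : Type*) [Fintype ι] (hn3 : 3 ≤ Fintype.card ι) {m k : ℕ} (hm : 2 ≤ m)
    (hk1 : 1 ≤ k) {e : Fin 1 → ℕ} (he : ∀ j, e j + 2 = m * k)
    (hek : e 0 + 3 ≤ Fintype.card ι + k) (h1 : BadCountInt ι e) (h2 : BadCountReal ι e)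
    (N : ℕ) (hN : 1 ≤ N) (c : ι → ℤ) (d : ℤ) (ζ : ι → ℝ) (δ : ℝ) (hδ : 0 < δ) :
    ∀ ε : ℝ, 0 < ε → ∃ H₀ : ℝ, ∀ H : ℝ, H₀ ≤ H →
      (((sysZ ι e H).filter (fun f => LocT m N c d ζ δ (f 0) ∧
        ¬ SolT m N c d ζ δ (f 0))).card : ℝ) ≤ ε * (sysZ ι e H).card := by
  intro ε hε
  obtain ⟨T, hT⟩ : ∃ T : ℝ, T = (3 : ℝ) ^ (mons ι (e 0 + 2)).card := ⟨_, rfl⟩
  have hT0 : 0 < T := by rw [hT]; positivity
  obtain ⟨n, hn⟩ : ∃ n, Fintype.card ι = n := ⟨_, rfl⟩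
  obtain ⟨w₀, hw₀1, hcl⟩ := good_countR ι hn3 (e 0) m k hm hk1 (he 0) hek
    (ε := ε / (4 * T)) (by positivity)
  obtain ⟨w, hw⟩ : ∃ w, w = max w₀ N := ⟨_, rfl⟩
  have hww₀ : w₀ ≤ w := by rw [hw]; exact le_max_left _ _
  have hwN : N ≤ w := by rw [hw]; exact le_max_right _ _
  obtain ⟨Cb, hCb0, hCb⟩ := h2
  obtain ⟨γ₂, hγ₂⟩ : ∃ γ₂ : ℝ, γ₂ = min 1 (ε / (4 * Cb * T)) := ⟨_, rfl⟩
  have hγ₂0 : 0 < γ₂ := by rw [hγ₂]; exact lt_min one_pos (by positivity)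
  have hγ₂1 : γ₂ ≤ 1 := by rw [hγ₂]; exact min_le_left _ _
  have hγ₂C : Cb * γ₂ * T ≤ ε / 4 := by
    have h1 : γ₂ ≤ ε / (4 * Cb * T) := by rw [hγ₂]; exact min_le_right _ _
    rw [le_div_iff₀ (by positivity)] at h1
    linarith
  obtain ⟨κ, hκ0, hκ1, hreal⟩ := real_data' ι (e 0) hγ₂0 hδ
  obtain ⟨ℓ₀, hℓ₀⟩ : ∃ ℓ : ℕ, (1 / 2 : ℝ) ^ ℓ < ε / (4 * ((w + 1) * (n * (1 : ℕ)) * T) + 1) :=
    exists_pow_lt_of_lt_one (by positivity) (by norm_num)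
  obtain ⟨ℓ, hℓ⟩ : ∃ ℓ, ℓ = max ℓ₀ (m * N) := ⟨_, rfl⟩
  have hℓN : m * N ≤ ℓ := by rw [hℓ]; exact le_max_right _ _
  have hℓε : (1 / 2 : ℝ) ^ ℓ * ((w + 1) * (n * (1 : ℕ)) * T) ≤ ε / 4 := by
    have h2 : (0:ℝ) ≤ (w + 1) * (n * (1 : ℕ)) * T := by positivity
    have h5 : (1 / 2 : ℝ) ^ ℓ ≤ (1 / 2 : ℝ) ^ ℓ₀ :=
      pow_le_pow_of_le_one (by norm_num) (by norm_num) (by rw [hℓ]; exact le_max_left _ _)
    have h3 := h5.trans hℓ₀.le
    rw [le_div_iff₀ (by positivity)] at h3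
    have h4 : (0:ℝ) ≤ (1 / 2) ^ ℓ := by positivity
    linarith
  have hNp : ∀ p a : ℕ, p.Prime → p ^ (a + 1) ∣ N → p ≤ w ∧ m * (a + 1) ≤ 2 * ℓ + 1 := by
    intro p a hp hd
    have h1 := Nat.le_of_dvd (by omega) hd
    have h3 : a + 1 < p ^ (a + 1) := Nat.lt_pow_self hp.one_lt
    have h4 : p ≤ p ^ (a + 1) := Nat.le_self_pow (by omega) p
    refine ⟨by omega, ?_⟩
    have h5 : m * (a + 1) ≤ m * N := Nat.mul_le_mul_left _ (by omega)
    omega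
  obtain ⟨Q, hQ⟩ : ∃ Q : ℕ, Q = (∏ p ∈ primesUpTo w, p) ^ EE m ℓ := ⟨_, rfl⟩
  have hQ1 : 1 ≤ Q := by
    rw [hQ]
    exact pow_pos (Finset.prod_pos (fun p hp => (mem_primesUpTo.mp hp).2.pos)) _
  obtain ⟨H₁, hH₁⟩ := hcl w hww₀ (κ / 2) (by positivity) (by linarith) Q hQ1 (δ / 2)
    (by positivity)
  refine ⟨max (max H₁ 2) (max (1 / γ₂) ((w : ℝ) ^ ℓ)), fun H hH => ?_⟩
  have hHH₁ : H₁ ≤ H := (le_max_left _ _).trans ((le_max_left _ _).trans hH)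
  have hH2 : 2 ≤ H := (le_max_right _ _).trans ((le_max_left _ _).trans hH)
  have hH3 : 1 / γ₂ ≤ H := (le_max_left _ _).trans ((le_max_right _ _).trans hH)
  have hH4 : (w : ℝ) ^ ℓ ≤ H := (le_max_right _ _).trans ((le_max_right _ _).trans hH)
  have hH0 : 0 < H := by linarith
  obtain ⟨G, hG⟩ : ∃ G : ℝ, ((sysZ ι e H).card : ℝ) = G := ⟨_, rfl⟩
  have hG0 : 0 < G := by
    rw [← hG, card_sysZ]
    exact_mod_cast Finset.prod_pos fun j _ => card_forms_pos (ι := ι) (e j + 2) hH0.le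
  have h2H : ((sysZ ι e (2 * H)).card : ℝ) ≤ T * G := by
    rw [← hG, card_sys_one, card_sys_one, hT]
    exact card_forms_upper (ι := ι) (e 0 + 2) (A := H) (R := 2 * H) (c := 3)
      (by linarith) (by linarith) (by norm_num) (by linarith)
  -- good forms
  have hgood : ∀ (P : MvPolynomial ι ℤ → Prop) (_ : DecidablePred P),
      (∀ f, P f → GoodR (e 0) m w (κ / 2) H Q (RT N c d ζ δ) f ∧ ¬ SolT m N c d ζ δ f) →
      (((formsZ ι (e 0 + 2) H).filter P).card : ℝ) ≤ ε / 4 * G := by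
    intro P _ hP
    refine (hH₁ H hHH₁ (RT N c d ζ δ) (SolT m N c d ζ δ) P _
      (fun S xc yc ξ F hR hz => solT_of hR hz) hP).trans ?_
    rw [card_sys_one] at h2H
    have h3 := mul_le_mul_of_nonneg_left h2H (by positivity : 0 ≤ ε / (4 * T))
    refine h3.trans (le_of_eq ?_)
    field_simp
  have hg1 : (((sysZ ι e H).filter (fun f => GoodR (e 0) m w (κ / 2) H Q (RT N c d ζ δ) (f 0) ∧
      ¬ SolT m N c d ζ δ (f 0))).card : ℝ) ≤ ε / 4 * G :=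
    (card_sys_le (fun F => GoodR (e 0) m w (κ / 2) H Q (RT N c d ζ δ) F ∧
      ¬ SolT m N c d ζ δ F) _ (fun f hf => hf)).trans
      (hgood _ (fun _ => Classical.propDecidable _) (fun f hf => hf))
  -- degenerate real points
  have hbadR : (((sysZ ι e H).filter (fun f => BadRS γ₂ H f)).card : ℝ) ≤ ε / 4 * G := by
    have h1 := hCb γ₂ H hγ₂0 hγ₂1 (by
      rw [div_le_iff₀ (by positivity)] at hH3
      linarith)
    have h2 : (((sysZ ι e H).filter (fun f => BadRS γ₂ H f)).card : ℝ) ≤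
        Cb * γ₂ * (sysZ ι e (2 * H)).card :=
      (card_filter_le' _ _ _ (fun _ _ h => h)).trans h1
    have h3 := mul_le_mul_of_nonneg_left h2H (by positivity : 0 ≤ Cb * γ₂)
    have h4 := mul_le_mul_of_nonneg_right hγ₂C hG0.le
    linarith
  -- degenerate points modulo prime powers
  have hbadP : ∀ p ∈ primesUpTo w, (((sysZ ι e H).filter
      (fun f => BadAtS (p ^ ℓ) f)).card : ℝ) ≤ (1 / 2 : ℝ) ^ ℓ * ((n * (1 : ℕ)) * (T * G)) := by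
    intro p hp
    obtain ⟨hp1, hp2⟩ := mem_primesUpTo.mp hp
    have h1 := h1 (p ^ ℓ) (Nat.pos_of_ne_zero (pow_ne_zero _ hp2.ne_zero)) H hH0.le
    have h2 : (((sysZ ι e H).filter (fun f => BadAtS (p ^ ℓ) f)).card : ℝ) *
        ((p ^ ℓ : ℕ) : ℝ) ≤ (n * (1 : ℕ)) * ((sysZ ι e (H + (p ^ ℓ : ℕ))).card : ℝ) := by
      rw [← hn]
      have h1' := (Nat.cast_le (α := ℝ)).mpr h1
      rw [Nat.cast_mul, Nat.cast_mul, Nat.cast_mul] at h1'
      exact (mul_le_mul_of_nonneg_right (card_filter_le' _ _ _ (fun _ _ h => h))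
        (Nat.cast_nonneg _)).trans h1'
    have h3 : ((p ^ ℓ : ℕ) : ℝ) ≤ H := by
      refine le_trans ?_ hH4
      push_cast
      apply pow_le_pow_left₀ (Nat.cast_nonneg _)
      exact_mod_cast hp1
    have h4 : ((sysZ ι e (H + (p ^ ℓ : ℕ))).card : ℝ) ≤ T * G := by
      refine le_trans ?_ h2H
      exact_mod_cast Finset.card_le_card (sysZ_mono (by linarith))
    have h5 : (2:ℝ) ^ ℓ ≤ ((p ^ ℓ : ℕ) : ℝ) := by
      push_cast
      apply pow_le_pow_left₀ (by norm_num)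
      exact_mod_cast hp2.two_le
    have h6 : (((sysZ ι e H).filter (fun f => BadAtS (p ^ ℓ) f)).card : ℝ) * 2 ^ ℓ ≤
        (n * (1 : ℕ)) * (T * G) :=
      (mul_le_mul_of_nonneg_left h5 (Nat.cast_nonneg _)).trans
        (h2.trans (mul_le_mul_of_nonneg_left h4 (by positivity)))
    rw [one_div, inv_pow, inv_mul_eq_div, le_div_iff₀ (by positivity)]
    exact h6
  -- covering
  have hcov : (sysZ ι e H).filter (fun f => LocT m N c d ζ δ (f 0) ∧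
        ¬ SolT m N c d ζ δ (f 0)) ⊆
      ((sysZ ι e H).filter (fun f => GoodR (e 0) m w (κ / 2) H Q (RT N c d ζ δ) (f 0) ∧
        ¬ SolT m N c d ζ δ (f 0))) ∪
      ((primesUpTo w).biUnion (fun p => (sysZ ι e H).filter (fun f => BadAtS (p ^ ℓ) f)) ∪
      (sysZ ι e H).filter (fun f => BadRS γ₂ H f)) := by
    intro f hf
    obtain ⟨hf1, hf2, hf3⟩ := Finset.mem_filter.mp hf
    rw [Finset.mem_union, Finset.mem_union, Finset.mem_biUnion,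
      Finset.mem_filter, Finset.mem_filter]
    by_cases hbf : ∃ p ∈ primesUpTo w, BadAtS (p ^ ℓ) f
    · obtain ⟨p, hp, hb⟩ := hbf
      right; left
      exact ⟨p, hp, Finset.mem_filter.mpr ⟨hf1, hb⟩⟩
    by_cases hbr : BadRS γ₂ H f
    · right; right; exact ⟨hf1, hbr⟩
    left
    push Not at hbf
    rw [hQ]
    exact ⟨hf1, goodT_of hm hH0 (he 0) hNp hreal (mem_sysZ.mp hf1 0) hf2 hbf hbr, hf3⟩
  have h1 : (((sysZ ι e H).filter (fun f => LocT m N c d ζ δ (f 0) ∧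
        ¬ SolT m N c d ζ δ (f 0))).card : ℝ) ≤
      (((sysZ ι e H).filter (fun f => GoodR (e 0) m w (κ / 2) H Q (RT N c d ζ δ) (f 0) ∧
        ¬ SolT m N c d ζ δ (f 0))).card : ℝ) +
      ((∑ p ∈ primesUpTo w, (((sysZ ι e H).filter (fun f => BadAtS (p ^ ℓ) f)).card : ℝ)) +
      (((sysZ ι e H).filter (fun f => BadRS γ₂ H f)).card : ℝ)) := by
    have h2 := (Finset.card_le_card hcov).trans ((Finset.card_union_le _ _).trans
      (Nat.add_le_add_left ((Finset.card_union_le _ _).trans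
        (Nat.add_le_add_right Finset.card_biUnion_le _)) _))
    exact_mod_cast h2
  have h2 : (∑ p ∈ primesUpTo w, (((sysZ ι e H).filter
      (fun f => BadAtS (p ^ ℓ) f)).card : ℝ)) ≤ ε / 4 * G := by
    calc _ ≤ (primesUpTo w).card • ((1 / 2 : ℝ) ^ ℓ * ((n * (1 : ℕ)) * (T * G))) :=
          Finset.sum_le_card_nsmul _ _ _ hbadP
      _ = ((primesUpTo w).card : ℝ) * ((1 / 2 : ℝ) ^ ℓ * ((n * (1 : ℕ)) * (T * G))) := by
          rw [nsmul_eq_mul]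
      _ ≤ (w + 1) * ((1 / 2 : ℝ) ^ ℓ * ((n * (1 : ℕ)) * (T * G))) := by
          apply mul_le_mul_of_nonneg_right _ (by positivity)
          have : (primesUpTo w).card ≤ w + 1 := by
            unfold primesUpTo
            refine (Finset.card_filter_le _ _).trans ?_
            rw [Finset.card_range]
          exact_mod_cast this
      _ = ((1 / 2 : ℝ) ^ ℓ * ((w + 1) * (n * (1 : ℕ)) * T)) * G := by ring
      _ ≤ ε / 4 * G := mul_le_mul_of_nonneg_right hℓε hG0.le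
  have h5 : (((sysZ ι e H).filter (fun f => LocT m N c d ζ δ (f 0) ∧
        ¬ SolT m N c d ζ δ (f 0))).card : ℝ) ≤ ε * G := by nlinarith
  rw [hG]
  exact (card_filter_le' _ _ _ (fun _ _ h => h)).trans h5

end Pool.Agent.Run7.h443.CD
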