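import Pool.Agent.Y716.Q.WA
import Pool.Agent.Run7.h443.CD.T3

/-!
# Weak approximation for cyclic covers: from families of local points to targets
-/

set_option autoImplicit false

namespace Pool.Agent.Run7.h443.CD

open Pool.Agent.Y716.Q Pool.Agent.Y716.C Pool.Agent.Y363.C7 Pool.Agent.Y813.C5

variable {ι : Type*} [Fintype ι]

/-- normalised `p`-adic points of the cover -/
theorem padic_normC {m k : ℕ} (hm : 1 ≤ m) {F : MvPolynomial ι ℤ} (hF : F.IsHomogeneous (m * k))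
    {p : ℕ} [Fact p.Prime] {x : ι → ℚ_[p]} {y₀ : ℚ_[p]} (hx0 : x ≠ 0)
    (hx : y₀ ^ m = MvPolynomial.aeval x F) :
    ∃ (r : ι) (Y : ι → ℤ_[p]) (V : ℤ_[p]), x r ≠ 0 ∧ ‖x r‖ ≤ ‖x‖ ∧ (∀ i, x i = x r * Y i) ∧
      y₀ = x r ^ k * V ∧ Y r = 1 ∧ MvPolynomial.aeval Y F = V ^ m := by
  classical
  obtain ⟨r, y, hr0, hrn, hy, hyr, -⟩ := padic_norm_data (d := 0) (0 : MvPolynomial ι ℤ)
    (MvPolynomial.isHomogeneous_zero _ _ _) x hx0 (map_zero _)
  have hy' : ∀ i, (y i : ℚ_[p]) = (x r)⁻¹ * x i := by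
    intro i
    rw [hy i, inv_mul_cancel_left₀ hr0]
  have hval : (algebraMap ℤ_[p] ℚ_[p]) (MvPolynomial.aeval y F) = ((x r)⁻¹ ^ k * y₀) ^ m := by
    have h2 : (algebraMap ℤ_[p] ℚ_[p]) (MvPolynomial.aeval y F)
        = MvPolynomial.aeval (fun i => (x r)⁻¹ * x i) F := by
      have h3 : (fun i => (x r)⁻¹ * x i) = fun i => (algebraMap ℤ_[p] ℚ_[p]) (y i) := by
        funext i
        rw [← hy' i]
        rfl
      rw [h3, MvPolynomial.aeval_def, MvPolynomial.aeval_def, MvPolynomial.hom_eval₂]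
      congr 1
    rw [h2, aeval_smul' hF, ← hx, mul_pow, ← pow_mul, mul_comm k m]
  obtain ⟨v, hv⟩ : ∃ v : ℤ_[p], (v : ℚ_[p]) = (x r)⁻¹ ^ k * y₀ := by
    refine ⟨⟨(x r)⁻¹ ^ k * y₀, ?_⟩, rfl⟩
    have h3 : ‖((x r)⁻¹ ^ k * y₀) ^ m‖ ≤ 1 := by
      rw [← hval]
      exact PadicInt.norm_le_one _
    rw [norm_pow] at h3
    by_contra hcon
    push Not at hcon
    have := one_lt_pow₀ hcon (by omega : m ≠ 0)
    linarith
  have hvF : MvPolynomial.aeval y F = v ^ m := by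
    have hinj : Function.Injective (algebraMap ℤ_[p] ℚ_[p]) := FaithfulSMul.algebraMap_injective _ _
    apply hinj
    rw [hval, map_pow, ← hv]
    rfl
  refine ⟨r, y, v, hr0, hrn, hy, ?_, hyr, hvF⟩
  rw [hv, inv_pow, mul_inv_cancel_left₀ (pow_ne_zero k hr0)]

omit [Fintype ι] in
/-- integral approximations of normalised points -/
theorem approx_intC {m : ℕ} {p : ℕ} [Fact p.Prime] (F : MvPolynomial ι ℤ) (Y : ι → ℤ_[p])
    (V : ℤ_[p]) {r : ι} (hYr : Y r = 1) (h : MvPolynomial.aeval Y F = V ^ m) (E : ℕ) :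
    ∃ (z : ι → ℤ) (v : ℤ), z r = 1 ∧ (p : ℤ) ^ E ∣ MvPolynomial.eval z F - v ^ m ∧
      (∀ i, (p : ℤ_[p]) ^ E ∣ Y i - (z i : ℤ_[p])) ∧ (p : ℤ_[p]) ^ E ∣ V - (v : ℤ_[p]) := by
  classical
  obtain ⟨z, hz⟩ : ∃ z : ι → ℤ, z = fun i => if i = r then 1 else (PadicInt.appr (Y i) E : ℤ) :=
    ⟨_, rfl⟩
  have hker : ∀ i, PadicInt.toZModPow E (Y i) = ((z i : ℤ) : ZMod (p ^ E)) := by
    intro i
    by_cases hi : i = r
    · subst hi
      rw [hYr, hz]; simp
    · have : PadicInt.toZModPow E (Y i) = ((PadicInt.appr (Y i) E : ℕ) : ZMod (p ^ E)) := rfl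
      rw [this, hz]
      simp [hi]
  have hkerV : PadicInt.toZModPow E V = (((PadicInt.appr V E : ℤ) : ℤ) : ZMod (p ^ E)) := by
    have : PadicInt.toZModPow E V = ((PadicInt.appr V E : ℕ) : ZMod (p ^ E)) := rfl
    rw [this]
    simp
  refine ⟨z, (PadicInt.appr V E : ℤ), by simp [hz], ?_, fun i => ?_, ?_⟩
  · have h3 : ((MvPolynomial.eval z F - (PadicInt.appr V E : ℤ) ^ m : ℤ) : ZMod (p ^ E)) = 0 := by
      have h4 : PadicInt.toZModPow E (MvPolynomial.aeval Y F) =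
          ((MvPolynomial.eval z F : ℤ) : ZMod (p ^ E)) := by
        rw [MvPolynomial.aeval_def, MvPolynomial.hom_eval₂]
        have h5 : ((MvPolynomial.eval z F : ℤ) : ZMod (p ^ E))
            = (Int.castRingHom (ZMod (p ^ E))) (MvPolynomial.eval₂ (RingHom.id ℤ) z F) := rfl
        rw [h5, MvPolynomial.hom_eval₂]
        have h6 : ((PadicInt.toZModPow E).comp (algebraMap ℤ ℤ_[p]))
            = (Int.castRingHom (ZMod (p ^ E))).comp (RingHom.id ℤ) := RingHom.ext_int _ _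
        rw [h6]
        congr 1
        funext i
        exact hker i
      rw [Int.cast_sub, ← h4, h, map_pow, hkerV]
      push_cast
      exact sub_self _
    rw [ZMod.intCast_zmod_eq_zero_iff_dvd] at h3
    exact_mod_cast h3
  · have h1 : PadicInt.toZModPow E (Y i - (z i : ℤ_[p])) = 0 := by
      rw [map_sub, hker i, map_intCast, sub_self]
    have h2 : Y i - (z i : ℤ_[p]) ∈ RingHom.ker (PadicInt.toZModPow (p := p) E) :=
      (RingHom.mem_ker).mpr h1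
    rw [PadicInt.ker_toZModPow, Ideal.mem_span_singleton] at h2
    exact h2
  · have h1 : PadicInt.toZModPow E (V - (((PadicInt.appr V E : ℤ) : ℤ) : ℤ_[p])) = 0 := by
      rw [map_sub, hkerV, map_intCast, sub_self]
    have h2 : V - (((PadicInt.appr V E : ℤ) : ℤ) : ℤ_[p]) ∈
      RingHom.ker (PadicInt.toZModPow (p := p) E) := (RingHom.mem_ker).mpr h1
    rw [PadicInt.ker_toZModPow, Ideal.mem_span_singleton] at h2
    exact h2

/-- local data at a prime -/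
theorem local_pC {p : ℕ} [hp : Fact p.Prime] {m k M : ℕ} (hm : 1 ≤ m) (hM : 1 ≤ M)
    (F : MvPolynomial ι ℤ) (hF : F.IsHomogeneous (m * k)) (z : ι → ℚ_[p]) (v : ℚ_[p])
    (hz0 : z ≠ 0) (hzf : v ^ m = MvPolynomial.aeval z F) :
    ∃ (c : ι → ℤ) (d : ℤ), (∀ E : ℕ, ∃ (r : ι) (x : ι → ℤ) (y : ℤ), x r = 1 ∧
      (p : ℤ) ^ E ∣ MvPolynomial.eval x F - y ^ m ∧ (∀ i, (p : ℤ) ^ M ∣ x i - c i) ∧
      (p : ℤ) ^ M ∣ y - d) ∧
      ∀ (x : ι → ℤ) (w : ℤ), (∀ i, (p : ℤ) ^ M ∣ x i - c i) → (p : ℤ) ^ M ∣ w - d →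
      ∃ c' : ℚ_[p], c' ≠ 0 ∧ (∀ i, ‖z i - c' * (x i : ℚ_[p])‖ ≤ ‖z‖ / M) ∧
        ‖v - c' ^ k * (w : ℚ_[p])‖ ≤ ‖z‖ ^ k / M := by
  obtain ⟨r, Y, V, hr0, hrn, hY, hV, hYr, hYf⟩ := padic_normC hm hF hz0 hzf
  obtain ⟨c, d, hc1, hc2, hc3, hc4⟩ := approx_intC F Y V hYr hYf M
  have hsmall : ∀ T : ℤ_[p], (p : ℤ_[p]) ^ M ∣ T → ‖(T : ℚ_[p])‖ ≤ 1 / M := by
    intro T hT
    have h2 : ‖T‖ ≤ (p : ℝ) ^ (-(M : ℤ)) := by
      rw [PadicInt.norm_le_pow_iff_mem_span_pow, Ideal.mem_span_singleton]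
      exact hT
    have h4 : ‖(T : ℚ_[p])‖ = ‖T‖ := rfl
    rw [h4]
    refine h2.trans ?_
    rw [zpow_neg, zpow_natCast, ← one_div]
    apply one_div_le_one_div_of_le (by exact_mod_cast hM)
    have h5 : M < 2 ^ M := Nat.lt_two_pow_self
    have h6 : 2 ^ M ≤ p ^ M := Nat.pow_le_pow_left hp.out.two_le _
    have h7 : M ≤ p ^ M := by omega
    exact_mod_cast h7
  refine ⟨c, d, fun E => ?_, fun x w hx hw => ?_⟩
  · obtain ⟨x, y, hx1, hx2, hx3, hx4⟩ := approx_intC F Y V hYr hYf (max E M)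
    refine ⟨r, x, y, hx1, (pow_dvd_pow _ (le_max_left _ _)).trans hx2, fun i => ?_, ?_⟩
    · rw [← padic_dvd_iff]
      push_cast
      have h1 := (pow_dvd_pow (p : ℤ_[p]) (le_max_right E M)).trans (hx3 i)
      have := dvd_sub (hc3 i) h1
      simpa using this
    · rw [← padic_dvd_iff]
      push_cast
      have h1 := (pow_dvd_pow (p : ℤ_[p]) (le_max_right E M)).trans hx4
      have := dvd_sub hc4 h1
      simpa using this
  · refine ⟨z r, hr0, fun i => ?_, ?_⟩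
    · have h1 : (p : ℤ_[p]) ^ M ∣ Y i - (x i : ℤ_[p]) := by
        have h2 := (padic_dvd_iff (p := p) M (x i - c i)).mpr (hx i)
        push_cast at h2
        have := dvd_sub (hc3 i) h2
        simpa using this
      have h3 : z i - z r * (x i : ℚ_[p]) = z r * ((Y i - (x i : ℤ_[p]) : ℤ_[p]) : ℚ_[p]) := by
        rw [hY i]
        push_cast
        ring
      rw [h3, norm_mul, div_eq_mul_one_div]
      exact mul_le_mul hrn (hsmall _ h1) (norm_nonneg _) (norm_nonneg _)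
    · have h1 : (p : ℤ_[p]) ^ M ∣ V - (w : ℤ_[p]) := by
        have h2 := (padic_dvd_iff (p := p) M (w - d)).mpr hw
        push_cast at h2
        have := dvd_sub hc4 h2
        simpa using this
      have h3 : v - z r ^ k * (w : ℚ_[p]) = z r ^ k * ((V - (w : ℤ_[p]) : ℤ_[p]) : ℚ_[p]) := by
        rw [hV]
        push_cast
        ring
      rw [h3, norm_mul, div_eq_mul_one_div, norm_pow]
      exact mul_le_mul (pow_le_pow_left₀ (norm_nonneg _) hrn _) (hsmall _ h1) (norm_nonneg _)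
        (by positivity)

end Pool.Agent.Run7.h443.CD
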