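import Pool.Agent.Run7.h443.CD.T4

/-!
# Weak approximation for cyclic covers: targets
-/

set_option autoImplicit false

namespace Pool.Agent.Run7.h443.CD

open Pool.Agent.Y716.Q Pool.Agent.Y716.C Pool.Agent.Y363.C7 Pool.Agent.Y813.C5

variable {ι : Type*} [Fintype ι]

theorem pow_add_pow_le_add_pow {a b : ℝ} (ha : 0 ≤ a) (hb : 0 ≤ b) {m : ℕ} (hm : 1 ≤ m) :
    a ^ m + b ^ m ≤ (a + b) ^ m := by
  induction m, hm using Nat.le_induction with
  | base => simp
  | succ m hm ih =>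
    have h1 : (a ^ m + b ^ m) * (a + b) ≤ (a + b) ^ m * (a + b) :=
      mul_le_mul_of_nonneg_right ih (by linarith)
    have h2 : 0 ≤ a ^ m * b + b ^ m * a := by positivity
    calc a ^ (m + 1) + b ^ (m + 1) ≤ (a ^ m + b ^ m) * (a + b) := by ring_nf; nlinarith
      _ ≤ (a + b) ^ m * (a + b) := h1
      _ = _ := by ring

theorem abs_sub_pow_le {a b : ℝ} (ha : 0 ≤ a) (hb : 0 ≤ b) {m : ℕ} (hm : 1 ≤ m) :
    |a - b| ^ m ≤ |a ^ m - b ^ m| := by
  rcases le_total b a with h | h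
  · rw [abs_of_nonneg (by linarith), abs_of_nonneg (by
      have := pow_le_pow_left₀ hb h m
      linarith)]
    have := pow_add_pow_le_add_pow (by linarith : 0 ≤ a - b) hb hm
    rw [sub_add_cancel] at this
    linarith
  · rw [abs_sub_comm a b, abs_sub_comm (a ^ m), abs_of_nonneg (by linarith), abs_of_nonneg (by
      have := pow_le_pow_left₀ ha h m
      linarith)]
    have := pow_add_pow_le_add_pow (by linarith : 0 ≤ b - a) ha hm
    rw [sub_add_cancel] at this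
    linarith

/-- closeness at the real place -/
theorem real_close {m k : ℕ} (hm : 1 ≤ m) {F : MvPolynomial ι ℤ} (hF : F.IsHomogeneous (m * k))
    {C H : ℝ} (hH : 0 ≤ H)
    (hlip : ∀ (x y : ι → ℝ) (δ : ℝ), 0 ≤ δ → (∀ i, |x i| ≤ 2) → (∀ i, |y i| ≤ 2) →
      (∀ i, |x i - y i| ≤ δ) → |MvPolynomial.aeval x F - MvPolynomial.aeval y F| ≤ C * H * δ)
    {N M : ℕ} (hM1 : 1 ≤ M) (hM : C * (N : ℝ) ^ m ≤ M) {ξ : ι → ℝ} (hξ : ∀ i, |ξ i| ≤ 1)
    {u : ℝ} (hu0 : 0 ≤ u) (hu : u ^ m = MvPolynomial.aeval ξ F) {x : ι → ℤ} {w : ℤ} (hw : 0 < w)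
    (hwF : w ^ m = MvPolynomial.eval x F) {P : ℝ} (hP : 0 < P)
    (hx : ∀ i, |(x i : ℝ) / P - ξ i| ≤ 1 / M) :
    (|u - (w : ℝ) / P ^ k| * N) ^ m ≤ H := by
  have hMr : (1:ℝ) ≤ M := by exact_mod_cast hM1
  have h1 : ((w : ℝ) / P ^ k) ^ m = MvPolynomial.aeval (fun i => (x i : ℝ) / P) F := by
    have e1 : (fun i => (x i : ℝ) / P) = fun i => P⁻¹ * (x i : ℝ) := by
      funext i; rw [div_eq_inv_mul]
    rw [e1, aeval_smul' hF, aeval_cast, ← hwF, div_pow, ← pow_mul, mul_comm k m, div_eq_inv_mul,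
      inv_pow]
    push_cast
    ring
  have h2 : |MvPolynomial.aeval ξ F - MvPolynomial.aeval (fun i => (x i : ℝ) / P) F| ≤
      C * H * (1 / M) := by
    refine hlip _ _ _ (by positivity) (fun i => (hξ i).trans (by norm_num)) (fun i => ?_)
      (fun i => by rw [abs_sub_comm]; exact hx i)
    have h3 := hx i
    have h4 : (1:ℝ) / M ≤ 1 := by rw [div_le_one (by linarith)]; exact hMr
    have h5 := abs_sub_abs_le_abs_sub ((x i : ℝ) / P) (ξ i)
    have h6 := hξ i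
    linarith
  have hw0 : (0 : ℝ) ≤ (w : ℝ) / P ^ k := by
    have : (0:ℝ) < w := by exact_mod_cast hw
    positivity
  have h3 := abs_sub_pow_le hu0 hw0 hm
  rw [hu, h1] at h3
  rw [mul_pow]
  calc |u - (w : ℝ) / P ^ k| ^ m * (N : ℝ) ^ m ≤ (C * H * (1 / M)) * (N : ℝ) ^ m :=
        mul_le_mul_of_nonneg_right (h3.trans h2) (by positivity)
    _ = H * ((C * (N : ℝ) ^ m) / M) := by ring
    _ ≤ H * 1 := by
        apply mul_le_mul_of_nonneg_left _ hH
        rw [div_le_one (by linarith)]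
        exact hM
    _ = H := mul_one H

/-- Weak approximation with precision `1 / N` at the real place and at the primes up to `N`. -/
def WAC (m k N : ℕ) (H : ℝ) (F : MvPolynomial ι ℤ) : Prop :=
  ∀ (z : ∀ (p : ℕ) [Fact p.Prime], ι → ℚ_[p]) (v : ∀ (p : ℕ) [Fact p.Prime], ℚ_[p])
    (y : ι → ℝ) (u : ℝ),
    (∀ (p : ℕ) [Fact p.Prime], z p ≠ 0 ∧ v p ^ m = MvPolynomial.aeval (z p) F) → y ≠ 0 →
    u ^ m = MvPolynomial.aeval y F →
    ∃ (x : ι → ℚ) (w : ℚ), x ≠ 0 ∧ w ^ m = MvPolynomial.aeval x F ∧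
      (∀ (p : ℕ) [Fact p.Prime], p ≤ N → ∃ c : ℚ_[p], c ≠ 0 ∧
        (∀ i, ‖z p i - c * (x i : ℚ_[p])‖ ≤ ‖z p‖ / N) ∧
        ‖v p - c ^ k * (w : ℚ_[p])‖ ≤ ‖z p‖ ^ k / N) ∧
      ∃ c : ℝ, c ≠ 0 ∧ (∀ i, |y i - c * (x i : ℝ)| ≤ ‖y‖ / N) ∧
        (|u - c ^ k * (w : ℝ)| * N) ^ m ≤ H * ‖y‖ ^ (m * k)

/-- the finite set of targets -/
noncomputable def targetsC (ι : Type*) [Fintype ι] (M : ℕ) : Finset ((ι → ℤ) × ℤ × (ι → ℤ)) := by
  classical exact (Fintype.piFinset (fun _ : ι => Finset.Ico (0 : ℤ) (modN M))) ×ˢ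
    ((Finset.Ico (0 : ℤ) (modN M)) ×ˢ
    (Fintype.piFinset (fun _ : ι => Finset.Icc (-(3 * M : ℤ)) (3 * M))))

/-- the twist of a form by `(-1) ^ m` -/
noncomputable def tw (m : ℕ) (F : MvPolynomial ι ℤ) : MvPolynomial ι ℤ := (-1) ^ m * F

omit [Fintype ι] in
theorem tw_tw (m : ℕ) (F : MvPolynomial ι ℤ) : tw m (tw m F) = F := by
  unfold tw
  rw [← mul_assoc, ← mul_pow, neg_one_mul, neg_neg, one_pow, one_mul]

omit [Fintype ι] in
theorem tw_hom {m d : ℕ} {F : MvPolynomial ι ℤ} (h : F.IsHomogeneous d) :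
    (tw m F).IsHomogeneous d := by
  unfold tw
  rcases Nat.even_or_odd m with h1 | h1
  · rw [h1.neg_one_pow, one_mul]; exact h
  · rw [h1.neg_one_pow, neg_one_mul]; exact h.neg

omit [Fintype ι] in
theorem tw_isF {m d : ℕ} {H : ℝ} {F : MvPolynomial ι ℤ} (h : IsF d H F) : IsF d H (tw m F) := by
  unfold tw
  rcases Nat.even_or_odd m with h1 | h1
  · rw [h1.neg_one_pow, one_mul]; exact h
  · rw [h1.neg_one_pow, neg_one_mul]; exact isF_neg h

omit [Fintype ι] in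
theorem eval_tw (m : ℕ) (F : MvPolynomial ι ℤ) (x : ι → ℤ) :
    MvPolynomial.eval x (tw m F) = (-1) ^ m * MvPolynomial.eval x F := by
  unfold tw
  rw [map_mul, map_pow, map_neg, map_one]

omit [Fintype ι] in
theorem aeval_tw {K : Type*} [Field K] (m : ℕ) (F : MvPolynomial ι ℤ) (x : ι → K) :
    MvPolynomial.aeval x (tw m F) = (-1) ^ m * MvPolynomial.aeval x F := by
  unfold tw
  rw [map_mul, map_pow, map_neg, map_one]

theorem wa_of_targetsC {m k N M : ℕ} (hm : 1 ≤ m) (hN : 1 ≤ N) (hNM : N ≤ M)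
    {F : MvPolynomial ι ℤ} (hF : F.IsHomogeneous (m * k)) {C H : ℝ} (hH : 0 ≤ H)
    (hlip : ∀ (G : MvPolynomial ι ℤ), (G = F ∨ G = tw m F) → ∀ (x y : ι → ℝ) (δ : ℝ), 0 ≤ δ →
      (∀ i, |x i| ≤ 2) → (∀ i, |y i| ≤ 2) →
      (∀ i, |x i - y i| ≤ δ) → |MvPolynomial.aeval x G - MvPolynomial.aeval y G| ≤ C * H * δ)
    (hM : C * (N : ℝ) ^ m ≤ M)
    (h : ∀ t ∈ targetsC ι M, ∀ G : MvPolynomial ι ℤ, (G = F ∨ G = tw m F) →
      LocT m (modN M) t.1 t.2.1 (fun i => (t.2.2 i : ℝ) / (3 * M)) (1 / (3 * M)) G →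
      SolT m (modN M) t.1 t.2.1 (fun i => (t.2.2 i : ℝ) / (3 * M)) (1 / (3 * M)) G) :
    WAC m k N H F := by
  classical
  intro z v y u hz hy0 hyf
  have hM1 : 1 ≤ M := hN.trans hNM
  have hmr : (1:ℝ) ≤ M := by exact_mod_cast hM1
  have hNr : (1:ℝ) ≤ N := by exact_mod_cast hN
  have hNMr : (N:ℝ) ≤ M := by exact_mod_cast hNM
  -- data at the primes
  have hloc : ∀ p : ℕ, p.Prime → ∃ (c : ι → ℤ) (d : ℤ), (∀ E : ℕ, ∃ (r : ι) (x : ι → ℤ) (y : ℤ),
      x r = 1 ∧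
      (p : ℤ) ^ E ∣ MvPolynomial.eval x F - y ^ m ∧ (∀ i, (p : ℤ) ^ M ∣ x i - c i) ∧
      (p : ℤ) ^ M ∣ y - d) ∧
      ∀ (x : ι → ℤ) (w : ℤ), (∀ i, (p : ℤ) ^ M ∣ x i - c i) → (p : ℤ) ^ M ∣ w - d →
      ∀ [Fact p.Prime], ∃ c' : ℚ_[p], c' ≠ 0 ∧
        (∀ i, ‖z p i - c' * (x i : ℚ_[p])‖ ≤ ‖z p‖ / M) ∧
        ‖v p - c' ^ k * (w : ℚ_[p])‖ ≤ ‖z p‖ ^ k / M := by
    intro p hp
    have : Fact p.Prime := ⟨hp⟩
    obtain ⟨c, d, h1, h2⟩ := local_pC hm hM1 F hF (z p) (v p) (hz p).1 (hz p).2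
    exact ⟨c, d, h1, fun x w hx hw _ => h2 x w hx hw⟩
  choose! cP dP hcP1 hcP2 using hloc
  -- Chinese remainder theorem
  have hcrt : ∀ T : ℕ → ℤ, ∃ c : ℤ, c ∈ Finset.Ico (0 : ℤ) (modN M) ∧
      ∀ p ∈ primesUpTo M, (p : ℤ) ^ M ∣ c - T p := by
    intro T
    have := Ideal.exists_forall_sub_mem_ideal (R := ℤ)
      (I := fun p : primesUpTo M => Ideal.span {((p : ℕ) : ℤ) ^ M}) (by
        intro p q hpq
        simp only [Function.onFun]
        rw [Ideal.isCoprime_span_singleton_iff]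
        exact (Nat.isCoprime_iff_coprime.mpr
          (primes_coprime p.2 q.2 (fun h => hpq (Subtype.ext h)))).pow) (fun p => T p)
    obtain ⟨c, hc⟩ := this
    have hN0 : (0 : ℤ) < modN M := by exact_mod_cast modN_pos M
    refine ⟨c % (modN M : ℤ), ?_, fun p hp => ?_⟩
    · rw [Finset.mem_Ico]
      exact ⟨Int.emod_nonneg _ hN0.ne', Int.emod_lt_of_pos _ hN0⟩
    · have h1 : (p : ℤ) ^ M ∣ c - T p := Ideal.mem_span_singleton.mp (hc ⟨p, hp⟩)
      have h2 : (p : ℤ) ^ M ∣ (modN M : ℤ) := by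
        exact_mod_cast dvd_modN (mem_primesUpTo.mp hp).2 (mem_primesUpTo.mp hp).1
      have h3 : (modN M : ℤ) ∣ c % (modN M : ℤ) - c := by
        have := Int.emod_add_mul_ediv c (modN M : ℤ)
        exact ⟨-(c / (modN M : ℤ)), by linarith⟩
      have := dvd_add (h2.trans h3) h1
      simpa using this
  choose c hc1 hc2 using fun i => hcrt (fun p => cP p i)
  -- real data
  obtain ⟨r, hr0, hrn, hr1⟩ := real_norm_data y hy0
  obtain ⟨ξ, hξ⟩ : ∃ ξ : ι → ℝ, ξ = fun i => (y r)⁻¹ * y i := ⟨_, rfl⟩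
  have hξ1 : ∀ i, |ξ i| ≤ 1 := by rw [hξ]; exact hr1
  have hξr : ξ r = 1 := by rw [hξ]; exact inv_mul_cancel₀ hr0
  have hyξ : ∀ i, y i = y r * ξ i := by
    intro i; rw [hξ]; field_simp
  obtain ⟨u', hu'⟩ : ∃ u' : ℝ, u' = (y r)⁻¹ ^ k * u := ⟨_, rfl⟩
  have huu' : u = y r ^ k * u' := by
    rw [hu', inv_pow, mul_inv_cancel_left₀ (pow_ne_zero k hr0)]
  have hu'F : u' ^ m = MvPolynomial.aeval ξ F := by
    rw [hu', hξ, aeval_smul' hF, ← hyf, mul_pow, ← pow_mul, mul_comm k m]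
  have hgrid : ∀ i, ∃ t ∈ Finset.Icc (-(3 * M : ℤ)) (3 * M),
      |ξ i - (t : ℝ) / (3 * M)| ≤ 1 / (3 * M) := by
    intro i
    have h1 := abs_le.mp (hξ1 i)
    have h3 : (0:ℝ) < 3 * M := by linarith
    refine ⟨⌊ξ i * (3 * M)⌋, ?_, ?_⟩
    · rw [Finset.mem_Icc]
      constructor
      · rw [Int.le_floor]
        push_cast
        have := mul_le_mul_of_nonneg_right h1.1 h3.le
        linarith
      · have h4 : (⌊ξ i * (3 * M)⌋ : ℝ) ≤ 3 * M := by
          refine (Int.floor_le _).trans ?_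
          have := mul_le_mul_of_nonneg_right h1.2 h3.le
          linarith
        exact_mod_cast h4
    · have h4 := Int.floor_le (ξ i * (3 * M))
      have h5 := Int.lt_floor_add_one (ξ i * (3 * M))
      have h6 : ξ i - (⌊ξ i * (3 * M)⌋ : ℝ) / (3 * M) =
          (ξ i * (3 * M) - ⌊ξ i * (3 * M)⌋) / (3 * M) := by
        field_simp
      rw [h6, abs_div, abs_of_pos h3]
      apply div_le_div_of_nonneg_right _ h3.le
      rw [abs_le]
      constructor <;> linarith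
  choose t ht1 ht2 using hgrid
  -- the sign of `u'`
  obtain ⟨sg, hsg, G, hG, hGs, hGr, hGu⟩ : ∃ sg : ℤ, sg * sg = 1 ∧ ∃ G : MvPolynomial ι ℤ,
      (G = F ∨ G = tw m F) ∧
      (∀ x : ι → ℤ, MvPolynomial.eval x G = sg ^ m * MvPolynomial.eval x F) ∧
      (∀ x : ι → ℝ, MvPolynomial.aeval x G = (sg : ℝ) ^ m * MvPolynomial.aeval x F) ∧
      0 ≤ (sg : ℝ) * u' := by
    rcases le_or_gt 0 u' with hpos | hneg
    · refine ⟨1, by norm_num, F, Or.inl rfl, fun x => by rw [one_pow, one_mul],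
        fun x => by rw [Int.cast_one, one_pow, one_mul], ?_⟩
      simpa using hpos
    · refine ⟨-1, by norm_num, tw m F, Or.inr rfl, fun x => eval_tw m F x, fun x => ?_, ?_⟩
      · rw [aeval_tw]
        push_cast
        rfl
      · push_cast
        linarith
  have hsgr : (sg : ℝ) * sg = 1 := by exact_mod_cast hsg
  have hsgm : sg ^ m * sg ^ m = 1 := by rw [← mul_pow, hsg, one_pow]
  obtain ⟨d, hd1, hd2⟩ := hcrt (fun p => sg * dP p)
  have hmem : (c, d, t) ∈ targetsC ι M := by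
    unfold targetsC
    rw [Finset.mem_product, Finset.mem_product, Fintype.mem_piFinset, Fintype.mem_piFinset]
    exact ⟨hc1, hd1, ht1⟩
  have hGh : G.IsHomogeneous (m * k) := by
    rcases hG with h | h
    · rw [h]; exact hF
    · rw [h]; exact tw_hom hF
  have hL : LocT m (modN M) c d (fun i => (t i : ℝ) / (3 * M)) (1 / (3 * M)) G := by
    constructor
    · intro p hp E
      obtain ⟨r', x, y', hx1, hx2, hx3, hx4⟩ := hcP1 p hp E
      refine ⟨r', x, sg * y', hx1, ?_, fun a ha => ?_⟩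
      · rw [hGs, mul_pow, ← mul_sub]
        exact hx2.mul_left _
      · rcases pow_dvd_modN hp ha with ⟨h1, h2⟩ | h1
        · have h3 : (p : ℤ) ^ a ∣ (p : ℤ) ^ M := by exact_mod_cast h2
          refine ⟨fun i => h3.trans ?_, h3.trans ?_⟩
          · have := dvd_sub (hx3 i) (hc2 i p (mem_primesUpTo.mpr ⟨h1, hp⟩))
            simpa using this
          · have := dvd_sub (hx4.mul_left sg) (hd2 p (mem_primesUpTo.mpr ⟨h1, hp⟩))
            have e1 : sg * (y' - dP p) - (d - sg * dP p) = sg * y' - d := by ring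
            rwa [e1] at this
        · have h3 : (p : ℤ) ^ a = 1 := by exact_mod_cast h1
          rw [h3]; exact ⟨fun i => one_dvd _, one_dvd _⟩
    · refine ⟨r, ξ, hξr, hξ1, ht2, ?_⟩
      rw [hGr, ← hu'F, ← mul_pow]
      exact pow_nonneg hGu m
  obtain ⟨x, w, hx1, hw0, hwG, hx3, hw3, P, hP, hx4⟩ := h (c, d, t) hmem G hG hL
  simp only at hx3 hw3 hx4
  refine ⟨fun i => (x i : ℚ), ((sg * w : ℤ) : ℚ), ?_, ?_, ?_, ?_⟩
  · intro h0
    apply hx1.ne_zero'
    funext i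
    have := congrFun h0 i
    simp only [Pi.zero_apply] at this
    exact_mod_cast this
  · rw [aeval_cast, ← Int.cast_pow, Int.cast_inj, mul_pow, hwG, hGs, ← mul_assoc, hsgm, one_mul]
  · intro p hp hpm
    have hpM : p ∈ primesUpTo M := mem_primesUpTo.mpr ⟨hpm.trans hNM, hp.out⟩
    have h1 : (p : ℤ) ^ M ∣ (modN M : ℤ) := by exact_mod_cast dvd_modN hp.out (hpm.trans hNM)
    have := hcP2 p hp.out x (sg * w) (fun i => by
      have := dvd_add (h1.trans (hx3 i)) (hc2 i p hpM)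
      simpa using this) (by
      have := (dvd_add (h1.trans hw3) (hd2 p hpM)).mul_left sg
      have e1 : sg * (w - d + (d - sg * dP p)) = sg * w - dP p := by
        linear_combination (-dP p) * hsg
      rwa [e1] at this)
    obtain ⟨c', h2, h3, h4⟩ := this
    refine ⟨c', h2, fun i => ?_, ?_⟩
    · have := (h3 i).trans (div_le_div_of_nonneg_left (norm_nonneg _) (by linarith) hNMr)
      simpa using this
    · have := h4.trans (div_le_div_of_nonneg_left (pow_nonneg (norm_nonneg _) k) (by linarith) hNMr)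
      simpa using this
  · have hxP : ∀ i, |(x i : ℝ) / P - ξ i| ≤ 1 / M := by
      intro i
      have h1 := ht2 i
      have h2 := hx4 i
      have h3 : (x i : ℝ) / P - ξ i =
          ((x i : ℝ) - P * ((t i : ℝ) / (3 * M))) / P - (ξ i - (t i : ℝ) / (3 * M)) := by
        field_simp
        ring
      rw [h3]
      refine (abs_sub _ _).trans ?_
      have h4 : |((x i : ℝ) - P * ((t i : ℝ) / (3 * M))) / P| ≤ 2 * (1 / (3 * M)) := by
        rw [abs_div, abs_of_pos hP, div_le_iff₀ hP]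
        exact h2
      have h5 : (1 : ℝ) / M = 3 * (1 / (3 * M)) := by field_simp
      rw [h5]
      linarith
    have hreal := real_close (ξ := ξ) (u := (sg : ℝ) * u') hm hGh hH (hlip G hG) hM1 hM hξ1 hGu
      (by rw [hGr, mul_pow, hu'F]) hw0 hwG hP hxP
    refine ⟨y r / P, div_ne_zero hr0 hP.ne', fun i => ?_, ?_⟩
    · have h3 : y i - y r / P * ((x i : ℚ) : ℝ) = y r * (-((x i : ℝ) / P - ξ i)) := by
        rw [hyξ i]
        push_cast
        field_simp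
        ring
      have h6 : ‖y‖ / N = ‖y‖ * (1 / N) := div_eq_mul_one_div _ _
      rw [h3, abs_mul, abs_neg, h6]
      apply mul_le_mul hrn ((hxP i).trans _) (abs_nonneg _) (norm_nonneg _)
      exact one_div_le_one_div_of_le (by linarith) hNMr
    · have h3 : u - (y r / P) ^ k * (((sg * w : ℤ) : ℚ) : ℝ) =
          y r ^ k * (sg * (sg * u' - (w : ℝ) / P ^ k)) := by
        rw [huu', div_pow]
        push_cast
        linear_combination (-(y r ^ k * u')) * hsgr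
      have h4 : |(sg : ℝ)| = 1 := by
        have h5 : |(sg : ℝ)| * |(sg : ℝ)| = 1 := by rw [← abs_mul, hsgr, abs_one]
        nlinarith [abs_nonneg (sg : ℝ)]
      rw [h3, abs_mul, abs_mul, h4, one_mul, abs_pow, mul_assoc, mul_pow, ← pow_mul, mul_comm k m,
        mul_comm H]
      apply mul_le_mul (pow_le_pow_left₀ (abs_nonneg _) hrn _) hreal (by positivity)
        (by positivity)

end Pool.Agent.Run7.h443.CD
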